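import Mathlib

/-!
# The chain of the cube: combinatorial definitions

`N = number of columns`; a simplex of the cube `[0,1]^N` with `m` vertices is given by
`y : Fin m → Fin N → Bool`.
-/

set_option autoImplicit false

open scoped BigOperators Nat

namespace SimplVol

/-- `wt η i = ± (number of other true entries)! * (number of other false entries)! / m!`, with sign
`+` if `η i` is true. It is the integral over `t ∈ [0,1]` of `f_{η i}' * ∏_{k ≠ i} f_{η k}` with
`f_true = t`, `f_false = 1 - t`. -/
noncomputable def wt {m : ℕ} (η : Fin m → Bool) (i : Fin m) : ℝ :=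
  (if η i = true then 1 else -1) *
    (((Finset.univ.filter fun k => k ≠ i ∧ η k = true).card ! : ℕ) : ℝ) *
    (((Finset.univ.filter fun k => k ≠ i ∧ η k = false).card ! : ℕ) : ℝ) / ((m ! : ℕ) : ℝ)

/-- The matrix `[1 | wt (column 1) | … | wt (column N)]`. -/
noncomputable def cmat (N : ℕ) (y : Fin (N + 1) → Fin N → Bool) :
    Matrix (Fin (N + 1)) (Fin (N + 1)) ℝ :=
  Matrix.of fun i c => Fin.cases (motive := fun _ => ℝ) 1 (fun c' => wt (fun k => y k c') i) c

/-- The coefficient of the simplex `y` in the chain of the cube. -/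
noncomputable def cub (N : ℕ) (y : Fin (N + 1) → Fin N → Bool) : ℝ :=
  (1 / ((N : ℝ) + 1)) * (cmat N y).det

/-- The coefficient of the simplex `y` in the chain of the facets orthogonal to direction `a`. -/
noncomputable def fc (N : ℕ) (a : Fin N) (y : Fin N → Fin N → Bool) : ℝ :=
  (1 / (N : ℝ)) * (Matrix.of fun i c : Fin N => if c = a then (1 : ℝ) else
    wt (fun k => y k c) i).det

/-- `1` if all entries are true, minus `1` if all entries are false. -/
noncomputable def ends {m : ℕ} (η : Fin m → Bool) : ℝ :=
  (if ∀ k, η k = true then 1 else 0) - (if ∀ k, η k = false then 1 else 0)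

/-- The vertex of the triangle to which a vertex of the square is mapped. -/
def ty {n : ℕ} (y : Fin (n * 2) → Bool) (j : Fin n) : Fin 3 :=
  if y (finProdFinEquiv (j, 0)) = true then
    (if y (finProdFinEquiv (j, 1)) = true then 2 else 1) else 0

/-- Orientation of a triple of vertices of the triangle. -/
noncomputable def or3 (a b c : Fin 3) : ℝ :=
  ((if b = 1 then 1 else 0) - (if a = 1 then 1 else 0)) *
      ((if c = 2 then 1 else 0) - (if a = 2 then 1 else 0)) -
    ((if b = 2 then 1 else 0) - (if a = 2 then 1 else 0)) *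
      ((if c = 1 then 1 else 0) - (if a = 1 then 1 else 0))

/-- The volume (relative to that of the product of triangles) of the simplex `y`. -/
noncomputable def wvol (n : ℕ) (y : Fin (n * 2 + 1) → Fin (n * 2) → Bool) : ℝ :=
  (1 / ((n * 2)! : ℝ)) * ∑ σ : Equiv.Perm (Fin (n * 2)), ((Equiv.Perm.sign σ : ℤ) : ℝ) *
    ∏ j : Fin n, or3 (ty (y 0) j) (ty (y (σ (finProdFinEquiv (j, 0))).succ) j)
      (ty (y (σ (finProdFinEquiv (j, 1))).succ) j)

end SimplVol
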