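import Pool.Agent.H74.SV.Defs
import Pool.Agent.H74.SV.Comb

/-!
# Module PL: the plane, lines as boundary points, ellipses

`SL(2, ℝ)` acts linearly on the plane `ℝ²`; a line (through `0`) is a boundary point of `ℍ`.
* `act_preserving`: a linear map of determinant `1` preserves the Lebesgue measure
  (`MeasureTheory.Measure.addHaar_preimage_linearMap`, `Real.map_linearMap_volume_pi_eq_smul_volume_pi`
  or `MeasureTheory.Measure.map_linearMap_addHaar_eq_smul_addHaar`; `LinearMap.det` in the basis of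
  `ℝ × ℝ`).
* `dt_act`: `det(g u, g v) = det u v`. `typ_act`: follows.
* `ell_act`: with `z = x + i h`, `(u₁ - x u₂)² + (h u₂)² = |u₁ - z u₂|²`; for `g = (a b; c d)`,
  `u' = g u`, `z' = g z`: `u'₁ - z' u'₂ = (u₁ - z u₂)/(c z + d)`, `Im z' = Im z/|c z + d|²`
  (`UpperHalfPlane.im_smul_eq_div_normSq`, `UpperHalfPlane.specialLinearGroup_apply`).
* `volume_ell`: `ell z` is the image (preimage) of the unit disc under the linear map
  `u ↦ ((u₁ - x u₂)/√h, √h u₂)` of determinant `1`; the unit disc has area `π` (`Complex.volume_ball`,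
  `Complex.volume_closedBall` with `Complex.volume_preserving_equiv_real_prod`).
* `typ_measurable`, `ell_measurable`.
-/

set_option autoImplicit false

open scoped BigOperators UpperHalfPlane MatrixGroups ENNReal
open MeasureTheory

namespace SimplVol

/-- The plane. -/
abbrev Pl : Type := ℝ × ℝ

/-- The determinant of two vectors. -/
def dt (u v : Pl) : ℝ := u.1 * v.2 - u.2 * v.1

/-- The linear action of `SL(2, ℝ)` on the plane. -/
def act (g : SL(2, ℝ)) (u : Pl) : Pl := (g 0 0 * u.1 + g 0 1 * u.2, g 1 0 * u.1 + g 1 1 * u.2)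

/-- The ellipse of a point of the upper half plane. -/
def ell (z : ℍ) : Set Pl := {u | (u.1 - z.re * u.2) ^ 2 + (z.im * u.2) ^ 2 ≤ z.im}

/-- The type of the line spanned by `u`, with respect to the three lines `f`, `e + f`, `e`
(for `dt e f > 0`): write `u = s e + t f`; type `2` if `s t < 0`, type `0` if `|s| < |t|`, else `1`. -/
noncomputable def typ (e f u : Pl) : Fin 3 :=
  if dt u f * dt e u < 0 then 2 else if |dt u f| < |dt e u| then 0 else 1

/-- The orientation of three lines. -/
noncomputable def ori (u v w : Pl) : ℝ :=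
  if 0 < dt u v * dt v w * dt w u then 1 else if dt u v * dt v w * dt w u < 0 then -1 else 0

private theorem PL_det (g : SL(2, ℝ)) : g 0 0 * g 1 1 - g 0 1 * g 1 0 = 1 := by
  have h := g.det_coe
  rwa [Matrix.det_fin_two] at h

theorem act_preserving (g : SL(2, ℝ)) : MeasurePreserving (act g) volume volume := by
  have hd : LinearMap.det (Matrix.toLin (Module.Basis.finTwoProd ℝ) (Module.Basis.finTwoProd ℝ)
      !![g 0 0, g 0 1; g 1 0, g 1 1]) = 1 := by
    rw [LinearMap.det_toLin, Matrix.det_fin_two_of]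
    exact PL_det g
  have he : (act g) = ⇑(Matrix.toLin (Module.Basis.finTwoProd ℝ) (Module.Basis.finTwoProd ℝ)
      !![g 0 0, g 0 1; g 1 0, g 1 1]) := by
    funext u
    rw [Matrix.toLin_finTwoProd]
    rfl
  have hm : Measurable (act g) := by unfold act; fun_prop
  refine ⟨hm, ?_⟩
  rw [he, Measure.map_linearMap_addHaar_eq_smul_addHaar _ (by rw [hd]; exact one_ne_zero), hd]
  simp

theorem dt_act (g : SL(2, ℝ)) (u v : Pl) : dt (act g u) (act g v) = dt u v := by
  have h := PL_det g
  unfold dt act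
  linear_combination (u.1 * v.2 - u.2 * v.1) * h

theorem typ_act (g : SL(2, ℝ)) (e f u : Pl) : typ (act g e) (act g f) (act g u) = typ e f u := by
  unfold typ
  simp only [dt_act]

private theorem PL_ell (z : ℍ) (u : Pl) :
    u ∈ ell z ↔ Complex.normSq ((u.1 : ℂ) - (z : ℂ) * u.2) ≤ z.im := by
  have : Complex.normSq ((u.1 : ℂ) - (z : ℂ) * u.2) = (u.1 - z.re * u.2) ^ 2 + (z.im * u.2) ^ 2 := by
    rw [Complex.normSq_apply]
    simp only [Complex.sub_re, Complex.sub_im, Complex.mul_re, Complex.mul_im, Complex.ofReal_re,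
      Complex.ofReal_im, UpperHalfPlane.coe_re, UpperHalfPlane.coe_im]
    ring
  rw [this]
  rfl

theorem ell_act (g : SL(2, ℝ)) (z : ℍ) (u : Pl) : act g u ∈ ell (g • z) ↔ u ∈ ell z := by
  have h := PL_det g
  have hz := z.im_pos
  set a := g 0 0 with ha
  set b := g 0 1 with hb
  set c := g 1 0 with hc
  set d := g 1 1 with hd
  have hco : ((g • z : ℍ) : ℂ) = ((a : ℂ) * z + b) / ((c : ℂ) * z + d) :=
    UpperHalfPlane.coe_specialLinearGroup_apply g z
  have hD : (c : ℂ) * z + d ≠ 0 := by
    intro h0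
    have him := congrArg Complex.im h0
    have hre := congrArg Complex.re h0
    simp only [Complex.add_im, Complex.mul_im, Complex.ofReal_re, Complex.ofReal_im, zero_mul,
      add_zero, Complex.zero_im, UpperHalfPlane.coe_im, Complex.add_re, Complex.mul_re,
      Complex.zero_re, UpperHalfPlane.coe_re, sub_zero] at him hre
    have hc0 : c = 0 := by
      rcases mul_eq_zero.1 him with h1 | h1
      · exact h1
      · exact absurd h1 hz.ne'
    rw [hc0] at hre h
    simp only [zero_mul, zero_add] at hre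
    rw [hre] at h
    simp at h
  have hN : 0 < Complex.normSq ((c : ℂ) * z + d) := Complex.normSq_pos.2 hD
  have him : (g • z : ℍ).im = z.im / Complex.normSq ((c : ℂ) * z + d) := by
    rw [← UpperHalfPlane.coe_im, hco, Complex.div_im]
    simp only [Complex.add_im, Complex.mul_im, Complex.ofReal_re, Complex.ofReal_im, zero_mul,
      add_zero, UpperHalfPlane.coe_im, Complex.add_re, Complex.mul_re,
      UpperHalfPlane.coe_re, sub_zero]
    rw [← sub_div]
    congr 1
    linear_combination z.im * h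
  have hsq : ((act g u).1 : ℂ) - ((g • z : ℍ) : ℂ) * (act g u).2 =
      ((u.1 : ℂ) - (z : ℂ) * u.2) / ((c : ℂ) * z + d) := by
    rw [hco]
    have h' : (a : ℂ) * d - b * c = 1 := by exact_mod_cast h
    show ((a * u.1 + b * u.2 : ℝ) : ℂ) - ((a : ℂ) * z + b) / ((c : ℂ) * z + d) *
      ((c * u.1 + d * u.2 : ℝ) : ℂ) = _
    push_cast
    have h3 : ((a : ℂ) * z + b) / ((c : ℂ) * z + d) * ((c : ℂ) * z + d) = (a : ℂ) * z + b :=
      div_mul_cancel₀ _ hD
    rw [eq_div_iff hD]
    linear_combination (-((c : ℂ) * u.1 + d * u.2)) * h3 + ((u.1 : ℂ) - (z : ℂ) * u.2) * h'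
  rw [PL_ell, PL_ell, him, hsq, Complex.normSq_div, div_le_div_iff_of_pos_right hN]

theorem ell_measurable (z : ℍ) : MeasurableSet (ell z) := by
  unfold ell
  exact measurableSet_le (by fun_prop) measurable_const

private theorem PL_disc : volume {v : Pl | v.1 ^ 2 + v.2 ^ 2 ≤ 1} = ENNReal.ofReal Real.pi := by
  have hm : MeasurableSet {v : Pl | v.1 ^ 2 + v.2 ^ 2 ≤ 1} :=
    measurableSet_le (by fun_prop) measurable_const
  have h1 := Complex.volume_preserving_equiv_real_prod.measure_preimage hm.nullMeasurableSet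
  rw [← h1]
  have h2 : Complex.measurableEquivRealProd ⁻¹' {v : Pl | v.1 ^ 2 + v.2 ^ 2 ≤ 1} =
      Metric.closedBall (0 : ℂ) 1 := by
    ext w
    simp only [Set.mem_preimage, Set.mem_ofPred_eq, Complex.measurableEquivRealProd_apply,
      mem_closedBall_zero_iff]
    rw [← Complex.sq_norm_sub_sq_re w]
    constructor
    · intro h
      have : ‖w‖ ^ 2 ≤ 1 := by linarith
      exact (sq_le_one_iff₀ (norm_nonneg w)).1 this
    · intro h
      have : ‖w‖ ^ 2 ≤ 1 := (sq_le_one_iff₀ (norm_nonneg w)).2 h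
      linarith
  rw [h2, Complex.volume_closedBall]
  simp only [ENNReal.ofReal_one, one_pow, one_mul]
  exact (ENNReal.ofReal_eq_coe_nnreal Real.pi_pos.le).symm

theorem volume_ell (z : ℍ) : volume (ell z) = ENNReal.ofReal Real.pi := by
  have hz := z.im_pos
  have hs : 0 < Real.sqrt z.im := Real.sqrt_pos.2 hz
  have hss : Real.sqrt z.im ^ 2 = z.im := Real.sq_sqrt hz.le
  set g : SL(2, ℝ) := ⟨!![1 / Real.sqrt z.im, -z.re / Real.sqrt z.im; 0, Real.sqrt z.im], by
    rw [Matrix.det_fin_two_of]
    field_simp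
    ring⟩ with hg
  have h00 : g 0 0 = 1 / Real.sqrt z.im := rfl
  have h01 : g 0 1 = -z.re / Real.sqrt z.im := rfl
  have h10 : g 1 0 = 0 := rfl
  have h11 : g 1 1 = Real.sqrt z.im := rfl
  have hm : MeasurableSet {v : Pl | v.1 ^ 2 + v.2 ^ 2 ≤ 1} :=
    measurableSet_le (by fun_prop) measurable_const
  have h1 := (act_preserving g).measure_preimage hm.nullMeasurableSet
  rw [← PL_disc, ← h1]
  congr 1
  ext u
  show (u.1 - z.re * u.2) ^ 2 + (z.im * u.2) ^ 2 ≤ z.im ↔
    (g 0 0 * u.1 + g 0 1 * u.2) ^ 2 + (g 1 0 * u.1 + g 1 1 * u.2) ^ 2 ≤ 1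
  rw [h00, h01, h10, h11]
  have e : (1 / Real.sqrt z.im * u.1 + -z.re / Real.sqrt z.im * u.2) ^ 2 +
      (0 * u.1 + Real.sqrt z.im * u.2) ^ 2 =
      ((u.1 - z.re * u.2) ^ 2 + (z.im * u.2) ^ 2) / z.im := by
    have e1 : (1 / Real.sqrt z.im * u.1 + -z.re / Real.sqrt z.im * u.2) ^ 2 =
        (u.1 - z.re * u.2) ^ 2 / Real.sqrt z.im ^ 2 := by
      field_simp
      ring
    have e2 : (0 * u.1 + Real.sqrt z.im * u.2) ^ 2 = Real.sqrt z.im ^ 2 * u.2 ^ 2 := by ring
    rw [e1, e2, hss]
    field_simp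
  rw [e, div_le_one hz]

theorem typ_measurable : Measurable fun p : (Pl × Pl) × Pl => typ p.1.1 p.1.2 p.2 := by
  unfold typ
  refine Measurable.ite ?_ measurable_const (Measurable.ite ?_ measurable_const measurable_const)
  · unfold dt
    exact measurableSet_lt (by fun_prop) measurable_const
  · unfold dt
    exact measurableSet_lt (by fun_prop) (by fun_prop)

end SimplVol
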