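import Pool.Agent.H74.SV.Defs
import Pool.Agent.H74.SV.Comb

/-!
# Module AR: the area of a hyperbolic triangle

`sarg z w = arg ((z - w̄)/i)`; `(z - w̄)/i = (h_z + h_w) - i (x_z - x_w)` has positive real part.
* `sarg_swap`: `(w - z̄)/i` is the conjugate of `(z - w̄)/i` (`Complex.arg_conj`, argument `≠ π`).
* `abs_area_lt`: let `s = sarg x y + sarg y z + sarg z x ∈ (-3π/2, 3π/2)` (`Complex.abs_arg_lt_pi_div_two_iff`).
  `exp (i s)` has the direction of `P = (x - ȳ)(y - z̄)(z - x̄)/i³`, and with `x - ȳ = A + i s₃`,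
  `y - z̄ = B + i s₁`, `z - x̄ = C + i s₂`, `A + B + C = 0`, `s₃ = h₁ + h₂`, `s₁ = h₂ + h₃`, `s₂ = h₃ + h₁`,
  `Re P = - Im ((A + i s₃)(B + i s₁)(C + i s₂)) = s₁s₂s₃ + h₂(A+B)² + h₃A² + h₁B² > 0`. So `cos s > 0`
  and `|s| < π/2`.
* `area_smul`: for `g = (a b; c d)`, `g x - conj (g y) = (x - ȳ)/((c x + d)(c ȳ + d))`, so
  `sarg (g x) (g y) ≡ sarg x y - arg (c x + d) + arg (c y + d)` mod `2π`; the cyclic sum of the last
  two terms vanishes, so the two sums `s`, `s'` agree mod `2π` (work with `Real.Angle` or with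
  `exp (i s)`), and both are in `(-π/2, π/2)`, so they are equal.
* `area_or3`: 27 cases, by `sarg_self` (`(z - z̄)/i > 0`) and `sarg_swap`.
-/

set_option autoImplicit false

open scoped BigOperators Nat UpperHalfPlane MatrixGroups

namespace SimplVol

/-- The complex number `(z - w̄) / i`. -/
noncomputable def AR_q (z w : ℍ) : ℂ := ((z : ℂ) - (starRingEnd ℂ) (w : ℂ)) / Complex.I

theorem AR_q_re (z w : ℍ) : (AR_q z w).re = z.im + w.im := by
  unfold AR_q
  rw [Complex.div_I]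
  simp

theorem AR_q_im (z w : ℍ) : (AR_q z w).im = w.re - z.re := by
  unfold AR_q
  rw [Complex.div_I]
  simp

theorem AR_q_re_pos (z w : ℍ) : 0 < (AR_q z w).re := by
  rw [AR_q_re]
  have h1 := z.im_pos
  have h2 := w.im_pos
  linarith

theorem AR_q_ne (z w : ℍ) : AR_q z w ≠ 0 := by
  intro h
  have := AR_q_re_pos z w
  rw [h] at this
  simp at this

theorem AR_sarg (z w : ℍ) : sarg z w = Complex.arg (AR_q z w) := rfl

theorem AR_sarg_bd (z w : ℍ) : |sarg z w| < Real.pi / 2 := by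
  rw [AR_sarg, Complex.abs_arg_lt_pi_div_two_iff]
  exact Or.inl (AR_q_re_pos z w)

theorem sarg_eq_arctan (z w : ℍ) : sarg z w = Real.arctan ((w.re - z.re) / (z.im + w.im)) := by
  have h1 := Complex.tan_arg (AR_q z w)
  rw [AR_q_re, AR_q_im] at h1
  rw [← h1, ← AR_sarg]
  have h2 := AR_sarg_bd z w
  rw [abs_lt] at h2
  rw [Real.arctan_tan h2.1 h2.2]

theorem sarg_self (z : ℍ) : sarg z z = 0 := by
  rw [sarg_eq_arctan]
  simp

theorem sarg_swap (z w : ℍ) : sarg w z = - sarg z w := by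
  rw [sarg_eq_arctan, sarg_eq_arctan, ← Real.arctan_neg]
  congr 1
  rw [← neg_div]
  congr 1 <;> ring

/-- The product of the three numbers. -/
noncomputable def AR_P (x y z : ℍ) : ℂ := AR_q x y * AR_q y z * AR_q z x

theorem AR_P_re (x y z : ℍ) : 0 < (AR_P x y z).re := by
  have hx := x.im_pos
  have hy := y.im_pos
  have hz := z.im_pos
  have key : (AR_P x y z).re = (x.im + y.im) * (y.im + z.im) * (z.im + x.im)
      + y.im * (z.re - x.re) ^ 2 + x.im * (z.re - y.re) ^ 2 + z.im * (y.re - x.re) ^ 2 := by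
    unfold AR_P
    simp only [Complex.mul_re, Complex.mul_im, AR_q_re, AR_q_im]
    ring
  rw [key]
  positivity

theorem AR_P_ne (x y z : ℍ) : AR_P x y z ≠ 0 := by
  unfold AR_P
  exact mul_ne_zero (mul_ne_zero (AR_q_ne _ _) (AR_q_ne _ _)) (AR_q_ne _ _)

theorem AR_P_exp (x y z : ℍ) :
    (‖AR_P x y z‖ : ℂ) * Complex.exp (((sarg x y + sarg y z + sarg z x : ℝ) : ℂ) * Complex.I)
      = AR_P x y z := by
  have h1 := Complex.norm_mul_exp_arg_mul_I (AR_q x y)
  have h2 := Complex.norm_mul_exp_arg_mul_I (AR_q y z)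
  have h3 := Complex.norm_mul_exp_arg_mul_I (AR_q z x)
  have h4 : Complex.exp (((sarg x y + sarg y z + sarg z x : ℝ) : ℂ) * Complex.I)
      = Complex.exp ((Complex.arg (AR_q x y) : ℂ) * Complex.I)
        * Complex.exp ((Complex.arg (AR_q y z) : ℂ) * Complex.I)
        * Complex.exp ((Complex.arg (AR_q z x) : ℂ) * Complex.I) := by
    rw [← Complex.exp_add, ← Complex.exp_add, AR_sarg, AR_sarg, AR_sarg]
    congr 1
    push_cast
    ring
  rw [h4]
  calc (‖AR_P x y z‖ : ℂ) * (Complex.exp ((Complex.arg (AR_q x y) : ℂ) * Complex.I)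
        * Complex.exp ((Complex.arg (AR_q y z) : ℂ) * Complex.I)
        * Complex.exp ((Complex.arg (AR_q z x) : ℂ) * Complex.I))
      = ((‖AR_q x y‖ : ℂ) * Complex.exp ((Complex.arg (AR_q x y) : ℂ) * Complex.I))
        * ((‖AR_q y z‖ : ℂ) * Complex.exp ((Complex.arg (AR_q y z) : ℂ) * Complex.I))
        * ((‖AR_q z x‖ : ℂ) * Complex.exp ((Complex.arg (AR_q z x) : ℂ) * Complex.I)) := by
        unfold AR_P
        rw [norm_mul, norm_mul]
        push_cast
        ring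
    _ = AR_P x y z := by
        rw [h1, h2, h3]
        rfl

theorem AR_sum_bd (x y z : ℍ) : |sarg x y + sarg y z + sarg z x| < Real.pi / 2 := by
  have h1 := AR_sarg_bd x y
  have h2 := AR_sarg_bd y z
  have h3 := AR_sarg_bd z x
  set s : ℝ := sarg x y + sarg y z + sarg z x with hs
  have h4 : |s| < 3 * (Real.pi / 2) := by
    rw [abs_lt] at h1 h2 h3 ⊢
    constructor <;> linarith [h1.1, h1.2, h2.1, h2.2, h3.1, h3.2]
  by_contra hcon
  push Not at hcon
  have h5 : Real.cos |s| ≤ 0 :=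
    Real.cos_nonpos_of_pi_div_two_le_of_le hcon (by linarith)
  rw [Real.cos_abs] at h5
  have h6 := AR_P_exp x y z
  rw [← hs] at h6
  have h7 := congrArg Complex.re h6
  rw [Complex.re_ofReal_mul, Complex.exp_ofReal_mul_I_re] at h7
  have h8 := AR_P_re x y z
  rw [← h7] at h8
  have h9 : 0 ≤ ‖AR_P x y z‖ := norm_nonneg _
  have h10 := mul_nonpos_of_nonneg_of_nonpos h9 h5
  linarith

theorem AR_sum_eq (x y z : ℍ) :
    sarg x y + sarg y z + sarg z x = Complex.arg (AR_P x y z) := by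
  have h1 := AR_sum_bd x y z
  rw [abs_lt] at h1
  have hpi := Real.pi_pos
  rw [← AR_P_exp x y z, Complex.exp_mul_I, Complex.arg_mul_cos_add_sin_mul_I]
  · exact norm_pos_iff.mpr (AR_P_ne x y z)
  · exact ⟨by linarith, by linarith⟩

theorem abs_area_lt (x y z : ℍ) : |area x y z| < Real.pi := by
  have h1 := AR_sum_bd x y z
  unfold area
  rw [abs_mul, abs_of_pos (by norm_num : (0 : ℝ) < 2)]
  linarith

theorem AR_alg (A B C D X Y : ℂ) (h : A * D - B * C = 1) (hx : C * X + D ≠ 0)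
    (hy : C * Y + D ≠ 0) :
    ((A * X + B) / (C * X + D) - (A * Y + B) / (C * Y + D)) / Complex.I
      = (X - Y) / Complex.I / ((C * X + D) * (C * Y + D)) := by
  have e : (A * X + B) * (C * Y + D) - (C * X + D) * (A * Y + B) = X - Y := by
    linear_combination (X - Y) * h
  rw [div_sub_div _ _ hx hy, e, div_div, div_div, mul_comm ((C * X + D) * (C * Y + D))]

theorem AR_conj_eq (g : SL(2, ℝ)) (x y : ℍ) :
    ∃ (dx dy : ℂ), dx = (g 1 0 : ℂ) * (x : ℂ) + (g 1 1 : ℂ) ∧ dx ≠ 0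
      ∧ dy = (g 1 0 : ℂ) * (y : ℂ) + (g 1 1 : ℂ) ∧ dy ≠ 0
      ∧ AR_q (g • x) (g • y) = AR_q x y / (dx * (starRingEnd ℂ) dy) := by
  have hd := Matrix.SpecialLinearGroup.det_coe g
  rw [Matrix.det_fin_two] at hd
  have hdC : ((g 0 0 : ℝ) : ℂ) * ((g 1 1 : ℝ) : ℂ) - ((g 0 1 : ℝ) : ℂ) * ((g 1 0 : ℝ) : ℂ) = 1 := by
    exact_mod_cast hd
  have hne : ∀ w : ℍ, (g 1 0 : ℂ) * (w : ℂ) + (g 1 1 : ℂ) ≠ 0 := by
    intro w h
    have him := congrArg Complex.im h
    have hre := congrArg Complex.re h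
    simp at him hre
    have hw := w.im_pos
    rcases him with h0 | h0
    · rw [h0] at hre hd
      simp at hre
      rw [hre] at hd
      simp at hd
    · linarith
  refine ⟨_, _, rfl, hne x, rfl, hne y, ?_⟩
  have hx := hne x
  have hy : (starRingEnd ℂ) ((g 1 0 : ℂ) * (y : ℂ) + (g 1 1 : ℂ)) ≠ 0 := by
    rw [Ne, map_eq_zero]
    exact hne y
  have ex := UpperHalfPlane.coe_specialLinearGroup_apply g x
  have ey := UpperHalfPlane.coe_specialLinearGroup_apply g y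
  simp only [Algebra.algebraMap_self, RingHom.id_apply] at ex ey
  unfold AR_q
  rw [ex, ey, map_div₀]
  have e1 : (starRingEnd ℂ) ((g 0 0 : ℂ) * (y : ℂ) + (g 0 1 : ℂ))
      = (g 0 0 : ℂ) * (starRingEnd ℂ) (y : ℂ) + (g 0 1 : ℂ) := by
    simp
  have e2 : (starRingEnd ℂ) ((g 1 0 : ℂ) * (y : ℂ) + (g 1 1 : ℂ))
      = (g 1 0 : ℂ) * (starRingEnd ℂ) (y : ℂ) + (g 1 1 : ℂ) := by
    simp
  rw [e2] at hy
  rw [e1, e2]
  exact AR_alg _ _ _ _ _ _ hdC hx hy

theorem AR_P_smul (g : SL(2, ℝ)) (x y z : ℍ) :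
    ∃ r : ℝ, 0 < r ∧ AR_P (g • x) (g • y) (g • z) = (r : ℂ) * AR_P x y z := by
  obtain ⟨dx, dy, hdx, hx, hdy, hy, hxy⟩ := AR_conj_eq g x y
  obtain ⟨dy', dz, hdy', -, hdz, hz, hyz⟩ := AR_conj_eq g y z
  obtain ⟨dz', dx', hdz', -, hdx', -, hzx⟩ := AR_conj_eq g z x
  have e1 : dx' = dx := by rw [hdx, hdx']
  have e2 : dy' = dy := by rw [hdy, hdy']
  have e3 : dz' = dz := by rw [hdz, hdz']
  subst e1 e2 e3
  refine ⟨(Complex.normSq dx' * Complex.normSq dy' * Complex.normSq dz')⁻¹, ?_, ?_⟩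
  · have a1 := Complex.normSq_pos.mpr hx
    have a2 := Complex.normSq_pos.mpr hy
    have a3 := Complex.normSq_pos.mpr hz
    positivity
  · unfold AR_P
    rw [hxy, hyz, hzx]
    push_cast
    rw [← Complex.mul_conj, ← Complex.mul_conj, ← Complex.mul_conj]
    have cx : (starRingEnd ℂ) dx' ≠ 0 := by rw [Ne, map_eq_zero]; exact hx
    have cy : (starRingEnd ℂ) dy' ≠ 0 := by rw [Ne, map_eq_zero]; exact hy
    have cz : (starRingEnd ℂ) dz' ≠ 0 := by rw [Ne, map_eq_zero]; exact hz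
    field_simp

theorem area_smul (g : SL(2, ℝ)) (x y z : ℍ) : area (g • x) (g • y) (g • z) = area x y z := by
  unfold area
  rw [AR_sum_eq, AR_sum_eq]
  obtain ⟨r, hr, h⟩ := AR_P_smul g x y z
  rw [h, Complex.arg_real_mul _ hr]

theorem area_or3 (P : Fin 3 → ℍ) (a b c : Fin 3) :
    area (P a) (P b) (P c) = or3 a b c * area (P 0) (P 1) (P 2) := by
  have h00 := sarg_self (P 0)
  have h11 := sarg_self (P 1)
  have h22 := sarg_self (P 2)
  have h10 := sarg_swap (P 0) (P 1)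
  have h21 := sarg_swap (P 1) (P 2)
  have h20 := sarg_swap (P 0) (P 2)
  unfold area or3
  fin_cases a <;> fin_cases b <;> fin_cases c <;>
    simp [h00, h11, h22, h10, h21, h20] <;> ring

end SimplVol
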