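import Pool.Agent.H74.SV.Ker

/-!
# Module PH: averages

* `phi_avg_zero` (`b = 0`): for `a > 0`, `u + a tan θ > 0` iff `θ > - arctan (u/a)` on `(-π/2, π/2)`, so the
  integral is `π ((π/2 + arctan (u/a)) - (π/2 - arctan (u/a))) = 2π arctan (u/a)`
  (split the interval at `-arctan (u/a)`; `Real.tan_lt_tan_of_lt_of_lt_pi_div_two`,
  `intervalIntegral.integral_congr_ae`). For `a < 0` substitute `θ → -θ`
  (`intervalIntegral.integral_comp_neg`).
* `arctan_avg` (`a, b > 0`): for `θ ∈ (-π/2, π/2)`, with `w₊ = a + b + i u`, `w₋ = b - a + i u`,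
  `b cos θ + i (u cos θ + a sin θ) = e^{iθ} (w₊ + w₋ e^{-2iθ})/2`, so
  `arctan ((u + a tan θ)/b) = θ + arg w₊ + arg (1 + ρ e^{-2iθ})`, `ρ = w₋/w₊`, `|ρ| < 1`
  (both sides agree modulo `2π`, and differ by less than `2π` in absolute value:
  the left side is in `(-π/2, π/2)`, the right side in `(-3π/2, 3π/2)`). Integrate over
  `(-π/2, π/2)`: `∫ θ = 0`, `arg w₊ = arctan (u/(a+b))`, and
  `∫ arg (1 + ρ e^{-2iθ}) dθ = Im ∫ log (1 + ρ e^{-2iθ}) dθ = 0` by the mean value property of
  `z ↦ log (1 + ρ z)` on the unit circle (`circleAverage_of_differentiable_on`, or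
  `Complex.circleIntegral_sub_inv_smul_of_differentiable_on_off_countable`, or the power series), as
  `-2θ` runs over an interval of length `2π`. (Any other proof is fine, e.g. differentiate in `u`, or
  Cauchy distributions.)
* `phi_avg`: combine, with `θ → -θ` for `a < 0`.
* `phi_avg_integrable`: measurable and bounded by `π`.
-/

set_option autoImplicit false

open scoped BigOperators Nat

namespace SimplVol

theorem phi_abs_le (b t : ℝ) : |phi b t| ≤ Real.pi := by
  unfold phi
  have hpi := Real.pi_pos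
  split_ifs
  · rw [abs_of_pos hpi]
  · rw [abs_neg, abs_of_pos hpi]
  · rw [abs_zero]; exact hpi.le
  · rw [abs_mul, abs_of_pos (by norm_num : (0:ℝ) < 2)]
    have h1 : |Real.arctan (t / b)| ≤ Real.pi / 2 := by
      rw [abs_le]
      exact ⟨(Real.neg_pi_div_two_lt_arctan _).le, (Real.arctan_lt_pi_div_two _).le⟩
    linarith

theorem phi_measurable (b : ℝ) : Measurable (phi b) := by
  unfold phi
  by_cases hb : b = 0
  · simp only [hb, if_true]
    refine Measurable.ite (measurableSet_lt measurable_const measurable_id) measurable_const ?_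
    exact Measurable.ite (measurableSet_lt measurable_id measurable_const) measurable_const
      measurable_const
  · simp only [hb, if_false]
    exact (Real.measurable_arctan.comp (measurable_id.div_const b)).const_mul 2

theorem PH_tan_measurable : Measurable Real.tan := by
  have h : Real.tan = fun θ => Real.sin θ / Real.cos θ := funext fun θ => Real.tan_eq_sin_div_cos θ
  rw [h]
  exact Real.measurable_sin.div Real.measurable_cos

theorem phi_avg_integrable (b u a : ℝ) :
    IntervalIntegrable (fun θ => phi b (u + a * Real.tan θ)) MeasureTheory.volume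
      (-(Real.pi / 2)) (Real.pi / 2) := by
  have hm : Measurable (fun θ => phi b (u + a * Real.tan θ)) :=
    (phi_measurable b).comp ((PH_tan_measurable.const_mul a).const_add u)
  have hc : IntervalIntegrable (fun _ : ℝ => Real.pi) MeasureTheory.volume
      (-(Real.pi / 2)) (Real.pi / 2) := intervalIntegrable_const
  refine hc.mono_fun hm.aestronglyMeasurable ?_
  refine Filter.Eventually.of_forall fun θ => ?_
  simp only [Real.norm_eq_abs]
  rw [abs_of_pos Real.pi_pos]
  exact phi_abs_le _ _

theorem PH_arg {z : ℂ} (hz : 0 < z.re) : Real.arctan (z.im / z.re) = Complex.arg z := by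
  have h := Complex.abs_arg_lt_pi_div_two_iff.2 (Or.inl hz)
  rw [abs_lt] at h
  rw [← Complex.tan_arg, Real.arctan_tan h.1 h.2]

theorem PH_arg_mem {z : ℂ} (hz : 0 < z.re) : |Complex.arg z| < Real.pi / 2 :=
  Complex.abs_arg_lt_pi_div_two_iff.2 (Or.inl hz)

theorem PH_key {a b : ℝ} (ha : 0 < a) (hb : 0 < b) (u θ : ℝ) (h1 : -(Real.pi / 2) < θ)
    (h2 : θ < Real.pi / 2) {ρ : ℂ} (hρ : ρ = ((b - a : ℝ) + u * Complex.I) / ((a + b : ℝ) + u * Complex.I))
    (hre : 0 < (1 + ρ * Complex.exp ((-(2 * θ) : ℝ) * Complex.I)).re) :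
    Real.arctan ((u + a * Real.tan θ) / b) = θ + Real.arctan (u / (a + b)) +
      Complex.arg (1 + ρ * Complex.exp ((-(2 * θ) : ℝ) * Complex.I)) := by
  have hcos : 0 < Real.cos θ := Real.cos_pos_of_mem_Ioo ⟨h1, h2⟩
  set w : ℂ := ((a + b : ℝ) : ℂ) + u * Complex.I with hw
  have hwre : 0 < w.re := by simp [hw]; linarith
  have hw0 : w ≠ 0 := by intro h; rw [h] at hwre; simp at hwre
  set z : ℂ := ((b * Real.cos θ : ℝ) : ℂ) + ((u * Real.cos θ + a * Real.sin θ : ℝ) : ℂ) * Complex.I with hz
  have hzre : z.re = b * Real.cos θ := by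
    rw [hz, Complex.add_re, Complex.re_ofReal_mul, Complex.ofReal_re, Complex.I_re, mul_zero, add_zero]
  have hzim : z.im = u * Real.cos θ + a * Real.sin θ := by
    rw [hz, Complex.add_im, Complex.im_ofReal_mul, Complex.ofReal_im, Complex.I_im, mul_one, zero_add]
  have hzpos : 0 < z.re := by rw [hzre]; positivity
  have hA : Real.arctan ((u + a * Real.tan θ) / b) = Complex.arg z := by
    rw [← PH_arg hzpos, hzre, hzim]
    congr 1
    rw [Real.tan_eq_sin_div_cos]
    field_simp
  have hB : Real.arctan (u / (a + b)) = Complex.arg w := by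
    rw [← PH_arg hwre]
    simp [hw]
  set E : ℂ := 1 + ρ * Complex.exp ((-(2 * θ) : ℝ) * Complex.I) with hE
  have hfac : z = ((1/2 : ℝ) : ℂ) * (Complex.exp (θ * Complex.I) * w * E) := by
    have e1 : Complex.exp (θ * Complex.I) * Complex.exp ((-(2 * θ) : ℝ) * Complex.I) =
        Complex.exp (-(θ * Complex.I)) := by
      rw [← Complex.exp_add]; congr 1; push_cast; ring
    have e2 : w * ρ = ((b - a : ℝ) : ℂ) + u * Complex.I := by
      rw [hρ, mul_div_cancel₀ _ hw0]
    have e3 : Complex.exp (θ * Complex.I) = Real.cos θ + Real.sin θ * Complex.I := by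
      rw [Complex.exp_mul_I]; push_cast; ring
    have e4 : Complex.exp (-(θ * Complex.I)) = Real.cos θ - Real.sin θ * Complex.I := by
      rw [← neg_mul, Complex.exp_mul_I, Complex.cos_neg, Complex.sin_neg]; push_cast; ring
    have e5 : Complex.exp (θ * Complex.I) * w * E = Complex.exp (θ * Complex.I) * w +
        (w * ρ) * (Complex.exp (θ * Complex.I) * Complex.exp ((-(2 * θ) : ℝ) * Complex.I)) := by
      rw [hE]; ring
    rw [e5, e1, e2, e3, e4, hz, hw]
    push_cast
    linear_combination (-(a : ℂ) * Real.sin θ * 0) * Complex.I_sq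
  have hE0 : E ≠ 0 := by intro h; rw [h] at hre; simp at hre
  have hexp0 : Complex.exp (θ * Complex.I) ≠ 0 := Complex.exp_ne_zero _
  have hang : (Complex.arg z : Real.Angle) = ((θ + Complex.arg w + Complex.arg E : ℝ) : Real.Angle) := by
    rw [hfac, Complex.arg_real_mul _ (by norm_num : (0:ℝ) < 1/2),
      Complex.arg_mul_coe_angle (mul_ne_zero hexp0 hw0) hE0, Complex.arg_mul_coe_angle hexp0 hw0,
      Real.Angle.coe_add, Real.Angle.coe_add]
    congr 2
    rw [Complex.arg_exp_mul_I, toIocMod_eq_self Real.two_pi_pos |>.2]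
    constructor
    · linarith [Real.pi_pos]
    · linarith [Real.pi_pos]
  rw [Real.Angle.angle_eq_iff_two_pi_dvd_sub] at hang
  obtain ⟨k, hk⟩ := hang
  have i1 := abs_lt.1 (PH_arg_mem hzpos)
  have i2 := abs_lt.1 (PH_arg_mem hwre)
  have i3 := abs_lt.1 (PH_arg_mem hre)
  have hpi := Real.pi_pos
  have hk0 : k = 0 := by
    have j1 : (k : ℝ) < 1 := by
      by_contra hcon
      push Not at hcon
      nlinarith
    have j2 : (-1 : ℝ) < k := by
      by_contra hcon
      push Not at hcon
      nlinarith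
    have j3 : k < 1 := by exact_mod_cast j1
    have j4 : -1 < k := by exact_mod_cast j2
    omega
  rw [hk0, Int.cast_zero, mul_zero] at hk
  rw [hA, hB]
  linarith

theorem PH_norm {a b : ℝ} (ha : 0 < a) (hb : 0 < b) (u : ℝ) :
    ‖(((b - a : ℝ) : ℂ) + u * Complex.I) / (((a + b : ℝ) : ℂ) + u * Complex.I)‖ < 1 := by
  have hw0 : 0 < ‖((a + b : ℝ) : ℂ) + u * Complex.I‖ := by
    rw [norm_pos_iff]
    intro h
    have := congrArg Complex.re h
    simp at this
    linarith
  rw [norm_div, div_lt_one hw0, Complex.norm_add_mul_I, Complex.norm_add_mul_I]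
  apply Real.sqrt_lt_sqrt (by positivity)
  nlinarith [mul_pos ha hb]

theorem PH_re {ρ : ℂ} (hρ : ‖ρ‖ < 1) {z : ℂ} (hz : ‖z‖ ≤ 1) : 0 < (1 + ρ * z).re := by
  have h1 : ‖ρ * z‖ < 1 := by
    rw [norm_mul]
    calc ‖ρ‖ * ‖z‖ ≤ ‖ρ‖ * 1 := mul_le_mul_of_nonneg_left hz (norm_nonneg _)
      _ < 1 := by rw [mul_one]; exact hρ
  have h2 := (abs_le.1 (Complex.abs_re_le_norm (ρ * z))).1
  simp only [Complex.add_re, Complex.one_re]
  linarith

theorem PH_circle {ρ : ℂ} (hρ : ‖ρ‖ < 1) :
    ∫ η in (0:ℝ)..(2 * Real.pi), Complex.arg (1 + ρ * Complex.exp (η * Complex.I)) = 0 := by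
  have hd : DiffContOnCl ℂ (fun z => Complex.log (1 + ρ * z)) (Metric.ball 0 |1|) := by
    apply DifferentiableOn.diffContOnCl
    intro z hz
    have hz1 : ‖z‖ ≤ 1 := by
      have := Metric.closure_ball_subset_closedBall hz
      simpa using this
    apply DifferentiableAt.differentiableWithinAt
    apply DifferentiableAt.clog
    · fun_prop
    · exact Or.inl (PH_re hρ hz1)
  have h1 := hd.circleAverage
  rw [Real.circleAverage_def] at h1
  simp only [mul_zero, add_zero, Complex.log_one, smul_eq_zero, inv_eq_zero] at h1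
  have h2 : (∫ θ in (0:ℝ)..2 * Real.pi, Complex.log (1 + ρ * circleMap 0 1 θ)) = 0 := by
    rcases h1 with h1 | h1
    · exact absurd h1 Real.two_pi_pos.ne'
    · exact h1
  have hcont : Continuous fun θ : ℝ => Complex.log (1 + ρ * circleMap 0 1 θ) := by
    apply Continuous.clog
    · exact continuous_const.add (continuous_const.mul (continuous_circleMap 0 1))
    · intro θ
      refine Or.inl (PH_re hρ ?_)
      rw [norm_circleMap_zero, abs_one]
  have h3 : ∫ θ in (0:ℝ)..2 * Real.pi, (Complex.log (1 + ρ * circleMap 0 1 θ)).im =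
      (∫ θ in (0:ℝ)..2 * Real.pi, Complex.log (1 + ρ * circleMap 0 1 θ)).im := by
    have := Complex.imCLM.intervalIntegral_comp_comm (μ := MeasureTheory.volume)
      (hcont.intervalIntegrable 0 (2 * Real.pi))
    simpa using this
  rw [h2, Complex.zero_im] at h3
  refine Eq.trans ?_ h3
  apply intervalIntegral.integral_congr
  intro θ _
  simp only [Complex.log_im]
  rw [circleMap]
  simp

theorem arctan_avg {a b : ℝ} (ha : 0 < a) (hb : 0 < b) (u : ℝ) :
    ∫ θ in (-(Real.pi / 2))..(Real.pi / 2), Real.arctan ((u + a * Real.tan θ) / b) =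
      Real.pi * Real.arctan (u / (a + b)) := by
  set ρ : ℂ := (((b - a : ℝ) : ℂ) + u * Complex.I) / (((a + b : ℝ) : ℂ) + u * Complex.I) with hρ
  have hρ1 : ‖ρ‖ < 1 := PH_norm ha hb u
  have hpi := Real.pi_pos
  set G : ℝ → ℝ := fun η => Complex.arg (1 + ρ * Complex.exp (η * Complex.I)) with hG
  have hre : ∀ η : ℝ, 0 < (1 + ρ * Complex.exp (η * Complex.I)).re := fun η =>
    PH_re hρ1 (Complex.norm_exp_ofReal_mul_I η).le
  have hGc : Continuous G := by
    have h1 : Continuous fun η : ℝ => Complex.log (1 + ρ * Complex.exp (η * Complex.I)) := by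
      apply Continuous.clog
      · fun_prop
      · exact fun η => Or.inl (hre η)
    have h2 : G = fun η : ℝ => (Complex.log (1 + ρ * Complex.exp (η * Complex.I))).im := by
      funext η
      rw [Complex.log_im]
    rw [h2]
    exact Complex.continuous_im.comp h1
  have hcongr : ∫ θ in (-(Real.pi / 2))..(Real.pi / 2), Real.arctan ((u + a * Real.tan θ) / b) =
      ∫ θ in (-(Real.pi / 2))..(Real.pi / 2), (θ + Real.arctan (u / (a + b)) + G (-(2 * θ))) := by
    apply intervalIntegral.integral_congr_Ioo_of_le (by linarith)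
    intro θ hθ
    exact PH_key ha hb u θ hθ.1 hθ.2 hρ (hre _)
  have hG0 : ∫ θ in (-(Real.pi / 2))..(Real.pi / 2), G (-(2 * θ)) = 0 := by
    have h1 : ∀ θ : ℝ, G (-(2 * θ)) = G ((-2) * θ) := fun θ => by congr 1; ring
    simp only [h1]
    rw [intervalIntegral.integral_comp_mul_left (f := G) (by norm_num : (-2 : ℝ) ≠ 0)]
    have hper : Function.Periodic G (2 * Real.pi) := by
      intro η
      simp only [hG]
      have : ((η + 2 * Real.pi : ℝ) : ℂ) * Complex.I = η * Complex.I + 2 * Real.pi * Complex.I := by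
        push_cast; ring
      rw [this, Complex.exp_add, Complex.exp_two_pi_mul_I, mul_one]
    have h2 : ∫ x in (-2 * -(Real.pi / 2))..(-2 * (Real.pi / 2)), G x = 0 := by
      have e1 : (-2 * -(Real.pi / 2)) = Real.pi := by ring
      have e2 : (-2 * (Real.pi / 2)) = -Real.pi := by ring
      rw [e1, e2, intervalIntegral.integral_symm]
      have h3 := hper.intervalIntegral_add_eq (-Real.pi) 0
      have e3 : -Real.pi + 2 * Real.pi = Real.pi := by ring
      rw [e3, zero_add] at h3
      rw [h3, PH_circle hρ1, neg_zero]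
    rw [h2, smul_zero]
  rw [hcongr, intervalIntegral.integral_add, intervalIntegral.integral_add, hG0, integral_id,
    intervalIntegral.integral_const, smul_eq_mul]
  · ring
  · exact continuous_id.intervalIntegrable _ _
  · exact intervalIntegrable_const
  · exact (continuous_id.add continuous_const).intervalIntegrable _ _
  · exact (hGc.comp (by fun_prop : Continuous fun θ : ℝ => -(2 * θ))).intervalIntegrable _ _

theorem PH_zero_pos {a : ℝ} (ha : 0 < a) (u : ℝ) :
    ∫ θ in (-(Real.pi / 2))..(Real.pi / 2), phi 0 (u + a * Real.tan θ) =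
      Real.pi * phi |a| u := by
  have hpi := Real.pi_pos
  set c : ℝ := - Real.arctan (u / a) with hc
  have hc1 : -(Real.pi / 2) < c := by
    have := Real.arctan_lt_pi_div_two (u / a)
    linarith
  have hc2 : c < Real.pi / 2 := by
    have := Real.neg_pi_div_two_lt_arctan (u / a)
    linarith
  have htan : Real.tan c = -(u / a) := by
    rw [hc, Real.tan_neg, Real.tan_arctan]
  have hI := phi_avg_integrable 0 u a
  have hI1 : IntervalIntegrable (fun θ => phi 0 (u + a * Real.tan θ)) MeasureTheory.volume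
      (-(Real.pi / 2)) c := hI.mono_set (by
        rw [Set.uIcc_of_le hc1.le, Set.uIcc_of_le (by linarith)]
        exact Set.Icc_subset_Icc_right hc2.le)
  have hI2 : IntervalIntegrable (fun θ => phi 0 (u + a * Real.tan θ)) MeasureTheory.volume
      c (Real.pi / 2) := hI.mono_set (by
        rw [Set.uIcc_of_le hc2.le, Set.uIcc_of_le (by linarith)]
        exact Set.Icc_subset_Icc_left hc1.le)
  rw [← intervalIntegral.integral_add_adjacent_intervals hI1 hI2]
  have e1 : ∫ θ in (-(Real.pi / 2))..c, phi 0 (u + a * Real.tan θ) =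
      ∫ θ in (-(Real.pi / 2))..c, -Real.pi := by
    apply intervalIntegral.integral_congr_Ioo_of_le hc1.le
    intro θ hθ
    have h1 : Real.tan θ < Real.tan c :=
      Real.tan_lt_tan_of_lt_of_lt_pi_div_two hθ.1 hc2 hθ.2
    rw [htan] at h1
    have h2 : u + a * Real.tan θ < 0 := by
      have h3 : a * Real.tan θ < a * (-(u / a)) := mul_lt_mul_of_pos_left h1 ha
      have h4 : a * (-(u / a)) = -u := by field_simp
      linarith
    simp only [phi]
    rw [if_pos trivial, if_neg (by linarith), if_pos h2]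
  have e2 : ∫ θ in c..(Real.pi / 2), phi 0 (u + a * Real.tan θ) =
      ∫ θ in c..(Real.pi / 2), Real.pi := by
    apply intervalIntegral.integral_congr_Ioo_of_le hc2.le
    intro θ hθ
    have h1 : Real.tan c < Real.tan θ :=
      Real.tan_lt_tan_of_lt_of_lt_pi_div_two hc1 hθ.2 hθ.1
    rw [htan] at h1
    have h2 : 0 < u + a * Real.tan θ := by
      have h3 : a * (-(u / a)) < a * Real.tan θ := mul_lt_mul_of_pos_left h1 ha
      have h4 : a * (-(u / a)) = -u := by field_simp
      linarith
    simp only [phi]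
    rw [if_pos trivial, if_pos h2]
  rw [e1, e2, intervalIntegral.integral_const, intervalIntegral.integral_const, smul_eq_mul,
    smul_eq_mul, abs_of_pos ha]
  have h5 : phi a u = 2 * Real.arctan (u / a) := by
    rw [phi, if_neg ha.ne']
  rw [h5, hc]
  ring

theorem PH_flip {a b u V : ℝ} (h : ∫ θ in (-(Real.pi / 2))..(Real.pi / 2), phi b (u + (-a) * Real.tan θ) = V) :
    ∫ θ in (-(Real.pi / 2))..(Real.pi / 2), phi b (u + a * Real.tan θ) = V := by
  rw [← h]
  have h1 := intervalIntegral.integral_comp_neg (a := -(Real.pi / 2)) (b := Real.pi / 2)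
    (fun θ => phi b (u + a * Real.tan θ))
  rw [neg_neg] at h1
  rw [← h1]
  apply intervalIntegral.integral_congr
  intro θ _
  simp only [Real.tan_neg, mul_neg, neg_mul]

theorem phi_avg_zero {a : ℝ} (ha : a ≠ 0) (u : ℝ) :
    ∫ θ in (-(Real.pi / 2))..(Real.pi / 2), phi 0 (u + a * Real.tan θ) =
      Real.pi * phi |a| u := by
  rcases lt_or_gt_of_ne ha with h | h
  · apply PH_flip
    rw [PH_zero_pos (neg_pos.2 h), abs_neg]
  · exact PH_zero_pos h u

theorem phi_avg {a b : ℝ} (ha : a ≠ 0) (hb : 0 ≤ b) (u : ℝ) :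
    ∫ θ in (-(Real.pi / 2))..(Real.pi / 2), phi b (u + a * Real.tan θ) =
      Real.pi * phi (|a| + b) u := by
  rcases hb.eq_or_lt with hb0 | hb0
  · rw [← hb0, phi_avg_zero ha, add_zero]
  · have hpos : ∀ a' : ℝ, 0 < a' → ∫ θ in (-(Real.pi / 2))..(Real.pi / 2),
        phi b (u + a' * Real.tan θ) = Real.pi * phi (a' + b) u := by
      intro a' ha'
      have h1 : ∀ t, phi b t = 2 * Real.arctan (t / b) := fun t => by rw [phi, if_neg hb0.ne']
      have h2 : phi (a' + b) u = 2 * Real.arctan (u / (a' + b)) := by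
        rw [phi, if_neg (by linarith)]
      simp only [h1]
      rw [intervalIntegral.integral_const_mul, arctan_avg ha' hb0, h2]
      ring
    rcases lt_or_gt_of_ne ha with h | h
    · apply PH_flip
      rw [hpos _ (neg_pos.2 h), abs_of_neg h]
    · rw [hpos _ h, abs_of_pos h]

end SimplVol
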