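import Pool.Agent.H74.SV.LW
import Pool.Agent.H74.SV.PH
import Pool.Agent.H74.SV.AR

/-!
# Module OA: the mean orientation is the area

* `pair_avg`: by `slope_law` twice and `phi_avg` twice. `phi 0 t = π sign t`. For fixed `u`, with
  `X = u₁/u₂`: `∫_{v ∈ ell y} phi 0 (v₁/v₂ - X) = ∫_θ phi 0 (y.re - X + y.im tan θ) dθ = π phi (y.im) (y.re - X)`
  (`phi_avg_zero`). Then `∫_{u ∈ ell x} π phi (y.im) (y.re - u₁/u₂) = π ∫_θ phi (y.im) (y.re - x.re - x.im tan θ)
  = π² phi (x.im + y.im) (y.re - x.re) = 2 π² arctan ((y.re - x.re)/(x.im + y.im))` (`phi_avg` with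
  `a = - x.im`). Fubini: bounded measurable functions on sets of finite measure.
* `ori_avg`: for `u, v, w` with nonzero second coordinates, with slopes `X, Y, Z`,
  `dt u v = u₂ v₂ (X - Y)`, so the sign of `dt u v * dt v w * dt w u` is the sign of
  `(X - Y)(Y - Z)(Z - X)`, which is `sign (Y - X) + sign (Z - Y) + sign (X - Z)` (if `X, Y, Z` are distinct, or
  if two are equal: then both are `0`; check the six orders). So
  `π ori u v w = phi 0 (Y - X) + phi 0 (Z - Y) + phi 0 (X - Z)` almost everywhere. Integrate: each term does not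
  depend on one of the three vectors, which gives a factor `π = volume (ell _)`. Total
  `π * 2 π² (arctan .. + arctan .. + arctan ..) = π³ area x y z` by `sarg_eq_arctan`. Divide by `π`.
-/

set_option autoImplicit false

open scoped BigOperators UpperHalfPlane MatrixGroups ENNReal
open MeasureTheory

namespace SimplVol

theorem OA_integrableOn {α : Type} [MeasurableSpace α] {μ : Measure α} {s : Set α} (hs : μ s ≠ ∞)
    {f : α → ℝ} (hf : Measurable f) (C : ℝ) (hC : ∀ a, |f a| ≤ C) : IntegrableOn f s μ :=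
  Measure.integrableOn_of_bounded (M := C) hs hf.aestronglyMeasurable
    (Filter.Eventually.of_forall fun a => by rw [Real.norm_eq_abs]; exact hC a)

theorem OA_ell_ne_top (x : ℍ) : (volume (ell x)) ≠ ∞ := by
  rw [volume_ell]
  exact ENNReal.ofReal_ne_top

theorem OA_ell_real (x : ℍ) : (volume : Measure Pl).real (ell x) = Real.pi := by
  rw [Measure.real, volume_ell, ENNReal.toReal_ofReal Real.pi_pos.le]

theorem OA_prod_ne_top {α β : Type} [MeasureSpace α] [MeasureSpace β]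
    [SFinite (volume : Measure β)] {s : Set α} {t : Set β} (hs : volume s ≠ ∞)
    (ht : volume t ≠ ∞) : (volume : Measure (α × β)) (s ×ˢ t) ≠ ∞ := by
  rw [Measure.volume_eq_prod, Measure.prod_prod]
  exact ENNReal.mul_ne_top hs ht

theorem OA_slope : Measurable fun u : Pl => u.1 / u.2 := measurable_fst.div measurable_snd

theorem OA_phi_meas : Measurable fun p : Pl × Pl => phi 0 (p.2.1 / p.2.2 - p.1.1 / p.1.2) :=
  (phi_measurable 0).comp ((OA_slope.comp measurable_snd).sub (OA_slope.comp measurable_fst))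

theorem OA_pair (x y : ℍ) :
    ∫ u in ell x, ∫ v in ell y, phi 0 (v.1 / v.2 - u.1 / u.2) =
      2 * Real.pi ^ 2 * Real.arctan ((y.re - x.re) / (x.im + y.im)) := by
  have hx := x.im_pos
  have hy := y.im_pos
  have h1 : ∀ u : Pl, ∫ v in ell y, phi 0 (v.1 / v.2 - u.1 / u.2) =
      Real.pi * phi y.im (y.re - u.1 / u.2) := by
    intro u
    rw [slope_law y (fun t => phi 0 (t - u.1 / u.2))
      ((phi_measurable 0).comp (measurable_id.sub_const _)) Real.pi (fun t => phi_abs_le _ _)]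
    have h2 := phi_avg_zero hy.ne' (y.re - u.1 / u.2)
    rw [abs_of_pos hy] at h2
    rw [← h2]
    apply intervalIntegral.integral_congr
    intro θ _
    simp only
    congr 1
    ring
  simp only [h1]
  rw [slope_law x (fun t => Real.pi * phi y.im (y.re - t))
    (((phi_measurable y.im).comp (measurable_id.const_sub _)).const_mul _) (Real.pi * Real.pi)
    (fun t => by
      rw [abs_mul, abs_of_pos Real.pi_pos]
      exact mul_le_mul_of_nonneg_left (phi_abs_le _ _) Real.pi_pos.le)]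
  rw [intervalIntegral.integral_const_mul]
  have h3 := phi_avg (a := -x.im) (b := y.im) (by linarith [hx]) hy.le (y.re - x.re)
  have h4 : ∫ θ in (-(Real.pi / 2))..(Real.pi / 2), phi y.im (y.re - (x.re + x.im * Real.tan θ)) =
      ∫ θ in (-(Real.pi / 2))..(Real.pi / 2), phi y.im (y.re - x.re + -x.im * Real.tan θ) := by
    apply intervalIntegral.integral_congr
    intro θ _
    simp only
    congr 1
    ring
  rw [h4, h3, abs_neg, abs_of_pos hx, phi, if_neg (by linarith)]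
  ring

theorem pair_avg (x y : ℍ) :
    ∫ p in ell x ×ˢ ell y, phi 0 (p.2.1 / p.2.2 - p.1.1 / p.1.2) =
      2 * Real.pi ^ 2 * Real.arctan ((y.re - x.re) / (x.im + y.im)) := by
  rw [← OA_pair, Measure.volume_eq_prod Pl Pl]
  exact setIntegral_prod (fun p : Pl × Pl => phi 0 (p.2.1 / p.2.2 - p.1.1 / p.1.2))
    (OA_integrableOn (OA_prod_ne_top (OA_ell_ne_top x) (OA_ell_ne_top y)) OA_phi_meas Real.pi
      fun p => phi_abs_le _ _)

theorem OA_dt_meas {α : Type} [MeasurableSpace α] {f g : α → Pl} (hf : Measurable f)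
    (hg : Measurable g) : Measurable fun p => dt (f p) (g p) := by
  unfold dt
  exact (hf.fst.mul hg.snd).sub (hf.snd.mul hg.fst)

theorem ori_measurable : Measurable fun p : Pl × Pl × Pl => ori p.1 p.2.1 p.2.2 := by
  unfold ori
  have h1 : Measurable fun p : Pl × Pl × Pl => dt p.1 p.2.1 * dt p.2.1 p.2.2 * dt p.2.2 p.1 :=
    ((OA_dt_meas measurable_fst measurable_snd.fst).mul
      (OA_dt_meas measurable_snd.fst measurable_snd.snd)).mul
      (OA_dt_meas measurable_snd.snd measurable_fst)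
  refine Measurable.ite (measurableSet_lt measurable_const h1) measurable_const ?_
  exact Measurable.ite (measurableSet_lt h1 measurable_const) measurable_const measurable_const

theorem OA_ori_le (u v w : Pl) : |ori u v w| ≤ 1 := by
  unfold ori
  split_ifs <;> simp

theorem OA_sign (a b c : ℝ) (h : a + b + c = 0) :
    Real.pi * (if 0 < a * b * c then 1 else if a * b * c < 0 then -1 else 0) =
      phi 0 (-a) + phi 0 (-b) + phi 0 (-c) := by
  rcases lt_trichotomy a 0 with ha | ha | ha <;> rcases lt_trichotomy b 0 with hb | hb | hb <;>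
    rcases lt_trichotomy c 0 with hc | hc | hc
  all_goals first
    | (exfalso; linarith)
    | skip
  all_goals simp [phi, mul_pos_iff, mul_neg_iff, ha, hb, hc, not_lt.2 ha.le, not_lt.2 hb.le,
    not_lt.2 hc.le]

theorem OA_phi_neg (t : ℝ) : phi 0 (-t) = -phi 0 t := by
  rcases lt_trichotomy t 0 with h | h | h
  · simp [phi, h, not_lt.2 h.le]
  · simp [phi, h]
  · simp [phi, h, not_lt.2 h.le]

theorem OA_dt (u v : Pl) (hu : u.2 ≠ 0) (hv : v.2 ≠ 0) :
    dt u v = u.2 * v.2 * (u.1 / u.2 - v.1 / v.2) := by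
  unfold dt
  field_simp

theorem OA_ori (u v w : Pl) (hu : u.2 ≠ 0) (hv : v.2 ≠ 0) (hw : w.2 ≠ 0) :
    Real.pi * ori u v w = phi 0 (v.1 / v.2 - u.1 / u.2) + phi 0 (w.1 / w.2 - v.1 / v.2) +
      -phi 0 (w.1 / w.2 - u.1 / u.2) := by
  have hK : 0 < (u.2 * v.2 * w.2) ^ 2 := by positivity
  have h1 : dt u v * dt v w * dt w u = (u.2 * v.2 * w.2) ^ 2 *
      ((u.1 / u.2 - v.1 / v.2) * (v.1 / v.2 - w.1 / w.2) * (w.1 / w.2 - u.1 / u.2)) := by
    rw [OA_dt u v hu hv, OA_dt v w hv hw, OA_dt w u hw hu]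
    ring
  have h2 := OA_sign (u.1 / u.2 - v.1 / v.2) (v.1 / v.2 - w.1 / w.2) (w.1 / w.2 - u.1 / u.2)
    (by ring)
  have h3 := OA_phi_neg (w.1 / w.2 - u.1 / u.2)
  rw [neg_sub, neg_sub, h3] at h2
  rw [← h2]
  unfold ori
  have e1 : (0 < dt u v * dt v w * dt w u) ↔ 0 < (u.1 / u.2 - v.1 / v.2) *
      (v.1 / v.2 - w.1 / w.2) * (w.1 / w.2 - u.1 / u.2) := by
    rw [h1, mul_pos_iff_of_pos_left hK]
  have e2 : (dt u v * dt v w * dt w u < 0) ↔ (u.1 / u.2 - v.1 / v.2) *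
      (v.1 / v.2 - w.1 / w.2) * (w.1 / w.2 - u.1 / u.2) < 0 := by
    rw [h1, mul_neg_iff]
    constructor
    · rintro (h | h)
      · exact h.2
      · exact absurd h.1 (not_lt.2 hK.le)
    · intro h
      exact Or.inl ⟨hK, h⟩
  simp only [e1, e2]

theorem OA_null : volume {u : Pl | u.2 = 0} = 0 := by
  have h : {u : Pl | u.2 = 0} = Set.univ ×ˢ {(0:ℝ)} := by
    ext u
    simp
  rw [h, Measure.volume_eq_prod, Measure.prod_prod]
  simp

theorem OA_ae : ∀ᵐ p : Pl × Pl × Pl, p.1.2 ≠ 0 ∧ p.2.1.2 ≠ 0 ∧ p.2.2.2 ≠ 0 := by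
  have h1 : ∀ᵐ u : Pl, u.2 ≠ 0 := by
    rw [ae_iff]
    simpa using OA_null
  have h2 : ∀ᵐ p : Pl × Pl × Pl, p.1.2 ≠ 0 :=
    (Measure.quasiMeasurePreserving_fst (μ := (volume : Measure Pl))
      (ν := (volume : Measure (Pl × Pl)))).ae h1
  have h3 : ∀ᵐ p : Pl × Pl, p.1.2 ≠ 0 :=
    (Measure.quasiMeasurePreserving_fst (μ := (volume : Measure Pl))
      (ν := (volume : Measure Pl))).ae h1
  have h4 : ∀ᵐ p : Pl × Pl, p.2.2 ≠ 0 :=
    (Measure.quasiMeasurePreserving_snd (μ := (volume : Measure Pl))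
      (ν := (volume : Measure Pl))).ae h1
  have h5 : ∀ᵐ p : Pl × Pl × Pl, p.2.1.2 ≠ 0 ∧ p.2.2.2 ≠ 0 :=
    (Measure.quasiMeasurePreserving_snd (μ := (volume : Measure Pl))
      (ν := (volume : Measure (Pl × Pl)))).ae (h3.and h4)
  filter_upwards [h2, h5] with p a b using ⟨a, b.1, b.2⟩

theorem OA_triple (x y z : ℍ) (f : Pl → Pl → Pl → ℝ)
    (hf : Measurable fun p : Pl × Pl × Pl => f p.1 p.2.1 p.2.2) (C : ℝ)
    (hC : ∀ u v w, |f u v w| ≤ C) :
    ∫ p in ell x ×ˢ (ell y ×ˢ ell z), f p.1 p.2.1 p.2.2 =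
      ∫ u in ell x, ∫ v in ell y, ∫ w in ell z, f u v w := by
  have hyz : (volume : Measure (Pl × Pl)) (ell y ×ˢ ell z) ≠ ∞ :=
    OA_prod_ne_top (OA_ell_ne_top y) (OA_ell_ne_top z)
  rw [Measure.volume_eq_prod Pl (Pl × Pl)]
  rw [setIntegral_prod (fun p : Pl × Pl × Pl => f p.1 p.2.1 p.2.2)
    (OA_integrableOn (OA_prod_ne_top (OA_ell_ne_top x) hyz) hf C fun p => hC _ _ _)]
  congr 1
  funext u
  rw [Measure.volume_eq_prod Pl Pl]
  exact setIntegral_prod (fun p : Pl × Pl => f u p.1 p.2)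
    (OA_integrableOn hyz (hf.comp (measurable_const.prodMk measurable_id)) C fun p => hC _ _ _)

theorem ori_avg (x y z : ℍ) :
    ∫ p in ell x ×ˢ (ell y ×ˢ ell z), ori p.1 p.2.1 p.2.2 = Real.pi ^ 2 * area x y z := by
  have hpi := Real.pi_pos
  have hyz : (volume : Measure (Pl × Pl)) (ell y ×ˢ ell z) ≠ ∞ :=
    OA_prod_ne_top (OA_ell_ne_top y) (OA_ell_ne_top z)
  have hxyz : (volume : Measure (Pl × Pl × Pl)) (ell x ×ˢ (ell y ×ˢ ell z)) ≠ ∞ :=
    OA_prod_ne_top (OA_ell_ne_top x) hyz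
  have m1 : Measurable fun p : Pl × Pl × Pl => phi 0 (p.2.1.1 / p.2.1.2 - p.1.1 / p.1.2) :=
    (phi_measurable 0).comp ((OA_slope.comp measurable_snd.fst).sub (OA_slope.comp measurable_fst))
  have m2 : Measurable fun p : Pl × Pl × Pl => phi 0 (p.2.2.1 / p.2.2.2 - p.2.1.1 / p.2.1.2) :=
    (phi_measurable 0).comp ((OA_slope.comp measurable_snd.snd).sub
      (OA_slope.comp measurable_snd.fst))
  have m3 : Measurable fun p : Pl × Pl × Pl => phi 0 (p.2.2.1 / p.2.2.2 - p.1.1 / p.1.2) :=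
    (phi_measurable 0).comp ((OA_slope.comp measurable_snd.snd).sub (OA_slope.comp measurable_fst))
  have i1 := OA_integrableOn hxyz m1 Real.pi fun p => phi_abs_le _ _
  have i2 := OA_integrableOn hxyz m2 Real.pi fun p => phi_abs_le _ _
  have i3 := OA_integrableOn hxyz m3 Real.pi fun p => phi_abs_le _ _
  have h1 : Real.pi * ∫ p in ell x ×ˢ (ell y ×ˢ ell z), ori p.1 p.2.1 p.2.2 =
      ∫ p in ell x ×ˢ (ell y ×ˢ ell z), (phi 0 (p.2.1.1 / p.2.1.2 - p.1.1 / p.1.2) +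
        phi 0 (p.2.2.1 / p.2.2.2 - p.2.1.1 / p.2.1.2) +
        -phi 0 (p.2.2.1 / p.2.2.2 - p.1.1 / p.1.2)) := by
    rw [← integral_const_mul]
    apply integral_congr_ae
    filter_upwards [ae_restrict_of_ae OA_ae] with p hp
    exact OA_ori _ _ _ hp.1 hp.2.1 hp.2.2
  have h1' : ∫ p in ell x ×ˢ (ell y ×ˢ ell z), (phi 0 (p.2.1.1 / p.2.1.2 - p.1.1 / p.1.2) +
        phi 0 (p.2.2.1 / p.2.2.2 - p.2.1.1 / p.2.1.2) +
        -phi 0 (p.2.2.1 / p.2.2.2 - p.1.1 / p.1.2)) =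
      (∫ p in ell x ×ˢ (ell y ×ˢ ell z), (phi 0 (p.2.1.1 / p.2.1.2 - p.1.1 / p.1.2) +
        phi 0 (p.2.2.1 / p.2.2.2 - p.2.1.1 / p.2.1.2))) +
      ∫ p in ell x ×ˢ (ell y ×ˢ ell z), -phi 0 (p.2.2.1 / p.2.2.2 - p.1.1 / p.1.2) :=
    integral_add (i1.add i2) i3.neg
  have h1'' : ∫ p in ell x ×ˢ (ell y ×ˢ ell z), (phi 0 (p.2.1.1 / p.2.1.2 - p.1.1 / p.1.2) +
        phi 0 (p.2.2.1 / p.2.2.2 - p.2.1.1 / p.2.1.2)) =
      (∫ p in ell x ×ˢ (ell y ×ˢ ell z), phi 0 (p.2.1.1 / p.2.1.2 - p.1.1 / p.1.2)) +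
      ∫ p in ell x ×ˢ (ell y ×ˢ ell z), phi 0 (p.2.2.1 / p.2.2.2 - p.2.1.1 / p.2.1.2) :=
    integral_add i1 i2
  rw [h1', h1'', integral_neg] at h1
  have t1 : ∫ p in ell x ×ˢ (ell y ×ˢ ell z), phi 0 (p.2.1.1 / p.2.1.2 - p.1.1 / p.1.2) =
      Real.pi * (2 * Real.pi ^ 2 * Real.arctan ((y.re - x.re) / (x.im + y.im))) := by
    rw [OA_triple x y z (fun u v _ => phi 0 (v.1 / v.2 - u.1 / u.2)) m1 Real.pi
      fun _ _ _ => phi_abs_le _ _, ← OA_pair]
    simp only [setIntegral_const, OA_ell_real, smul_eq_mul, integral_const_mul]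
  have t2 : ∫ p in ell x ×ˢ (ell y ×ˢ ell z), phi 0 (p.2.2.1 / p.2.2.2 - p.2.1.1 / p.2.1.2) =
      Real.pi * (2 * Real.pi ^ 2 * Real.arctan ((z.re - y.re) / (y.im + z.im))) := by
    rw [OA_triple x y z (fun _ v w => phi 0 (w.1 / w.2 - v.1 / v.2)) m2 Real.pi
      fun _ _ _ => phi_abs_le _ _, ← OA_pair]
    simp only [setIntegral_const, OA_ell_real, smul_eq_mul]
  have t3 : ∫ p in ell x ×ˢ (ell y ×ˢ ell z), phi 0 (p.2.2.1 / p.2.2.2 - p.1.1 / p.1.2) =
      Real.pi * (2 * Real.pi ^ 2 * Real.arctan ((z.re - x.re) / (x.im + z.im))) := by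
    rw [OA_triple x y z (fun u _ w => phi 0 (w.1 / w.2 - u.1 / u.2)) m3 Real.pi
      fun _ _ _ => phi_abs_le _ _, ← OA_pair]
    simp only [setIntegral_const, OA_ell_real, smul_eq_mul, integral_const_mul]
  rw [t1, t2, t3] at h1
  have h2 : Real.arctan ((x.re - z.re) / (z.im + x.im)) =
      -Real.arctan ((z.re - x.re) / (x.im + z.im)) := by
    rw [← Real.arctan_neg]
    congr 1
    rw [← neg_div]
    congr 1 <;> ring
  apply mul_left_cancel₀ hpi.ne'
  rw [h1, area, sarg_eq_arctan, sarg_eq_arctan, sarg_eq_arctan, h2]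
  ring

end SimplVol
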