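import Pool.Agent.H74.SV.Geo

/-!
# Module AF: the affine maps

`FunOnFinite.linearMap` is a sum over fibres; `faceMap p i t` is `t` with a `0` inserted at place `i`:
`faceMap p i t i = 0` and `faceMap p i t (i.succAbove k) = t k`. So
`∑ k, (if η k then faceMap p i t k else 0) = ∑ k, (if η (i.succAbove k) then t k else 0)`
(`Fin.sum_univ_succAbove`). The other statements are direct computations in coordinates
(`Subtype.ext`, `funext`, `fin_cases`). In `tri_vertex` use `col_vertex` and distinguish the four
cases of the two Boolean values: `sqMap (0, v)` = vertex `0`, `sqMap (1, 0)` = vertex `1`,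
`sqMap (1, 1)` = vertex `2`.
-/

set_option autoImplicit false

open scoped BigOperators Nat

namespace SimplVol

theorem AF_faceMap_apply {p : ℕ} (i : Fin (p + 1)) (t : stdSimplex ℝ (Fin p)) (j : Fin (p + 1)) :
    faceMap p i t j = ∑ k : Fin p with Fin.succAbove i k = j, t k := by
  show (stdSimplex.map (Fin.succAbove i) t) j = _
  rw [stdSimplex.map_coe, FunOnFinite.linearMap_apply_apply]

theorem faceMap_self {p : ℕ} (i : Fin (p + 1)) (t : stdSimplex ℝ (Fin p)) : faceMap p i t i = 0 := by
  rw [AF_faceMap_apply]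
  apply Finset.sum_eq_zero
  intro k hk
  rw [Finset.mem_filter] at hk
  exact absurd hk.2 (Fin.succAbove_ne i k)

theorem faceMap_succAbove {p : ℕ} (i : Fin (p + 1)) (t : stdSimplex ℝ (Fin p)) (k : Fin p) :
    faceMap p i t (i.succAbove k) = t k := by
  rw [AF_faceMap_apply]
  have : (Finset.univ.filter fun k' : Fin p => i.succAbove k' = i.succAbove k) = {k} := by
    ext k'
    simp
  rw [this, Finset.sum_singleton]

theorem AF_col_apply {p : ℕ} (η : Fin p → Bool) (t : stdSimplex ℝ (Fin p)) :
    ((col η t : unitInterval) : ℝ) = ∑ k, if η k = true then t k else 0 := rfl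

theorem col_face {p : ℕ} (η : Fin (p + 1) → Bool) (i : Fin (p + 1)) :
    (col η).comp (faceMap p i) = col fun k => η (i.succAbove k) := by
  apply ContinuousMap.ext
  intro t
  apply Subtype.ext
  rw [ContinuousMap.comp_apply, AF_col_apply, AF_col_apply, Fin.sum_univ_succAbove _ i,
    faceMap_self]
  simp only [ite_self, zero_add, faceMap_succAbove]

theorem col_vertex {p : ℕ} (η : Fin p → Bool) (i : Fin p) :
    col η (stdSimplex.vertex i) = if η i = true then 1 else 0 := by
  apply Subtype.ext
  rw [AF_col_apply, Finset.sum_eq_single i]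
  · rw [stdSimplex.vertex_coe, Pi.single_eq_same]
    split_ifs <;> rfl
  · intro k _ hk
    rw [stdSimplex.vertex_coe, Pi.single_eq_of_ne hk, ite_self]
  · intro h
    exact absurd (Finset.mem_univ i) h

theorem col_true {p : ℕ} (η : Fin p → Bool) (h : ∀ k, η k = true) (t : stdSimplex ℝ (Fin p)) :
    col η t = 1 := by
  apply Subtype.ext
  rw [AF_col_apply]
  simp only [h, if_true]
  exact stdSimplex.sum_eq_one t

theorem col_false {p : ℕ} (η : Fin p → Bool) (h : ∀ k, η k = false) (t : stdSimplex ℝ (Fin p)) :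
    col η t = 0 := by
  apply Subtype.ext
  rw [AF_col_apply]
  simp [h]

theorem AF_sqMap_apply (u v : unitInterval) (i : Fin 3) :
    sqMap (u, v) i = ![1 - (u : ℝ), (u : ℝ) * (1 - (v : ℝ)), (u : ℝ) * (v : ℝ)] i := rfl

theorem AF_edgeMap_apply (v : unitInterval) (i : Fin 2) :
    edgeMap v i = ![1 - (v : ℝ), (v : ℝ)] i := rfl

theorem sqMap_one_left (v : unitInterval) : sqMap (1, v) = faceMap 2 0 (edgeMap v) := by
  apply stdSimplex.ext
  funext k
  have h0 := faceMap_self 0 (edgeMap v)
  have h1 := faceMap_succAbove 0 (edgeMap v) 0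
  have h2 := faceMap_succAbove 0 (edgeMap v) 1
  rw [AF_edgeMap_apply] at h1 h2
  rw [AF_sqMap_apply]
  fin_cases k
  · simpa using h0.symm
  · simpa using h1.symm
  · simpa using h2.symm

theorem sqMap_zero_left (v v' : unitInterval) : sqMap (0, v) = sqMap (0, v') := by
  apply stdSimplex.ext
  funext k
  rw [AF_sqMap_apply, AF_sqMap_apply]
  fin_cases k <;> simp

theorem sqMap_one_right (u : unitInterval) : sqMap (u, 1) = faceMap 2 1 (edgeMap u) := by
  apply stdSimplex.ext
  funext k
  have h0 := faceMap_self 1 (edgeMap u)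
  have h1 := faceMap_succAbove 1 (edgeMap u) 0
  have h2 := faceMap_succAbove 1 (edgeMap u) 1
  rw [AF_edgeMap_apply] at h1 h2
  rw [AF_sqMap_apply]
  fin_cases k
  · simpa using h1.symm
  · simpa using h0.symm
  · simpa using h2.symm

theorem sqMap_zero_right (u : unitInterval) : sqMap (u, 0) = faceMap 2 2 (edgeMap u) := by
  apply stdSimplex.ext
  funext k
  have h0 := faceMap_self 2 (edgeMap u)
  have h1 := faceMap_succAbove 2 (edgeMap u) 0
  have h2 := faceMap_succAbove 2 (edgeMap u) 1
  rw [AF_edgeMap_apply] at h1 h2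
  rw [show (2 : Fin 3).succAbove 1 = 1 from rfl] at h2
  rw [AF_sqMap_apply]
  fin_cases k
  · simpa using h1.symm
  · simpa using h2.symm
  · simpa using h0.symm

theorem tri_face {n p : ℕ} (y : Fin (p + 1) → Fin (n * 2) → Bool) (j : Fin n) (i : Fin (p + 1)) :
    (tri y j).comp (faceMap p i) = tri (fun k => y (i.succAbove k)) j := by
  unfold tri
  have h0 := col_face (fun k => y k (finProdFinEquiv (j, 0))) i
  have h1 := col_face (fun k => y k (finProdFinEquiv (j, 1))) i
  show _ = sqMap.comp ((col fun k => (fun k => y k (finProdFinEquiv (j, 0))) (i.succAbove k)).prodMk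
        (col fun k => (fun k => y k (finProdFinEquiv (j, 1))) (i.succAbove k)))
  rw [← h0, ← h1]
  rfl

theorem tri_vertex {n p : ℕ} (y : Fin p → Fin (n * 2) → Bool) (j : Fin n) (i : Fin p) :
    tri y j (stdSimplex.vertex i) = stdSimplex.vertex (ty (y i) j) := by
  have e : tri y j (stdSimplex.vertex i)
      = sqMap (col (fun k => y k (finProdFinEquiv (j, 0))) (stdSimplex.vertex i),
        col (fun k => y k (finProdFinEquiv (j, 1))) (stdSimplex.vertex i)) := rfl
  rw [e, col_vertex, col_vertex]
  unfold ty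
  apply stdSimplex.ext
  funext k
  rw [AF_sqMap_apply, stdSimplex.vertex_coe]
  cases h0 : y i (finProdFinEquiv (j, 0)) <;> cases h1 : y i (finProdFinEquiv (j, 1)) <;>
    fin_cases k <;> simp

end SimplVol
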