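import Pool.Agent.H74.SV.WT

/-!
# Module FC: the coefficients of the facets

* `fc_congr`: column `a` of `y` does not occur.
* `fc_swap`: exchange the columns `a` and `b` of the matrix (`Matrix.det_permute` for columns or
  `Matrix.det_swap`...): the matrix for `b` and `y` with swapped columns is the matrix for `a` and
  `y` with the columns `a`, `b` exchanged.
* `fc_sum`: sum over all patterns `η` of column `b ≠ a`: the determinant is linear in column `b`,
  and `∑ η, wt η i = 0` (`wt_sum_pat`).
-/

set_option autoImplicit false

open scoped BigOperators Nat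

namespace SimplVol

theorem fc_congr (N : ℕ) (a : Fin N) (y y' : Fin N → Fin N → Bool)
    (h : ∀ k c, c ≠ a → y k c = y' k c) : fc N a y = fc N a y' := by
  unfold fc
  congr 2
  ext i c
  by_cases hc : c = a
  · simp [hc]
  · have : (fun k => y k c) = fun k => y' k c := funext fun k => h k c hc
    simp [hc, this]

theorem fc_swap (N : ℕ) (a b : Fin N) (hab : a ≠ b) (y : Fin N → Fin N → Bool) :
    fc N b (fun k c => y k (Equiv.swap a b c)) = - fc N a y := by
  unfold fc
  have key : (Matrix.of fun i c : Fin N => if c = b then (1 : ℝ) else
      wt (fun k => y k (Equiv.swap a b c)) i) =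
      (Matrix.of fun i c : Fin N => if c = a then (1 : ℝ) else
        wt (fun k => y k c) i).submatrix id (Equiv.swap a b) := by
    ext i c
    have hc : Equiv.swap a b c = a ↔ c = b := by
      constructor
      · intro h
        have := congrArg (Equiv.swap a b) h
        simpa using this
      · rintro rfl
        simp
    simp [Matrix.submatrix_apply, hc]
  rw [key, Matrix.det_permute', Equiv.Perm.sign_swap hab]
  simp

theorem fc_sum (N : ℕ) (a b : Fin N) (hab : b ≠ a) (y : Fin N → Fin N → Bool) :
    ∑ η : Fin N → Bool, fc N a (fun k => Function.update (y k) b (η k)) = 0 := by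
  unfold fc
  rw [← Finset.mul_sum]
  have key : ∑ η : Fin N → Bool, (Matrix.of fun i c : Fin N => if c = a then (1 : ℝ) else
      wt (fun k => Function.update (y k) b (η k) c) i).det = 0 := by
    simp_rw [Matrix.det_apply]
    rw [Finset.sum_comm]
    refine Finset.sum_eq_zero fun σ _ => ?_
    rw [← Finset.smul_sum]
    have h : ∀ η : Fin N → Bool,
        ∏ i, (Matrix.of fun i c : Fin N => if c = a then (1 : ℝ) else
          wt (fun k => Function.update (y k) b (η k) c) i) (σ i) i =
        (∏ i ∈ Finset.univ.erase b, if i = a then (1 : ℝ) else wt (fun k => y k i) (σ i)) *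
          wt η (σ b) := by
      intro η
      rw [← Finset.prod_erase_mul Finset.univ _ (Finset.mem_univ b)]
      congr 1
      · refine Finset.prod_congr rfl fun i hi => ?_
        have hib : i ≠ b := (Finset.mem_erase.mp hi).1
        simp [hib]
      · simp [hab]
    simp_rw [h]
    rw [← Finset.mul_sum, wt_sum_pat, mul_zero, smul_zero]
  rw [key, mul_zero]

end SimplVol
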