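import Pool.Agent.H74.SV.CE
import Pool.Agent.H74.SV.FC

/-!
# Module BB: the facets of the cube

Write `N = n * 2`, `a = (j, 0)`, `b = (j, 1)`.
* `facet0`: `ends` of the column `a` is `1` if the column is constant `true`, `-1` if it is constant
  `false`, `0` otherwise (`N ≥ 2`, so not both). The part with column `a` constant `true` is
  `edgeChain j σ (d₀ (σ j))` by `cell_true0`. In the part with column `a` constant `false`, the cell
  does not depend on the column `b` (`cell_false0`), and the sum of `fc N a y` over all patterns of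
  column `b` is `0` (`fc_sum`): so this part vanishes (group the `y` by their other columns, e.g. use
  that `∑_y F y = 2^{-N} ∑_y ∑_η F (y with column b replaced by η)`, `η : Fin N → Bool`,
  or `Fintype.sum_equiv` with the equivalence splitting off the column `b`, or `Finset.sum_fiberwise`).
* `facet1`: the part with column `b` constant `true`: by `cell_true1` it is
  `∑_y single (ecell j σ (d₁ (σ j)) (swapCols j y)) (fc N b y)`; substitute `y = swapCols j y'`
  (an involution): column `a` of `y'` is `true`, and `fc N b (swapCols j y') = - fc N a y'` by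
  `fc_swap`. The part with column `b` constant `false`: `- ∑_y single (ecell j σ (d₂ (σ j))
  (swapCols j y)) (fc N b y)`; replace column `b` of `y` by the constant `true` (`fc_congr` with
  `a := b`, and `ecell_congr`), then proceed as before: `+ edgeChain j σ (d₂ (σ j))`.
-/

set_option autoImplicit false

open scoped BigOperators Nat

namespace SimplVol

variable {n : ℕ} {Y : Fin n → Type} [∀ j, TopologicalSpace (Y j)]

theorem BB_sum_col {V : Type} [AddCommMonoid V] (N : ℕ) (c : Fin N)
    (G : (Fin N → Fin N → Bool) → V)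
    (h : ∀ y : Fin N → Fin N → Bool,
      ∑ η : Fin N → Bool, G (fun k => Function.update (y k) c (η k)) = 0) :
    ∑ y, G y = 0 := by
  let e : (Fin N → Fin N → Bool) ≃ (Fin N → Bool) × ({j // j ≠ c} → Fin N → Bool) :=
    (Equiv.piComm _).trans (Equiv.funSplitAt c (Fin N → Bool))
  rw [← e.symm.sum_comp, Fintype.sum_prod_type_right]
  refine Finset.sum_eq_zero fun r _ => ?_
  rw [← h (e.symm (fun _ => false, r))]
  refine Finset.sum_congr rfl fun η _ => ?_
  congr 1
  funext k c'
  by_cases hc : c' = c
  · subst hc
    simp [e, Equiv.funSplitAt, Equiv.piSplitAt, Equiv.piComm, Function.swap]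
  · simp [e, Equiv.funSplitAt, Equiv.piSplitAt, Equiv.piComm, Function.swap, hc]

theorem BB_ne (j : Fin n) : (finProdFinEquiv (j, (0 : Fin 2)) : Fin (n * 2)) ≠
    finProdFinEquiv (j, (1 : Fin 2)) := by
  intro h
  have := finProdFinEquiv.injective h
  simp at this

theorem facet0 (j : Fin n) (σ : ∀ j, Sing 3 (Y j)) :
    ∑ y : Fin (n * 2) → Fin (n * 2) → Bool,
        Finsupp.single (cell σ y) (ends (fun k => y k (finProdFinEquiv (j, 0))) *
          fc (n * 2) (finProdFinEquiv (j, 0)) y) =
      edgeChain j σ ((σ j).comp (faceMap 2 0)) := by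
  have h1 : ∀ y : Fin (n * 2) → Fin (n * 2) → Bool,
      Finsupp.single (cell σ y) (ends (fun k => y k (finProdFinEquiv (j, 0))) *
          fc (n * 2) (finProdFinEquiv (j, 0)) y) =
      (if ∀ k, y k (finProdFinEquiv (j, 0)) = true then
        Finsupp.single (ecell j σ ((σ j).comp (faceMap 2 0)) y)
          (fc (n * 2) (finProdFinEquiv (j, 0)) y) else 0) -
      (if ∀ k, y k (finProdFinEquiv (j, 0)) = false then
        Finsupp.single (cell σ y) (fc (n * 2) (finProdFinEquiv (j, 0)) y) else 0) := by
    intro y
    unfold ends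
    rw [sub_mul, Finsupp.single_sub]
    congr 1
    · split_ifs with h
      · rw [one_mul, cell_true0 j σ y h]
      · rw [zero_mul, Finsupp.single_zero]
    · split_ifs with h
      · rw [one_mul]
      · rw [zero_mul, Finsupp.single_zero]
  rw [Finset.sum_congr rfl fun y _ => h1 y, Finset.sum_sub_distrib]
  rw [BB_sum_col (n * 2) (finProdFinEquiv (j, (1 : Fin 2)))
    (fun y => if ∀ k, y k (finProdFinEquiv (j, 0)) = false then
        Finsupp.single (cell σ y) (fc (n * 2) (finProdFinEquiv (j, 0)) y) else 0), sub_zero]
  · rfl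
  · intro y
    have h2 : ∀ η : Fin (n * 2) → Bool, (∀ k, Function.update (y k)
        (finProdFinEquiv (j, (1 : Fin 2))) (η k) (finProdFinEquiv (j, 0)) = false) ↔
        ∀ k, y k (finProdFinEquiv (j, 0)) = false := by
      intro η
      refine forall_congr' fun k => ?_
      rw [Function.update_of_ne (BB_ne j)]
    by_cases hy : ∀ k, y k (finProdFinEquiv (j, 0)) = false
    · have h3 : ∀ η : Fin (n * 2) → Bool,
          (if ∀ k, Function.update (y k) (finProdFinEquiv (j, (1 : Fin 2))) (η k)
            (finProdFinEquiv (j, 0)) = false then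
          Finsupp.single (cell σ fun k => Function.update (y k)
            (finProdFinEquiv (j, (1 : Fin 2))) (η k))
            (fc (n * 2) (finProdFinEquiv (j, 0)) fun k => Function.update (y k)
              (finProdFinEquiv (j, (1 : Fin 2))) (η k)) else 0) =
          Finsupp.single (cell σ y) (fc (n * 2) (finProdFinEquiv (j, 0)) fun k =>
            Function.update (y k) (finProdFinEquiv (j, (1 : Fin 2))) (η k)) := by
        intro η
        rw [if_pos ((h2 η).2 hy), cell_false0 j σ (fun k => Function.update (y k)
            (finProdFinEquiv (j, (1 : Fin 2))) (η k)) y ((h2 η).2 hy)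
            (fun k c hc => Function.update_of_ne hc _ _)]
      rw [Finset.sum_congr rfl fun η _ => h3 η, ← Finsupp.single_finsetSum,
        fc_sum (n * 2) _ _ (BB_ne j).symm y, Finsupp.single_zero]
    · refine Finset.sum_eq_zero fun η _ => ?_
      rw [if_neg fun h => hy ((h2 η).1 h)]

theorem BB_swap_swap (j : Fin n) {p : ℕ} (y : Fin p → Fin (n * 2) → Bool) :
    swapCols j (swapCols j y) = y := by
  funext k c
  simp [swapCols]

theorem BB_sum_swap {V : Type} [AddCommMonoid V] (j : Fin n)
    (G : (Fin (n * 2) → Fin (n * 2) → Bool) → V) :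
    ∑ y, G y = ∑ y, G (swapCols j y) := by
  refine Fintype.sum_equiv ⟨swapCols j, swapCols j, BB_swap_swap j, BB_swap_swap j⟩ _ _ ?_
  intro y
  simp [BB_swap_swap]

theorem BB_sum_flip {V : Type} [AddCommMonoid V] (N : ℕ) (a : Fin N)
    (G : (Fin N → Fin N → Bool) → V) :
    ∑ y, G y = ∑ y : Fin N → Fin N → Bool, G (fun k => Function.update (y k) a (!y k a)) := by
  have hinv : ∀ y : Fin N → Fin N → Bool,
      (fun k => Function.update ((fun k => Function.update (y k) a (!y k a)) k) a
        (!(fun k => Function.update (y k) a (!y k a)) k a)) = y := by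
    intro y
    funext k
    simp
  let e : (Fin N → Fin N → Bool) ≃ (Fin N → Fin N → Bool) :=
    ⟨fun (y : Fin N → Fin N → Bool) k => Function.update (y k) a (!y k a),
      fun (y : Fin N → Fin N → Bool) k => Function.update (y k) a (!y k a), hinv, hinv⟩
  exact (e.sum_comp G).symm

theorem facet1 (j : Fin n) (σ : ∀ j, Sing 3 (Y j)) :
    ∑ y : Fin (n * 2) → Fin (n * 2) → Bool,
        Finsupp.single (cell σ y) (ends (fun k => y k (finProdFinEquiv (j, 1))) *
          fc (n * 2) (finProdFinEquiv (j, 1)) y) =
      edgeChain j σ ((σ j).comp (faceMap 2 2)) - edgeChain j σ ((σ j).comp (faceMap 2 1)) := by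
  rw [BB_sum_swap j]
  have h1 : ∀ y : Fin (n * 2) → Fin (n * 2) → Bool,
      Finsupp.single (cell σ (swapCols j y))
        (ends (fun k => swapCols j y k (finProdFinEquiv (j, 1))) *
          fc (n * 2) (finProdFinEquiv (j, 1)) (swapCols j y)) =
      (if ∀ k, y k (finProdFinEquiv (j, 0)) = false then
        Finsupp.single (ecell j σ ((σ j).comp (faceMap 2 2)) y)
          (fc (n * 2) (finProdFinEquiv (j, 0)) y) else 0) -
      (if ∀ k, y k (finProdFinEquiv (j, 0)) = true then
        Finsupp.single (ecell j σ ((σ j).comp (faceMap 2 1)) y)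
          (fc (n * 2) (finProdFinEquiv (j, 0)) y) else 0) := by
    intro y
    have h2 : ∀ k, swapCols j y k (finProdFinEquiv (j, 1)) = y k (finProdFinEquiv (j, 0)) := by
      intro k
      simp [swapCols]
    have h3 : fc (n * 2) (finProdFinEquiv (j, 1)) (swapCols j y) =
        - fc (n * 2) (finProdFinEquiv (j, 0)) y := fc_swap (n * 2) _ _ (BB_ne j) y
    have h4 : ends (fun k => swapCols j y k (finProdFinEquiv (j, 1))) *
          fc (n * 2) (finProdFinEquiv (j, 1)) (swapCols j y) =
        (if ∀ k, y k (finProdFinEquiv (j, 0)) = false then 1 else 0) *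
          fc (n * 2) (finProdFinEquiv (j, 0)) y -
        (if ∀ k, y k (finProdFinEquiv (j, 0)) = true then 1 else 0) *
          fc (n * 2) (finProdFinEquiv (j, 0)) y := by
      unfold ends
      simp only [h2, h3]
      ring
    rw [h4, Finsupp.single_sub]
    congr 1
    · split_ifs with h
      · rw [one_mul, cell_false1 j σ (swapCols j y) (fun k => (h2 k).trans (h k)), BB_swap_swap]
      · rw [zero_mul, Finsupp.single_zero]
    · split_ifs with h
      · rw [one_mul, cell_true1 j σ (swapCols j y) (fun k => (h2 k).trans (h k)), BB_swap_swap]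
      · rw [zero_mul, Finsupp.single_zero]
  rw [Finset.sum_congr rfl fun y _ => h1 y, Finset.sum_sub_distrib]
  congr 1
  rw [BB_sum_flip (n * 2) (finProdFinEquiv (j, 0))]
  unfold edgeChain
  refine Finset.sum_congr rfl fun y _ => ?_
  have h5 : (∀ k, Function.update (y k) (finProdFinEquiv (j, (0 : Fin 2)))
      (!y k (finProdFinEquiv (j, 0))) (finProdFinEquiv (j, 0)) = false) ↔
      ∀ k, y k (finProdFinEquiv (j, 0)) = true := by
    refine forall_congr' fun k => ?_
    rw [Function.update_self]
    simp
  have h6 : ecell j σ ((σ j).comp (faceMap 2 2)) (fun k => Function.update (y k)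
      (finProdFinEquiv (j, (0 : Fin 2))) (!y k (finProdFinEquiv (j, 0)))) =
      ecell j σ ((σ j).comp (faceMap 2 2)) y :=
    ecell_congr j σ _ _ _ fun k c hc => Function.update_of_ne hc _ _
  have h7 : fc (n * 2) (finProdFinEquiv (j, 0)) (fun k => Function.update (y k)
      (finProdFinEquiv (j, (0 : Fin 2))) (!y k (finProdFinEquiv (j, 0)))) =
      fc (n * 2) (finProdFinEquiv (j, 0)) y :=
    fc_congr _ _ _ _ fun k c hc => Function.update_of_ne hc _ _
  rw [h6, h7]
  exact if_congr h5 rfl rfl

end SimplVol
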