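import Pool.Agent.H74.SV.BA
import Pool.Agent.H74.SV.BB

/-!
# Module BC: the boundary of the chain of the cube

`boundary_cubeChain_aux`, exchange the sums over `y` and `a`, split the sum over `a : Fin (n * 2)`
into the sums over `(j, 0)` and `(j, 1)` (`finProdFinEquiv`, `Fintype.sum_prod_type`,
`Fin.sum_univ_two`), and use `facet0`, `facet1`. The case `n = 0` does not occur.
-/

set_option autoImplicit false

open scoped BigOperators Nat

namespace SimplVol

variable {n : ℕ} {Y : Fin n → Type} [∀ j, TopologicalSpace (Y j)]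

theorem boundary_cubeChain (hn : 1 ≤ n) (σ : ∀ j, Sing 3 (Y j)) :
    boundary (n * 2) _ (cubeChain σ) =
      ∑ j, ∑ i : Fin 3, (-1 : ℝ) ^ (i : ℕ) • edgeChain j σ ((σ j).comp (faceMap 2 i)) := by
  rw [boundary_cubeChain_aux hn]
  have h1 : ∀ y : Fin (n * 2) → Fin (n * 2) → Bool,
      Finsupp.single (cell σ y) (∑ a, ends (fun k => y k a) * fc (n * 2) a y) =
        ∑ a, Finsupp.single (cell σ y) (ends (fun k => y k a) * fc (n * 2) a y) :=
    fun y => map_sum (Finsupp.singleAddHom (cell σ y)) _ _
  rw [Finset.sum_congr rfl (fun y _ => h1 y), Finset.sum_comm]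
  rw [← finProdFinEquiv.sum_comp, Fintype.sum_prod_type]
  refine Finset.sum_congr rfl fun j _ => ?_
  rw [Fin.sum_univ_two, facet0, facet1, Fin.sum_univ_three]
  simp only [Fin.coe_ofNat_eq_mod, Nat.zero_mod, pow_zero, one_smul, Nat.one_mod, pow_one,
    neg_smul, Nat.mod_succ, even_two, Even.neg_pow, one_pow]
  abel

end SimplVol
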