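import Pool.Agent.H74.SV.LF

/-!
# Module CP: pairing of chains with invariant cochains

`vtx Γ σ i j` is the `i`-th vertex of the lift of the `j`-th component of `σ`; `pairF Γ F w = ∑_σ w σ F (vtx Γ σ)`.
* `vtx_face`: `(proj Γ j).comp (σ.comp (faceMap p i)) = ((proj Γ j).comp σ).comp (faceMap p i)`. If `τ` is a lift
  of `(proj Γ j).comp σ` (`exists_lift`), `τ.comp (faceMap p i)` is a lift of the face, and
  `faceMap p i (vertex l) = vertex (i.succAbove l)` (`stdSimplex.map_vertex`); apply `liftVert_spec` twice: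
  the two differ by an element `γ' γ⁻¹` of `Γ j`.
* `pairF_coboundary`: if `F x = ∑_i (-1)^i B (x ∘ i.succAbove)` with `B` invariant, then
  `pairF Γ F w = pairF Γ B (boundary p _ w)` (linear in `w`, so check `w = single σ a`, using `vtx_face`);
  so it is `0` for a cycle. (`Finsupp.induction_linear`; or `Finsupp.lhom_ext`, writing `pairF` as
  a linear map.)
-/

set_option autoImplicit false

open scoped BigOperators Nat UpperHalfPlane MatrixGroups

namespace SimplVol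

/-- The vertices of the lifts of the components of a singular simplex. -/
noncomputable def vtx {n : ℕ} (Γ : Fin n → Subgroup SL(2, ℝ)) {p : ℕ}
    (σ : Sing p (∀ j, Surf (Γ j))) : Fin p → Fin n → ℍ :=
  fun i j => liftVert (Γ j) ((proj Γ j).comp σ) i

/-- The pairing with a function of the vertices. -/
noncomputable def pairF {n : ℕ} (Γ : Fin n → Subgroup SL(2, ℝ)) {p : ℕ}
    (F : (Fin p → Fin n → ℍ) → ℝ) (w : Chain p (∀ j, Surf (Γ j))) : ℝ :=
  w.sum fun σ a => a * F (vtx Γ σ)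

theorem vtx_face {n : ℕ} (Γ : Fin n → Subgroup SL(2, ℝ)) (hΓ : ∀ j, IsSurfaceGroup (Γ j)) {p : ℕ}
    (σ : Sing (p + 1) (∀ j, Surf (Γ j))) (i : Fin (p + 1)) :
    ∃ g : Fin n → SL(2, ℝ), vtx Γ (σ.comp (faceMap p i)) =
      fun l j => g j • vtx Γ σ (i.succAbove l) j := by
  have H : ∀ j, ∃ g : SL(2, ℝ), ∀ l, vtx Γ (σ.comp (faceMap p i)) l j =
      g • vtx Γ σ (i.succAbove l) j := by
    intro j
    obtain ⟨τ, hτ⟩ := exists_lift (Γ j) (hΓ j) ((proj Γ j).comp σ)
    obtain ⟨γ, hγ⟩ := liftVert_spec (Γ j) (hΓ j) ((proj Γ j).comp σ) τ hτ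
    obtain ⟨γ', hγ'⟩ := liftVert_spec (Γ j) (hΓ j) ((proj Γ j).comp (σ.comp (faceMap p i)))
      (τ.comp (faceMap p i)) (fun t => hτ (faceMap p i t))
    refine ⟨((γ' * γ⁻¹ : Γ j) : SL(2, ℝ)), fun l => ?_⟩
    have h1 : vtx Γ (σ.comp (faceMap p i)) l j = γ' • τ (faceMap p i (stdSimplex.vertex l)) := hγ' l
    have h2 : vtx Γ σ (i.succAbove l) j = γ • τ (stdSimplex.vertex (i.succAbove l)) :=
      hγ (i.succAbove l)
    have h3 : faceMap p i (stdSimplex.vertex l) = stdSimplex.vertex (i.succAbove l) :=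
      stdSimplex.map_vertex _ _
    rw [h1, h2, h3]
    change γ' • τ (stdSimplex.vertex (i.succAbove l)) =
      (γ' * γ⁻¹) • γ • τ (stdSimplex.vertex (i.succAbove l))
    rw [mul_smul, inv_smul_smul]
  choose g hg using H
  exact ⟨g, funext fun l => funext fun j => hg j l⟩

/-- `pairF` as a linear map. -/
noncomputable def CP_lin {n : ℕ} (Γ : Fin n → Subgroup SL(2, ℝ)) {p : ℕ}
    (F : (Fin p → Fin n → ℍ) → ℝ) : Chain p (∀ j, Surf (Γ j)) →ₗ[ℝ] ℝ :=
  Finsupp.linearCombination ℝ fun σ => F (vtx Γ σ)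

theorem CP_lin_apply {n : ℕ} (Γ : Fin n → Subgroup SL(2, ℝ)) {p : ℕ}
    (F : (Fin p → Fin n → ℍ) → ℝ) (w : Chain p (∀ j, Surf (Γ j))) :
    CP_lin Γ F w = pairF Γ F w := by
  rw [CP_lin, Finsupp.linearCombination_apply]
  rfl

theorem pairF_coboundary {n : ℕ} (Γ : Fin n → Subgroup SL(2, ℝ))
    (hΓ : ∀ j, IsSurfaceGroup (Γ j)) {p : ℕ} (B : (Fin p → Fin n → ℍ) → ℝ)
    (hB : ∀ (g : Fin n → SL(2, ℝ)) x, B (fun i j => g j • x i j) = B x)
    (w : Chain (p + 1) (∀ j, Surf (Γ j))) (hw : boundary p _ w = 0) :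
    pairF Γ (fun x => ∑ i : Fin (p + 1), (-1 : ℝ) ^ (i : ℕ) * B (fun l => x (i.succAbove l))) w =
      0 := by
  have key : CP_lin Γ (fun x => ∑ i : Fin (p + 1), (-1 : ℝ) ^ (i : ℕ) *
      B (fun l => x (i.succAbove l))) = (CP_lin Γ B) ∘ₗ (boundary p (∀ j, Surf (Γ j))) := by
    refine Finsupp.lhom_ext fun σ a => ?_
    rw [LinearMap.comp_apply, CP_lin, boundary, Finsupp.linearCombination_single,
      Finsupp.linearCombination_single, map_smul, map_sum]
    congr 1
    refine Finset.sum_congr rfl fun i _ => ?_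
    rw [map_smul, CP_lin, Finsupp.linearCombination_single, one_smul, smul_eq_mul]
    congr 1
    obtain ⟨g, hg⟩ := vtx_face Γ hΓ σ i
    rw [hg]
    exact (hB g _).symm
  rw [← CP_lin_apply, key, LinearMap.comp_apply, hw, map_zero]

end SimplVol
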