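import Pool.Agent.H74.SV.WT

/-!
# Module EV: the volume of the chain of the cube

`N = n * 2`. `or3 (ty y₀) (ty y₁) (ty y₂)` is the determinant of `(E₁ y₁ - E₁ y₀, E₂ y₂ - E₂ y₀; …)`
with `E₁ = 1[ty = 1] = u (1-v)`, `E₂ = 1[ty = 2] = u v`, so
`∑_σ sgn σ ∏_j or3 … = 2^n det [E₁ʲ(i) - E₁ʲ(0), E₂ʲ(i) - E₂ʲ(0)]_{i = 1..N}
 = 2^n det [1, …, E₁ʲ, E₂ʲ, …]_{i = 0..N} = 2^n det [1, …, uʲ, uʲ vʲ, …]`
(expanding each of the `n` two-term products, the two terms give the same after the substitution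
`σ → σ ∘ swap`, and adding column `E₂ʲ` to column `E₁ʲ`). So `wvol n y = (2^n/N!) det [1, uʲ, uʲvʲ]`.
Multiply by `cub N y = det [1, wt (u¹), wt (v¹), …]/(N+1)`, expand both determinants and sum over `y`:
`∑_{σ,τ} sgn σ sgn τ ∏_j (∑_u wt u (σ(j0)) u_{τ(j0)} u_{τ(j1)}) (∑_v wt v (σ(j1)) v_{τ(j1)})`.
Let `a = σ(j0)`, `b = σ(j1)`, `c = τ(j0)`, `d = τ(j1)`, so `a ≠ b`, `c ≠ d`.
* `∑_v wt v b v_d` is `0` if `d ≠ b` (flip `v_b`), and `1` if `d = b`
  (`∑_P choose N P * P! (N-P)!/(N+1)! = 1`).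
* then `d = b ≠ a`; `∑_u wt u a u_c u_d` is `0` if `a ≠ c` (flip `u_a`), and if `a = c` it is
  `∑_{P ≥ 1} choose (N-1) (P-1) * P! (N-P)!/(N+1)! = 1/2`.
So only `τ = σ` contributes: `∑_y det det = (N+1)!/2^n`, and
`∑_y cub wvol = (1/(N+1)) (2^n/N!) (N+1)!/2^n = 1`.
-/

set_option autoImplicit false

open scoped BigOperators Nat

namespace SimplVol

/-- indicator -/
noncomputable def EV_ind (b : Bool) : ℝ := if b = true then 1 else 0

/-- flip the entry `i` -/
def EV_flip {m : ℕ} (i : Fin m) : (Fin m → Bool) ≃ (Fin m → Bool) :=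
  Function.Involutive.toPerm (fun v => Function.update v i (!v i)) (by
    intro v
    simp)

theorem EV_flip_apply {m : ℕ} (i : Fin m) (v : Fin m → Bool) :
    EV_flip i v = Function.update v i (!v i) := rfl

theorem EV_flip_sum {m : ℕ} (i : Fin m) (g : (Fin m → Bool) → ℝ) (hg : ∀ v, g (EV_flip i v) = g v) :
    ∑ v : Fin m → Bool, wt v i * g v = 0 := by
  have h : ∑ v : Fin m → Bool, wt v i * g v = ∑ v : Fin m → Bool, -(wt v i * g v) := by
    rw [← Equiv.sum_comp (EV_flip i) (fun v => wt v i * g v)]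
    refine Finset.sum_congr rfl fun v _ => ?_
    rw [hg, EV_flip_apply, wt_flip]
    ring
  rw [Finset.sum_neg_distrib] at h
  linarith

theorem EV_ends_sum {m : ℕ} (d : Fin m) (g : (Fin m → Bool) → ℝ) (hg1 : g (fun _ => true) = 1)
    (hg0 : g (fun _ => false) = 0) : ∑ v : Fin m → Bool, ends v * g v = 1 := by
  rw [Finset.sum_eq_single (fun _ => true)]
  · rw [hg1]
    have : Nonempty (Fin m) := ⟨d⟩
    simp [ends]
  · intro v _ hv
    have h1 : ¬ ∀ k, v k = true := fun h => hv (funext h)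
    by_cases h2 : ∀ k, v k = false
    · have : v = fun _ => false := funext h2
      rw [this, hg0, mul_zero]
    · unfold ends
      rw [if_neg h1, if_neg h2]
      simp
  · intro h
    exact absurd (Finset.mem_univ _) h

theorem EV_V {m : ℕ} (b d : Fin m) :
    ∑ v : Fin m → Bool, wt v b * EV_ind (v d) = if b = d then 1 else 0 := by
  have hne : ∀ i : Fin m, i ≠ d → ∑ v : Fin m → Bool, wt v i * EV_ind (v d) = 0 := by
    intro i hi
    refine EV_flip_sum i (fun v => EV_ind (v d)) ?_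
    intro v
    simp only [EV_flip_apply]
    rw [Function.update_of_ne (Ne.symm hi)]
  split_ifs with h
  · subst h
    have hm : 0 < m := b.pos
    have h1 : ∑ v : Fin m → Bool, ends v * EV_ind (v b) = 1 :=
      EV_ends_sum b (fun v => EV_ind (v b)) (by simp [EV_ind]) (by simp [EV_ind])
    have h2 : ∑ v : Fin m → Bool, ends v * EV_ind (v b)
        = ∑ i : Fin m, ∑ v : Fin m → Bool, wt v i * EV_ind (v b) := by
      rw [Finset.sum_comm]
      refine Finset.sum_congr rfl fun v _ => ?_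
      rw [← wt_sum hm v, Finset.sum_mul]
    rw [Finset.sum_eq_single b (fun i _ hi => hne i hi) (fun h => absurd (Finset.mem_univ _) h)] at h2
    rw [← h2, h1]
  · exact hne b h

theorem EV_U {m : ℕ} (a c d : Fin m) (hcd : c ≠ d) (had : a ≠ d) :
    ∑ u : Fin m → Bool, wt u a * (EV_ind (u c) * EV_ind (u d)) = if a = c then 1 / 2 else 0 := by
  have hne : ∀ i : Fin m, i ≠ c → i ≠ d →
      ∑ u : Fin m → Bool, wt u i * (EV_ind (u c) * EV_ind (u d)) = 0 := by
    intro i hic hid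
    refine EV_flip_sum i (fun u => EV_ind (u c) * EV_ind (u d)) ?_
    intro v
    simp only [EV_flip_apply]
    rw [Function.update_of_ne (Ne.symm hic), Function.update_of_ne (Ne.symm hid)]
  split_ifs with h
  · subst h
    have hm : 0 < m := a.pos
    have h1 : ∑ v : Fin m → Bool, ends v * (EV_ind (v a) * EV_ind (v d)) = 1 :=
      EV_ends_sum a (fun v => EV_ind (v a) * EV_ind (v d)) (by simp [EV_ind]) (by simp [EV_ind])
    have h2 : ∑ v : Fin m → Bool, ends v * (EV_ind (v a) * EV_ind (v d))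
        = ∑ i : Fin m, ∑ v : Fin m → Bool, wt v i * (EV_ind (v a) * EV_ind (v d)) := by
      rw [Finset.sum_comm]
      refine Finset.sum_congr rfl fun v _ => ?_
      rw [← wt_sum hm v, Finset.sum_mul]
    have h3 : ∑ i : Fin m, ∑ v : Fin m → Bool, wt v i * (EV_ind (v a) * EV_ind (v d))
        = ∑ v : Fin m → Bool, wt v a * (EV_ind (v a) * EV_ind (v d))
          + ∑ v : Fin m → Bool, wt v d * (EV_ind (v a) * EV_ind (v d)) := by
      rw [← Finset.sum_pair (f := fun i => ∑ v : Fin m → Bool, wt v i * (EV_ind (v a) * EV_ind (v d))) had]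
      symm
      refine Finset.sum_subset (Finset.subset_univ _) ?_
      intro i _ hi
      simp only [Finset.mem_insert, Finset.mem_singleton, not_or] at hi
      exact hne i hi.1 hi.2
    have h4 : ∑ v : Fin m → Bool, wt v d * (EV_ind (v a) * EV_ind (v d))
        = ∑ v : Fin m → Bool, wt v a * (EV_ind (v a) * EV_ind (v d)) := by
      rw [← Equiv.sum_comp (Equiv.arrowCongr (Equiv.swap a d) (Equiv.refl Bool))
        (fun v => wt v d * (EV_ind (v a) * EV_ind (v d)))]
      refine Finset.sum_congr rfl fun v _ => ?_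
      have e1 : (Equiv.arrowCongr (Equiv.swap a d) (Equiv.refl Bool)) v = v ∘ (Equiv.swap a d) := by
        funext k
        simp [Equiv.arrowCongr]
      rw [e1, wt_perm]
      simp only [Function.comp, Equiv.swap_apply_left, Equiv.swap_apply_right]
      ring
    rw [h3, h4] at h2
    rw [h1] at h2
    linarith
  · exact hne a h had

theorem EV_L1 (n : ℕ) (B : Matrix (Fin (n * 2)) (Fin n × Fin 2) ℝ) :
    ∑ σ : Equiv.Perm (Fin (n * 2)), ((Equiv.Perm.sign σ : ℤ) : ℝ) *
      ∏ j : Fin n, (B (σ (finProdFinEquiv (j, 0))) (j, 0) * B (σ (finProdFinEquiv (j, 1))) (j, 1)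
        - B (σ (finProdFinEquiv (j, 0))) (j, 1) * B (σ (finProdFinEquiv (j, 1))) (j, 0))
      = 2 ^ n * (B.submatrix id (finProdFinEquiv (m := n) (n := 2)).symm).det := by
  classical
  set e := finProdFinEquiv (m := n) (n := 2) with he
  have h2 : ∀ (σ : Equiv.Perm (Fin (n * 2))) (j : Fin n),
      (B (σ (e (j, 0))) (j, 0) * B (σ (e (j, 1))) (j, 1)
        - B (σ (e (j, 0))) (j, 1) * B (σ (e (j, 1))) (j, 0))
      = ∑ s : Equiv.Perm (Fin 2), ((Equiv.Perm.sign s : ℤ) : ℝ) *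
        ∏ k : Fin 2, B (σ (e (j, k))) (j, s k) := by
    intro σ j
    have h3 := Matrix.det_apply' (Matrix.of fun (k l : Fin 2) => B (σ (e (j, l))) (j, k))
    rw [Matrix.det_fin_two] at h3
    simp only [Matrix.of_apply] at h3
    rw [← h3]
    ring
  have h4 : ∀ σ : Equiv.Perm (Fin (n * 2)),
      ∏ j : Fin n, (B (σ (e (j, 0))) (j, 0) * B (σ (e (j, 1))) (j, 1)
        - B (σ (e (j, 0))) (j, 1) * B (σ (e (j, 1))) (j, 0))
      = ∑ s : Fin n → Equiv.Perm (Fin 2), ∏ j : Fin n, (((Equiv.Perm.sign (s j) : ℤ) : ℝ) *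
        ∏ k : Fin 2, B (σ (e (j, k))) (j, s j k)) := by
    intro σ
    rw [Finset.prod_congr rfl fun j _ => h2 σ j]
    rw [Finset.prod_univ_sum, Fintype.piFinset_univ]
  simp only [h4, Finset.mul_sum]
  rw [Finset.sum_comm]
  have h5 : ∀ s : Fin n → Equiv.Perm (Fin 2),
      ∑ σ : Equiv.Perm (Fin (n * 2)), ((Equiv.Perm.sign σ : ℤ) : ℝ) *
        ∏ j : Fin n, (((Equiv.Perm.sign (s j) : ℤ) : ℝ) * ∏ k : Fin 2, B (σ (e (j, k))) (j, s j k))
      = (B.submatrix id e.symm).det := by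
    intro s
    set π : Equiv.Perm (Fin n × Fin 2) := Equiv.prodCongrRight s with hπ
    set ρ : Equiv.Perm (Fin (n * 2)) := e.permCongr π with hρ
    have hsign : Equiv.Perm.sign ρ = ∏ j, Equiv.Perm.sign (s j) := by
      rw [hρ, Equiv.Perm.sign_permCongr, hπ, Equiv.Perm.sign_prodCongrRight]
    have h6 : ∀ σ : Equiv.Perm (Fin (n * 2)), ((Equiv.Perm.sign σ : ℤ) : ℝ) *
        ∏ j : Fin n, (((Equiv.Perm.sign (s j) : ℤ) : ℝ) * ∏ k : Fin 2, B (σ (e (j, k))) (j, s j k))
        = ((Equiv.Perm.sign (σ * ρ⁻¹) : ℤ) : ℝ) *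
          ∏ c : Fin (n * 2), (B.submatrix id e.symm) ((σ * ρ⁻¹) c) c := by
      intro σ
      rw [Finset.prod_mul_distrib]
      have h7 : ∏ j : Fin n, ∏ k : Fin 2, B (σ (e (j, k))) (j, s j k)
          = ∏ c : Fin (n * 2), (B.submatrix id e.symm) ((σ * ρ⁻¹) c) c := by
        rw [← Equiv.prod_comp ρ, ← Equiv.prod_comp e, Fintype.prod_prod_type]
        refine Finset.prod_congr rfl fun j _ => Finset.prod_congr rfl fun k _ => ?_
        have e8 : ρ (e (j, k)) = e (j, s j k) := by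
          simp [hρ, hπ, Equiv.permCongr_apply]
        have e9 : (σ * ρ⁻¹) (ρ (e (j, k))) = σ (e (j, k)) := by
          simp [Equiv.Perm.mul_apply]
        rw [e9, e8]
        simp
      rw [h7, Equiv.Perm.sign_mul, Equiv.Perm.sign_inv, hsign]
      push_cast
      ring
    rw [Finset.sum_congr rfl fun σ _ => h6 σ]
    rw [Matrix.det_apply']
    exact Equiv.sum_comp (Equiv.mulRight ρ⁻¹) (fun τ : Equiv.Perm (Fin (n * 2)) =>
      ((Equiv.Perm.sign τ : ℤ) : ℝ) * ∏ c : Fin (n * 2), (B.submatrix id e.symm) (τ c) c)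
  rw [Finset.sum_congr rfl fun s _ => h5 s]
  rw [Finset.sum_const, Finset.card_univ, Fintype.card_fun, Fintype.card_fin, Fintype.card_perm,
    Fintype.card_fin]
  simp [nsmul_eq_mul, Nat.factorial]

theorem EV_L2 (N : ℕ) (A : Fin (N + 1) → Fin N → ℝ) :
    (Matrix.of fun i c : Fin N => A i.succ c - A 0 c).det
      = (Matrix.of fun i c : Fin (N + 1) => Fin.cases (motive := fun _ => ℝ) 1 (fun c' => A i c') c).det := by
  classical
  set M : Matrix (Fin (N + 1)) (Fin (N + 1)) ℝ :=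
    Matrix.of fun i c : Fin (N + 1) => Fin.cases (motive := fun _ => ℝ) 1 (fun c' => A i c') c with hM
  set M' : Matrix (Fin (N + 1)) (Fin (N + 1)) ℝ :=
    Matrix.of fun i c : Fin (N + 1) => if i = 0 then M 0 c else M i c - M 0 c with hM'
  have h1 : M.det = M'.det := by
    refine Matrix.det_eq_of_forall_row_eq_smul_add_const (fun i => if i = 0 then 0 else 1) 0 (by simp) ?_
    intro i j
    by_cases hi : i = 0
    · subst hi; simp [hM']
    · simp [hM', hi]
  rw [h1, Matrix.det_succ_column_zero, Fin.sum_univ_succ]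
  have h2 : ∀ i : Fin N, M' i.succ 0 = 0 := by
    intro i
    simp [hM', hM, Fin.succ_ne_zero]
  simp only [h2]
  have h3 : M' 0 0 = 1 := by simp [hM', hM]
  rw [h3]
  simp only [Fin.val_zero, pow_zero, one_mul, mul_zero, zero_mul, Finset.sum_const_zero, add_zero]
  rfl

/-- the matrix of the columns `u`, `u v` -/
noncomputable def EV_A {n : ℕ} (y : Fin (n * 2 + 1) → Fin (n * 2) → Bool) (i : Fin (n * 2 + 1))
    (p : Fin n × Fin 2) : ℝ :=
  if p.2 = 0 then EV_ind (y i (finProdFinEquiv (p.1, 0)))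
  else EV_ind (y i (finProdFinEquiv (p.1, 0))) * EV_ind (y i (finProdFinEquiv (p.1, 1)))

theorem EV_or3 {n : ℕ} (y0 y1 y2 : Fin (n * 2) → Bool) (j : Fin n) :
    or3 (ty y0 j) (ty y1 j) (ty y2 j)
      = (EV_ind (y1 (finProdFinEquiv (j, 0))) - EV_ind (y0 (finProdFinEquiv (j, 0)))) *
          (EV_ind (y2 (finProdFinEquiv (j, 0))) * EV_ind (y2 (finProdFinEquiv (j, 1)))
            - EV_ind (y0 (finProdFinEquiv (j, 0))) * EV_ind (y0 (finProdFinEquiv (j, 1))))
        - (EV_ind (y1 (finProdFinEquiv (j, 0))) * EV_ind (y1 (finProdFinEquiv (j, 1)))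
            - EV_ind (y0 (finProdFinEquiv (j, 0))) * EV_ind (y0 (finProdFinEquiv (j, 1)))) *
          (EV_ind (y2 (finProdFinEquiv (j, 0))) - EV_ind (y0 (finProdFinEquiv (j, 0)))) := by
  unfold ty
  generalize y0 (finProdFinEquiv (j, 0)) = a0
  generalize y0 (finProdFinEquiv (j, 1)) = a1
  generalize y1 (finProdFinEquiv (j, 0)) = b0
  generalize y1 (finProdFinEquiv (j, 1)) = b1
  generalize y2 (finProdFinEquiv (j, 0)) = c0
  generalize y2 (finProdFinEquiv (j, 1)) = c1
  cases a0 <;> cases a1 <;> cases b0 <;> cases b1 <;> cases c0 <;> cases c1 <;>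
    simp [or3, EV_ind]

theorem EV_det (N : ℕ) (G : Fin (N + 1) → Fin N → ℝ) :
    (Matrix.of fun i c : Fin (N + 1) => Fin.cases (motive := fun _ => ℝ) 1 (fun c' => G i c') c).det
      = ∑ σ : Equiv.Perm (Fin (N + 1)), ((Equiv.Perm.sign σ : ℤ) : ℝ) * ∏ c : Fin N, G (σ c.succ) c := by
  rw [Matrix.det_apply']
  refine Finset.sum_congr rfl fun σ _ => ?_
  rw [Fin.prod_univ_succ]
  simp

theorem EV_wvol (n : ℕ) (y : Fin (n * 2 + 1) → Fin (n * 2) → Bool) :
    wvol n y = (1 / ((n * 2)! : ℝ)) * (2 ^ n * ∑ τ : Equiv.Perm (Fin (n * 2 + 1)),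
      ((Equiv.Perm.sign τ : ℤ) : ℝ) * ∏ c : Fin (n * 2), EV_A y (τ c.succ) (finProdFinEquiv.symm c)) := by
  unfold wvol
  congr 1
  rw [← EV_det (n * 2) (fun i c => EV_A y i (finProdFinEquiv.symm c)),
    ← EV_L2 (n * 2) (fun i c => EV_A y i (finProdFinEquiv.symm c))]
  have h1 := EV_L1 n (Matrix.of fun i p => EV_A y i.succ p - EV_A y 0 p)
  have h2 : (Matrix.of fun (i : Fin (n * 2)) (p : Fin n × Fin 2) => EV_A y i.succ p - EV_A y 0 p).submatrix
      id (finProdFinEquiv (m := n) (n := 2)).symm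
      = Matrix.of fun i c : Fin (n * 2) => EV_A y i.succ (finProdFinEquiv.symm c)
        - EV_A y 0 (finProdFinEquiv.symm c) := by
    ext i c
    simp
  rw [h2] at h1
  rw [← h1]
  refine Finset.sum_congr rfl fun σ _ => ?_
  congr 1
  refine Finset.prod_congr rfl fun j _ => ?_
  rw [EV_or3]
  simp [EV_A]

theorem EV_cub (N : ℕ) (y : Fin (N + 1) → Fin N → Bool) :
    cub N y = (1 / ((N : ℝ) + 1)) * ∑ σ : Equiv.Perm (Fin (N + 1)), ((Equiv.Perm.sign σ : ℤ) : ℝ) *
      ∏ c : Fin N, wt (fun k => y k c) (σ c.succ) := by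
  unfold cub
  rw [← EV_det N (fun i c => wt (fun k => y k c) i)]
  rfl

/-- the columns of `y` -/
def EV_cols {n m : ℕ} : (Fin m → Fin (n * 2) → Bool) ≃ (Fin n → (Fin m → Bool) × (Fin m → Bool)) where
  toFun y j := (fun k => y k (finProdFinEquiv (j, 0)), fun k => y k (finProdFinEquiv (j, 1)))
  invFun g k c := if (finProdFinEquiv.symm c).2 = 0 then (g (finProdFinEquiv.symm c).1).1 k
    else (g (finProdFinEquiv.symm c).1).2 k
  left_inv y := by
    funext k c
    obtain ⟨⟨j, l⟩, rfl⟩ := finProdFinEquiv.surjective c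
    fin_cases l <;> simp
  right_inv g := by
    funext j
    simp

theorem EV_ysum {n m : ℕ} (f : Fin n → (Fin m → Bool) → (Fin m → Bool) → ℝ) :
    ∑ y : Fin m → Fin (n * 2) → Bool,
      ∏ j : Fin n, f j (fun k => y k (finProdFinEquiv (j, 0))) (fun k => y k (finProdFinEquiv (j, 1)))
      = ∏ j : Fin n, ∑ u : Fin m → Bool, ∑ v : Fin m → Bool, f j u v := by
  classical
  have h1 : ∀ j : Fin n, ∑ u : Fin m → Bool, ∑ v : Fin m → Bool, f j u v
      = ∑ p : (Fin m → Bool) × (Fin m → Bool), f j p.1 p.2 := by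
    intro j
    rw [Fintype.sum_prod_type]
  rw [Finset.prod_congr rfl fun j _ => h1 j, Finset.prod_univ_sum, Fintype.piFinset_univ]
  rw [← Equiv.sum_comp (EV_cols (n := n) (m := m))]
  rfl

theorem EV_pair {n : ℕ} (σ τ : Equiv.Perm (Fin (n * 2 + 1))) :
    ∑ y : Fin (n * 2 + 1) → Fin (n * 2) → Bool,
      (∏ c : Fin (n * 2), wt (fun k => y k c) (σ c.succ)) *
        ∏ c : Fin (n * 2), EV_A y (τ c.succ) (finProdFinEquiv.symm c)
      = if τ = σ then (1 / 2) ^ n else 0 := by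
  classical
  have h1 : ∀ y : Fin (n * 2 + 1) → Fin (n * 2) → Bool,
      (∏ c : Fin (n * 2), wt (fun k => y k c) (σ c.succ)) *
        ∏ c : Fin (n * 2), EV_A y (τ c.succ) (finProdFinEquiv.symm c)
      = ∏ j : Fin n, (fun (u v : Fin (n * 2 + 1) → Bool) =>
          (wt u (σ (finProdFinEquiv (j, 0)).succ) *
            (EV_ind (u (τ (finProdFinEquiv (j, 0)).succ)) * EV_ind (u (τ (finProdFinEquiv (j, 1)).succ)))) *
          (wt v (σ (finProdFinEquiv (j, 1)).succ) * EV_ind (v (τ (finProdFinEquiv (j, 1)).succ))))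
          (fun k => y k (finProdFinEquiv (j, 0))) (fun k => y k (finProdFinEquiv (j, 1))) := by
    intro y
    rw [← Finset.prod_mul_distrib]
    rw [← Equiv.prod_comp (finProdFinEquiv (m := n) (n := 2)), Fintype.prod_prod_type]
    refine Finset.prod_congr rfl fun j _ => ?_
    rw [Fin.prod_univ_two]
    simp only [Equiv.symm_apply_apply, EV_A]
    simp
    ring
  rw [Finset.sum_congr rfl fun y _ => h1 y]
  rw [EV_ysum (n := n) (m := n * 2 + 1) (fun j u v =>
          (wt u (σ (finProdFinEquiv (j, 0)).succ) *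
            (EV_ind (u (τ (finProdFinEquiv (j, 0)).succ)) * EV_ind (u (τ (finProdFinEquiv (j, 1)).succ)))) *
          (wt v (σ (finProdFinEquiv (j, 1)).succ) * EV_ind (v (τ (finProdFinEquiv (j, 1)).succ))))]
  have h2 : ∀ j : Fin n, ∑ u : Fin (n * 2 + 1) → Bool, ∑ v : Fin (n * 2 + 1) → Bool,
          (wt u (σ (finProdFinEquiv (j, 0)).succ) *
            (EV_ind (u (τ (finProdFinEquiv (j, 0)).succ)) * EV_ind (u (τ (finProdFinEquiv (j, 1)).succ)))) *
          (wt v (σ (finProdFinEquiv (j, 1)).succ) * EV_ind (v (τ (finProdFinEquiv (j, 1)).succ)))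
      = if σ (finProdFinEquiv (j, 0)).succ = τ (finProdFinEquiv (j, 0)).succ ∧
          σ (finProdFinEquiv (j, 1)).succ = τ (finProdFinEquiv (j, 1)).succ then 1 / 2 else 0 := by
    intro j
    rw [← Finset.sum_mul_sum, EV_V]
    have hne : ((finProdFinEquiv (j, (0 : Fin 2))).succ : Fin (n * 2 + 1)) ≠ (finProdFinEquiv (j, (1 : Fin 2))).succ := by
      intro h
      have := finProdFinEquiv.injective (Fin.succ_injective _ h)
      simp at this
    by_cases h1 : σ (finProdFinEquiv (j, 1)).succ = τ (finProdFinEquiv (j, 1)).succ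
    · rw [EV_U _ _ _ (fun h => hne (τ.injective h)) (fun h => hne (σ.injective (h.trans h1.symm)))]
      simp [h1]
    · simp [h1]
  rw [Finset.prod_congr rfl fun j _ => h2 j]
  split_ifs with h
  · subst h
    simp
  · by_contra hcon
    apply h
    have hall : ∀ c : Fin (n * 2), σ c.succ = τ c.succ := by
      intro c
      obtain ⟨⟨j, l⟩, rfl⟩ := finProdFinEquiv.surjective c
      have h3 : (if σ (finProdFinEquiv (j, 0)).succ = τ (finProdFinEquiv (j, 0)).succ ∧
          σ (finProdFinEquiv (j, 1)).succ = τ (finProdFinEquiv (j, 1)).succ then (1 / 2 : ℝ) else 0) ≠ 0 := by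
        intro h0
        exact hcon (Finset.prod_eq_zero (Finset.mem_univ j) h0)
      by_cases h4 : σ (finProdFinEquiv (j, 0)).succ = τ (finProdFinEquiv (j, 0)).succ ∧
          σ (finProdFinEquiv (j, 1)).succ = τ (finProdFinEquiv (j, 1)).succ
      · fin_cases l
        · exact h4.1
        · exact h4.2
      · rw [if_neg h4] at h3
        exact absurd rfl h3
    have hz : σ 0 = τ 0 := by
      obtain ⟨x, hx⟩ := σ.surjective (τ 0)
      rcases Fin.eq_zero_or_eq_succ x with h5 | ⟨c, h5⟩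
      · rw [h5] at hx; exact hx
      · rw [h5, hall c] at hx
        exact absurd (τ.injective hx) (Fin.succ_ne_zero c)
    ext x
    rcases Fin.eq_zero_or_eq_succ x with h5 | ⟨c, h5⟩
    · rw [h5, hz]
    · rw [h5, hall c]

theorem cub_wvol (n : ℕ) :
    ∑ y : Fin (n * 2 + 1) → Fin (n * 2) → Bool, cub (n * 2) y * wvol n y = 1 := by
  classical
  have h1 : ∀ y : Fin (n * 2 + 1) → Fin (n * 2) → Bool, cub (n * 2) y * wvol n y
      = (1 / (((n * 2 : ℕ) : ℝ) + 1) * (1 / ((n * 2)! : ℝ)) * 2 ^ n) *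
        ∑ σ : Equiv.Perm (Fin (n * 2 + 1)), ∑ τ : Equiv.Perm (Fin (n * 2 + 1)),
          (((Equiv.Perm.sign σ : ℤ) : ℝ) * ((Equiv.Perm.sign τ : ℤ) : ℝ)) *
          ((∏ c : Fin (n * 2), wt (fun k => y k c) (σ c.succ)) *
            ∏ c : Fin (n * 2), EV_A y (τ c.succ) (finProdFinEquiv.symm c)) := by
    intro y
    rw [EV_cub, EV_wvol]
    have h2 : ∀ (a b c : ℝ) (S T : ℝ), a * S * (b * (c * T)) = a * b * c * (S * T) := by intros; ring
    rw [h2, Finset.sum_mul_sum]
    congr 1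
    refine Finset.sum_congr rfl fun σ _ => Finset.sum_congr rfl fun τ _ => ?_
    ring
  rw [Finset.sum_congr rfl fun y _ => h1 y, ← Finset.mul_sum]
  rw [Finset.sum_comm]
  have h3 : ∀ σ : Equiv.Perm (Fin (n * 2 + 1)),
      ∑ y : Fin (n * 2 + 1) → Fin (n * 2) → Bool, ∑ τ : Equiv.Perm (Fin (n * 2 + 1)),
          (((Equiv.Perm.sign σ : ℤ) : ℝ) * ((Equiv.Perm.sign τ : ℤ) : ℝ)) *
          ((∏ c : Fin (n * 2), wt (fun k => y k c) (σ c.succ)) *
            ∏ c : Fin (n * 2), EV_A y (τ c.succ) (finProdFinEquiv.symm c)) = (1 / 2) ^ n := by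
    intro σ
    rw [Finset.sum_comm]
    simp only [← Finset.mul_sum, EV_pair]
    rw [Finset.sum_eq_single σ]
    · rw [if_pos rfl]
      have : ((Equiv.Perm.sign σ : ℤ) : ℝ) * ((Equiv.Perm.sign σ : ℤ) : ℝ) = 1 := by
        rw [← Int.cast_mul, ← Units.val_mul, Int.units_mul_self]
        simp
      rw [this, one_mul]
    · intro τ _ hτ
      rw [if_neg hτ, mul_zero]
    · intro h
      exact absurd (Finset.mem_univ _) h
  rw [Finset.sum_congr rfl fun σ _ => h3 σ, Finset.sum_const, Finset.card_univ, Fintype.card_perm,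
    Fintype.card_fin, nsmul_eq_mul, Nat.factorial_succ]
  have h4 : (((n * 2)! : ℕ) : ℝ) ≠ 0 := by positivity
  have h5 : (((n * 2 : ℕ) : ℝ) + 1) ≠ 0 := by positivity
  have h6 : (2 : ℝ) ^ n * (1 / 2) ^ n = 1 := by
    rw [← mul_pow]; norm_num
  have key : ∀ a f p q : ℝ, a ≠ 0 → f ≠ 0 → p * q = 1 → 1 / a * (1 / f) * p * ((a * f) * q) = 1 := by
    intro a f p q ha hf hpq
    field_simp
    linarith
  have h7 := key (((n * 2 : ℕ) : ℝ) + 1) (((n * 2)! : ℕ) : ℝ) (2 ^ n) ((1 / 2) ^ n) h5 h4 h6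
  refine Eq.trans ?_ h7
  push_cast
  ring

end SimplVol
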