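import Mathlib

/-!
# Simplicial volume of products of hyperbolic surfaces: definitions

Everything is for products `M = Σ₁ × ⋯ × Σₙ` of surfaces `Σⱼ = ℍ/Γⱼ`.
-/

set_option autoImplicit false

open scoped BigOperators UpperHalfPlane MatrixGroups Nat ENNReal

namespace SimplVol

section Chains

variable (p : ℕ) (Y : Type) [TopologicalSpace Y]

/-- The singular simplices of `Y` with `p` vertices, i.e. of dimension `p - 1`. -/
abbrev Sing : Type := C(stdSimplex ℝ (Fin p), Y)

/-- The real singular chains of `Y` of dimension `p - 1`. -/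
abbrev Chain : Type := Sing p Y →₀ ℝ

/-- The inclusion of the face opposite to the `i`-th vertex. -/
noncomputable def faceMap (i : Fin (p + 1)) :
    C(stdSimplex ℝ (Fin p), stdSimplex ℝ (Fin (p + 1))) :=
  ⟨stdSimplex.map (Fin.succAbove i), stdSimplex.continuous_map _⟩

/-- The boundary of real singular chains (from dimension `p` to dimension `p - 1`). -/
noncomputable def boundary : Chain (p + 1) Y →ₗ[ℝ] Chain p Y :=
  Finsupp.linearCombination ℝ fun σ : Sing (p + 1) Y =>
    ∑ i : Fin (p + 1), (-1 : ℝ) ^ (i : ℕ) • Finsupp.single (σ.comp (faceMap p i)) (1 : ℝ)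

variable {p Y}

/-- The `ℓ¹`-norm of a chain: the sum of the absolute values of its coefficients. -/
noncomputable def norm1 (c : Chain p Y) : ℝ := c.sum fun _ a => |a|

end Chains

/-- The surface `ℍ/Γ`. -/
abbrev Surf (Γ : Subgroup SL(2, ℝ)) : Type := Quotient (MulAction.orbitRel Γ ℍ)

/-- `Γ` acts freely and properly discontinuously on `ℍ`, so that `ℍ/Γ` is a complete hyperbolic
surface with fundamental group `Γ`. Every closed oriented hyperbolic surface is of this form. -/
structure IsSurfaceGroup (Γ : Subgroup SL(2, ℝ)) : Prop where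
  pd : ProperlyDiscontinuousSMul Γ ℍ
  free : ∀ (γ : Γ) (z : ℍ), γ • z = z → γ = 1

/-- `arg ((z - conj w) / i)`, a number between `-π/2` and `π/2`. -/
noncomputable def sarg (z w : ℍ) : ℝ :=
  Complex.arg (((z : ℂ) - (starRingEnd ℂ) (w : ℂ)) / Complex.I)

/-- The signed area of the geodesic triangle with vertices `x`, `y`, `z` in the hyperbolic plane of
curvature `-1` (positive if the triangle is positively oriented). -/
noncomputable def area (x y z : ℍ) : ℝ := 2 * (sarg x y + sarg y z + sarg z x)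

/-- The volume cocycle of `ℍⁿ`, the antisymmetrised product of the areas in the `n` factors:
`(1 / (2n)!) ∑_σ sgn(σ) ∏_j area (x₀ʲ, x_{σ(2j-1)}ʲ, x_{σ(2j)}ʲ)`. -/
noncomputable def vol (n : ℕ) (x : Fin (n * 2 + 1) → Fin n → ℍ) : ℝ :=
  (1 / ((n * 2)! : ℝ)) * ∑ σ : Equiv.Perm (Fin (n * 2)), ((Equiv.Perm.sign σ : ℤ) : ℝ) *
    ∏ j : Fin n, area (x 0 j) (x (σ (finProdFinEquiv (j, 0))).succ j)
      (x (σ (finProdFinEquiv (j, 1))).succ j)

/-- The vertices of a lift to `ℍ` of a singular simplex of `ℍ/Γ`. -/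
noncomputable def liftVert (Γ : Subgroup SL(2, ℝ)) {p : ℕ} (σ : Sing p (Surf Γ)) : Fin p → ℍ :=
  open Classical in
  if h : ∃ τ : Sing p ℍ, ∀ t, (Quotient.mk _ (τ t) : Surf Γ) = σ t then
    fun i => h.choose (stdSimplex.vertex i)
  else fun _ => UpperHalfPlane.I

/-- The projection to the `j`-th factor. -/
def proj {n : ℕ} (Γ : Fin n → Subgroup SL(2, ℝ)) (j : Fin n) :
    C((∀ j, Surf (Γ j)), Surf (Γ j)) :=
  ⟨fun f => f j, continuous_apply j⟩

/-- The pairing of a real singular `2`-chain of `ℍ/Γ` with the area class. -/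
noncomputable def areaPair (Γ : Subgroup SL(2, ℝ)) (z : Chain 3 (Surf Γ)) : ℝ :=
  z.sum fun σ a => a * area (liftVert Γ σ 0) (liftVert Γ σ 1) (liftVert Γ σ 2)

/-- The pairing of a real singular `2n`-chain of the product of the surfaces `ℍ/Γⱼ` with the
volume class. -/
noncomputable def volPair {n : ℕ} (Γ : Fin n → Subgroup SL(2, ℝ))
    (w : Chain (n * 2 + 1) (∀ j, Surf (Γ j))) : ℝ :=
  w.sum fun σ a => a * vol n fun i j => liftVert (Γ j) ((proj Γ j).comp σ) i

/-- For a closed surface `Σ = ℍ/Γ`: the quotient `‖Σ‖ / Area(Σ)`. A real `2`-cycle `z` represents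
`t` times the fundamental class if and only if its pairing with the area class is `t * Area(Σ)`;
so this is the infimum of the norms of the cycles with pairing one. -/
noncomputable def surfRatio (Γ : Subgroup SL(2, ℝ)) : ℝ≥0∞ :=
  ⨅ (z : Chain 3 (Surf Γ)) (_ : boundary 2 _ z = 0) (_ : areaPair Γ z = 1),
    ENNReal.ofReal (norm1 z)

/-- For closed surfaces and `M = ℍ/Γ₁ × ⋯ × ℍ/Γₙ`: the quotient `‖M‖ / Vol(M)` of the simplicial
volume by the Riemannian volume. -/
noncomputable def normRatio {n : ℕ} (Γ : Fin n → Subgroup SL(2, ℝ)) : ℝ≥0∞ :=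
  ⨅ (w : Chain (n * 2 + 1) (∀ j, Surf (Γ j))) (_ : boundary (n * 2) _ w = 0)
    (_ : volPair Γ w = 1), ENNReal.ofReal (norm1 w)

end SimplVol
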