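import Pool.Agent.H74.SV.MM
import Pool.Agent.H74.SV.OA

/-!
# Module PP: the weights and the area

`PP x y z` is the probability that three independent lines from `x`, `y`, `z` are positively oriented.
* `triple_sum`: (`a, b, c` distinct) the sum over `τ` is `π^{-m}` times the volume of the disjoint union
  of the sets `mset x τ` over all `τ` with `τ a = 0, τ b = 1, τ c = 2` (they are surjective), which is
  `{(p, u) : u ∈ ∏ ell (x i), p ∈ tset (u a) (u b) (u c)}`. Tonelli: `∫_{u ∈ ∏ ell} volume (tset (u a) (u b) (u c))`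
  `= m0 * volume {u ∈ ∏ ell : (u a, u b, u c) positively oriented}` (`tset_orient`, `volume_tset`; `u b = 0` is
  a null set) `= m0 * π^(m-3) * volume {..} ` (the other coordinates are free; e.g. by
  the marginal of the product measure `∏ volume.restrict (ell (x i))` on the coordinates `a, b, c`).
* `PP_cyc`: the product of the three determinants is cyclically invariant.
* `PP_swap`: `dt` is antisymmetric, so positively oriented `(v, u, w)` means `(u, v, w)` negatively
  oriented; the two sets are disjoint.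
* `PP_sub`: `ori` is `1` on one set, `-1` on the other and `0` elsewhere; `ori_avg`.
-/

set_option autoImplicit false

open scoped BigOperators UpperHalfPlane MatrixGroups ENNReal
open MeasureTheory

namespace SimplVol

/-- The probability of a positive orientation. -/
noncomputable def PP (x y z : ℍ) : ℝ :=
  (volume {p : Pl × Pl × Pl | p.1 ∈ ell x ∧ p.2.1 ∈ ell y ∧ p.2.2 ∈ ell z ∧
    0 < dt p.1 p.2.1 * dt p.2.1 p.2.2 * dt p.2.2 p.1}).toReal / Real.pi ^ 3

/-- The measurable set of the positively oriented triples. -/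
private def PP_T : Set (Pl × Pl × Pl) := {p | 0 < dt p.1 p.2.1 * dt p.2.1 p.2.2 * dt p.2.2 p.1}

private theorem PP_dt_cont : Continuous fun p : Pl × Pl => dt p.1 p.2 := by
  unfold dt; fun_prop

private theorem PP_prod_cont : Continuous fun p : Pl × Pl × Pl =>
    dt p.1 p.2.1 * dt p.2.1 p.2.2 * dt p.2.2 p.1 := by
  unfold dt; fun_prop

private theorem PP_T_meas : MeasurableSet PP_T :=
  (isOpen_lt continuous_const PP_prod_cont).measurableSet

/-- The product of three ellipses. -/
private def PP_E (x y z : ℍ) : Set (Pl × Pl × Pl) := ell x ×ˢ (ell y ×ˢ ell z)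

private theorem PP_E_meas (x y z : ℍ) : MeasurableSet (PP_E x y z) :=
  (ell_measurable x).prod ((ell_measurable y).prod (ell_measurable z))

private theorem PP_E_vol (x y z : ℍ) : volume (PP_E x y z) = ENNReal.ofReal (Real.pi ^ 3) := by
  have e : (volume : Measure (Pl × Pl × Pl)) =
      (volume : Measure Pl).prod ((volume : Measure Pl).prod (volume : Measure Pl)) := rfl
  unfold PP_E
  rw [e, Measure.prod_prod, Measure.prod_prod,
    volume_ell, volume_ell, volume_ell, ← ENNReal.ofReal_mul Real.pi_pos.le,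
    ← ENNReal.ofReal_mul Real.pi_pos.le]
  congr 1
  ring

private theorem PP_eq (x y z : ℍ) :
    PP x y z = (volume (PP_E x y z ∩ PP_T)).toReal / Real.pi ^ 3 := by
  unfold PP
  congr 3
  ext p
  simp only [PP_E, PP_T, Set.mem_ofPred_eq, Set.mem_inter_iff, Set.mem_prod]
  tauto

private theorem PP_marg {m : ℕ} (x : Fin m → ℍ) (a b c : Fin m) (hab : a ≠ b) (hbc : b ≠ c)
    (hca : c ≠ a) :
    volume ((Set.univ.pi fun i => ell (x i)) ∩ {u : Fin m → Pl | (u a, u b, u c) ∈ PP_T}) =
      ENNReal.ofReal Real.pi ^ (m - 3) * volume (PP_E (x a) (x b) (x c) ∩ PP_T) := by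
  classical
  set μ : Fin m → Measure Pl := fun i => (volume : Measure Pl).restrict (ell (x i)) with hμ
  have hfin : ∀ i, IsFiniteMeasure (μ i) := by
    intro i
    refine ⟨?_⟩
    simp only [hμ, Measure.restrict_apply_univ, volume_ell]
    exact ENNReal.ofReal_lt_top
  set f : (Fin m → Pl) → Pl × Pl × Pl := fun u => (u a, u b, u c) with hf
  have hfm : Measurable f := by
    rw [hf]; fun_prop
  have hmap : Measure.map f (Measure.pi μ) =
      (ENNReal.ofReal Real.pi ^ (m - 3)) • ((μ a).prod ((μ b).prod (μ c))) := by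
    apply Measure.ext_prod₃
    intro s t r hs ht hr
    rw [Measure.map_apply hfm (hs.prod (ht.prod hr)), Measure.smul_apply, Measure.prod_prod,
      Measure.prod_prod, smul_eq_mul]
    set B : Fin m → Set Pl := fun i => if i = a then s else if i = b then t else
      if i = c then r else Set.univ with hB
    have e1 : f ⁻¹' (s ×ˢ t ×ˢ r) = Set.univ.pi B := by
      ext u
      simp only [Set.mem_preimage, Set.mem_prod, Set.mem_pi, Set.mem_univ, true_implies, hf, hB]
      constructor
      · rintro ⟨h1, h2, h3⟩ i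
        split_ifs with i1 i2 i3
        · rw [i1]; exact h1
        · rw [i2]; exact h2
        · rw [i3]; exact h3
        · trivial
      · intro h
        have h1 := h a
        have h2 := h b
        have h3 := h c
        rw [if_pos rfl] at h1
        rw [if_neg hab.symm, if_pos rfl] at h2
        rw [if_neg hca, if_neg hbc.symm, if_pos rfl] at h3
        exact ⟨h1, h2, h3⟩
    rw [e1, Measure.pi_pi]
    rw [← Finset.mul_prod_erase Finset.univ (fun i => μ i (B i)) (Finset.mem_univ a),
      ← Finset.mul_prod_erase (Finset.univ.erase a) (fun i => μ i (B i))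
        (Finset.mem_erase.2 ⟨hab.symm, Finset.mem_univ b⟩),
      ← Finset.mul_prod_erase ((Finset.univ.erase a).erase b) (fun i => μ i (B i))
        (Finset.mem_erase.2 ⟨hbc.symm, Finset.mem_erase.2 ⟨hca, Finset.mem_univ c⟩⟩)]
    have e2 : ∏ i ∈ ((Finset.univ.erase a).erase b).erase c, μ i (B i) =
        ENNReal.ofReal Real.pi ^ (m - 3) := by
      have : ∀ i ∈ ((Finset.univ.erase a).erase b).erase c, μ i (B i) = ENNReal.ofReal Real.pi := by
        intro i hi
        simp only [Finset.mem_erase, Finset.mem_univ, and_true] at hi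
        simp only [hB, if_neg hi.2.2, if_neg hi.2.1, if_neg hi.1, hμ,
          Measure.restrict_apply_univ, volume_ell]
      rw [Finset.prod_congr rfl this, Finset.prod_const]
      congr 1
      rw [Finset.card_erase_of_mem (Finset.mem_erase.2 ⟨hbc.symm, Finset.mem_erase.2
        ⟨hca, Finset.mem_univ c⟩⟩), Finset.card_erase_of_mem (Finset.mem_erase.2
        ⟨hab.symm, Finset.mem_univ b⟩), Finset.card_erase_of_mem (Finset.mem_univ a),
        Finset.card_univ, Fintype.card_fin]
      omega
    rw [e2]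
    have ea : B a = s := by simp [hB]
    have eb : B b = t := by simp [hB, hab.symm]
    have ec : B c = r := by simp [hB, hca, hbc.symm]
    rw [ea, eb, ec]
    ring
  have hK : MeasurableSet (Set.univ.pi fun i => ell (x i)) :=
    MeasurableSet.univ_pi fun i => ell_measurable (x i)
  have e3 : volume ((Set.univ.pi fun i => ell (x i)) ∩ {u : Fin m → Pl | (u a, u b, u c) ∈ PP_T}) =
      Measure.map f (Measure.pi μ) PP_T := by
    rw [Measure.map_apply hfm PP_T_meas, hμ, ← Measure.restrict_pi_pi,
      Measure.restrict_apply (hfm PP_T_meas), Set.inter_comm]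
    rfl
  rw [e3, hmap, Measure.smul_apply, smul_eq_mul]
  congr 1
  simp only [hμ]
  rw [Measure.prod_restrict, Measure.prod_restrict, Measure.restrict_apply PP_T_meas,
    Set.inter_comm]
  rfl

theorem triple_sum {m : ℕ} (x : Fin m → ℍ) (a b c : Fin m) (hab : a ≠ b) (hbc : b ≠ c)
    (hca : c ≠ a) :
    (∑ τ : Fin m → Fin 3, Mm m x τ * if τ a = 0 ∧ τ b = 1 ∧ τ c = 2 then 1 else 0) =
      m0 * PP (x a) (x b) (x c) := by
  classical
  set T : Finset (Fin m → Fin 3) := Finset.univ.filter fun τ => τ a = 0 ∧ τ b = 1 ∧ τ c = 2 with hT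
  have hsurj : ∀ τ ∈ T, Function.Surjective τ := by
    intro τ hτ
    simp only [hT, Finset.mem_filter, Finset.mem_univ, true_and] at hτ
    intro k
    fin_cases k
    · exact ⟨a, hτ.1⟩
    · exact ⟨b, hτ.2.1⟩
    · exact ⟨c, hτ.2.2⟩
  set K : Set (Fin m → Pl) := Set.univ.pi fun i => ell (x i) with hK
  have hKm : MeasurableSet K := MeasurableSet.univ_pi fun i => ell_measurable (x i)
  set U : Set ((Pl × Pl) × (Fin m → Pl)) := ⋃ τ ∈ T, mset x τ with hU
  have hUm : MeasurableSet U := by
    rw [hU]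
    exact Finset.measurableSet_biUnion _ fun τ _ => mset_measurable x τ
  have hUvol : volume U = ∑ τ ∈ T, volume (mset x τ) := by
    rw [hU]
    refine measure_biUnion_finset ?_ fun τ _ => mset_measurable x τ
    intro τ _ τ' _ hne
    change Disjoint (mset x τ) (mset x τ')
    rw [Set.disjoint_left]
    intro p hp hp'
    apply hne
    funext i
    rw [← (hp.2.2 i).2, ← (hp'.2.2 i).2]
  have hUmem : ∀ p : (Pl × Pl) × (Fin m → Pl), p ∈ U ↔
      p.2 ∈ K ∧ p.1 ∈ tset (p.2 a) (p.2 b) (p.2 c) := by
    intro p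
    simp only [hU, Set.mem_iUnion, hK, Set.mem_pi, Set.mem_univ, true_implies]
    constructor
    · rintro ⟨τ, hτ, hp⟩
      simp only [hT, Finset.mem_filter, Finset.mem_univ, true_and] at hτ
      refine ⟨fun i => (hp.2.2 i).1, hp.1, hp.2.1, ?_, ?_, ?_⟩
      · rw [(hp.2.2 a).2, hτ.1]
      · rw [(hp.2.2 b).2, hτ.2.1]
      · rw [(hp.2.2 c).2, hτ.2.2]
    · rintro ⟨h1, h2, h3, h4, h5, h6⟩
      refine ⟨fun i => typ p.1.1 p.1.2 (p.2 i), ?_, h2, h3, fun i => ⟨h1 i, rfl⟩⟩
      simp only [hT, Finset.mem_filter, Finset.mem_univ, true_and]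
      exact ⟨h4, h5, h6⟩
  set V0 := volume (tset (1, 0) (0, 1) (1, 1)) with hV0
  set PK : Set (Fin m → Pl) := K ∩ {u : Fin m → Pl | (u a, u b, u c) ∈ PP_T} with hPK
  have hfm : Measurable (fun u : Fin m → Pl => (u a, u b, u c)) := by fun_prop
  have hPKm : MeasurableSet PK := hKm.inter (hfm PP_T_meas)
  have hUvol2 : volume U = V0 * volume PK := by
    rw [Measure.volume_eq_prod, Measure.prod_apply_symm hUm]
    have hae : ∀ᵐ u : Fin m → Pl, volume ((fun e : Pl × Pl => (e, u)) ⁻¹' U) =
        PK.indicator (fun _ => V0) u := by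
      have h0 : ∀ᵐ u : Fin m → Pl, u b ≠ 0 := Measure.ae_eval_ne (fun _ => (volume : Measure Pl)) b 0
      filter_upwards [h0] with u hu
      by_cases hmem : u ∈ PK
      · rw [Set.indicator_of_mem hmem]
        have e1 : (fun e : Pl × Pl => (e, u)) ⁻¹' U = tset (u a) (u b) (u c) := by
          ext e
          rw [Set.mem_preimage, hUmem]
          exact ⟨fun h => h.2, fun h => ⟨hmem.1, h⟩⟩
        rw [e1, volume_tset _ _ _ hmem.2]
      · rw [Set.indicator_of_notMem hmem]
        have e1 : (fun e : Pl × Pl => (e, u)) ⁻¹' U = ∅ := by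
          ext e
          rw [Set.mem_preimage, hUmem]
          simp only [Set.mem_empty_iff_false, iff_false]
          rintro ⟨h1, h2⟩
          exact hmem ⟨h1, tset_orient _ _ _ hu ⟨e, h2⟩⟩
        rw [e1, measure_empty]
    rw [lintegral_congr_ae hae, lintegral_indicator_const hPKm]
  rw [hPK, hK, PP_marg x a b c hab hbc hca] at hUvol2
  have hlhs : (∑ τ : Fin m → Fin 3, Mm m x τ * if τ a = 0 ∧ τ b = 1 ∧ τ c = 2 then (1 : ℝ) else 0) =
      (volume U).toReal / Real.pi ^ m := by
    rw [hUvol, ENNReal.toReal_sum fun τ hτ => volume_mset_ne_top x τ (hsurj τ hτ),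
      Finset.sum_div, hT, Finset.sum_filter]
    refine Finset.sum_congr rfl fun τ _ => ?_
    by_cases h : τ a = 0 ∧ τ b = 1 ∧ τ c = 2
    · rw [if_pos h, if_pos h, mul_one]
      have hmem : τ ∈ T := by
        simp only [hT, Finset.mem_filter, Finset.mem_univ, true_and]
        exact h
      have : Function.Surjective τ := hsurj τ hmem
      unfold Mm
      rw [if_pos this]
    · rw [if_neg h, if_neg h, mul_zero]
  rw [hlhs, hUvol2, PP_eq, ENNReal.toReal_mul, ENNReal.toReal_mul, ENNReal.toReal_pow,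
    ENNReal.toReal_ofReal Real.pi_pos.le]
  have hm3 : 3 ≤ m := by
    have h1 := a.2
    have h2 := b.2
    have h3 := c.2
    have e1 : (a : ℕ) ≠ b := fun h => hab (Fin.ext h)
    have e2 : (b : ℕ) ≠ c := fun h => hbc (Fin.ext h)
    have e3 : (c : ℕ) ≠ a := fun h => hca (Fin.ext h)
    omega
  have hpi := Real.pi_pos
  have e4 : Real.pi ^ m = Real.pi ^ (m - 3) * Real.pi ^ 3 := by
    rw [← pow_add]; congr 1; omega
  rw [e4]
  unfold m0
  rw [← hV0]
  field_simp

theorem PP_nonneg (x y z : ℍ) : 0 ≤ PP x y z := by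
  have := Real.pi_pos
  unfold PP
  positivity

theorem PP_cyc (x y z : ℍ) : PP x y z = PP y z x := by
  rw [PP_eq, PP_eq]
  congr 2
  have hmp : MeasurePreserving (fun p : Pl × Pl × Pl => (p.2.1, (p.2.2, p.1))) volume volume := by
    have h1 : MeasurePreserving (Prod.swap : Pl × (Pl × Pl) → (Pl × Pl) × Pl) volume volume :=
      Measure.measurePreserving_swap
    have h2 : MeasurePreserving (MeasurableEquiv.prodAssoc : (Pl × Pl) × Pl ≃ᵐ Pl × (Pl × Pl))
      volume volume := volume_preserving_prodAssoc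
    exact h2.comp h1
  have hm : MeasurableSet (PP_E y z x ∩ PP_T) := (PP_E_meas y z x).inter PP_T_meas
  rw [← hmp.measure_preimage hm.nullMeasurableSet]
  congr 1
  ext p
  simp only [PP_E, PP_T, Set.mem_inter_iff, Set.mem_preimage, Set.mem_prod, Set.mem_ofPred_eq]
  have e : dt p.2.1 p.2.2 * dt p.2.2 p.1 * dt p.1 p.2.1 =
      dt p.1 p.2.1 * dt p.2.1 p.2.2 * dt p.2.2 p.1 := by ring
  rw [e]
  tauto

/-- The set of the negatively oriented triples. -/
private def PP_T' : Set (Pl × Pl × Pl) := {p | dt p.1 p.2.1 * dt p.2.1 p.2.2 * dt p.2.2 p.1 < 0}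

private theorem PP_T'_meas : MeasurableSet PP_T' :=
  (isOpen_lt PP_prod_cont continuous_const).measurableSet

private theorem PP_neg (x y z : ℍ) :
    PP y x z = (volume (PP_E x y z ∩ PP_T')).toReal / Real.pi ^ 3 := by
  rw [PP_eq]
  congr 2
  have hmp : MeasurePreserving (fun p : Pl × Pl × Pl => (p.2.1, (p.1, p.2.2))) volume volume := by
    have h1 : MeasurePreserving (Prod.map (Prod.swap : Pl × Pl → Pl × Pl) (id : Pl → Pl))
        (volume : Measure ((Pl × Pl) × Pl)) volume :=
      Measure.measurePreserving_swap.prod (MeasurePreserving.id _)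
    have h2 : MeasurePreserving (MeasurableEquiv.prodAssoc : (Pl × Pl) × Pl ≃ᵐ Pl × (Pl × Pl))
      volume volume := volume_preserving_prodAssoc
    exact (h2.comp h1).comp h2.symm
  have hm : MeasurableSet (PP_E y x z ∩ PP_T) := (PP_E_meas y x z).inter PP_T_meas
  rw [← hmp.measure_preimage hm.nullMeasurableSet]
  congr 1
  ext p
  simp only [PP_E, PP_T, PP_T', Set.mem_inter_iff, Set.mem_preimage, Set.mem_prod,
    Set.mem_ofPred_eq]
  have e : dt p.2.1 p.1 * dt p.1 p.2.2 * dt p.2.2 p.2.1 =
      -(dt p.1 p.2.1 * dt p.2.1 p.2.2 * dt p.2.2 p.1) := by unfold dt; ring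
  rw [e, neg_pos]
  tauto

theorem PP_swap (x y z : ℍ) : PP x y z + PP y x z ≤ 1 := by
  have hpi := Real.pi_pos
  rw [PP_neg x y z, PP_eq, ← add_div, div_le_one (by positivity)]
  have hfin : volume (PP_E x y z) ≠ ⊤ := by rw [PP_E_vol]; exact ENNReal.ofReal_ne_top
  have h1 : volume (PP_E x y z ∩ PP_T) ≠ ⊤ := measure_ne_top_of_subset Set.inter_subset_left hfin
  have h2 : volume (PP_E x y z ∩ PP_T') ≠ ⊤ := measure_ne_top_of_subset Set.inter_subset_left hfin
  rw [← ENNReal.toReal_add h1 h2, ← measure_union _ ((PP_E_meas x y z).inter PP_T'_meas)]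
  · have h3 : volume (PP_E x y z ∩ PP_T ∪ PP_E x y z ∩ PP_T') ≤ ENNReal.ofReal (Real.pi ^ 3) := by
      rw [← PP_E_vol x y z]
      exact measure_mono (Set.union_subset Set.inter_subset_left Set.inter_subset_left)
    have h4 := ENNReal.toReal_mono ENNReal.ofReal_ne_top h3
    rwa [ENNReal.toReal_ofReal (by positivity)] at h4
  · rw [Set.disjoint_left]
    rintro p ⟨-, hp⟩ ⟨-, hp'⟩
    have h5 : 0 < dt p.1 p.2.1 * dt p.2.1 p.2.2 * dt p.2.2 p.1 := hp
    have h6 : dt p.1 p.2.1 * dt p.2.1 p.2.2 * dt p.2.2 p.1 < 0 := hp'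
    exact lt_asymm h5 h6

theorem PP_sub (x y z : ℍ) : PP x y z - PP y x z = area x y z / Real.pi := by
  have hpi := Real.pi_pos
  have hfin : volume (PP_E x y z) ≠ ⊤ := by rw [PP_E_vol]; exact ENNReal.ofReal_ne_top
  have hoa := ori_avg x y z
  have hint : ∀ {A : Set (Pl × Pl × Pl)}, MeasurableSet A →
      Integrable (A.indicator (1 : Pl × Pl × Pl → ℝ)) (volume.restrict (PP_E x y z)) := by
    intro A hA
    have h1 : IntegrableOn (fun _ : Pl × Pl × Pl => (1 : ℝ)) (PP_E x y z) :=
      integrableOn_const hfin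
    exact Integrable.indicator h1 hA
  have h1 : ∫ p in PP_E x y z, ori p.1 p.2.1 p.2.2 =
      ∫ p in PP_E x y z, (PP_T.indicator (1 : Pl × Pl × Pl → ℝ) p -
        PP_T'.indicator (1 : Pl × Pl × Pl → ℝ) p) := by
    refine integral_congr_ae (Filter.Eventually.of_forall fun p => ?_)
    change ori p.1 p.2.1 p.2.2 = PP_T.indicator (1 : Pl × Pl × Pl → ℝ) p -
        PP_T'.indicator (1 : Pl × Pl × Pl → ℝ) p
    unfold ori
    by_cases hA : 0 < dt p.1 p.2.1 * dt p.2.1 p.2.2 * dt p.2.2 p.1
    · rw [if_pos hA, Set.indicator_of_mem (show p ∈ PP_T from hA),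
        Set.indicator_of_notMem (show p ∉ PP_T' from fun h => lt_asymm hA h)]
      simp
    · rw [if_neg hA, Set.indicator_of_notMem (show p ∉ PP_T from hA)]
      by_cases hB : dt p.1 p.2.1 * dt p.2.1 p.2.2 * dt p.2.2 p.1 < 0
      · rw [if_pos hB, Set.indicator_of_mem (show p ∈ PP_T' from hB)]
        simp
      · rw [if_neg hB, Set.indicator_of_notMem (show p ∉ PP_T' from hB)]
        simp
  rw [integral_sub (hint PP_T_meas) (hint PP_T'_meas), integral_indicator_one PP_T_meas,
    integral_indicator_one PP_T'_meas, measureReal_def, measureReal_def,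
    Measure.restrict_apply PP_T_meas, Measure.restrict_apply PP_T'_meas, Set.inter_comm PP_T,
    Set.inter_comm PP_T'] at h1
  rw [PP_neg x y z, PP_eq, ← sub_div, ← h1]
  change ∫ p in PP_E x y z, ori p.1 p.2.1 p.2.2 = _ at hoa
  rw [hoa]
  field_simp

end SimplVol
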