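import Mathlib

/-!
# Module CR: an identity of Cramer type

For an `N × N` matrix `W` with column sums `E_a`: `∑_a E_a det (W with column a replaced by the
all ones column) = N det W`. Proof: `det (W.updateCol a 1) = (W.cramer 1) a`, and
`∑_a E_a (cramer W 1)_a = 1ᵀ (W (cramer W 1)) = 1ᵀ (det W • 1) = N det W`
(`Matrix.mulVec_cramer`, `Matrix.cramer_apply`).
-/

set_option autoImplicit false

open scoped BigOperators

namespace SimplVol

theorem cramer_ones (N : ℕ) (W : Matrix (Fin N) (Fin N) ℝ) :
    ∑ a, (∑ i, W i a) * (W.updateCol a fun _ => (1 : ℝ)).det = (N : ℝ) * W.det := by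
  have h := Matrix.mulVec_cramer W (fun _ => (1 : ℝ))
  have h2 : ∑ i, (W.mulVec (W.cramer fun _ => (1 : ℝ))) i = ∑ i : Fin N, W.det := by
    refine Finset.sum_congr rfl fun i _ => ?_
    rw [h]
    simp
  rw [Finset.sum_const, Finset.card_univ, Fintype.card_fin, nsmul_eq_mul] at h2
  rw [← h2]
  simp only [Matrix.mulVec, dotProduct, Matrix.cramer_apply, Finset.sum_mul]
  rw [Finset.sum_comm]

end SimplVol
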