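import Pool.Agent.H74.SV.WT
import Pool.Agent.H74.SV.CR

/-!
# Module CB: the coefficients of the chain of the cube

* `cub_perm`: permuting the rows of `y` permutes the rows of `cmat N y` (`wt_perm`), so `det` is
  multiplied by the sign (`Matrix.det_permute'`).
* `cub_sum_cons`: sum over the new first row `y₀ : Fin N → Bool` of `det (cmat N (cons y₀ y))`. The
  column `c + 1` of the matrix depends only on `y₀ c`, so by multilinearity of `det` in the columns
  (`Matrix.det` as a sum over permutations, and `Finset.prod_univ_sum` / `Fintype.piFinset`) the sum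
  is the determinant of the matrix with first column `1` and the columns
  `wt (cons true ..) + wt (cons false ..)`, that is `0` in row `0` (`wt_cons_zero`) and
  `wt (fun k => y k c) i` in row `i + 1` (`wt_cons_succ`). Its first row is `(1, 0, …, 0)`, so it is
  the determinant of the `N × N` matrix `W i c = wt (fun k => y k c) i`. By `cramer_ones` and
  `wt_sum` this is `(1/N) ∑_a ends (column a) det (W with column a replaced by 1)
  = ∑_a ends (column a) fc N a y`.
-/

set_option autoImplicit false

open scoped BigOperators Nat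

namespace SimplVol

theorem CB_cmat_succ (N : ℕ) (y : Fin (N + 1) → Fin N → Bool) (i : Fin (N + 1)) (c : Fin N) :
    cmat N y i c.succ = wt (fun k => y k c) i := rfl

theorem CB_cmat_zero (N : ℕ) (y : Fin (N + 1) → Fin N → Bool) (i : Fin (N + 1)) :
    cmat N y i 0 = 1 := rfl

theorem cub_perm (N : ℕ) (y : Fin (N + 1) → Fin N → Bool) (σ : Equiv.Perm (Fin (N + 1))) :
    cub N (y ∘ σ) = ((Equiv.Perm.sign σ : ℤ) : ℝ) * cub N y := by
  have h : cmat N (y ∘ σ) = (cmat N y).submatrix σ id := by
    ext i c
    refine Fin.cases ?_ (fun c' => ?_) c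
    · rw [Matrix.submatrix_apply, id, CB_cmat_zero, CB_cmat_zero]
    · rw [Matrix.submatrix_apply, id, CB_cmat_succ, CB_cmat_succ]
      exact wt_perm (fun k => y k c') σ i
  unfold cub
  rw [h, Matrix.det_permute]
  ring

theorem CB_sum_det (N : ℕ) (y : Fin N → Fin N → Bool) :
    ∑ y₀ : Fin N → Bool, (cmat N (Fin.cons y₀ y : Fin (N + 1) → Fin N → Bool)).det =
      (Matrix.of fun i c : Fin N => wt (fun k => y k c) i).det := by
  have hcol : ∀ (y₀ : Fin N → Bool) (c : Fin N),
      (fun k => (Fin.cons y₀ y : Fin (N + 1) → Fin N → Bool) k c) =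
        (Fin.cons (y₀ c) (fun k => y k c) : Fin (N + 1) → Bool) := by
    intro y₀ c
    funext k
    refine Fin.cases ?_ (fun k' => ?_) k
    · simp
    · simp
  have h1 : ∑ y₀ : Fin N → Bool, (cmat N (Fin.cons y₀ y : Fin (N + 1) → Fin N → Bool)).det =
      (Matrix.of fun i c : Fin (N + 1) => Fin.cases (motive := fun _ => ℝ) 1 (fun c' =>
        ∑ b : Bool, wt (Fin.cons b (fun k => y k c') : Fin (N + 1) → Bool) i) c).det := by
    simp only [Matrix.det_apply']
    rw [Finset.sum_comm]
    refine Finset.sum_congr rfl fun σ _ => ?_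
    rw [← Finset.mul_sum]
    congr 1
    simp only [Fin.prod_univ_succ, CB_cmat_zero, CB_cmat_succ, hcol, Matrix.of_apply,
      Fin.cases_zero, Fin.cases_succ, one_mul]
    rw [Finset.prod_univ_sum, Fintype.piFinset_univ]
  rw [h1, Matrix.det_succ_row_zero, Finset.sum_eq_single 0]
  · simp only [Fin.val_zero, pow_zero, Matrix.of_apply, Fin.cases_zero, one_mul]
    congr 1
    ext i c
    rw [Matrix.submatrix_apply, Matrix.of_apply, Matrix.of_apply, Fin.succAbove_zero,
      Fin.cases_succ, Fintype.sum_bool]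
    exact wt_cons_succ _ _
  · intro b _ hb
    obtain ⟨c, rfl⟩ := Fin.exists_succ_eq.2 hb
    rw [Matrix.of_apply, Fin.cases_succ, Fintype.sum_bool, wt_cons_zero]
    ring
  · intro h
    exact absurd (Finset.mem_univ _) h

theorem cub_sum_cons (N : ℕ) (hN : 0 < N) (y : Fin N → Fin N → Bool) :
    ((N : ℝ) + 1) * ∑ y₀ : Fin N → Bool, cub N (Fin.cons y₀ y : Fin (N + 1) → Fin N → Bool) =
      ∑ a, ends (fun k => y k a) * fc N a y := by
  have hN' : (N : ℝ) ≠ 0 := Nat.cast_ne_zero.2 hN.ne'
  have hN1 : (N : ℝ) + 1 ≠ 0 := by positivity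
  unfold cub
  rw [← Finset.mul_sum, CB_sum_det, ← mul_assoc, mul_one_div_cancel hN1, one_mul]
  have hcr := cramer_ones N (Matrix.of fun i c : Fin N => wt (fun k => y k c) i)
  have h2 : (Matrix.of fun i c : Fin N => wt (fun k => y k c) i).det = (1 / (N : ℝ)) *
      ((N : ℝ) * (Matrix.of fun i c : Fin N => wt (fun k => y k c) i).det) := by
    field_simp
  rw [h2, ← hcr, Finset.mul_sum]
  refine Finset.sum_congr rfl fun a _ => ?_
  simp only [Matrix.of_apply]
  rw [wt_sum hN]
  unfold fc
  have h3 : ((Matrix.of fun i c : Fin N => wt (fun k => y k c) i).updateCol a fun _ => (1 : ℝ)) =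
      Matrix.of fun i c : Fin N => if c = a then (1 : ℝ) else wt (fun k => y k c) i := by
    ext i c
    rw [Matrix.updateCol_apply, Matrix.of_apply, Matrix.of_apply]
  rw [h3]
  ring

end SimplVol
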