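import Pool.Agent.H74.SV.CE
import Pool.Agent.H74.SV.CB

/-!
# Module BA: the boundary of the chain of the cube, first step

Write `N = n * 2`. `boundary N _ (single τ c) = c • ∑ i, (-1)^i • single (τ ∘ faceMap N i) 1`. With
`cell_face`, `∂ (cubeChain σ) = ∑_i (-1)^i ∑_y single (cell σ (y ∘ i.succAbove)) (cub N y)`.
For fixed `i`, reindex `y = insertNth i y₀ y'` (`Fin.insertNthEquiv` or `Fin.insertNthPiEquiv...`,
`Fin.consEquiv`): `y ∘ i.succAbove = y'`. The row permutation taking `cons y₀ y'` to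
`insertNth i y₀ y'` is a cycle of length `i + 1` (`Fin.cycleRange i`, `Fin.sign_cycleRange`:
sign `(-1)^i`; `Fin.succAbove_cycleRange`, `Fin.insertNth i y₀ y' = Fin.cons y₀ y' ∘ i.cycleRange`),
so `(-1)^i cub N (insertNth i y₀ y') = cub N (cons y₀ y')` by `cub_perm`. The sum over `i` gives a
factor `N + 1`, and `cub_sum_cons` finishes the proof.
-/

set_option autoImplicit false

open scoped BigOperators Nat

namespace SimplVol

variable {n : ℕ} {Y : Fin n → Type} [∀ j, TopologicalSpace (Y j)]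

private theorem BA_boundary_single {p : ℕ} {Z : Type} [TopologicalSpace Z] (τ : Sing (p + 1) Z)
    (c : ℝ) : boundary p Z (Finsupp.single τ c) =
      ∑ i : Fin (p + 1), Finsupp.single (τ.comp (faceMap p i)) (c * (-1 : ℝ) ^ (i : ℕ)) := by
  unfold boundary
  rw [Finsupp.linearCombination_single, Finset.smul_sum]
  refine Finset.sum_congr rfl fun i _ => ?_
  rw [Finsupp.smul_single, Finsupp.smul_single]
  simp

private theorem BA_cub_insertNth (N : ℕ) (i : Fin (N + 1)) (y₀ : Fin N → Bool)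
    (y : Fin N → Fin N → Bool) :
    cub N (Fin.insertNth i y₀ y : Fin (N + 1) → Fin N → Bool) * (-1 : ℝ) ^ (i : ℕ) =
      cub N (Fin.cons y₀ y : Fin (N + 1) → Fin N → Bool) := by
  have h := Fin.cons_comp_cycleRange y₀ y i
  rw [← h, cub_perm, Fin.sign_cycleRange]
  push_cast
  have h1 : ((-1 : ℝ) ^ (i : ℕ)) * (-1 : ℝ) ^ (i : ℕ) = 1 := by
    rw [← mul_pow]; norm_num
  linear_combination (cub N (Fin.cons y₀ y : Fin (N + 1) → Fin N → Bool)) * h1

theorem boundary_cubeChain_aux (hn : 1 ≤ n) (σ : ∀ j, Sing 3 (Y j)) :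
    boundary (n * 2) _ (cubeChain σ) =
      ∑ y : Fin (n * 2) → Fin (n * 2) → Bool,
        Finsupp.single (cell σ y) (∑ a, ends (fun k => y k a) * fc (n * 2) a y) := by
  unfold cubeChain
  rw [map_sum]
  simp only [BA_boundary_single, cell_face]
  rw [Finset.sum_comm]
  have h1 : ∀ i : Fin (n * 2 + 1), ∑ y : Fin (n * 2 + 1) → Fin (n * 2) → Bool,
      Finsupp.single (cell σ fun k => y (i.succAbove k)) (cub (n * 2) y * (-1 : ℝ) ^ (i : ℕ)) =
      ∑ y : Fin (n * 2) → Fin (n * 2) → Bool, Finsupp.single (cell σ y)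
        (∑ y₀ : Fin (n * 2) → Bool,
          cub (n * 2) (Fin.cons y₀ y : Fin (n * 2 + 1) → Fin (n * 2) → Bool)) := by
    intro i
    rw [← (Fin.insertNthEquiv (fun _ => Fin (n * 2) → Bool) i).sum_comp, Fintype.sum_prod_type,
      Finset.sum_comm]
    refine Finset.sum_congr rfl fun y _ => ?_
    rw [Finsupp.single_finsetSum]
    refine Finset.sum_congr rfl fun y₀ _ => ?_
    simp only [Fin.insertNthEquiv_apply, Fin.insertNth_apply_succAbove]
    exact congrArg (Finsupp.single (cell σ y)) (BA_cub_insertNth (n * 2) i y₀ y)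
  rw [Finset.sum_congr rfl fun i _ => h1 i, Finset.sum_const, Finset.card_univ, Fintype.card_fin,
    Finset.smul_sum]
  refine Finset.sum_congr rfl fun y _ => ?_
  rw [Finsupp.smul_single, ← cub_sum_cons (n * 2) (by omega) y]
  congr 1
  rw [nsmul_eq_mul]
  push_cast
  ring

end SimplVol
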