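import Pool.Agent.H74.SV.AF

/-!
# Module CE: the cells

Everything is `ContinuousMap.ext`, `funext` over the factors `i`, and for the factor `i = j` the
corresponding lemma of module AF (`Function.update_self`), for `i ≠ j` the columns `(i, 0)`, `(i, 1)`
of the two patterns agree (`Function.update_of_ne`; `finProdFinEquiv` is injective, so
`Equiv.swap_apply_of_ne_of_ne`).
* `cell_face`: `tri_face`.
* `cell_true0`: column `(j, 0)` is `1` (`col_true`), `sqMap_one_left`.
* `cell_false0`: column `(j, 0)` is `0` (`col_false`), `sqMap_zero_left`; the hypothesis says that `y`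
  and `y'` agree outside the column `(j, 1)`.
* `cell_true1`, `cell_false1`: `sqMap_one_right`, `sqMap_zero_right`; the column `(j, 1)` of
  `swapCols j y` is the column `(j, 0)` of `y`.
-/

set_option autoImplicit false

open scoped BigOperators Nat

namespace SimplVol

variable {n : ℕ} {Y : Fin n → Type} [∀ j, TopologicalSpace (Y j)]

private theorem ce_tri_apply {p : ℕ} (y : Fin p → Fin (n * 2) → Bool) (j : Fin n)
    (t : stdSimplex ℝ (Fin p)) : tri y j t = sqMap (col (fun k => y k (finProdFinEquiv (j, 0))) t,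
      col (fun k => y k (finProdFinEquiv (j, 1))) t) := rfl

private theorem ce_tri_congr {p : ℕ} (y y' : Fin p → Fin (n * 2) → Bool) (j : Fin n)
    (h0 : ∀ k, y k (finProdFinEquiv (j, 0)) = y' k (finProdFinEquiv (j, 0)))
    (h1 : ∀ k, y k (finProdFinEquiv (j, 1)) = y' k (finProdFinEquiv (j, 1))) :
    tri y j = tri y' j := by
  unfold tri
  rw [funext h0, funext h1]

private theorem ce_cell_apply (σ : ∀ j, Sing 3 (Y j)) {p : ℕ} (y : Fin p → Fin (n * 2) → Bool)
    (t : stdSimplex ℝ (Fin p)) (i : Fin n) : cell σ y t i = σ i (tri y i t) := rfl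

private theorem ce_ecell_self (j : Fin n) (σ : ∀ j, Sing 3 (Y j)) (e : Sing 2 (Y j)) {p : ℕ}
    (y : Fin p → Fin (n * 2) → Bool) (t : stdSimplex ℝ (Fin p)) :
    ecell j σ e y t j = e (edgeMap (col (fun k => y k (finProdFinEquiv (j, 1))) t)) := by
  show (Function.update (fun i => (σ i).comp (tri y i)) j
    (e.comp (edgeMap.comp (col fun k => y k (finProdFinEquiv (j, 1))))) j) t = _
  rw [Function.update_self]
  rfl

private theorem ce_ecell_ne (j : Fin n) (σ : ∀ j, Sing 3 (Y j)) (e : Sing 2 (Y j)) {p : ℕ}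
    (y : Fin p → Fin (n * 2) → Bool) (t : stdSimplex ℝ (Fin p)) {i : Fin n} (h : i ≠ j) :
    ecell j σ e y t i = σ i (tri y i t) := by
  show (Function.update (fun i => (σ i).comp (tri y i)) j
    (e.comp (edgeMap.comp (col fun k => y k (finProdFinEquiv (j, 1))))) i) t = _
  rw [Function.update_of_ne h]
  rfl

private theorem ce_ne {i j : Fin n} (h : i ≠ j) (a b : Fin 2) :
    finProdFinEquiv (i, a) ≠ finProdFinEquiv (j, b) := fun h' =>
  h (congrArg Prod.fst (finProdFinEquiv.injective h'))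

private theorem ce_01 (j : Fin n) :
    (finProdFinEquiv (j, 0) : Fin (n * 2)) ≠ finProdFinEquiv (j, 1) := fun h' =>
  absurd (congrArg Prod.snd (finProdFinEquiv.injective h')) (show ¬ (0 : Fin 2) = 1 by decide)

private theorem ce_swap_ne {i j : Fin n} (h : i ≠ j) (a : Fin 2) {p : ℕ}
    (y : Fin p → Fin (n * 2) → Bool) (k : Fin p) :
    y k (finProdFinEquiv (i, a)) = swapCols j y k (finProdFinEquiv (i, a)) := by
  unfold swapCols
  rw [Equiv.swap_apply_of_ne_of_ne (ce_ne h a 0) (ce_ne h a 1)]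

private theorem ce_swap_1 (j : Fin n) {p : ℕ} (y : Fin p → Fin (n * 2) → Bool) (k : Fin p) :
    swapCols j y k (finProdFinEquiv (j, 1)) = y k (finProdFinEquiv (j, 0)) := by
  unfold swapCols
  rw [Equiv.swap_apply_right]

theorem cell_face (σ : ∀ j, Sing 3 (Y j)) {p : ℕ} (y : Fin (p + 1) → Fin (n * 2) → Bool)
    (i : Fin (p + 1)) :
    (cell σ y).comp (faceMap p i) = cell σ fun k => y (i.succAbove k) := by
  refine ContinuousMap.ext fun t => funext fun j => ?_
  show σ j (tri y j (faceMap p i t)) = σ j (tri (fun k => y (i.succAbove k)) j t)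
  rw [← tri_face]
  rfl

theorem cell_true0 (j : Fin n) (σ : ∀ j, Sing 3 (Y j)) {p : ℕ} (y : Fin p → Fin (n * 2) → Bool)
    (h : ∀ k, y k (finProdFinEquiv (j, 0)) = true) :
    cell σ y = ecell j σ ((σ j).comp (faceMap 2 0)) y := by
  refine ContinuousMap.ext fun t => funext fun i => ?_
  rw [ce_cell_apply]
  by_cases hi : i = j
  · subst hi
    rw [ce_ecell_self, ce_tri_apply, col_true _ h, sqMap_one_left]
    rfl
  · rw [ce_ecell_ne j σ _ y t hi]

theorem cell_false0 (j : Fin n) (σ : ∀ j, Sing 3 (Y j)) {p : ℕ} (y y' : Fin p → Fin (n * 2) → Bool)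
    (h : ∀ k, y k (finProdFinEquiv (j, 0)) = false)
    (h' : ∀ k c, c ≠ finProdFinEquiv (j, 1) → y k c = y' k c) :
    cell σ y = cell σ y' := by
  refine ContinuousMap.ext fun t => funext fun i => ?_
  rw [ce_cell_apply, ce_cell_apply]
  by_cases hi : i = j
  · subst hi
    have h2 : ∀ k, y' k (finProdFinEquiv (i, 0)) = false := fun k => by
      rw [← h' k _ (ce_01 i), h k]
    rw [ce_tri_apply, ce_tri_apply, col_false _ h, col_false _ h2]
    rw [sqMap_zero_left _ (col (fun k => y' k (finProdFinEquiv (i, 1))) t)]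
  · rw [ce_tri_congr y y' i (fun k => h' k _ (ce_ne hi 0 1)) (fun k => h' k _ (ce_ne hi 1 1))]

theorem cell_true1 (j : Fin n) (σ : ∀ j, Sing 3 (Y j)) {p : ℕ} (y : Fin p → Fin (n * 2) → Bool)
    (h : ∀ k, y k (finProdFinEquiv (j, 1)) = true) :
    cell σ y = ecell j σ ((σ j).comp (faceMap 2 1)) (swapCols j y) := by
  refine ContinuousMap.ext fun t => funext fun i => ?_
  rw [ce_cell_apply]
  by_cases hi : i = j
  · subst hi
    rw [ce_ecell_self, ce_tri_apply, col_true _ h, sqMap_one_right, funext (ce_swap_1 i y)]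
    rfl
  · rw [ce_ecell_ne j σ _ _ t hi, ce_tri_congr y (swapCols j y) i
      (fun k => ce_swap_ne hi 0 y k) (fun k => ce_swap_ne hi 1 y k)]

theorem cell_false1 (j : Fin n) (σ : ∀ j, Sing 3 (Y j)) {p : ℕ} (y : Fin p → Fin (n * 2) → Bool)
    (h : ∀ k, y k (finProdFinEquiv (j, 1)) = false) :
    cell σ y = ecell j σ ((σ j).comp (faceMap 2 2)) (swapCols j y) := by
  refine ContinuousMap.ext fun t => funext fun i => ?_
  rw [ce_cell_apply]
  by_cases hi : i = j
  · subst hi
    rw [ce_ecell_self, ce_tri_apply, col_false _ h, sqMap_zero_right, funext (ce_swap_1 i y)]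
    rfl
  · rw [ce_ecell_ne j σ _ _ t hi, ce_tri_congr y (swapCols j y) i
      (fun k => ce_swap_ne hi 0 y k) (fun k => ce_swap_ne hi 1 y k)]

theorem ecell_congr (j : Fin n) (σ : ∀ j, Sing 3 (Y j)) (e : Sing 2 (Y j)) {p : ℕ}
    (y y' : Fin p → Fin (n * 2) → Bool)
    (h : ∀ k c, c ≠ finProdFinEquiv (j, 0) → y k c = y' k c) :
    ecell j σ e y = ecell j σ e y' := by
  refine ContinuousMap.ext fun t => funext fun i => ?_
  by_cases hi : i = j
  · subst hi
    rw [ce_ecell_self, ce_ecell_self]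
    have h2 : (fun k => y k (finProdFinEquiv (i, 1))) = fun k => y' k (finProdFinEquiv (i, 1)) :=
      funext fun k => h k _ (ce_01 i).symm
    rw [h2]
  · rw [ce_ecell_ne j σ _ _ t hi, ce_ecell_ne j σ _ _ t hi,
      ce_tri_congr y y' i (fun k => h k _ (ce_ne hi 0 0)) (fun k => h k _ (ce_ne hi 1 0))]

theorem ecell_update (j : Fin n) (σ : ∀ j, Sing 3 (Y j)) (τ : Sing 3 (Y j)) (e : Sing 2 (Y j))
    {p : ℕ} (y : Fin p → Fin (n * 2) → Bool) :
    ecell j (Function.update σ j τ) e y = ecell j σ e y := by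
  refine ContinuousMap.ext fun t => funext fun i => ?_
  by_cases hi : i = j
  · subst hi
    rw [ce_ecell_self, ce_ecell_self]
  · rw [ce_ecell_ne j _ _ _ t hi, ce_ecell_ne j σ _ _ t hi, Function.update_of_ne hi]

end SimplVol
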