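import Pool.Agent.H74.SV.BC

/-!
# Module CY: the product chain is a cycle

Fix `j`. `L σ : Chain 2 (Y j) →ₗ Chain (n * 2) _`, `L σ = Finsupp.linearCombination ℝ (edgeChain j σ)`,
satisfies `L σ (boundary 2 _ (single τ 1)) = ∑_{i : Fin 3} (-1)^i • edgeChain j σ (τ ∘ faceMap 2 i)`
and `L (update σ j τ) = L σ` (`ecell_update`). By `boundary_cubeChain`,
`∂ (prodChain z) = ∑_j T_j`, `T_j = ∑_{σ ∈ piFinset s} F σ`, `F σ = (∏_i z i (σ i)) • L σ (∂ (single (σ j) 1))`,
`s i = (z i).support`. For `σ ∈ piFinset s`,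
`∑_{τ ∈ s j} F (update σ j τ) = (∏_{i ≠ j} z i (σ i)) • L σ (∂ (z j)) = 0`.
And `∑_{σ ∈ piFinset s} ∑_{τ ∈ s j} F (update σ j τ) = card (s j) • ∑_{σ ∈ piFinset s} F σ`, because
`(σ, τ) ↦ (update σ j τ, σ j)` is an involution of `piFinset s × s j` (`Finset.sum_product'`,
`Finset.sum_bij'` or `Finset.sum_nbij'`). If `card (s j) = 0` then `piFinset s` is empty. So `T_j = 0`.
-/

set_option autoImplicit false

open scoped BigOperators Nat

namespace SimplVol

variable {n : ℕ} {Y : Fin n → Type} [∀ j, TopologicalSpace (Y j)]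

/-- An abstract averaging principle over `piFinset`. -/
theorem CY_sum_piFinset_eq_zero {n : ℕ} {α : Fin n → Type} {M : Type} [AddCommGroup M] [Module ℝ M]
    (s : ∀ j, Finset (α j)) (j : Fin n) (F : (∀ j, α j) → M)
    (h : ∀ σ ∈ Fintype.piFinset s, ∑ τ ∈ s j, F (Function.update σ j τ) = 0) :
    ∑ σ ∈ Fintype.piFinset s, F σ = 0 := by
  classical
  have h1 : ∑ p ∈ Fintype.piFinset s ×ˢ s j, F (Function.update p.1 j p.2) =
      ∑ p ∈ Fintype.piFinset s ×ˢ s j, F p.1 := by
    refine Finset.sum_nbij' (fun p => (Function.update p.1 j p.2, p.1 j))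
      (fun p => (Function.update p.1 j p.2, p.1 j)) ?_ ?_ ?_ ?_ ?_
    · rintro ⟨σ, τ⟩ hp
      simp only [Finset.mem_product, Fintype.mem_piFinset] at hp ⊢
      refine ⟨fun i => ?_, hp.1 j⟩
      by_cases hi : i = j
      · subst hi; simpa using hp.2
      · simpa [Function.update_of_ne hi] using hp.1 i
    · rintro ⟨σ, τ⟩ hp
      simp only [Finset.mem_product, Fintype.mem_piFinset] at hp ⊢
      refine ⟨fun i => ?_, hp.1 j⟩
      by_cases hi : i = j
      · subst hi; simpa using hp.2
      · simpa [Function.update_of_ne hi] using hp.1 i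
    · rintro ⟨σ, τ⟩ _
      simp
    · rintro ⟨σ, τ⟩ _
      simp
    · rintro ⟨σ, τ⟩ _
      rfl
  rw [Finset.sum_product, Finset.sum_product] at h1
  rw [Finset.sum_eq_zero h] at h1
  have h2 : ∑ σ ∈ Fintype.piFinset s, ∑ _τ ∈ s j, F σ =
      ((s j).card : ℝ) • ∑ σ ∈ Fintype.piFinset s, F σ := by
    rw [Finset.smul_sum]
    refine Finset.sum_congr rfl fun σ _ => ?_
    rw [Finset.sum_const, Nat.cast_smul_eq_nsmul]
  rw [h2] at h1
  rcases smul_eq_zero.1 h1.symm with h3 | h3
  · have h4 : s j = ∅ := Finset.card_eq_zero.1 (by exact_mod_cast h3)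
    have h5 : Fintype.piFinset s = ∅ := by
      apply Finset.eq_empty_of_forall_notMem
      intro σ hσ
      have := (Fintype.mem_piFinset.1 hσ) j
      rw [h4] at this
      simp at this
    rw [h5, Finset.sum_empty]
  · exact h3

theorem CY_edgeChain_update (j : Fin n) (σ : ∀ j, Sing 3 (Y j)) (τ : Sing 3 (Y j)) :
    edgeChain j (Function.update σ j τ) = edgeChain j σ := by
  funext e
  unfold edgeChain
  refine Finset.sum_congr rfl fun y _ => ?_
  rw [ecell_update]

theorem CY_linComb (j : Fin n) (σ : ∀ j, Sing 3 (Y j)) (τ : Sing 3 (Y j)) :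
    Finsupp.linearCombination ℝ (edgeChain j σ) (boundary 2 _ (Finsupp.single τ 1)) =
      ∑ i : Fin 3, (-1 : ℝ) ^ (i : ℕ) • edgeChain j σ (τ.comp (faceMap 2 i)) := by
  unfold boundary
  rw [Finsupp.linearCombination_single, one_smul, map_sum]
  refine Finset.sum_congr rfl fun i _ => ?_
  rw [map_smul, Finsupp.linearCombination_single, one_smul]

theorem boundary_prodChain (hn : 1 ≤ n) (z : ∀ j, Chain 3 (Y j)) (hz : ∀ j, boundary 2 _ (z j) = 0) :
    boundary (n * 2) _ (prodChain z) = 0 := by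
  classical
  unfold prodChain
  rw [map_sum]
  have h1 : ∀ σ : ∀ j, Sing 3 (Y j),
      boundary (n * 2) _ ((∏ j, z j (σ j)) • cubeChain σ) =
      ∑ j, (∏ j, z j (σ j)) •
        Finsupp.linearCombination ℝ (edgeChain j σ) (boundary 2 _ (Finsupp.single (σ j) 1)) := by
    intro σ
    rw [map_smul, boundary_cubeChain hn, Finset.smul_sum]
    refine Finset.sum_congr rfl fun j _ => ?_
    rw [CY_linComb]
  rw [Finset.sum_congr rfl fun σ _ => h1 σ, Finset.sum_comm]
  refine Finset.sum_eq_zero fun j _ => ?_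
  refine CY_sum_piFinset_eq_zero (fun j => (z j).support) j _ fun σ _ => ?_
  have h2 : ∀ τ ∈ (z j).support,
      (∏ i, z i (Function.update σ j τ i)) •
        Finsupp.linearCombination ℝ (edgeChain j (Function.update σ j τ))
          (boundary 2 _ (Finsupp.single (Function.update σ j τ j) 1)) =
      (∏ i ∈ Finset.univ \ {j}, z i (σ i)) •
        Finsupp.linearCombination ℝ (edgeChain j σ)
          (boundary 2 _ (z j τ • Finsupp.single τ 1)) := by
    intro τ _
    have h3 : ∀ i, z i (Function.update σ j τ i) =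
        Function.update (fun i => z i (σ i)) j (z j τ) i := by
      intro i
      by_cases hi : i = j
      · subst hi; simp
      · simp [Function.update_of_ne hi]
    rw [Finset.prod_congr rfl fun i _ => h3 i, Finset.prod_update_of_mem (Finset.mem_univ j),
      CY_edgeChain_update, Function.update_self, map_smul, map_smul, smul_smul,
      mul_comm (z j τ)]
  rw [Finset.sum_congr rfl h2, ← Finset.smul_sum, ← map_sum, ← map_sum]
  have h4 : ∑ τ ∈ (z j).support, z j τ • Finsupp.single τ (1 : ℝ) = z j := by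
    conv_rhs => rw [← Finsupp.sum_single (z j)]
    unfold Finsupp.sum
    refine Finset.sum_congr rfl fun τ _ => ?_
    rw [Finsupp.smul_single, smul_eq_mul, mul_one]
  rw [h4, hz j, map_zero, smul_zero]

end SimplVol
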