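import Pool.Agent.H74.SV.PP

/-!
# Module FA: the consistent family of weights

* `area`: if two of the indices are equal, both sides are `0` (`or3` vanishes, `area` vanishes by
  `sarg_self`, `sarg_swap`). If `a, b, c` are distinct: `or3 p q r` is `1` for the even permutations `(0,1,2)`,
  `(1,2,0)`, `(2,0,1)`, `-1` for the odd ones and `0` otherwise, so the sum is
  `m0 (PP a b c + PP c a b + PP b c a - PP b a c - PP a c b - PP c b a) = 3 m0 (PP a b c - PP b a c)`
  by `triple_sum` and `PP_cyc`.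
* `bound`: `∏_k (∑_{i : τ i = k} t i) = ∑_{a,b,c} t a t b t c 1[τ a = 0, τ b = 1, τ c = 2]`. Sum over `τ`: the
  terms with two equal indices vanish, the others are `m0 * PP (x a) (x b) (x c)`. Symmetrise in
  `a, b`: `PP (x a) (x b) (x c) + PP (x b) (x a) (x c) ≤ 1`. So the sum is
  `≤ (m0/2) ∑_{a,b,c} t a t b t c = (m0/2) (∑ t)³`.
-/

set_option autoImplicit false

open scoped BigOperators UpperHalfPlane MatrixGroups

namespace SimplVol

/-- A consistent family of weights of type patterns. -/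
structure Fam (c : ℝ) (M : ∀ m : ℕ, (Fin m → ℍ) → (Fin m → Fin 3) → ℝ) : Prop where
  nonneg : ∀ m x τ, 0 ≤ M m x τ
  surj : ∀ m x τ, ¬ Function.Surjective τ → M m x τ = 0
  inv : ∀ m (g : SL(2, ℝ)) x τ, M m (fun i => g • x i) τ = M m x τ
  marg : ∀ m (x : Fin (m + 1) → ℍ) (i : Fin (m + 1)) (τ : Fin m → Fin 3), Function.Surjective τ →
    ∑ k : Fin 3, M (m + 1) x (i.insertNth k τ : Fin (m + 1) → Fin 3) =
      M m (fun l => x (i.succAbove l)) τ
  area : ∀ m (x : Fin m → ℍ) (a b d : Fin m),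
    ∑ τ : Fin m → Fin 3, M m x τ * or3 (τ a) (τ b) (τ d) =
      3 * c / Real.pi * area (x a) (x b) (x d)
  bound : ∀ m (x : Fin m → ℍ) (t : Fin m → ℝ), (∀ i, 0 ≤ t i) →
    ∑ τ : Fin m → Fin 3, M m x τ * ∏ k : Fin 3, ∑ i, (if τ i = k then t i else 0) ≤
      c / 2 * (∑ i, t i) ^ 3

theorem FA_or3 (p q r : Fin 3) : or3 p q r =
    ((if p = 0 ∧ q = 1 ∧ r = 2 then (1 : ℝ) else 0) + (if r = 0 ∧ p = 1 ∧ q = 2 then (1 : ℝ) else 0)
      + (if q = 0 ∧ r = 1 ∧ p = 2 then (1 : ℝ) else 0))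
    - ((if p = 0 ∧ r = 1 ∧ q = 2 then (1 : ℝ) else 0) + (if r = 0 ∧ q = 1 ∧ p = 2 then (1 : ℝ) else 0)
      + (if q = 0 ∧ p = 1 ∧ r = 2 then (1 : ℝ) else 0)) := by
  fin_cases p <;> fin_cases q <;> fin_cases r <;> simp [or3]

theorem FA_or3_1 (p r : Fin 3) : or3 p p r = 0 := by
  unfold or3; ring
theorem FA_or3_2 (p q : Fin 3) : or3 p q q = 0 := by
  unfold or3; ring
theorem FA_or3_3 (p q : Fin 3) : or3 p q p = 0 := by
  unfold or3; ring

theorem FA_area_1 (x y : ℍ) : area x x y = 0 := by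
  unfold area
  rw [sarg_self, sarg_swap x y]; ring
theorem FA_area_2 (x y : ℍ) : area x y y = 0 := by
  unfold area
  rw [sarg_self, sarg_swap x y]; ring
theorem FA_area_3 (x y : ℍ) : area x y x = 0 := by
  unfold area
  rw [sarg_self, sarg_swap x y]; ring

theorem FA_area {m : ℕ} (x : Fin m → ℍ) (a b d : Fin m) :
    ∑ τ : Fin m → Fin 3, Mm m x τ * or3 (τ a) (τ b) (τ d) =
      3 * m0 / Real.pi * area (x a) (x b) (x d) := by
  by_cases hab : a = b
  · subst hab
    simp [FA_or3_1, FA_area_1]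
  by_cases hbd : b = d
  · subst hbd
    simp [FA_or3_2, FA_area_2]
  by_cases had : a = d
  · subst had
    simp [FA_or3_3, FA_area_3]
  have h1 := triple_sum x a b d hab hbd (Ne.symm had)
  have h2 := triple_sum x d a b (Ne.symm had) hab hbd
  have h3 := triple_sum x b d a hbd (Ne.symm had) hab
  have h4 := triple_sum x a d b had (Ne.symm hbd) (Ne.symm hab)
  have h5 := triple_sum x d b a (Ne.symm hbd) (Ne.symm hab) had
  have h6 := triple_sum x b a d (Ne.symm hab) had (Ne.symm hbd)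
  have h7 : ∑ τ : Fin m → Fin 3, Mm m x τ * or3 (τ a) (τ b) (τ d) =
      ((∑ τ : Fin m → Fin 3, Mm m x τ * if τ a = 0 ∧ τ b = 1 ∧ τ d = 2 then 1 else 0)
      + (∑ τ : Fin m → Fin 3, Mm m x τ * if τ d = 0 ∧ τ a = 1 ∧ τ b = 2 then 1 else 0)
      + (∑ τ : Fin m → Fin 3, Mm m x τ * if τ b = 0 ∧ τ d = 1 ∧ τ a = 2 then 1 else 0))
      - ((∑ τ : Fin m → Fin 3, Mm m x τ * if τ a = 0 ∧ τ d = 1 ∧ τ b = 2 then 1 else 0)
      + (∑ τ : Fin m → Fin 3, Mm m x τ * if τ d = 0 ∧ τ b = 1 ∧ τ a = 2 then 1 else 0)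
      + (∑ τ : Fin m → Fin 3, Mm m x τ * if τ b = 0 ∧ τ a = 1 ∧ τ d = 2 then 1 else 0)) := by
    rw [← Finset.sum_add_distrib, ← Finset.sum_add_distrib, ← Finset.sum_add_distrib,
      ← Finset.sum_add_distrib, ← Finset.sum_sub_distrib]
    apply Finset.sum_congr rfl
    intro τ _
    rw [FA_or3]
    ring
  rw [h7, h1, h2, h3, h4, h5, h6, PP_cyc (x d) (x a) (x b), PP_cyc (x b) (x d) (x a),
    PP_cyc (x d) (x a) (x b), PP_cyc (x a) (x d) (x b), PP_cyc (x d) (x b) (x a)]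
  have h8 := PP_sub (x a) (x b) (x d)
  have hpi := Real.pi_pos
  have h9 : area (x a) (x b) (x d) / Real.pi = PP (x a) (x b) (x d) - PP (x b) (x a) (x d) := h8.symm
  have h10 : 3 * m0 / Real.pi * area (x a) (x b) (x d) =
      3 * m0 * (area (x a) (x b) (x d) / Real.pi) := by ring
  rw [h10, h9]
  ring

theorem FA_prod {m : ℕ} (t : Fin m → ℝ) (τ : Fin m → Fin 3) :
    ∏ k : Fin 3, ∑ i, (if τ i = k then t i else 0) =
      ∑ a, ∑ b, ∑ d, t a * t b * t d * (if τ a = 0 ∧ τ b = 1 ∧ τ d = 2 then 1 else 0) := by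
  rw [Fin.prod_univ_three, Finset.sum_mul_sum, Finset.sum_mul]
  apply Finset.sum_congr rfl
  intro a _
  rw [Finset.sum_mul]
  apply Finset.sum_congr rfl
  intro b _
  rw [Finset.mul_sum]
  apply Finset.sum_congr rfl
  intro d _
  by_cases h0 : τ a = 0 <;> by_cases h1 : τ b = 1 <;> by_cases h2 : τ d = 2 <;> simp [h0, h1, h2]

theorem FA_m0 : 0 ≤ m0 := ENNReal.toReal_nonneg

theorem FA_bound {m : ℕ} (x : Fin m → ℍ) (t : Fin m → ℝ) (ht : ∀ i, 0 ≤ t i) :
    ∑ τ : Fin m → Fin 3, Mm m x τ * ∏ k : Fin 3, ∑ i, (if τ i = k then t i else 0) ≤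
      m0 / 2 * (∑ i, t i) ^ 3 := by
  set Q : Fin m → Fin m → Fin m → ℝ := fun a b d =>
    ∑ τ : Fin m → Fin 3, Mm m x τ * if τ a = 0 ∧ τ b = 1 ∧ τ d = 2 then 1 else 0 with hQ
  have hQ0 : ∀ a b d, (a = b ∨ b = d ∨ d = a) → Q a b d = 0 := by
    intro a b d h
    rw [hQ]
    apply Finset.sum_eq_zero
    intro τ _
    rw [if_neg, mul_zero]
    rintro ⟨h0, h1, h2⟩
    rcases h with h | h | h
    · rw [h, h1] at h0; exact absurd h0 (by decide)
    · rw [h, h2] at h1; exact absurd h1 (by decide)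
    · rw [h, h0] at h2; exact absurd h2 (by decide)
  have hQs : ∀ a b d, Q a b d + Q b a d ≤ m0 := by
    intro a b d
    by_cases h : a = b ∨ b = d ∨ d = a
    · have h' : b = a ∨ a = d ∨ d = b := by
        rcases h with h | h | h
        · exact Or.inl h.symm
        · exact Or.inr (Or.inr h.symm)
        · exact Or.inr (Or.inl h.symm)
      rw [hQ0 a b d h, hQ0 b a d h', add_zero]
      exact FA_m0
    · push Not at h
      obtain ⟨hab, hbd, hda⟩ := h
      have h1 : Q a b d = m0 * PP (x a) (x b) (x d) := triple_sum x a b d hab hbd hda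
      have h2 : Q b a d = m0 * PP (x b) (x a) (x d) :=
        triple_sum x b a d (Ne.symm hab) (Ne.symm hda) (Ne.symm hbd)
      rw [h1, h2, ← mul_add]
      calc m0 * (PP (x a) (x b) (x d) + PP (x b) (x a) (x d)) ≤ m0 * 1 :=
            mul_le_mul_of_nonneg_left (PP_swap _ _ _) FA_m0
        _ = m0 := mul_one _
  have h1 : ∑ τ : Fin m → Fin 3, Mm m x τ * ∏ k : Fin 3, ∑ i, (if τ i = k then t i else 0) =
      ∑ a, ∑ b, ∑ d, t a * t b * t d * Q a b d := by
    simp_rw [FA_prod, Finset.mul_sum]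
    rw [Finset.sum_comm]
    apply Finset.sum_congr rfl
    intro a _
    rw [Finset.sum_comm]
    apply Finset.sum_congr rfl
    intro b _
    rw [Finset.sum_comm]
    apply Finset.sum_congr rfl
    intro d _
    rw [hQ]
    simp only
    rw [Finset.mul_sum]
    apply Finset.sum_congr rfl
    intro τ _
    ring
  have h2 : ∑ a, ∑ b, ∑ d, t a * t b * t d * Q a b d =
      ∑ a, ∑ b, ∑ d, t a * t b * t d * Q b a d := by
    rw [Finset.sum_comm]
    apply Finset.sum_congr rfl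
    intro a _
    apply Finset.sum_congr rfl
    intro b _
    apply Finset.sum_congr rfl
    intro d _
    ring
  have h3 : ∑ a, ∑ b, ∑ d, t a * t b * t d * (Q a b d + Q b a d) ≤
      ∑ a, ∑ b, ∑ d, t a * t b * t d * m0 := by
    apply Finset.sum_le_sum
    intro a _
    apply Finset.sum_le_sum
    intro b _
    apply Finset.sum_le_sum
    intro d _
    exact mul_le_mul_of_nonneg_left (hQs a b d) (mul_nonneg (mul_nonneg (ht a) (ht b)) (ht d))
  have h4 : ∑ a, ∑ b, ∑ d, t a * t b * t d * (Q a b d + Q b a d) =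
      ∑ a, ∑ b, ∑ d, t a * t b * t d * Q a b d + ∑ a, ∑ b, ∑ d, t a * t b * t d * Q b a d := by
    simp_rw [mul_add, Finset.sum_add_distrib]
  have h5 : ∑ a, ∑ b, ∑ d, t a * t b * t d * m0 = m0 * (∑ i, t i) ^ 3 := by
    have : (∑ i, t i) ^ 3 = (∑ i, t i) * (∑ i, t i) * (∑ i, t i) := by ring
    rw [this, Finset.sum_mul_sum, Finset.sum_mul, Finset.mul_sum]
    apply Finset.sum_congr rfl
    intro a _
    rw [Finset.sum_mul, Finset.mul_sum]
    apply Finset.sum_congr rfl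
    intro b _
    rw [Finset.mul_sum, Finset.mul_sum]
    apply Finset.sum_congr rfl
    intro d _
    ring
  rw [h1]
  linarith

theorem fam_Mm : Fam m0 Mm where
  nonneg := fun m x τ => Mm_nonneg x τ
  surj := fun m x τ h => by
    unfold Mm
    rw [if_neg h]
  inv := fun m g x τ => Mm_inv g x τ
  marg := fun m x i τ h => Mm_marg x i τ h
  area := fun m x a b d => FA_area x a b d
  bound := fun m x t ht => FA_bound x t ht

theorem exists_fam : ∃ c : ℝ, 0 < c ∧ ∃ M, Fam c M :=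
  ⟨m0, ENNReal.toReal_pos std_pos.ne' std_finite, Mm, fam_Mm⟩

end SimplVol
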