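import Mathlib

/-!
# Module GA: a Gaussian integral

In `EuclideanSpace ℝ (Fin m)`, `m = 2n+1`, `∫ ‖r‖^(8n+1) e^{-‖r‖²} dr = m vol(B) ∫_0^∞ y^{m-1} y^{8n+1} e^{-y²} dy`
(`MeasureTheory.integral_fun_norm_addHaar`), `∫_0^∞ y^{10n+1} e^{-y²} dy = (5n)!/2`,
`vol(B) = π^{m/2}/Γ(m/2+1)` (`EuclideanSpace.volume_ball`), so the integral is
`π^{n+1/2} (5n)!/Γ(n+1/2)`, and `Γ(n+1/2) = (2n)! √π/(4^n n!)` (`Real.Gamma_nat_add_half`, double factorials).
Transport to `Fin m → ℝ` with `EuclideanSpace.volume_preserving_symm_measurableEquiv_toLp` (or similar).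
-/

set_option autoImplicit false

open scoped BigOperators Nat
open MeasureTheory

namespace SimplVol

/-- the radial profile -/
noncomputable def GA_f (n : ℕ) (y : ℝ) : ℝ := y ^ (8 * n + 1) * Real.exp (-y ^ 2)

theorem GA_toLp (n : ℕ) (r : Fin (n * 2 + 1) → ℝ) :
    GA_f n ‖(WithLp.toLp 2 r : EuclideanSpace ℝ (Fin (n * 2 + 1)))‖
      = Real.sqrt (∑ i, r i ^ 2) ^ (8 * n + 1) * Real.exp (-∑ i, r i ^ 2) := by
  have h0 : 0 ≤ ∑ i, r i ^ 2 := Finset.sum_nonneg fun i _ => sq_nonneg _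
  have h1 : ‖(WithLp.toLp 2 r : EuclideanSpace ℝ (Fin (n * 2 + 1)))‖ = Real.sqrt (∑ i, r i ^ 2) := by
    rw [EuclideanSpace.norm_eq]
    simp only [Real.norm_eq_abs, sq_abs]
  unfold GA_f
  rw [h1, Real.sq_sqrt h0]

theorem GA_line (n : ℕ) : Set.EqOn (fun y : ℝ => y ^ (2 * n) • GA_f n y)
    (fun y : ℝ => y ^ ((10 * n + 1 : ℕ) : ℝ) * Real.exp (-y ^ (2 : ℝ))) (Set.Ioi 0) := by
  intro y _
  simp only [GA_f, smul_eq_mul]
  rw [Real.rpow_natCast, Real.rpow_two, ← mul_assoc, ← pow_add]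
  congr 2
  ring

theorem GA_dim (n : ℕ) : Module.finrank ℝ (EuclideanSpace ℝ (Fin (n * 2 + 1))) - 1 = 2 * n := by
  rw [finrank_euclideanSpace, Fintype.card_fin]; omega

theorem GA_int (n : ℕ) : Integrable
    (fun x : EuclideanSpace ℝ (Fin (n * 2 + 1)) => GA_f n ‖x‖) := by
  rw [integrable_fun_norm_addHaar volume (f := GA_f n), GA_dim]
  rw [integrableOn_congr_fun (GA_line n) measurableSet_Ioi]
  apply integrableOn_rpow_mul_exp_neg_rpow
  · have : (0 : ℝ) ≤ ((10 * n + 1 : ℕ) : ℝ) := Nat.cast_nonneg _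
    linarith
  · norm_num

theorem GA_df (n : ℕ) : ((2 * n)! : ℝ) = ((2 * n - 1 : ℕ)‼ : ℝ) * (2 ^ n * (n ! : ℝ)) := by
  cases n with
  | zero => simp
  | succ k =>
    have h1 := Nat.factorial_eq_mul_doubleFactorial (2 * k + 1)
    have h2 := Nat.doubleFactorial_two_mul (k + 1)
    have h3 : 2 * (k + 1) = 2 * k + 1 + 1 := by ring
    have h4 : 2 * (k + 1) - 1 = 2 * k + 1 := by omega
    rw [h4]
    rw [h3] at h2 ⊢
    rw [h1, h2]
    push_cast
    ring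

theorem gauss_integrable (n : ℕ) : Integrable fun r : Fin (n * 2 + 1) → ℝ =>
    Real.sqrt (∑ i, r i ^ 2) ^ (8 * n + 1) * Real.exp (-∑ i, r i ^ 2) := by
  have h := GA_int n
  rw [← (PiLp.volume_preserving_toLp (Fin (n * 2 + 1))).integrable_comp_emb
    (MeasurableEquiv.toLp 2 _).measurableEmbedding] at h
  refine h.congr (Filter.Eventually.of_forall fun r => ?_)
  exact GA_toLp n r

theorem gauss_integral (n : ℕ) :
    ∫ r : Fin (n * 2 + 1) → ℝ,
        Real.sqrt (∑ i, r i ^ 2) ^ (8 * n + 1) * Real.exp (-∑ i, r i ^ 2) =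
      ((5 * n)! : ℝ) * (4 * Real.pi) ^ n * (n ! : ℝ) / ((2 * n)! : ℝ) := by
  have h1 := (PiLp.volume_preserving_toLp (Fin (n * 2 + 1))).integral_comp
    (MeasurableEquiv.toLp 2 _).measurableEmbedding
    (fun x : EuclideanSpace ℝ (Fin (n * 2 + 1)) => GA_f n ‖x‖)
  simp only [GA_toLp] at h1
  rw [h1, integral_fun_norm_addHaar volume (GA_f n), GA_dim]
  rw [setIntegral_congr_fun measurableSet_Ioi (GA_line n)]
  rw [integral_rpow_mul_exp_neg_rpow (by norm_num)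
    (by have : (0 : ℝ) ≤ ((10 * n + 1 : ℕ) : ℝ) := Nat.cast_nonneg _
        linarith)]
  have h2 : ((10 * n + 1 : ℕ) + 1 : ℝ) / 2 = (5 * n : ℕ) + 1 := by
    push_cast; ring
  rw [h2, Real.Gamma_nat_eq_factorial]
  have h3 : (volume : Measure (EuclideanSpace ℝ (Fin (n * 2 + 1)))).real (Metric.ball 0 1)
      = Real.sqrt Real.pi ^ (n * 2 + 1) / (((n : ℝ) + 1 / 2) * Real.Gamma ((n : ℝ) + 1 / 2)) := by
    rw [Measure.real, EuclideanSpace.volume_ball, Fintype.card_fin]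
    have h4 : ((n * 2 + 1 : ℕ) : ℝ) / 2 + 1 = ((n : ℝ) + 1 / 2) + 1 := by push_cast; ring
    rw [h4, Real.Gamma_add_one (by positivity)]
    rw [ENNReal.ofReal_one, one_pow, one_mul, ENNReal.toReal_ofReal]
    have := Real.Gamma_pos_of_pos (s := (n : ℝ) + 1 / 2) (by positivity)
    positivity
  rw [h3, Real.Gamma_nat_add_half, finrank_euclideanSpace, Fintype.card_fin, GA_df]
  have hs : Real.sqrt Real.pi ^ (n * 2 + 1) = Real.pi ^ n * Real.sqrt Real.pi := by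
    rw [pow_succ, mul_comm n 2, pow_mul, Real.sq_sqrt Real.pi_pos.le]
  rw [hs, nsmul_eq_mul, smul_eq_mul, mul_pow]
  have hsp : Real.sqrt Real.pi ≠ 0 := (Real.sqrt_pos.mpr Real.pi_pos).ne'
  have hd : ((2 * n - 1 : ℕ)‼ : ℝ) ≠ 0 := by
    exact_mod_cast (Nat.doubleFactorial_pos _).ne'
  have hn : (n : ℝ) + 1 / 2 ≠ 0 := by positivity
  have hf : (n ! : ℝ) ≠ 0 := by exact_mod_cast n.factorial_ne_zero
  have h2n : (4 : ℝ) ^ n = 2 ^ n * 2 ^ n := by
    rw [← mul_pow]; norm_num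
  rw [h2n]
  push_cast
  field_simp

end SimplVol
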