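import Pool.Agent.H74.SV.Defs
import Pool.Agent.H74.SV.Comb

/-!
# The chain of the cube and the product chain: definitions
-/

set_option autoImplicit false

open scoped BigOperators Nat

namespace SimplVol

/-- The affine function with value `1` at the vertices `k` with `η k = true` and `0` at the other
vertices. -/
noncomputable def col {p : ℕ} (η : Fin p → Bool) : C(stdSimplex ℝ (Fin p), unitInterval) :=
  ⟨fun t => ⟨∑ k, if η k = true then t k else 0,
    Finset.sum_nonneg fun k _ => by split_ifs <;> simp,
    le_trans (Finset.sum_le_sum fun k _ => show (if η k = true then t k else 0) ≤ t k by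
      split_ifs <;> simp) (le_of_eq (stdSimplex.sum_eq_one t))⟩, by
    refine Continuous.subtype_mk (continuous_finsetSum _ fun k _ => ?_) _
    split_ifs
    · exact (continuous_apply k).comp continuous_subtype_val
    · exact continuous_const⟩

/-- The map `(u, v) ↦ (1 - u, u (1 - v), u v)` from the square to the triangle. -/
noncomputable def sqMap : C(unitInterval × unitInterval, stdSimplex ℝ (Fin 3)) :=
  ⟨fun p => ⟨![1 - (p.1 : ℝ), (p.1 : ℝ) * (1 - (p.2 : ℝ)), (p.1 : ℝ) * (p.2 : ℝ)], by
    have h1 := p.1.2.1
    have h2 := p.1.2.2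
    have h3 := p.2.2.1
    have h4 := p.2.2.2
    refine ⟨fun i => ?_, ?_⟩
    · fin_cases i
      · simpa using h2
      · simpa using mul_nonneg h1 (sub_nonneg.2 h4)
      · simpa using mul_nonneg h1 h3
    · rw [Fin.sum_univ_three]
      simp
      ring⟩, by
    refine Continuous.subtype_mk (continuous_pi fun i => ?_) _
    fin_cases i
    · exact continuous_const.sub (continuous_subtype_val.comp continuous_fst)
    · exact (continuous_subtype_val.comp continuous_fst).mul
        (continuous_const.sub (continuous_subtype_val.comp continuous_snd))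
    · exact (continuous_subtype_val.comp continuous_fst).mul
        (continuous_subtype_val.comp continuous_snd)⟩

/-- The map `v ↦ (1 - v, v)` from the interval to the edge. -/
noncomputable def edgeMap : C(unitInterval, stdSimplex ℝ (Fin 2)) :=
  ⟨fun v => ⟨![1 - (v : ℝ), (v : ℝ)], by
    have h1 := v.2.1
    have h2 := v.2.2
    refine ⟨fun i => ?_, ?_⟩
    · fin_cases i
      · simpa using h2
      · simpa using h1
    · rw [Fin.sum_univ_two]
      simp⟩, by
    refine Continuous.subtype_mk (continuous_pi fun i => ?_) _
    fin_cases i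
    · exact continuous_const.sub continuous_subtype_val
    · exact continuous_subtype_val⟩

/-- The map of the simplex `y` to the `j`-th triangle. -/
noncomputable def tri {n p : ℕ} (y : Fin p → Fin (n * 2) → Bool) (j : Fin n) :
    C(stdSimplex ℝ (Fin p), stdSimplex ℝ (Fin 3)) :=
  sqMap.comp ((col fun k => y k (finProdFinEquiv (j, 0))).prodMk
    (col fun k => y k (finProdFinEquiv (j, 1))))

section Y

variable {n : ℕ} {Y : Fin n → Type} [∀ j, TopologicalSpace (Y j)]

/-- The image of the simplex `y` of the cube in the product of the singular triangles `σ j`. -/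
noncomputable def cell (σ : ∀ j, Sing 3 (Y j)) {p : ℕ} (y : Fin p → Fin (n * 2) → Bool) :
    Sing p (∀ j, Y j) :=
  ContinuousMap.pi fun j => (σ j).comp (tri y j)

/-- The same, but in the `j`-th factor we use the singular edge `e` at the point given by the
column `(j, 1)` of `y`. -/
noncomputable def ecell (j : Fin n) (σ : ∀ j, Sing 3 (Y j)) (e : Sing 2 (Y j)) {p : ℕ}
    (y : Fin p → Fin (n * 2) → Bool) : Sing p (∀ j, Y j) :=
  ContinuousMap.pi (Function.update (fun i => (σ i).comp (tri y i)) j
    (e.comp (edgeMap.comp (col fun k => y k (finProdFinEquiv (j, 1))))))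

/-- The image of the chain of the cube. -/
noncomputable def cubeChain (σ : ∀ j, Sing 3 (Y j)) : Chain (n * 2 + 1) (∀ j, Y j) :=
  ∑ y : Fin (n * 2 + 1) → Fin (n * 2) → Bool, Finsupp.single (cell σ y) (cub (n * 2) y)

/-- The image of the chain of a facet. -/
noncomputable def edgeChain (j : Fin n) (σ : ∀ j, Sing 3 (Y j)) (e : Sing 2 (Y j)) :
    Chain (n * 2) (∀ j, Y j) :=
  ∑ y : Fin (n * 2) → Fin (n * 2) → Bool,
    if ∀ k, y k (finProdFinEquiv (j, 0)) = true then
      Finsupp.single (ecell j σ e y) (fc (n * 2) (finProdFinEquiv (j, 0)) y) else 0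

/-- The product chain. -/
noncomputable def prodChain (z : ∀ j, Chain 3 (Y j)) : Chain (n * 2 + 1) (∀ j, Y j) :=
  ∑ σ ∈ Fintype.piFinset fun j => (z j).support, (∏ j, z j (σ j)) • cubeChain σ

/-- Exchange the columns `(j, 0)` and `(j, 1)`. -/
def swapCols (j : Fin n) {p : ℕ} (y : Fin p → Fin (n * 2) → Bool) : Fin p → Fin (n * 2) → Bool :=
  fun k c => y k (Equiv.swap (finProdFinEquiv (j, 0)) (finProdFinEquiv (j, 1)) c)

end Y

end SimplVol
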