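import Pool.Agent.H74.SV.Ker

/-!
# Module HD: decomposable kernels and Hadamard's inequality

* `hadamard`: `|det M| ≤ ∏_c ‖column c‖₂`: `Orientation.abs_volumeForm_apply_le` for
  `EuclideanSpace ℝ (Fin m)` (the volume form of the columns is `±` the determinant,
  `Orientation.volumeForm_robust`, `OrthonormalBasis.det_to_matrix...`), or any other proof.
* `mvol_wedge_le`: put `u' j a = u j a.succ - u j 0`, `v'` similarly (`a : Fin (n * 2)`). For `K = u ∧ v`,
  `K 0 a + K a b + K b 0 = u'_a v'_b - u'_b v'_a`. So `mvol n (wedge ..) =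
  ∑_σ sgn σ ∏_j (u'_{σ(j0)} v'_{σ(j1)} - u'_{σ(j1)} v'_{σ(j0)}) = 2^n ∑_σ sgn σ ∏_j u'_{σ(j0)} v'_{σ(j1)}`
  (expand the product with `Finset.prod_sub`/`Finset.prod_add` over subsets `t` of `Fin n`, and substitute
  `σ → σ * ∏_{j ∈ t} swap (j0) (j1)`, of sign `(-1)^|t|`; or by induction on the number of factors that
  have been simplified, one swap at a time) `= 2^n det [u'¹, v'¹, …]` (size `2n`)
  `= 2^n det [1, u¹, v¹, …]` (size `2n+1`, rows `0, …, 2n`; subtract row `0` from the other rows, or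
  subtract multiples of the first column, expand along the first row).
  Then `hadamard`: the first column has norm `√(2n+1)`.
-/

set_option autoImplicit false
open scoped BigOperators Nat
namespace SimplVol

theorem hadamard {m : ℕ} (M : Matrix (Fin m) (Fin m) ℝ) :
    |M.det| ≤ ∏ c, Real.sqrt (∑ i, (M i c) ^ 2) := by
  classical
  have : Fact (Module.finrank ℝ (EuclideanSpace ℝ (Fin m)) = m) := ⟨by simp⟩
  set b := EuclideanSpace.basisFun (Fin m) ℝ with hb
  set o := b.toBasis.orientation with ho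
  have h1 := o.abs_volumeForm_apply_le (fun c : Fin m => WithLp.toLp 2 (fun i => M i c))
  rw [o.volumeForm_robust b rfl] at h1
  have h2 : b.toBasis.det (fun c : Fin m => WithLp.toLp 2 (fun i => M i c)) = M.det := by
    rw [Module.Basis.det_apply]
    congr 1
  rw [h2] at h1
  refine h1.trans (le_of_eq ?_)
  apply Finset.prod_congr rfl
  intro c _
  rw [EuclideanSpace.norm_eq]
  simp

section HD
variable {n : ℕ} (u v : Fin n → Fin (n * 2) → ℝ)

/-- One term. -/
def HD_A (j : Fin n) (σ : Equiv.Perm (Fin (n * 2))) : ℝ :=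
  u j (σ (finProdFinEquiv (j, 0))) * v j (σ (finProdFinEquiv (j, 1)))

/-- The other term. -/
def HD_B (j : Fin n) (σ : Equiv.Perm (Fin (n * 2))) : ℝ :=
  u j (σ (finProdFinEquiv (j, 1))) * v j (σ (finProdFinEquiv (j, 0)))

/-- The swap. -/
def HD_s (j : Fin n) : Equiv.Perm (Fin (n * 2)) :=
  Equiv.swap (finProdFinEquiv (j, 0)) (finProdFinEquiv (j, 1))

theorem HD_ne (j : Fin n) : (finProdFinEquiv (j, (0 : Fin 2)) : Fin (n * 2)) ≠ finProdFinEquiv (j, 1) := by
  intro h
  have := finProdFinEquiv.injective h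
  simp at this

theorem HD_A_swap (j : Fin n) (σ : Equiv.Perm (Fin (n * 2))) :
    HD_A u v j (σ * HD_s j) = HD_B u v j σ := by
  unfold HD_A HD_B HD_s
  rw [Equiv.Perm.mul_apply, Equiv.Perm.mul_apply, Equiv.swap_apply_left, Equiv.swap_apply_right]

theorem HD_fix {j k : Fin n} (h : k ≠ j) (b : Fin 2) (σ : Equiv.Perm (Fin (n * 2))) :
    (σ * HD_s j) (finProdFinEquiv (k, b)) = σ (finProdFinEquiv (k, b)) := by
  unfold HD_s
  rw [Equiv.Perm.mul_apply, Equiv.swap_apply_of_ne_of_ne]
  · intro h1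
    have := finProdFinEquiv.injective h1
    simp at this
    exact h this.1
  · intro h1
    have := finProdFinEquiv.injective h1
    simp at this
    exact h this.1

theorem HD_A_fix {j k : Fin n} (h : k ≠ j) (σ : Equiv.Perm (Fin (n * 2))) :
    HD_A u v k (σ * HD_s j) = HD_A u v k σ := by
  unfold HD_A
  rw [HD_fix h, HD_fix h]

theorem HD_B_fix {j k : Fin n} (h : k ≠ j) (σ : Equiv.Perm (Fin (n * 2))) :
    HD_B u v k (σ * HD_s j) = HD_B u v k σ := by
  unfold HD_B
  rw [HD_fix h, HD_fix h]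

theorem HD_expand (t : Finset (Fin n)) :
    ∑ σ : Equiv.Perm (Fin (n * 2)), ((Equiv.Perm.sign σ : ℤ) : ℝ) *
      ((∏ j ∈ t, (HD_A u v j σ - HD_B u v j σ)) * ∏ j ∈ tᶜ, HD_A u v j σ) =
    2 ^ t.card * ∑ σ : Equiv.Perm (Fin (n * 2)), ((Equiv.Perm.sign σ : ℤ) : ℝ) *
      ∏ j, HD_A u v j σ := by
  classical
  induction t using Finset.induction_on with
  | empty => simp
  | insert k t hk ih =>
    have hc : tᶜ = insert k (insert k t)ᶜ := by
      ext x
      simp only [Finset.mem_compl, Finset.mem_insert]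
      constructor
      · intro hx
        by_cases hxk : x = k
        · exact Or.inl hxk
        · exact Or.inr (by tauto)
      · rintro (rfl | hx)
        · exact hk
        · tauto
    have hkc : k ∉ (insert k t)ᶜ := by simp
    set R : Equiv.Perm (Fin (n * 2)) → ℝ := fun σ =>
      (∏ j ∈ t, (HD_A u v j σ - HD_B u v j σ)) * ∏ j ∈ (insert k t)ᶜ, HD_A u v j σ with hR
    have hRs : ∀ σ, R (σ * HD_s k) = R σ := by
      intro σ
      simp only [hR]
      congr 1
      · apply Finset.prod_congr rfl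
        intro j hj
        have hjk : j ≠ k := fun h => hk (h ▸ hj)
        rw [HD_A_fix u v hjk, HD_B_fix u v hjk]
      · apply Finset.prod_congr rfl
        intro j hj
        have hjk : j ≠ k := fun h => hkc (h ▸ hj)
        rw [HD_A_fix u v hjk]
    have h1 : ∀ σ : Equiv.Perm (Fin (n * 2)), ((Equiv.Perm.sign σ : ℤ) : ℝ) *
        ((∏ j ∈ insert k t, (HD_A u v j σ - HD_B u v j σ)) * ∏ j ∈ (insert k t)ᶜ, HD_A u v j σ) =
        ((Equiv.Perm.sign σ : ℤ) : ℝ) * (HD_A u v k σ * R σ) -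
        ((Equiv.Perm.sign σ : ℤ) : ℝ) * (HD_B u v k σ * R σ) := by
      intro σ
      rw [Finset.prod_insert hk]
      simp only [hR]
      ring
    have h2 : ∑ σ : Equiv.Perm (Fin (n * 2)), ((Equiv.Perm.sign σ : ℤ) : ℝ) * (HD_A u v k σ * R σ) =
        2 ^ t.card * ∑ σ : Equiv.Perm (Fin (n * 2)), ((Equiv.Perm.sign σ : ℤ) : ℝ) *
          ∏ j, HD_A u v j σ := by
      rw [← ih]
      apply Finset.sum_congr rfl
      intro σ _
      rw [hc, Finset.prod_insert hkc]
      simp only [hR]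
      ring
    have h3 : ∑ σ : Equiv.Perm (Fin (n * 2)), ((Equiv.Perm.sign σ : ℤ) : ℝ) * (HD_B u v k σ * R σ) =
        - ∑ σ : Equiv.Perm (Fin (n * 2)), ((Equiv.Perm.sign σ : ℤ) : ℝ) * (HD_A u v k σ * R σ) := by
      rw [← Equiv.sum_comp (Equiv.mulRight (HD_s k))
        (fun σ => ((Equiv.Perm.sign σ : ℤ) : ℝ) * (HD_A u v k σ * R σ)), ← Finset.sum_neg_distrib]
      apply Finset.sum_congr rfl
      intro σ _
      simp only [Equiv.coe_mulRight]
      rw [HD_A_swap, hRs, Equiv.Perm.sign_mul]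
      have hs : Equiv.Perm.sign (HD_s k) = -1 := Equiv.Perm.sign_swap (HD_ne k)
      rw [hs]
      push_cast
      ring
    rw [Finset.sum_congr rfl (fun σ _ => h1 σ), Finset.sum_sub_distrib, h3, h2,
      Finset.card_insert_of_notMem hk, pow_succ]
    ring

/-- The matrix with the columns `u j`, `v j`. -/
def HD_X {m : ℕ} (u v : Fin n → Fin m → ℝ) : Matrix (Fin m) (Fin (n * 2)) ℝ := fun a c =>
  if (finProdFinEquiv.symm c).2 = 0 then u (finProdFinEquiv.symm c).1 a
    else v (finProdFinEquiv.symm c).1 a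

theorem HD_X0 {m : ℕ} (u v : Fin n → Fin m → ℝ) (a : Fin m) (j : Fin n) :
    HD_X u v a (finProdFinEquiv (j, 0)) = u j a := by
  unfold HD_X
  simp

theorem HD_X1 {m : ℕ} (u v : Fin n → Fin m → ℝ) (a : Fin m) (j : Fin n) :
    HD_X u v a (finProdFinEquiv (j, 1)) = v j a := by
  unfold HD_X
  simp

theorem HD_det : ∑ σ : Equiv.Perm (Fin (n * 2)), ((Equiv.Perm.sign σ : ℤ) : ℝ) *
      ∏ j, HD_A u v j σ = (HD_X u v).det := by
  rw [Matrix.det_apply']
  apply Finset.sum_congr rfl
  intro σ _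
  congr 1
  rw [← Equiv.prod_comp finProdFinEquiv, Fintype.prod_prod_type]
  apply Finset.prod_congr rfl
  intro j _
  rw [Fin.prod_univ_two, HD_X0, HD_X1]
  rfl

end HD

theorem HD_mvol {n : ℕ} (u v : Fin n → Fin (n * 2 + 1) → ℝ) :
    mvol n (fun j => wedge (u j) (v j)) = 2 ^ n *
      (HD_X (fun j a => u j a.succ - u j 0) (fun j a => v j a.succ - v j 0)).det := by
  set u' : Fin n → Fin (n * 2) → ℝ := fun j a => u j a.succ - u j 0 with hu'
  set v' : Fin n → Fin (n * 2) → ℝ := fun j a => v j a.succ - v j 0 with hv'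
  rw [← HD_det]
  have h := HD_expand u' v' Finset.univ
  simp only [Finset.compl_univ, Finset.prod_empty, mul_one, Finset.card_univ, Fintype.card_fin] at h
  rw [← h]
  unfold mvol
  apply Finset.sum_congr rfl
  intro σ _
  congr 1
  apply Finset.prod_congr rfl
  intro j _
  simp only [wedge, HD_A, HD_B, hu', hv']
  ring

theorem HD_border {m : ℕ} (X : Matrix (Fin (m + 1)) (Fin m) ℝ) :
    (Matrix.of fun (a : Fin m) (c : Fin m) => X a.succ c - X 0 c).det =
      (Matrix.of fun (i : Fin (m + 1)) (c : Fin (m + 1)) =>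
        (Fin.cons (1 : ℝ) (X i) : Fin (m + 1) → ℝ) c).det := by
  set Z : Matrix (Fin (m + 1)) (Fin (m + 1)) ℝ := Matrix.of fun i c =>
    (Fin.cons (1 : ℝ) (X i) : Fin (m + 1) → ℝ) c with hZ
  set Z' : Matrix (Fin (m + 1)) (Fin (m + 1)) ℝ := Matrix.of fun i c =>
    if i = 0 then Z 0 c else Z i c - Z 0 c with hZ'
  have h1 : Z.det = Z'.det := by
    apply Matrix.det_eq_of_forall_row_eq_smul_add_const (fun i => if i = 0 then 0 else 1) 0
    · simp
    · intro i j
      by_cases hi : i = 0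
      · simp [hZ', hi]
      · simp [hZ', hi]
  rw [h1, Matrix.det_succ_column_zero, Fin.sum_univ_succ]
  have h2 : ∀ i : Fin m, Z' i.succ 0 = 0 := by
    intro i
    simp [hZ', hZ, Fin.succ_ne_zero]
  have h3 : Z' 0 0 = 1 := by simp [hZ', hZ]
  rw [Finset.sum_eq_zero (fun i _ => by rw [h2]; ring), h3, add_zero]
  simp only [Fin.val_zero, pow_zero, one_mul, Fin.succAbove_zero]
  congr 1

theorem mvol_wedge_le {n : ℕ} (u v : Fin n → Fin (n * 2 + 1) → ℝ) :
    |mvol n (fun j => wedge (u j) (v j))| ≤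
      2 ^ n * Real.sqrt (2 * n + 1) *
        ∏ j, (Real.sqrt (∑ i, (u j i) ^ 2) * Real.sqrt (∑ i, (v j i) ^ 2)) := by
  rw [HD_mvol, abs_mul, abs_of_pos (by positivity : (0:ℝ) < 2 ^ n), mul_assoc]
  apply mul_le_mul_of_nonneg_left _ (by positivity)
  have h1 : HD_X (fun j a => u j a.succ - u j 0) (fun j a => v j a.succ - v j 0) =
      Matrix.of fun (a : Fin (n * 2)) (c : Fin (n * 2)) => HD_X u v a.succ c - HD_X u v 0 c := by
    ext a c
    simp only [HD_X, Matrix.of_apply]
    split_ifs <;> rfl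
  rw [h1, HD_border]
  refine (hadamard _).trans (le_of_eq ?_)
  rw [Fin.prod_univ_succ]
  congr 1
  · congr 1
    simp
    ring
  · rw [← Equiv.prod_comp finProdFinEquiv, Fintype.prod_prod_type]
    apply Finset.prod_congr rfl
    intro j _
    rw [Fin.prod_univ_two]
    simp only [Matrix.of_apply, Fin.cons_succ, HD_X0, HD_X1]

end SimplVol
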