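import Pool.Agent.H74.SV.Pol
import Pool.Agent.H74.SV.HD

/-!
# Module HB: Hadamard's inequality for the type matrix

Multiply row `i` by `r i` (`Matrix.det_mul_column` / `Matrix.det_mul_row`):
`|det Em| ∏ |r i| = |det (r i * Em i c)| ≤ ∏_c ‖column c‖` (`hadamard`). With `R² = ∑ r i²`: the first column has
norm `R`; for every factor `j` the two columns have norms `√s₁`, `√s₂`, `s_l = ∑_{τ j i = l} r i²`,
`s₁ + s₂ ≤ R²`, so `√s₁ √s₂ ≤ R²/2`. The product over the columns is split with `finProdFinEquiv`.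
-/

set_option autoImplicit false

open scoped BigOperators Nat

namespace SimplVol

theorem HB_pair {m : ℕ} (t : Fin m → Fin 3) (r : Fin m → ℝ) :
    2 * (Real.sqrt (∑ i, (r i * if t i = 1 then 1 else 0) ^ 2) *
      Real.sqrt (∑ i, (r i * if t i = 2 then 1 else 0) ^ 2)) ≤ ∑ i, r i ^ 2 := by
  set s1 := ∑ i, (r i * if t i = 1 then 1 else 0) ^ 2 with hs1
  set s2 := ∑ i, (r i * if t i = 2 then 1 else 0) ^ 2 with hs2
  have h1 : 0 ≤ s1 := Finset.sum_nonneg fun i _ => sq_nonneg _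
  have h2 : 0 ≤ s2 := Finset.sum_nonneg fun i _ => sq_nonneg _
  have h3 : s1 + s2 ≤ ∑ i, r i ^ 2 := by
    rw [hs1, hs2, ← Finset.sum_add_distrib]
    apply Finset.sum_le_sum
    intro i _
    by_cases a : t i = 1
    · have b : t i ≠ 2 := by rw [a]; decide
      rw [if_pos a, if_neg b]
      nlinarith
    · by_cases b : t i = 2
      · rw [if_neg a, if_pos b]
        nlinarith
      · rw [if_neg a, if_neg b]
        nlinarith [sq_nonneg (r i)]
  have h4 := two_mul_le_add_sq (Real.sqrt s1) (Real.sqrt s2)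
  rw [Real.sq_sqrt h1, Real.sq_sqrt h2] at h4
  linarith

theorem HB_E0 {n p : ℕ} (τ : Fin n → Fin p → Fin 3) (i : Fin p) (j : Fin n) :
    Em n τ i (Fin.succ (finProdFinEquiv (j, 0))) = if τ j i = 1 then 1 else 0 := by
  unfold Em
  rw [Fin.cons_succ, Equiv.symm_apply_apply, if_pos rfl]

theorem HB_E1 {n p : ℕ} (τ : Fin n → Fin p → Fin 3) (i : Fin p) (j : Fin n) :
    Em n τ i (Fin.succ (finProdFinEquiv (j, 1))) = if τ j i = 2 then 1 else 0 := by
  unfold Em
  rw [Fin.cons_succ, Equiv.symm_apply_apply]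
  have h : (1 : Fin 2) ≠ 0 := by decide
  simp only [h, if_false]

theorem hadamard_types (n : ℕ) (τ : Fin n → Fin (n * 2 + 1) → Fin 3) (r : Fin (n * 2 + 1) → ℝ) :
    2 ^ n * |(Matrix.of (Em n τ)).det| * ∏ i, |r i| ≤ Real.sqrt (∑ i, r i ^ 2) ^ (n * 2 + 1) := by
  set R := ∑ i, r i ^ 2 with hR
  have hR0 : 0 ≤ R := Finset.sum_nonneg fun i _ => sq_nonneg _
  have h1 := Matrix.det_mul_column r (Matrix.of (Em n τ))
  have h2 := hadamard (Matrix.of fun i j => r i * (Matrix.of (Em n τ)) i j)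
  rw [h1, abs_mul, Finset.abs_prod] at h2
  have h3 : ∏ c, Real.sqrt (∑ i, ((Matrix.of fun i j => r i * (Matrix.of (Em n τ)) i j) i c) ^ 2) =
      Real.sqrt R * ∏ j : Fin n,
        (Real.sqrt (∑ i, (r i * if τ j i = 1 then 1 else 0) ^ 2) *
        Real.sqrt (∑ i, (r i * if τ j i = 2 then 1 else 0) ^ 2)) := by
    rw [Fin.prod_univ_succ]
    congr 1
    · congr 1
      apply Finset.sum_congr rfl
      intro i _
      simp [Em]
    · rw [← Equiv.prod_comp finProdFinEquiv, Fintype.prod_prod_type]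
      apply Finset.prod_congr rfl
      intro j _
      rw [Fin.prod_univ_two]
      simp only [Matrix.of_apply, HB_E0, HB_E1]
  rw [h3] at h2
  have h4 : ∏ j : Fin n, (2 * (Real.sqrt (∑ i, (r i * if τ j i = 1 then 1 else 0) ^ 2) *
        Real.sqrt (∑ i, (r i * if τ j i = 2 then 1 else 0) ^ 2))) ≤ ∏ _j : Fin n, R := by
    apply Finset.prod_le_prod
    · intro j _
      positivity
    · intro j _
      exact HB_pair (τ j) r
  rw [Finset.prod_mul_distrib, Finset.prod_const, Finset.prod_const, Finset.card_univ,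
    Fintype.card_fin] at h4
  have h5 : Real.sqrt R ^ (n * 2 + 1) = Real.sqrt R * R ^ n := by
    rw [pow_succ, mul_comm n 2, pow_mul, Real.sq_sqrt hR0, mul_comm]
  rw [h5]
  calc 2 ^ n * |(Matrix.of (Em n τ)).det| * ∏ i, |r i|
      = 2 ^ n * ((∏ i, |r i|) * |(Matrix.of (Em n τ)).det|) := by ring
    _ ≤ 2 ^ n * (Real.sqrt R * ∏ j : Fin n,
        (Real.sqrt (∑ i, (r i * if τ j i = 1 then 1 else 0) ^ 2) *
        Real.sqrt (∑ i, (r i * if τ j i = 2 then 1 else 0) ^ 2))) :=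
        mul_le_mul_of_nonneg_left h2 (by positivity)
    _ = Real.sqrt R * (2 ^ n * ∏ j : Fin n,
        (Real.sqrt (∑ i, (r i * if τ j i = 1 then 1 else 0) ^ 2) *
        Real.sqrt (∑ i, (r i * if τ j i = 2 then 1 else 0) ^ 2))) := by ring
    _ ≤ _ := mul_le_mul_of_nonneg_left h4 (Real.sqrt_nonneg _)

end SimplVol
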