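import Pool.Agent.H74.SV.HB

/-!
# Module HC: Hadamard's inequality for the type matrix, with the symmetric triangle

Replace the two indicator columns of every factor by the coordinates of the vertices of an
equilateral triangle of circumradius `√2`; this multiplies the determinant by `(3√3)^n`.
-/

set_option autoImplicit false

open scoped BigOperators Nat

namespace SimplVol

/-- The block. -/
noncomputable def HC_B : Matrix (Fin 2) (Fin 2) ℝ :=
  !![-(3 * Real.sqrt 2 / 2), Real.sqrt 6 / 2; -(3 * Real.sqrt 2 / 2), -(Real.sqrt 6 / 2)]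

theorem HC_det_B : HC_B.det = 3 * Real.sqrt 3 := by
  have h : Real.sqrt 2 * Real.sqrt 6 = 2 * Real.sqrt 3 := by
    rw [← Real.sqrt_mul (by norm_num), show (2 : ℝ) * 6 = 2 ^ 2 * 3 by norm_num,
      Real.sqrt_mul (by norm_num), Real.sqrt_sq (by norm_num)]
  unfold HC_B
  rw [Matrix.det_fin_two_of]
  linarith [h]

/-- The transformation of the columns. -/
noncomputable def HC_T (n : ℕ) : Matrix (Fin (n * 2 + 1)) (Fin (n * 2 + 1)) ℝ :=
  Matrix.of fun a b => Fin.cases (motive := fun _ => ℝ)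
    (Fin.cases (motive := fun _ => ℝ) 1
      (fun b' => if (finProdFinEquiv.symm b').2 = 0 then Real.sqrt 2 else 0) b)
    (fun a' => Fin.cases (motive := fun _ => ℝ) 0
      (fun b' => if (finProdFinEquiv.symm a').1 = (finProdFinEquiv.symm b').1 then
        HC_B (finProdFinEquiv.symm a').2 (finProdFinEquiv.symm b').2 else 0) b) a

theorem HC_det_T (n : ℕ) : (HC_T n).det = (3 * Real.sqrt 3) ^ n := by
  rw [Matrix.det_succ_column_zero, Fin.sum_univ_succ, Finset.sum_eq_zero]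
  · have h1 : (HC_T n).submatrix (Fin.succAbove 0) Fin.succ =
        (Matrix.blockDiagonal fun _ : Fin n => HC_B).submatrix
          (finProdFinEquiv.symm.trans (Equiv.prodComm (Fin n) (Fin 2)))
          (finProdFinEquiv.symm.trans (Equiv.prodComm (Fin n) (Fin 2))) := by
      ext a b
      simp [HC_T, Matrix.blockDiagonal_apply]
    rw [h1, Matrix.det_submatrix_equiv_self, Matrix.det_blockDiagonal]
    simp [HC_T, HC_det_B]
  · intro i _
    simp [HC_T]

/-- The coordinates of the vertices of the triangle. -/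
noncomputable def HC_w (ε : Fin 2) (t : Fin 3) : ℝ :=
  (if ε = 0 then Real.sqrt 2 else 0) + ((if t = 1 then HC_B 0 ε else 0) +
    (if t = 2 then HC_B 1 ε else 0))

theorem HC_T0 (n : ℕ) (j : Fin n) (ε : Fin 2) :
    HC_T n 0 (Fin.succ (finProdFinEquiv (j, ε))) = if ε = 0 then Real.sqrt 2 else 0 := by
  have h : HC_T n 0 (Fin.succ (finProdFinEquiv (j, ε))) =
      if (finProdFinEquiv.symm (finProdFinEquiv (j, ε))).2 = 0 then Real.sqrt 2 else 0 := rfl
  rw [h, Equiv.symm_apply_apply]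

theorem HC_T1 (n : ℕ) (j k : Fin n) (δ ε : Fin 2) :
    HC_T n (Fin.succ (finProdFinEquiv (k, δ))) (Fin.succ (finProdFinEquiv (j, ε))) =
      if k = j then HC_B δ ε else 0 := by
  have h : HC_T n (Fin.succ (finProdFinEquiv (k, δ))) (Fin.succ (finProdFinEquiv (j, ε))) =
      if (finProdFinEquiv.symm (finProdFinEquiv (k, δ))).1 =
        (finProdFinEquiv.symm (finProdFinEquiv (j, ε))).1 then
        HC_B (finProdFinEquiv.symm (finProdFinEquiv (k, δ))).2
          (finProdFinEquiv.symm (finProdFinEquiv (j, ε))).2 else 0 := rfl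
  rw [h, Equiv.symm_apply_apply, Equiv.symm_apply_apply]

theorem HC_mul (n : ℕ) (τ : Fin n → Fin (n * 2 + 1) → Fin 3) (i : Fin (n * 2 + 1)) (j : Fin n)
    (ε : Fin 2) :
    (Matrix.of (Em n τ) * HC_T n) i (Fin.succ (finProdFinEquiv (j, ε))) = HC_w ε (τ j i) := by
  rw [Matrix.mul_apply, Fin.sum_univ_succ, ← Equiv.sum_comp finProdFinEquiv,
    Fintype.sum_prod_type]
  unfold HC_w
  congr 1
  · rw [HC_T0]
    have : Matrix.of (Em n τ) i 0 = 1 := by simp [Em]
    rw [this, one_mul]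
  · rw [Finset.sum_eq_single j]
    · rw [Fin.sum_univ_two]
      simp only [Matrix.of_apply, HB_E0, HB_E1, HC_T1, if_true]
      split_ifs <;> simp
    · intro b _ hb
      rw [Fin.sum_univ_two]
      simp only [HC_T1, if_neg hb, mul_zero, add_zero]
    · intro h
      exact absurd (Finset.mem_univ _) h

theorem HC_mul_zero (n : ℕ) (τ : Fin n → Fin (n * 2 + 1) → Fin 3) (i : Fin (n * 2 + 1)) :
    (Matrix.of (Em n τ) * HC_T n) i 0 = 1 := by
  rw [Matrix.mul_apply, Fin.sum_univ_succ]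
  simp [Em, HC_T]

theorem HC_sq (t : Fin 3) : HC_w 0 t ^ 2 + HC_w 1 t ^ 2 = 2 := by
  have h2 : Real.sqrt 2 ^ 2 = 2 := Real.sq_sqrt (by norm_num)
  have h6 : Real.sqrt 6 ^ 2 = 6 := Real.sq_sqrt (by norm_num)
  fin_cases t
  · simp [HC_w]
  · simp [HC_w, HC_B]
    nlinarith [h2, h6]
  · simp [HC_w, HC_B]
    nlinarith [h2, h6]

theorem hadamard_types' (n : ℕ) (τ : Fin n → Fin (n * 2 + 1) → Fin 3)
    (r : Fin (n * 2 + 1) → ℝ) :
    2 ^ n * |(Matrix.of (Em n τ)).det| * ∏ i, |r i| ≤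
      Real.sqrt (∑ i, r i ^ 2) ^ (n * 2 + 1) * (2 / (3 * Real.sqrt 3)) ^ n := by
  set R := ∑ i, r i ^ 2 with hR
  have hR0 : 0 ≤ R := Finset.sum_nonneg fun i _ => sq_nonneg _
  have h3p : 0 < 3 * Real.sqrt 3 := by positivity
  set Q := Matrix.of (Em n τ) * HC_T n with hQ
  have h1 := Matrix.det_mul_column r Q
  have h2 := hadamard (Matrix.of fun i j => r i * Q i j)
  rw [h1, abs_mul, Finset.abs_prod, hQ, Matrix.det_mul, HC_det_T, abs_mul, ← hQ,
    abs_of_pos (pow_pos h3p n)] at h2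
  have h3 : ∏ c, Real.sqrt (∑ i, ((Matrix.of fun i j => r i * Q i j) i c) ^ 2) =
      Real.sqrt R * ∏ j : Fin n,
        (Real.sqrt (∑ i, (r i * HC_w 0 (τ j i)) ^ 2) *
        Real.sqrt (∑ i, (r i * HC_w 1 (τ j i)) ^ 2)) := by
    rw [Fin.prod_univ_succ]
    congr 1
    · congr 1
      apply Finset.sum_congr rfl
      intro i _
      simp [hQ, HC_mul_zero]
    · rw [← Equiv.prod_comp finProdFinEquiv, Fintype.prod_prod_type]
      apply Finset.prod_congr rfl
      intro j _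
      rw [Fin.prod_univ_two]
      simp only [Matrix.of_apply, hQ, HC_mul]
  rw [h3] at h2
  have h4 : ∏ j : Fin n, (Real.sqrt (∑ i, (r i * HC_w 0 (τ j i)) ^ 2) *
        Real.sqrt (∑ i, (r i * HC_w 1 (τ j i)) ^ 2)) ≤ ∏ _j : Fin n, R := by
    apply Finset.prod_le_prod
    · intro j _
      positivity
    · intro j _
      have ha : 0 ≤ ∑ i, (r i * HC_w 0 (τ j i)) ^ 2 := Finset.sum_nonneg fun i _ => sq_nonneg _
      have hb : 0 ≤ ∑ i, (r i * HC_w 1 (τ j i)) ^ 2 := Finset.sum_nonneg fun i _ => sq_nonneg _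
      have hs : (∑ i, (r i * HC_w 0 (τ j i)) ^ 2) + ∑ i, (r i * HC_w 1 (τ j i)) ^ 2 = 2 * R := by
        rw [← Finset.sum_add_distrib, hR, Finset.mul_sum]
        apply Finset.sum_congr rfl
        intro i _
        have := HC_sq (τ j i)
        calc (r i * HC_w 0 (τ j i)) ^ 2 + (r i * HC_w 1 (τ j i)) ^ 2 =
              r i ^ 2 * (HC_w 0 (τ j i) ^ 2 + HC_w 1 (τ j i) ^ 2) := by ring
          _ = 2 * r i ^ 2 := by rw [this]; ring
      have h5 := two_mul_le_add_sq (Real.sqrt (∑ i, (r i * HC_w 0 (τ j i)) ^ 2))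
        (Real.sqrt (∑ i, (r i * HC_w 1 (τ j i)) ^ 2))
      rw [Real.sq_sqrt ha, Real.sq_sqrt hb] at h5
      linarith
  rw [Finset.prod_const, Finset.card_univ, Fintype.card_fin] at h4
  have h5 : Real.sqrt R ^ (n * 2 + 1) = Real.sqrt R * R ^ n := by
    rw [pow_succ, mul_comm n 2, pow_mul, Real.sq_sqrt hR0, mul_comm]
  have h6 : (∏ i, |r i|) * (|(Matrix.of (Em n τ)).det| * (3 * Real.sqrt 3) ^ n) ≤
      Real.sqrt R * R ^ n := h2.trans (mul_le_mul_of_nonneg_left h4 (Real.sqrt_nonneg _))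
  rw [h5, div_pow, ← mul_div_assoc, le_div_iff₀ (pow_pos h3p n)]
  calc 2 ^ n * |(Matrix.of (Em n τ)).det| * (∏ i, |r i|) * (3 * Real.sqrt 3) ^ n
      = 2 ^ n * ((∏ i, |r i|) * (|(Matrix.of (Em n τ)).det| * (3 * Real.sqrt 3) ^ n)) := by ring
    _ ≤ 2 ^ n * (Real.sqrt R * R ^ n) := mul_le_mul_of_nonneg_left h6 (by positivity)
    _ = Real.sqrt R * R ^ n * 2 ^ n := by ring

end SimplVol
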