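import Pool.Agent.H74.SV.Defs

/-!
# Kernels: definitions for the lower bound
-/

set_option autoImplicit false

open scoped BigOperators Nat

namespace SimplVol

/-- The mixed form of `n` kernels on `2n+1` points: `vol` is `mvol / (2n)!` of the kernels
`2 sarg (x i j) (x k j)`. -/
noncomputable def mvol (n : ℕ) (K : Fin n → Fin (n * 2 + 1) → Fin (n * 2 + 1) → ℝ) : ℝ :=
  ∑ σ : Equiv.Perm (Fin (n * 2)), ((Equiv.Perm.sign σ : ℤ) : ℝ) *
    ∏ j : Fin n, (K j 0 (σ (finProdFinEquiv (j, 0))).succ +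
      K j (σ (finProdFinEquiv (j, 0))).succ (σ (finProdFinEquiv (j, 1))).succ +
      K j (σ (finProdFinEquiv (j, 1))).succ 0)

/-- `u ∧ v`. -/
def wedge {m : ℕ} (u v : Fin m → ℝ) : Fin m → Fin m → ℝ := fun i k => u i * v k - u k * v i

/-- The sign kernel of `ρ`. -/
noncomputable def sker {m : ℕ} {R : Type} [LinearOrder R] (ρ : Fin m → R) : Fin m → Fin m → ℝ :=
  fun i k => if ρ i < ρ k then 1 else if ρ k < ρ i then -1 else 0

/-- `2 arctan (t / b)` for `b > 0`, and its limit `π sign t` for `b = 0`. -/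
noncomputable def phi (b t : ℝ) : ℝ :=
  if b = 0 then (if 0 < t then Real.pi else if t < 0 then -Real.pi else 0)
  else 2 * Real.arctan (t / b)

/-- The kernel of `m` points `a i` of the closed upper half plane. -/
noncomputable def gker {m : ℕ} (a : Fin m → ℝ × ℝ) : Fin m → Fin m → ℝ :=
  fun i k => phi ((a i).2 + (a k).2) ((a k).1 - (a i).1)

end SimplVol
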