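import Pool.Agent.H74.SV.Pol

/-!
# Module L1: the functional `Lf`

* `Lf_monomial`: definition (`Module.Basis.constr_basis`, `MvPolynomial.coe_basisMonomials`).
* `Lf_pderiv`: on a monomial `t^α`: if `α i ≥ 1`, then `∂_i t^α = α_i t^(α - e_i)` and both sides are `α!`
  (the restriction is `0`); if `α i = 0`, both sides are `0` (the restriction is `t^α` without the
  variable `i`, `Fin.prod_univ_succAbove`).
* `Lf_euler`: on monomials `t^α` with `|α| = m`: `∑_i (α_i + 1) α! = (m + p) α!`. A homogeneous polynomial is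
  a combination of such monomials (`MvPolynomial.IsHomogeneous`, `MvPolynomial.as_sum`).
-/

set_option autoImplicit false

open scoped BigOperators Nat
open MvPolynomial

namespace SimplVol

theorem Lf_monomial {p : ℕ} (α : Fin p →₀ ℕ) (c : ℝ) :
    Lf (monomial α c) = c * ∏ i, ((α i)! : ℝ) := by
  have h1 : (monomial α (1 : ℝ) : MvPolynomial (Fin p) ℝ) =
      MvPolynomial.basisMonomials (Fin p) ℝ α := by
    rw [MvPolynomial.coe_basisMonomials]
  have h2 : (monomial α c : MvPolynomial (Fin p) ℝ) = c • monomial α 1 := by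
    rw [smul_monomial]; simp
  rw [h2, map_smul, h1, Lf, Module.Basis.constr_basis, smul_eq_mul]

theorem Lf_one {p : ℕ} : Lf (1 : MvPolynomial (Fin p) ℝ) = 1 := by
  have h1 : (1 : MvPolynomial (Fin p) ℝ) = monomial 0 1 := rfl
  rw [h1, Lf_monomial]
  simp

/-- Put the variable `i` equal to `0`. -/
noncomputable def rs {p : ℕ} (i : Fin (p + 1)) :
    MvPolynomial (Fin (p + 1)) ℝ →ₐ[ℝ] MvPolynomial (Fin p) ℝ :=
  aeval (i.insertNth (0 : MvPolynomial (Fin p) ℝ) fun l => (X l : MvPolynomial (Fin p) ℝ) :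
    Fin (p + 1) → MvPolynomial (Fin p) ℝ)

private theorem L1_rs_monomial {p : ℕ} (i : Fin (p + 1)) (u : Fin (p + 1) →₀ ℕ) (a : ℝ) :
    Lf (rs i (monomial u a)) = if u i = 0 then a * ∏ l, ((u (i.succAbove l))! : ℝ) else 0 := by
  have h1 : rs i (monomial u a) = C a * (0 ^ (u i) *
      ∏ l : Fin p, (X l : MvPolynomial (Fin p) ℝ) ^ (u (i.succAbove l))) := by
    unfold rs
    rw [aeval_monomial, Finsupp.prod_fintype _ _ (fun _ => pow_zero _),
      Fin.prod_univ_succAbove _ i]
    simp only [Fin.insertNth_apply_same, Fin.insertNth_apply_succAbove]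
    rfl
  rw [h1]
  by_cases hu : u i = 0
  · rw [if_pos hu, hu, pow_zero, one_mul]
    have h2 : C a * ∏ l : Fin p, (X l : MvPolynomial (Fin p) ℝ) ^ (u (i.succAbove l)) =
        monomial (Finsupp.equivFunOnFinite.symm fun l => u (i.succAbove l)) a := by
      rw [monomial_eq, Finsupp.prod_fintype _ _ (fun _ => pow_zero _)]
      rfl
    rw [h2, Lf_monomial]
    rfl
  · rw [if_neg hu, zero_pow hu, zero_mul, mul_zero, map_zero]

theorem Lf_pderiv {p : ℕ} (i : Fin (p + 1)) (F : MvPolynomial (Fin (p + 1)) ℝ) :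
    Lf (pderiv i F) = Lf F - Lf (rs i F) := by
  induction F using MvPolynomial.induction_on' with
  | monomial u a =>
    rw [pderiv_monomial, Lf_monomial, Lf_monomial, L1_rs_monomial,
      Fin.prod_univ_succAbove _ i, Fin.prod_univ_succAbove (fun l => ((u l)! : ℝ)) i]
    have h1 : ∀ l, (u - Finsupp.single i 1 : Fin (p + 1) →₀ ℕ) (i.succAbove l) =
        u (i.succAbove l) := by
      intro l
      rw [Finsupp.tsub_apply, Finsupp.single_eq_of_ne (Fin.succAbove_ne i l), Nat.sub_zero]
    simp only [h1]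
    rw [Finsupp.tsub_apply, Finsupp.single_eq_same]
    by_cases hu : u i = 0
    · rw [if_pos hu, hu]
      simp
    · rw [if_neg hu]
      obtain ⟨k, hk⟩ : ∃ k, u i = k + 1 := ⟨u i - 1, by omega⟩
      rw [hk, Nat.add_sub_cancel, Nat.factorial_succ]
      push_cast
      ring
  | add p q hp hq =>
    simp only [map_add, hp, hq]
    ring

private theorem L1_euler_monomial {p : ℕ} (α : Fin p →₀ ℕ) (c : ℝ) :
    Lf ((∑ i, X i) * monomial α c) = ((p : ℝ) + ∑ i, (α i : ℝ)) * Lf (monomial α c) := by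
  rw [Finset.sum_mul, map_sum]
  have h1 : ∀ i, Lf (X i * monomial α c) = ((α i : ℝ) + 1) * Lf (monomial α c) := by
    intro i
    have h2 : (X i * monomial α c : MvPolynomial (Fin p) ℝ) = monomial (Finsupp.single i 1 + α) c := by
      rw [X, monomial_mul, one_mul]
    rw [h2, Lf_monomial, Lf_monomial]
    have h3 : ∏ l, (((Finsupp.single i 1 + α : Fin p →₀ ℕ) l)! : ℝ) = ((α i : ℝ) + 1) * ∏ l, ((α l)! : ℝ) := by
      rw [← Finset.mul_prod_erase _ _ (Finset.mem_univ i),
        ← Finset.mul_prod_erase (Finset.univ) (fun l => ((α l)! : ℝ)) (Finset.mem_univ i)]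
      have h4 : ∏ l ∈ Finset.univ.erase i, (((Finsupp.single i 1 + α : Fin p →₀ ℕ) l)! : ℝ) =
          ∏ l ∈ Finset.univ.erase i, ((α l)! : ℝ) := by
        refine Finset.prod_congr rfl fun l hl => ?_
        rw [Finsupp.add_apply, Finsupp.single_eq_of_ne (Finset.ne_of_mem_erase hl), zero_add]
      rw [h4, Finsupp.add_apply, Finsupp.single_eq_same, add_comm 1 (α i), Nat.factorial_succ]
      push_cast
      ring
    rw [h3]
    ring
  simp only [h1]
  rw [← Finset.sum_mul, Finset.sum_add_distrib, Finset.sum_const, Finset.card_univ,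
    Fintype.card_fin, nsmul_eq_mul, mul_one, add_comm]

theorem Lf_euler {p m : ℕ} (F : MvPolynomial (Fin p) ℝ) (hF : F.IsHomogeneous m) :
    Lf ((∑ i, X i) * F) = ((p : ℝ) + m) * Lf F := by
  have h1 : F = ∑ v ∈ F.support, monomial v (coeff v F) := F.as_sum
  have h2 : ∀ v ∈ F.support, ∑ i, (v i : ℝ) = m := by
    intro v hv
    have h3 : v.degree = m := by
      by_contra h4
      exact (mem_support_iff.1 hv) (hF.coeff_eq_zero h4)
    rw [← h3, Finsupp.degree_eq_sum]
    push_cast
    rfl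
  conv_lhs => rw [h1]
  conv_rhs => rw [h1]
  rw [Finset.mul_sum, map_sum, map_sum, Finset.mul_sum]
  refine Finset.sum_congr rfl fun v hv => ?_
  rw [L1_euler_monomial, h2 v hv]

end SimplVol
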