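import Pool.Agent.H74.SV.L1

/-!
# Module LI: integral representation of `Lf`

For a monomial: `∫ ∏ |r_i|^{2 α_i + 1} e^{-r_i²} dr = ∏ α_i!` (`∫_ℝ |r|^{2a+1} e^{-r²} dr = 2 ∫_0^∞ .. = Γ(a+1)`,
`integral_rpow_mul_exp_neg_rpow`). Then linearity (induction on the polynomial).
-/

set_option autoImplicit false

open scoped BigOperators Nat
open MvPolynomial MeasureTheory

namespace SimplVol

/-- The weight. -/
noncomputable def gw {p : ℕ} (r : Fin p → ℝ) : ℝ := (∏ i, |r i|) * Real.exp (-∑ i, r i ^ 2)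

/-- The one dimensional function. -/
noncomputable def LI_f (a : ℕ) (r : ℝ) : ℝ := (r ^ 2) ^ a * |r| * Real.exp (-r ^ 2)

theorem LI_f_eq (a : ℕ) : LI_f a = fun r : ℝ => (fun y : ℝ => y ^ (2 * a + 1) * Real.exp (-y ^ 2)) |r| := by
  funext r
  unfold LI_f
  simp only
  rw [← sq_abs r]
  ring_nf

theorem LI_int (a : ℕ) : ∫ r : ℝ, LI_f a r = (a ! : ℝ) := by
  rw [LI_f_eq, integral_comp_abs]
  have h := integral_rpow_mul_exp_neg_rpow (p := 2) (q := (2 * a + 1 : ℝ)) (by norm_num)
    (by have : (0 : ℝ) ≤ a := Nat.cast_nonneg a; linarith)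
  have h2 : ∫ x in Set.Ioi (0 : ℝ), x ^ (2 * a + 1) * Real.exp (-x ^ 2) =
      ∫ x in Set.Ioi (0 : ℝ), x ^ (2 * (a : ℝ) + 1) * Real.exp (-x ^ (2 : ℝ)) := by
    refine setIntegral_congr_fun measurableSet_Ioi fun x hx => ?_
    have h3 : x ^ (2 * (a : ℝ) + 1) = x ^ (2 * a + 1) := by
      rw [← Real.rpow_natCast x (2 * a + 1)]
      push_cast
      rfl
    rw [h3]
    norm_cast
  rw [h2, h]
  have h4 : (2 * (a : ℝ) + 1 + 1) / 2 = (a : ℝ) + 1 := by ring
  rw [h4, Real.Gamma_nat_eq_factorial]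
  ring

theorem LI_integrable (a : ℕ) : Integrable (LI_f a) := by
  by_contra h
  have h1 := LI_int a
  rw [integral_undef h] at h1
  have : (0 : ℝ) < (a ! : ℝ) := by exact_mod_cast Nat.factorial_pos a
  linarith

theorem LI_prod {p : ℕ} (α : Fin p →₀ ℕ) (r : Fin p → ℝ) :
    eval (fun i => r i ^ 2) (monomial α (1 : ℝ)) * gw r = ∏ i, LI_f (α i) (r i) := by
  unfold gw LI_f
  rw [eval_monomial, one_mul, Finsupp.prod_fintype _ _ (fun _ => pow_zero _),
    Finset.prod_mul_distrib, Finset.prod_mul_distrib, ← Real.exp_sum, Finset.sum_neg_distrib]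
  ring

theorem LI_prod' {p : ℕ} (α : Fin p →₀ ℕ) (c : ℝ) (r : Fin p → ℝ) :
    eval (fun i => r i ^ 2) (monomial α c) * gw r = c * ∏ i, LI_f (α i) (r i) := by
  rw [← LI_prod]
  simp only [eval_monomial]
  ring

theorem Lf_integrable {p : ℕ} (F : MvPolynomial (Fin p) ℝ) :
    Integrable fun r : Fin p → ℝ => eval (fun i => r i ^ 2) F * gw r := by
  induction F using MvPolynomial.induction_on' with
  | monomial u a =>
    simp_rw [LI_prod']
    exact (Integrable.fintype_prod fun i => LI_integrable (u i)).const_mul a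
  | add F G hF hG =>
    simp_rw [map_add, add_mul]
    exact hF.add hG

theorem Lf_integral {p : ℕ} (F : MvPolynomial (Fin p) ℝ) :
    Lf F = ∫ r : Fin p → ℝ, eval (fun i => r i ^ 2) F * gw r := by
  induction F using MvPolynomial.induction_on' with
  | monomial u a =>
    simp_rw [LI_prod']
    rw [integral_const_mul, integral_fintype_prod_volume_eq_prod, Lf_monomial]
    congr 1
    exact Finset.prod_congr rfl fun i _ => (LI_int (u i)).symm
  | add F G hF hG =>
    rw [map_add, hF, hG, ← integral_add (Lf_integrable F) (Lf_integrable G)]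
    refine integral_congr_ae (Filter.Eventually.of_forall fun r => ?_)
    simp only
    rw [map_add, add_mul]

end SimplVol
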