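import Pool.Agent.H74.SV.VK
import Pool.Agent.H74.SV.LI
import Pool.Agent.H74.SV.HC
import Pool.Agent.H74.SV.GA

/-!
# Module SB: the sup norm of the cocycle with density `60 s₀ s₁ s₂`

`κ = 3`: the constant is `60^n/(5n)!` (`(3+2)!/2 = 60`, `n * 2 + ∑ 3 = 5 n`). By `Lf_integral`,
`VK = 60^n/(5n)! ∫ ∑_τ (∏_j M (τ j)) 2^n det (Em n τ) ∏|r_i| ∏_j (s₀ s₁ s₂)^j (r²) e^{-|r|²} dr`
(`eval` of `Hp (fun _ => 3) τ` at `r²` is `∏_j ∏_k ∑_i [τ j i = k] r_i²`). By `hadamard_types`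
`|2^n det ∏ |r_i|| ≤ ‖r‖^(2n+1)`, and `∑_τ ∏_j (M (τ j) (s₀ s₁ s₂)^j) = ∏_j ∑_{τ j} .. ≤ (c/2 ‖r‖^6)^n`
(`Fam.bound` with `t i = r i ^ 2`, `Finset.prod_univ_sum`, nonnegativity). So
`|VK| ≤ 60^n/(5n)! (c/2)^n (2/√27)^n ∫ ‖r‖^(8n+1) e^{-‖r‖²} dr`, `gauss_integral`.
-/

set_option autoImplicit false

open scoped BigOperators Nat UpperHalfPlane MatrixGroups

namespace SimplVol

variable {M : ∀ m : ℕ, (Fin m → ℍ) → (Fin m → Fin 3) → ℝ} {c : ℝ}

theorem sb_eval (n : ℕ) (τ : Fin n → Fin (n * 2 + 1) → Fin 3) (r : Fin (n * 2 + 1) → ℝ) :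
    MvPolynomial.eval (fun i => r i ^ 2) (Hp (fun _ => 3) τ) =
      ∏ j, ∏ k : Fin 3, ∑ i, (if τ j i = k then r i ^ 2 else 0) := by
  unfold Hp
  rw [map_prod]
  refine Finset.prod_congr rfl fun j _ => ?_
  rw [map_prod]
  refine Finset.prod_congr rfl fun k _ => ?_
  have hk : (k : ℕ) < 3 := k.isLt
  simp only [hk, if_true]
  unfold sp
  rw [map_sum]
  refine Finset.sum_congr rfl fun i _ => ?_
  by_cases h : τ j i = k
  · simp [h]
  · simp [h]

theorem sb_sum (hM : Fam c M) (n : ℕ) (x : Fin (n * 2 + 1) → Fin n → ℍ)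
    (r : Fin (n * 2 + 1) → ℝ) :
    ∑ τ : Fin n → Fin (n * 2 + 1) → Fin 3, (∏ j, M (n * 2 + 1) (fun i => x i j) (τ j)) *
      (∏ j, ∏ k : Fin 3, ∑ i, (if τ j i = k then r i ^ 2 else 0)) ≤
      (c / 2 * (∑ i, r i ^ 2) ^ 3) ^ n := by
  have h1 : ∑ τ : Fin n → Fin (n * 2 + 1) → Fin 3, (∏ j, M (n * 2 + 1) (fun i => x i j) (τ j)) *
      (∏ j, ∏ k : Fin 3, ∑ i, (if τ j i = k then r i ^ 2 else 0)) =
      ∏ j : Fin n, ∑ σ : Fin (n * 2 + 1) → Fin 3, M (n * 2 + 1) (fun i => x i j) σ *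
        ∏ k : Fin 3, ∑ i, (if σ i = k then r i ^ 2 else 0) := by
    rw [Finset.prod_univ_sum]
    rw [Fintype.piFinset_univ]
    refine Finset.sum_congr rfl fun τ _ => ?_
    rw [Finset.prod_mul_distrib]
  rw [h1]
  calc ∏ j : Fin n, ∑ σ : Fin (n * 2 + 1) → Fin 3, M (n * 2 + 1) (fun i => x i j) σ *
        ∏ k : Fin 3, ∑ i, (if σ i = k then r i ^ 2 else 0)
      ≤ ∏ _j : Fin n, (c / 2 * (∑ i, r i ^ 2) ^ 3) := by
        refine Finset.prod_le_prod (fun j _ => ?_) (fun j _ => ?_)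
        · refine Finset.sum_nonneg fun σ _ => mul_nonneg (hM.nonneg _ _ _) ?_
          refine Finset.prod_nonneg fun k _ => Finset.sum_nonneg fun i _ => ?_
          split_ifs
          · positivity
          · exact le_rfl
        · exact hM.bound _ _ (fun i => r i ^ 2) (fun i => sq_nonneg _)
    _ = _ := by
        rw [Finset.prod_const, Finset.card_univ, Fintype.card_fin]

theorem sb_P_nonneg (n : ℕ) (τ : Fin n → Fin (n * 2 + 1) → Fin 3) (r : Fin (n * 2 + 1) → ℝ) :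
    0 ≤ ∏ j, ∏ k : Fin 3, ∑ i, (if τ j i = k then r i ^ 2 else 0) := by
  refine Finset.prod_nonneg fun j _ => Finset.prod_nonneg fun k _ => Finset.sum_nonneg fun i _ => ?_
  split_ifs
  · positivity
  · exact le_rfl

theorem gw_nonneg {p : ℕ} (r : Fin p → ℝ) : 0 ≤ gw r :=
  mul_nonneg (Finset.prod_nonneg fun i _ => abs_nonneg _) (Real.exp_pos _).le

theorem sb_pointwise (hM : Fam c M) (n : ℕ) (x : Fin (n * 2 + 1) → Fin n → ℍ)
    (r : Fin (n * 2 + 1) → ℝ) :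
    ∑ τ : Fin n → Fin (n * 2 + 1) → Fin 3, (∏ j, M (n * 2 + 1) (fun i => x i j) (τ j)) *
      (2 ^ n * |(Matrix.of (Em n τ)).det|) *
      (MvPolynomial.eval (fun i => r i ^ 2) (Hp (fun _ => 3) τ) * gw r) ≤
    ((c / 2) ^ n * (2 / (3 * Real.sqrt 3)) ^ n) *
      (Real.sqrt (∑ i, r i ^ 2) ^ (8 * n + 1) * Real.exp (-∑ i, r i ^ 2)) := by
  have hS : 0 ≤ ∑ i, r i ^ 2 := Finset.sum_nonneg fun i _ => sq_nonneg _
  have hW : ∀ τ : Fin n → Fin (n * 2 + 1) → Fin 3,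
      0 ≤ ∏ j, M (n * 2 + 1) (fun i => x i j) (τ j) := fun τ =>
    Finset.prod_nonneg fun j _ => hM.nonneg _ _ _
  calc ∑ τ : Fin n → Fin (n * 2 + 1) → Fin 3, (∏ j, M (n * 2 + 1) (fun i => x i j) (τ j)) *
      (2 ^ n * |(Matrix.of (Em n τ)).det|) *
      (MvPolynomial.eval (fun i => r i ^ 2) (Hp (fun _ => 3) τ) * gw r)
      ≤ ∑ τ : Fin n → Fin (n * 2 + 1) → Fin 3,
        ((∏ j, M (n * 2 + 1) (fun i => x i j) (τ j)) *
          (∏ j, ∏ k : Fin 3, ∑ i, (if τ j i = k then r i ^ 2 else 0))) *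
          (Real.sqrt (∑ i, r i ^ 2) ^ (n * 2 + 1) * (2 / (3 * Real.sqrt 3)) ^ n * Real.exp (-∑ i, r i ^ 2)) := by
        refine Finset.sum_le_sum fun τ _ => ?_
        rw [sb_eval]
        have h1 := hadamard_types' n τ r
        have h2 : (∏ j, M (n * 2 + 1) (fun i => x i j) (τ j)) *
            (2 ^ n * |(Matrix.of (Em n τ)).det|) *
            ((∏ j, ∏ k : Fin 3, ∑ i, (if τ j i = k then r i ^ 2 else 0)) * gw r) =
            ((∏ j, M (n * 2 + 1) (fun i => x i j) (τ j)) *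
              (∏ j, ∏ k : Fin 3, ∑ i, (if τ j i = k then r i ^ 2 else 0))) *
              ((2 ^ n * |(Matrix.of (Em n τ)).det| * ∏ i, |r i|) *
                Real.exp (-∑ i, r i ^ 2)) := by
          unfold gw
          ring
        rw [h2]
        refine mul_le_mul_of_nonneg_left ?_ (mul_nonneg (hW τ) (sb_P_nonneg n τ r))
        exact mul_le_mul_of_nonneg_right h1 (Real.exp_pos _).le
    _ = (∑ τ : Fin n → Fin (n * 2 + 1) → Fin 3,
        (∏ j, M (n * 2 + 1) (fun i => x i j) (τ j)) *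
          (∏ j, ∏ k : Fin 3, ∑ i, (if τ j i = k then r i ^ 2 else 0))) *
          (Real.sqrt (∑ i, r i ^ 2) ^ (n * 2 + 1) * (2 / (3 * Real.sqrt 3)) ^ n * Real.exp (-∑ i, r i ^ 2)) := by
        rw [Finset.sum_mul]
    _ ≤ (c / 2 * (∑ i, r i ^ 2) ^ 3) ^ n *
          (Real.sqrt (∑ i, r i ^ 2) ^ (n * 2 + 1) * (2 / (3 * Real.sqrt 3)) ^ n * Real.exp (-∑ i, r i ^ 2)) := by
        refine mul_le_mul_of_nonneg_right (sb_sum hM n x r) ?_
        exact mul_nonneg (mul_nonneg (pow_nonneg (Real.sqrt_nonneg _) _) (by positivity))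
          (Real.exp_pos _).le
    _ = _ := by
        have h3 : (∑ i, r i ^ 2) ^ 3 = Real.sqrt (∑ i, r i ^ 2) ^ 6 := by
          have := Real.sq_sqrt hS
          calc (∑ i, r i ^ 2) ^ 3 = (Real.sqrt (∑ i, r i ^ 2) ^ 2) ^ 3 := by rw [this]
            _ = _ := by ring
        rw [h3, mul_pow, ← pow_mul]
        have h4 : Real.sqrt (∑ i, r i ^ 2) ^ (8 * n + 1) =
            Real.sqrt (∑ i, r i ^ 2) ^ (6 * n) * Real.sqrt (∑ i, r i ^ 2) ^ (n * 2 + 1) := by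
          rw [← pow_add]
          congr 1
          ring
        rw [h4]
        ring

theorem sb_Lf_nonneg (n : ℕ) (τ : Fin n → Fin (n * 2 + 1) → Fin 3) :
    0 ≤ Lf (Hp (fun _ => 3) τ) := by
  rw [Lf_integral]
  refine MeasureTheory.integral_nonneg fun r => ?_
  simp only [Pi.zero_apply]
  rw [sb_eval]
  exact mul_nonneg (sb_P_nonneg n τ r) (gw_nonneg r)

theorem abs_VK_le (hc : 0 < c) (hM : Fam c M) (n : ℕ) (x : Fin (n * 2 + 1) → Fin n → ℍ) :
    |VK M n (fun _ => 3) x| ≤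
      (80 / Real.sqrt 3 * Real.pi * c) ^ n * (n ! : ℝ) / ((2 * n)! : ℝ) := by
  have hW : ∀ τ : Fin n → Fin (n * 2 + 1) → Fin 3,
      0 ≤ ∏ j, M (n * 2 + 1) (fun i => x i j) (τ j) := fun τ =>
    Finset.prod_nonneg fun j _ => hM.nonneg _ _ _
  have hmain : |∑ τ : Fin n → Fin (n * 2 + 1) → Fin 3,
      (∏ j, M (n * 2 + 1) (fun i => x i j) (τ j)) *
      (2 ^ n * (Matrix.of (Em n τ)).det * Lf (Hp (fun _ => 3) τ))| ≤
      ((c / 2) ^ n * (2 / (3 * Real.sqrt 3)) ^ n) *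
        (((5 * n)! : ℝ) * (4 * Real.pi) ^ n * (n ! : ℝ) / ((2 * n)! : ℝ)) := by
    calc |∑ τ : Fin n → Fin (n * 2 + 1) → Fin 3,
          (∏ j, M (n * 2 + 1) (fun i => x i j) (τ j)) *
          (2 ^ n * (Matrix.of (Em n τ)).det * Lf (Hp (fun _ => 3) τ))|
        ≤ ∑ τ : Fin n → Fin (n * 2 + 1) → Fin 3,
          |(∏ j, M (n * 2 + 1) (fun i => x i j) (τ j)) *
          (2 ^ n * (Matrix.of (Em n τ)).det * Lf (Hp (fun _ => 3) τ))| :=
          Finset.abs_sum_le_sum_abs _ _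
      _ = ∑ τ : Fin n → Fin (n * 2 + 1) → Fin 3,
          ∫ r : Fin (n * 2 + 1) → ℝ, (∏ j, M (n * 2 + 1) (fun i => x i j) (τ j)) *
          (2 ^ n * |(Matrix.of (Em n τ)).det|) *
          (MvPolynomial.eval (fun i => r i ^ 2) (Hp (fun _ => 3) τ) * gw r) := by
          refine Finset.sum_congr rfl fun τ _ => ?_
          rw [MeasureTheory.integral_const_mul, ← Lf_integral]
          rw [abs_mul, abs_mul, abs_mul, abs_of_nonneg (hW τ), abs_of_nonneg (sb_Lf_nonneg n τ),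
            abs_of_nonneg (by positivity : (0 : ℝ) ≤ 2 ^ n)]
          ring
      _ = ∫ r : Fin (n * 2 + 1) → ℝ, ∑ τ : Fin n → Fin (n * 2 + 1) → Fin 3,
          (∏ j, M (n * 2 + 1) (fun i => x i j) (τ j)) *
          (2 ^ n * |(Matrix.of (Em n τ)).det|) *
          (MvPolynomial.eval (fun i => r i ^ 2) (Hp (fun _ => 3) τ) * gw r) := by
          rw [MeasureTheory.integral_finset_sum]
          intro τ _
          exact (Lf_integrable _).const_mul _
      _ ≤ ∫ r : Fin (n * 2 + 1) → ℝ,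
          ((c / 2) ^ n * (2 / (3 * Real.sqrt 3)) ^ n) * (Real.sqrt (∑ i, r i ^ 2) ^ (8 * n + 1) *
            Real.exp (-∑ i, r i ^ 2)) := by
          refine MeasureTheory.integral_mono ?_ ?_ ?_
          · refine MeasureTheory.integrable_finset_sum _ fun τ _ => ?_
            exact (Lf_integrable _).const_mul _
          · exact (gauss_integrable n).const_mul _
          · intro r
            exact sb_pointwise hM n x r
      _ = _ := by
          rw [MeasureTheory.integral_const_mul, gauss_integral]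
  unfold VK
  have hpre : (∏ _j : Fin n, (((3 + 2)! : ℕ) : ℝ) / 2) / (((n * 2 + ∑ _j : Fin n, 3)! : ℕ) : ℝ) =
      60 ^ n / ((5 * n)! : ℝ) := by
    rw [Finset.prod_const, Finset.card_univ, Fintype.card_fin, Finset.sum_const,
      Finset.card_univ, Fintype.card_fin]
    have h5 : n * 2 + n • 3 = 5 * n := by
      simp only [smul_eq_mul]
      ring
    rw [h5]
    have h60 : (((3 + 2)! : ℕ) : ℝ) / 2 = 60 := by
      norm_num [Nat.factorial]
    rw [h60]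
  rw [hpre, abs_mul, abs_of_nonneg (by positivity : (0 : ℝ) ≤ 60 ^ n / ((5 * n)! : ℝ))]
  have hf5 : (0 : ℝ) < ((5 * n)! : ℝ) := by exact_mod_cast Nat.factorial_pos _
  calc 60 ^ n / ((5 * n)! : ℝ) * |∑ τ : Fin n → Fin (n * 2 + 1) → Fin 3,
      (∏ j, M (n * 2 + 1) (fun i => x i j) (τ j)) *
      (2 ^ n * (Matrix.of (Em n τ)).det * Lf (Hp (fun _ => 3) τ))|
      ≤ 60 ^ n / ((5 * n)! : ℝ) *
        (((c / 2) ^ n * (2 / (3 * Real.sqrt 3)) ^ n) *
          (((5 * n)! : ℝ) * (4 * Real.pi) ^ n * (n ! : ℝ) / ((2 * n)! : ℝ))) :=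
        mul_le_mul_of_nonneg_left hmain (by positivity)
    _ = (60 ^ n * (c / 2) ^ n * (2 / (3 * Real.sqrt 3)) ^ n * (4 * Real.pi) ^ n) * (n ! : ℝ) /
          ((2 * n)! : ℝ) := by
        generalize (2 / (3 * Real.sqrt 3)) ^ n = K
        field_simp
    _ = _ := by
        rw [← mul_pow, ← mul_pow, ← mul_pow]
        congr 3
        have h3 : 0 < Real.sqrt 3 := by positivity
        field_simp
        ring

end SimplVol
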