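import Pool.Agent.H74.SV.VK
import Pool.Agent.H74.SV.HD

/-!
# Module V0: the cocycle of constant density is the volume

`Hp 0 τ = 1`, `Lf 1 = 1`. `2^n det (Em n τ) = ∑_σ sgn σ ∏_j or3 (τ j 0) (τ j (σ (j,0)).succ) (τ j (σ (j,1)).succ)`:
`or3 a b c = K a b + K b c + K c a` with `K = E₁ ∧ E₂` (`E_l` = indicator of the type `l`), so the right side is
`mvol n (fun j => wedge (u j) (v j))`, `u j i = [τ j i = 1]`, `v j i = [τ j i = 2]`; use `HD_mvol`, `HD_X`,
`HD_border` (as in the proof of `mvol_wedge_le` in `HD.lean`; or `EV_L1`, `EV_det` in `EV.lean`).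
Then `∑_τ ∏_j M (x^j) (τ j) ∏_j or3 .. = ∏_j ∑_{τ j} .. = ∏_j (3c/π) area (x 0 j) (x .. j) (x .. j)` by `Fam.area`.
-/

set_option autoImplicit false

open scoped BigOperators Nat UpperHalfPlane MatrixGroups

namespace SimplVol

variable {M : ∀ m : ℕ, (Fin m → ℍ) → (Fin m → Fin 3) → ℝ} {c : ℝ}

theorem V0_Hp {n p : ℕ} (τ : Fin n → Fin p → Fin 3) : Hp (fun _ => 0) τ = 1 := by
  unfold Hp
  simp

theorem V0_Lf {p : ℕ} : Lf (1 : MvPolynomial (Fin p) ℝ) = 1 := by
  have h : (1 : MvPolynomial (Fin p) ℝ) = MvPolynomial.basisMonomials (Fin p) ℝ 0 := by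
    rw [MvPolynomial.coe_basisMonomials]
    rfl
  unfold Lf
  rw [h, Module.Basis.constr_basis]
  simp

theorem V0_det {n : ℕ} (τ : Fin n → Fin (n * 2 + 1) → Fin 3) :
    2 ^ n * (Matrix.of (Em n τ)).det =
      ∑ σ : Equiv.Perm (Fin (n * 2)), ((Equiv.Perm.sign σ : ℤ) : ℝ) *
        ∏ j, or3 (τ j 0) (τ j (σ (finProdFinEquiv (j, 0))).succ)
          (τ j (σ (finProdFinEquiv (j, 1))).succ) := by
  have h := HD_mvol (fun j i => if τ j i = 1 then (1 : ℝ) else 0)
    (fun j i => if τ j i = 2 then (1 : ℝ) else 0)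
  have h1 : HD_X (fun j a => (if τ j a.succ = 1 then (1 : ℝ) else 0) -
        (if τ j 0 = 1 then (1 : ℝ) else 0))
      (fun j a => (if τ j a.succ = 2 then (1 : ℝ) else 0) -
        (if τ j 0 = 2 then (1 : ℝ) else 0)) =
      Matrix.of fun (a : Fin (n * 2)) (c : Fin (n * 2)) =>
        HD_X (fun j i => if τ j i = 1 then (1 : ℝ) else 0)
          (fun j i => if τ j i = 2 then (1 : ℝ) else 0) a.succ c -
        HD_X (fun j i => if τ j i = 1 then (1 : ℝ) else 0)
          (fun j i => if τ j i = 2 then (1 : ℝ) else 0) 0 c := by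
    ext a c
    simp only [HD_X, Matrix.of_apply]
    by_cases hc : (finProdFinEquiv.symm c).2 = 0
    · rw [if_pos hc, if_pos hc, if_pos hc]
    · rw [if_neg hc, if_neg hc, if_neg hc]
  rw [h1, HD_border] at h
  have h2 : (Matrix.of fun (i : Fin (n * 2 + 1)) (c : Fin (n * 2 + 1)) =>
      (Fin.cons (1 : ℝ) (HD_X (fun j i => if τ j i = 1 then (1 : ℝ) else 0)
          (fun j i => if τ j i = 2 then (1 : ℝ) else 0) i) : Fin (n * 2 + 1) → ℝ) c) =
      Matrix.of (Em n τ) := by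
    ext i c
    simp only [Matrix.of_apply, Em]
    congr 1
    funext c
    simp only [HD_X]
    by_cases hc : (finProdFinEquiv.symm c).2 = 0
    · rw [if_pos hc, if_pos hc]
    · rw [if_neg hc, if_neg hc]
  rw [h2] at h
  rw [← h]
  unfold mvol
  apply Finset.sum_congr rfl
  intro σ _
  congr 1
  apply Finset.prod_congr rfl
  intro j _
  simp only [wedge, or3]
  ring

theorem VK_zero (hM : Fam c M) (n : ℕ) (x : Fin (n * 2 + 1) → Fin n → ℍ) :
    VK M n (fun _ => 0) x = (3 * c / Real.pi) ^ n * vol n x := by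
  unfold VK vol
  have h0 : ∀ τ : Fin n → Fin (n * 2 + 1) → Fin 3,
      (∏ j, M (n * 2 + 1) (fun i => x i j) (τ j)) *
        (2 ^ n * (Matrix.of (Em n τ)).det * Lf (Hp (fun _ => 0) τ)) =
      ∑ σ : Equiv.Perm (Fin (n * 2)), ((Equiv.Perm.sign σ : ℤ) : ℝ) *
        ∏ j, (M (n * 2 + 1) (fun i => x i j) (τ j) *
          or3 (τ j 0) (τ j (σ (finProdFinEquiv (j, 0))).succ)
          (τ j (σ (finProdFinEquiv (j, 1))).succ)) := by
    intro τ
    rw [V0_Hp, V0_Lf, mul_one, V0_det, Finset.mul_sum]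
    apply Finset.sum_congr rfl
    intro σ _
    rw [Finset.prod_mul_distrib]
    ring
  have h1 : ∑ τ : Fin n → Fin (n * 2 + 1) → Fin 3,
      (∏ j, M (n * 2 + 1) (fun i => x i j) (τ j)) *
        (2 ^ n * (Matrix.of (Em n τ)).det * Lf (Hp (fun _ => 0) τ)) =
      (3 * c / Real.pi) ^ n * ∑ σ : Equiv.Perm (Fin (n * 2)), ((Equiv.Perm.sign σ : ℤ) : ℝ) *
        ∏ j : Fin n, area (x 0 j) (x (σ (finProdFinEquiv (j, 0))).succ j)
          (x (σ (finProdFinEquiv (j, 1))).succ j) := by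
    rw [Finset.sum_congr rfl (fun τ _ => h0 τ), Finset.sum_comm, Finset.mul_sum]
    apply Finset.sum_congr rfl
    intro σ _
    rw [← Finset.mul_sum]
    have h2 := Finset.prod_univ_sum (t := fun _ : Fin n => (Finset.univ :
      Finset (Fin (n * 2 + 1) → Fin 3))) (f := fun j t => M (n * 2 + 1) (fun i => x i j) t *
          or3 (t 0) (t (σ (finProdFinEquiv (j, 0))).succ)
          (t (σ (finProdFinEquiv (j, 1))).succ))
    rw [Fintype.piFinset_univ] at h2
    rw [← h2, Finset.prod_congr rfl (fun j _ => hM.area (n * 2 + 1) (fun i => x i j) 0 _ _),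
      Finset.prod_mul_distrib, Finset.prod_const, Finset.card_univ, Fintype.card_fin]
    ring
  rw [h1]
  simp
  ring

end SimplVol
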