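import Pool.Agent.H74.SV.CP
import Pool.Agent.H74.SV.V0
import Pool.Agent.H74.SV.SB

/-!
# Module LC: the lower bound

* `pair_VK`: all `pairF Γ (VK M n κ) w` with `κ ≤ 3` agree for a cycle `w`: `VK_step`, `BB_inv`,
  `pairF_coboundary`, and a path from `κ = 0` to `κ = 3` that increases one entry by one in every step
  (induction on `∑ κ`, or on the factors and then on the value).
* `norm1_ge`: with `exists_fam`: `(3c/π)^n volPair Γ w = pairF Γ (VK M n 0) w = pairF Γ (VK M n 3) w`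
  (`VK_zero`), and the right side is at most `norm1 w * (80 π c/√3)^n n!/(2n)!` in absolute value. With
  `volPair = 1`: `norm1 w ≥ (2n)!/(n! (80 π²/√27)^n)`.
* `le_normRatio'`: `80 π²/√27 ≤ 152`.
-/

set_option autoImplicit false

open scoped BigOperators Nat UpperHalfPlane MatrixGroups ENNReal

namespace SimplVol

variable {M : ∀ m : ℕ, (Fin m → ℍ) → (Fin m → Fin 3) → ℝ} {c : ℝ}

theorem LC_sub {n : ℕ} (Γ : Fin n → Subgroup SL(2, ℝ)) {p : ℕ}
    (F G H : (Fin p → Fin n → ℍ) → ℝ) (hFG : ∀ x, F x - G x = H x)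
    (w : Chain p (∀ j, Surf (Γ j))) : pairF Γ F w - pairF Γ G w = pairF Γ H w := by
  unfold pairF Finsupp.sum
  rw [← Finset.sum_sub_distrib]
  refine Finset.sum_congr rfl fun σ _ => ?_
  show w σ * F (vtx Γ σ) - w σ * G (vtx Γ σ) = w σ * H (vtx Γ σ)
  rw [← hFG]
  ring

theorem LC_step (hM : Fam c M) {n : ℕ} (Γ : Fin n → Subgroup SL(2, ℝ))
    (hΓ : ∀ j, IsSurfaceGroup (Γ j)) (w : Chain (n * 2 + 1) (∀ j, Surf (Γ j)))
    (hw : boundary (n * 2) _ w = 0) (κ : Fin n → ℕ) (hκ : ∀ i, κ i ≤ 3) (j : Fin n)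
    (hj : κ j < 3) :
    pairF Γ (VK M n κ) w = pairF Γ (VK M n (Function.update κ j (κ j + 1))) w := by
  have h1 := LC_sub Γ (VK M n (Function.update κ j (κ j + 1))) (VK M n κ) _
    (VK_step hM n κ hκ j hj) w
  rw [pairF_coboundary Γ hΓ (BB M n κ j) (fun g x => BB_inv hM n κ j g x) w hw] at h1
  linarith

theorem LC_path (hM : Fam c M) {n : ℕ} (Γ : Fin n → Subgroup SL(2, ℝ))
    (hΓ : ∀ j, IsSurfaceGroup (Γ j)) (w : Chain (n * 2 + 1) (∀ j, Surf (Γ j)))
    (hw : boundary (n * 2) _ w = 0) (d : ℕ) : ∀ κ : Fin n → ℕ, (∀ i, κ i ≤ 3) →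
    ∑ i, (3 - κ i) = d → pairF Γ (VK M n κ) w = pairF Γ (VK M n fun _ => 3) w := by
  induction d with
  | zero =>
    intro κ hκ hd
    have h1 : κ = fun _ => 3 := by
      funext i
      have h2 : 3 - κ i = 0 := by
        have := (Finset.sum_eq_zero_iff.1 hd) i (Finset.mem_univ _)
        exact this
      have := hκ i
      omega
    rw [h1]
  | succ d ih =>
    intro κ hκ hd
    obtain ⟨j, hj⟩ : ∃ j, κ j < 3 := by
      by_contra hcon
      push Not at hcon
      have : ∑ i, (3 - κ i) = 0 := Finset.sum_eq_zero fun i _ => by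
        have := hcon i
        omega
      omega
    rw [LC_step hM Γ hΓ w hw κ hκ j hj]
    apply ih
    · intro i
      by_cases hij : i = j
      · subst hij
        rw [Function.update_self]
        omega
      · rw [Function.update_of_ne hij]
        exact hκ i
    · have h1 : ∑ i, (3 - κ i) = (3 - κ j) + ∑ i ∈ Finset.univ.erase j, (3 - κ i) :=
        (Finset.add_sum_erase _ _ (Finset.mem_univ j)).symm
      have h2 : ∑ i, (3 - Function.update κ j (κ j + 1) i) =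
          (3 - (κ j + 1)) + ∑ i ∈ Finset.univ.erase j, (3 - κ i) := by
        rw [← Finset.add_sum_erase _ _ (Finset.mem_univ j)]
        congr 1
        · rw [Function.update_self]
        · refine Finset.sum_congr rfl fun i hi => ?_
          rw [Function.update_of_ne (Finset.ne_of_mem_erase hi)]
      rw [h2]
      omega

theorem pair_VK (hM : Fam c M) {n : ℕ} (Γ : Fin n → Subgroup SL(2, ℝ))
    (hΓ : ∀ j, IsSurfaceGroup (Γ j)) (w : Chain (n * 2 + 1) (∀ j, Surf (Γ j)))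
    (hw : boundary (n * 2) _ w = 0) :
    pairF Γ (VK M n fun _ => 0) w = pairF Γ (VK M n fun _ => 3) w :=
  LC_path hM Γ hΓ w hw _ (fun _ => 0) (fun _ => by norm_num) rfl

theorem norm1_ge {n : ℕ} (Γ : Fin n → Subgroup SL(2, ℝ)) (hΓ : ∀ j, IsSurfaceGroup (Γ j))
    (w : Chain (n * 2 + 1) (∀ j, Surf (Γ j))) (hw : boundary (n * 2) _ w = 0)
    (h1 : volPair Γ w = 1) :
    ((2 * n)! : ℝ) / ((n ! : ℝ) * (80 / (3 * Real.sqrt 3) * Real.pi ^ 2) ^ n) ≤ norm1 w := by
  obtain ⟨c, hc, M, hM⟩ := exists_fam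
  have hpi := Real.pi_pos
  have h2 : pairF Γ (VK M n fun _ => 0) w = (3 * c / Real.pi) ^ n := by
    have h3 : pairF Γ (VK M n fun _ => 0) w = (3 * c / Real.pi) ^ n * volPair Γ w := by
      unfold pairF volPair Finsupp.sum
      rw [Finset.mul_sum]
      refine Finset.sum_congr rfl fun σ _ => ?_
      show w σ * VK M n (fun _ => 0) (vtx Γ σ) =
        (3 * c / Real.pi) ^ n * (w σ * vol n (vtx Γ σ))
      rw [VK_zero hM n]
      ring
    rw [h3, h1, mul_one]
  have h4 := pair_VK hM Γ hΓ w hw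
  set B : ℝ := (80 / Real.sqrt 3 * Real.pi * c) ^ n * (n ! : ℝ) / ((2 * n)! : ℝ) with hB
  have h5 : pairF Γ (VK M n fun _ => 3) w ≤ norm1 w * B := by
    unfold pairF norm1 Finsupp.sum
    rw [Finset.sum_mul]
    refine Finset.sum_le_sum fun σ _ => ?_
    calc w σ * VK M n (fun _ => 3) (vtx Γ σ) ≤ |w σ * VK M n (fun _ => 3) (vtx Γ σ)| :=
          le_abs_self _
      _ = |w σ| * |VK M n (fun _ => 3) (vtx Γ σ)| := abs_mul _ _
      _ ≤ |w σ| * B := mul_le_mul_of_nonneg_left (abs_VK_le hc hM n _) (abs_nonneg _)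
  rw [← h4, h2] at h5
  have hn1 : (0 : ℝ) < (n ! : ℝ) := by exact_mod_cast Nat.factorial_pos n
  have hn2 : (0 : ℝ) < ((2 * n)! : ℝ) := by exact_mod_cast Nat.factorial_pos (2 * n)
  have hB0 : 0 < B := by positivity
  have h6 : (3 * c / Real.pi) ^ n / B ≤ norm1 w := by
    rw [div_le_iff₀ hB0]
    exact h5
  refine le_of_eq_of_le ?_ h6
  rw [hB]
  have hs3 : 0 < Real.sqrt 3 := by positivity
  have h7 : (80 / Real.sqrt 3 * Real.pi * c) ^ n =
      (3 * c / Real.pi) ^ n * (80 / (3 * Real.sqrt 3) * Real.pi ^ 2) ^ n := by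
    rw [← mul_pow]
    congr 1
    field_simp
  rw [h7]
  have h8 : (3 * c / Real.pi) ^ n ≠ 0 := by positivity
  have h9 : (80 / (3 * Real.sqrt 3) * Real.pi ^ 2) ^ n ≠ 0 := by positivity
  field_simp

theorem le_normRatio' {n : ℕ} (Γ : Fin n → Subgroup SL(2, ℝ)) (hΓ : ∀ j, IsSurfaceGroup (Γ j)) :
    ENNReal.ofReal (((2 * n)! : ℝ) / ((n ! : ℝ) * 152 ^ n)) ≤ normRatio Γ := by
  unfold normRatio
  refine le_iInf fun w => le_iInf fun hw => le_iInf fun h1 => ?_
  apply ENNReal.ofReal_le_ofReal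
  refine le_trans ?_ (norm1_ge Γ hΓ w hw h1)
  have hn1 : (0 : ℝ) < (n ! : ℝ) := by exact_mod_cast Nat.factorial_pos n
  have hpi2 : Real.pi ^ 2 ≤ 9.8697 := by
    have h3 := Real.pi_lt_d6
    have h4 := Real.pi_pos
    nlinarith
  have hpi0 : 0 < Real.pi ^ 2 := by have := Real.pi_pos; positivity
  have hs3 : 1.732 ≤ Real.sqrt 3 := by
    apply Real.le_sqrt_of_sq_le
    norm_num
  have hs0 : 0 < Real.sqrt 3 := by positivity
  have hle : 80 / (3 * Real.sqrt 3) * Real.pi ^ 2 ≤ 152 := by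
    rw [div_mul_eq_mul_div, div_le_iff₀ (by positivity)]
    linarith
  have hpos : 0 < 80 / (3 * Real.sqrt 3) * Real.pi ^ 2 := by positivity
  have h6 : (80 / (3 * Real.sqrt 3) * Real.pi ^ 2) ^ n ≤ (152 : ℝ) ^ n :=
    pow_le_pow_left₀ hpos.le hle n
  apply div_le_div_of_nonneg_left (by positivity) (by positivity)
  exact mul_le_mul_of_nonneg_left h6 hn1.le

end SimplVol
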