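import Pool.Agent.H74.SV.Defs

/-!
# Module LF: lifts of singular simplices

`ℍ → ℍ/Γ` is a covering map: `isQuotientCoveringMap_quotientMk_of_properlyDiscontinuousSMul`
(instances `ProperlyDiscontinuousSMul Γ ℍ` from `hΓ.pd`, `IsCancelSMul Γ ℍ` from `hΓ.free`,
`ContinuousConstSMul Γ ℍ`, locally compact Hausdorff), then `.isCoveringMap`.
* `exists_lift`: for `p = 0` the simplex is empty. For `p ≥ 1` the simplex is nonempty, contractible
  (convex), so simply connected, and locally path connected (convex: e.g. `Convex` ...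
  `LocallyPathConnectedSpace`; small balls intersected with the simplex are convex), so
  `IsCoveringMap.existsUnique_continuousMap_lifts` applies.
* `lift_unique`: if `τ`, `τ'` are lifts, at one point `t₀` there is `γ` with `τ' t₀ = γ • τ t₀`
  (`Quotient.exact`, orbit relation); `γ • τ` and `τ'` are lifts of `σ` that agree at `t₀`, and the
  simplex is connected, so they are equal (`IsCoveringMap.eq_of_comp_eq`).
* `liftVert_spec`: `liftVert` is given by the chosen lift.
-/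

set_option autoImplicit false

open scoped BigOperators Nat UpperHalfPlane MatrixGroups

namespace SimplVol

theorem LF_cov (Γ : Subgroup SL(2, ℝ)) (hΓ : IsSurfaceGroup Γ) :
    IsCoveringMap (Quotient.mk (MulAction.orbitRel Γ ℍ)) := by
  have := hΓ.pd
  have : IsCancelSMul Γ ℍ := isCancelSMul_iff_eq_one_of_smul_eq.mpr fun γ z h => hΓ.free γ z h
  exact (isQuotientCoveringMap_quotientMk_of_properlyDiscontinuousSMul (G := Γ) (E := ℍ)).isCoveringMap

theorem exists_lift (Γ : Subgroup SL(2, ℝ)) (hΓ : IsSurfaceGroup Γ) {p : ℕ} (σ : Sing p (Surf Γ)) :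
    ∃ τ : Sing p ℍ, ∀ t, (Quotient.mk _ (τ t) : Surf Γ) = σ t := by
  have hconv : Convex ℝ (stdSimplex ℝ (Fin p)) := convex_stdSimplex ℝ (Fin p)
  rcases isEmpty_or_nonempty (stdSimplex ℝ (Fin p)) with hE | ⟨⟨a₀⟩⟩
  · exact ⟨⟨fun t => (hE.false t).elim, continuous_iff_continuousAt.mpr fun t => (hE.false t).elim⟩, fun t => (hE.false t).elim⟩
  · have : ContractibleSpace (stdSimplex ℝ (Fin p)) :=
      hconv.contractibleSpace ⟨a₀.1, a₀.2⟩
    have : LocallyPathConnectedSpace (stdSimplex ℝ (Fin p)) := hconv.locallyPathConnectedSpace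
    obtain ⟨e₀, he₀⟩ := Quotient.exists_rep (σ a₀)
    obtain ⟨F, ⟨-, hF⟩, -⟩ := (LF_cov Γ hΓ).existsUnique_continuousMap_lifts σ a₀ e₀ he₀
    exact ⟨F, fun t => congrFun hF t⟩

theorem lift_unique (Γ : Subgroup SL(2, ℝ)) (hΓ : IsSurfaceGroup Γ) {p : ℕ} (τ τ' : Sing p ℍ)
    (h : ∀ t, (Quotient.mk _ (τ t) : Surf Γ) = Quotient.mk _ (τ' t)) :
    ∃ γ : Γ, ∀ t, τ' t = γ • τ t := by
  have hconv : Convex ℝ (stdSimplex ℝ (Fin p)) := convex_stdSimplex ℝ (Fin p)
  rcases isEmpty_or_nonempty (stdSimplex ℝ (Fin p)) with hE | ⟨⟨a₀⟩⟩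
  · exact ⟨1, fun t => (hE.false t).elim⟩
  · have : ContractibleSpace (stdSimplex ℝ (Fin p)) :=
      hconv.contractibleSpace ⟨a₀.1, a₀.2⟩
    have h0 : (MulAction.orbitRel Γ ℍ) (τ' a₀) (τ a₀) := Quotient.exact (h a₀).symm
    rw [MulAction.orbitRel_apply] at h0
    obtain ⟨γ, hγ⟩ := h0
    refine ⟨γ, fun t => ?_⟩
    have hc : Continuous fun t => γ • τ t := (continuous_const_smul γ).comp τ.continuous
    have key := (LF_cov Γ hΓ).eq_of_comp_eq (g₁ := fun t => τ' t) (g₂ := fun t => γ • τ t)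
      τ'.continuous hc (by
        funext t
        simp only [Function.comp]
        rw [← h t]
        refine Quotient.sound ?_
        change (MulAction.orbitRel Γ ℍ) _ _
        rw [MulAction.orbitRel_apply]
        exact ⟨γ⁻¹, inv_smul_smul γ (τ t)⟩) a₀ hγ.symm
    exact congrFun key t

/-- The vertices chosen by `liftVert` are those of every lift, up to an element of `Γ`. -/
theorem liftVert_spec (Γ : Subgroup SL(2, ℝ)) (hΓ : IsSurfaceGroup Γ) {p : ℕ} (σ : Sing p (Surf Γ))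
    (τ : Sing p ℍ) (h : ∀ t, (Quotient.mk _ (τ t) : Surf Γ) = σ t) :
    ∃ γ : Γ, ∀ i, liftVert Γ σ i = γ • τ (stdSimplex.vertex i) := by
  have hex : ∃ τ : Sing p ℍ, ∀ t, (Quotient.mk _ (τ t) : Surf Γ) = σ t := ⟨τ, h⟩
  obtain ⟨γ, hγ⟩ := lift_unique Γ hΓ τ hex.choose fun t => (h t).trans (hex.choose_spec t).symm
  refine ⟨γ, fun i => ?_⟩
  rw [liftVert, dif_pos hex]
  exact hγ _

end SimplVol
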