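import Pool.Agent.H74.SV.PL
import Pool.Agent.H74.SV.Ker

/-!
# Module LW: the slope of a random vector of an ellipse

* `slope_law`: the substitution `u = (x h^{1/2}.., ..)`: the linear map `w ↦ (√h w₁ + (x/√h) w₂ , w₂/√h)`
  of determinant `1` maps the unit disc onto `ell z` (`z = x + i h`), and the slope `u₁/u₂` becomes
  `h w₁/w₂ + x`. In polar coordinates `w = r (sin θ, cos θ)`, `w₁/w₂ = tan θ`, so the integral is
  `∫_0^1 r dr ∫_{-π}^{π} F (x + h tan θ) dθ = ½ * 2 * ∫_{-π/2}^{π/2} F (x + h tan θ) dθ`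
  (`integral_comp_polarCoord_symm`; `tan` has period `π`; swap the coordinates or use `cot`, or
  shift by `π/2`).
* `slope_law_integrable`: bounded and measurable on a set of finite measure.
-/

set_option autoImplicit false

open scoped BigOperators UpperHalfPlane MatrixGroups ENNReal
open MeasureTheory

namespace SimplVol

/-- `u ↦ (x/√h u₁ - √h u₂, u₁/√h)` -/
noncomputable def LW_g (z : ℍ) : SL(2, ℝ) :=
  ⟨!![z.re / Real.sqrt z.im, -Real.sqrt z.im; (Real.sqrt z.im)⁻¹, 0], by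
    have h : Real.sqrt z.im ≠ 0 := (Real.sqrt_pos.2 z.im_pos).ne'
    rw [Matrix.det_fin_two_of]
    field_simp
    ring⟩

theorem LW_act (z : ℍ) (w : Pl) :
    act (LW_g z) w = (z.re / Real.sqrt z.im * w.1 - Real.sqrt z.im * w.2,
      (Real.sqrt z.im)⁻¹ * w.1) := by
  unfold act LW_g
  simp [sub_eq_add_neg]

theorem LW_mem (z : ℍ) (w : Pl) : act (LW_g z) w ∈ ell z ↔ w.1 ^ 2 + w.2 ^ 2 ≤ 1 := by
  have h0 : 0 < z.im := z.im_pos
  have h : 0 < Real.sqrt z.im := Real.sqrt_pos.2 h0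
  have h2 : Real.sqrt z.im ^ 2 = z.im := Real.sq_sqrt h0.le
  rw [LW_act]
  unfold ell
  simp only [Set.mem_ofPred_eq]
  have e : (z.re / Real.sqrt z.im * w.1 - Real.sqrt z.im * w.2 - z.re * ((Real.sqrt z.im)⁻¹ * w.1)) ^ 2
      + (z.im * ((Real.sqrt z.im)⁻¹ * w.1)) ^ 2 = z.im * (w.1 ^ 2 + w.2 ^ 2) := by
    have h3 : z.im * (Real.sqrt z.im)⁻¹ = Real.sqrt z.im := by
      rw [← div_eq_mul_inv, div_eq_iff h.ne', ← h2]
      rw [Real.sqrt_sq h.le]; ring
    have h4 : z.re / Real.sqrt z.im * w.1 - Real.sqrt z.im * w.2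
        - z.re * ((Real.sqrt z.im)⁻¹ * w.1) = -(Real.sqrt z.im * w.2) := by
      rw [div_eq_mul_inv]; ring
    have h5 : z.im * ((Real.sqrt z.im)⁻¹ * w.1) = Real.sqrt z.im * w.1 := by
      rw [← mul_assoc, h3]
    rw [h4, h5]
    linear_combination (w.1 ^ 2 + w.2 ^ 2) * h2
  rw [e]
  constructor
  · intro hh
    by_contra hcon
    push Not at hcon
    nlinarith
  · intro hh
    nlinarith

theorem LW_slope (z : ℍ) (w : Pl) (hw : w.1 ≠ 0) :
    (act (LW_g z) w).1 / (act (LW_g z) w).2 = z.re - z.im * (w.2 / w.1) := by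
  have h0 : 0 < z.im := z.im_pos
  have h : 0 < Real.sqrt z.im := Real.sqrt_pos.2 h0
  have h2 : Real.sqrt z.im ^ 2 = z.im := Real.sq_sqrt h0.le
  rw [LW_act]
  simp only
  rw [div_eq_iff (by positivity)]
  have h3 : z.im * (Real.sqrt z.im)⁻¹ = Real.sqrt z.im := by
    rw [← div_eq_mul_inv, div_eq_iff h.ne', ← h2]
    rw [Real.sqrt_sq h.le]; ring
  have h4 : (z.re - z.im * (w.2 / w.1)) * ((Real.sqrt z.im)⁻¹ * w.1)
      = z.re * (Real.sqrt z.im)⁻¹ * w.1 - (z.im * (Real.sqrt z.im)⁻¹) * w.2 := by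
    field_simp
  rw [h4, h3, div_eq_mul_inv]

theorem LW_emb (z : ℍ) : MeasurableEmbedding (act (LW_g z)) := by
  apply Continuous.measurableEmbedding
  · unfold act
    fun_prop
  · intro u v huv
    have h : 0 < Real.sqrt z.im := Real.sqrt_pos.2 z.im_pos
    rw [LW_act, LW_act] at huv
    have h1 := congrArg Prod.fst huv
    have h2 := congrArg Prod.snd huv
    simp only at h1 h2
    have e1 : u.1 = v.1 := mul_left_cancel₀ (inv_ne_zero h.ne') h2
    rw [e1] at h1
    have e2 : u.2 = v.2 := by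
      have : Real.sqrt z.im * u.2 = Real.sqrt z.im * v.2 := by linarith
      exact mul_left_cancel₀ h.ne' this
    exact Prod.ext e1 e2

theorem LW_tan_meas : Measurable Real.tan := by
  have : Real.tan = fun x => Real.sin x / Real.cos x := by
    funext x; exact Real.tan_eq_sin_div_cos x
  rw [this]
  exact Real.measurable_sin.div Real.measurable_cos

theorem LW_ii (G : ℝ → ℝ) (hG : Measurable G) (C : ℝ) (hC : ∀ t, |G t| ≤ C) (a b : ℝ) :
    IntervalIntegrable G volume a b := by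
  rw [intervalIntegrable_iff]
  apply Measure.integrableOn_of_bounded (M := C)
  · rw [Set.uIoc, Real.volume_Ioc]
    exact ENNReal.ofReal_ne_top
  · exact hG.aestronglyMeasurable
  · exact Filter.Eventually.of_forall (fun t => by rw [Real.norm_eq_abs]; exact hC t)

/-- the angular integral -/
theorem LW_ang (x h : ℝ) (F : ℝ → ℝ) (hF : Measurable F) (C : ℝ) (hC : ∀ t, |F t| ≤ C) :
    ∫ θ in Set.Ioo (-Real.pi) Real.pi, F (x - h * Real.tan θ)
      = 2 * ∫ θ in (-(Real.pi / 2))..(Real.pi / 2), F (x + h * Real.tan θ) := by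
  have hpi := Real.pi_pos
  rw [← integral_Ioc_eq_integral_Ioo, ← intervalIntegral.integral_of_le (by linarith)]
  set G : ℝ → ℝ := fun θ => F (x + h * Real.tan θ) with hGd
  have hGm : Measurable G := hF.comp ((LW_tan_meas.const_mul h).const_add x)
  have hGC : ∀ t, |G t| ≤ C := fun t => hC _
  have h1 : ∫ θ in (-Real.pi)..Real.pi, F (x - h * Real.tan θ)
      = ∫ θ in (-Real.pi)..Real.pi, G θ := by
    have := intervalIntegral.integral_comp_neg (a := -Real.pi) (b := Real.pi) G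
    rw [neg_neg] at this
    rw [← this]
    apply intervalIntegral.integral_congr
    intro θ _
    simp only [hGd, Real.tan_neg]
    ring_nf
  rw [h1]
  have hper : Function.Periodic G Real.pi := by
    intro θ
    simp only [hGd, Real.tan_periodic θ]
  have h2 : ∫ θ in (-Real.pi)..Real.pi, G θ
      = (∫ θ in (-Real.pi)..0, G θ) + ∫ θ in (0 : ℝ)..Real.pi, G θ :=
    (intervalIntegral.integral_add_adjacent_intervals (LW_ii G hGm C hGC _ _)
      (LW_ii G hGm C hGC _ _)).symm
  have h3 := hper.intervalIntegral_add_eq (-Real.pi) (-(Real.pi / 2))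
  have h4 := hper.intervalIntegral_add_eq 0 (-(Real.pi / 2))
  have e1 : -Real.pi + Real.pi = 0 := by ring
  have e2 : -(Real.pi / 2) + Real.pi = Real.pi / 2 := by ring
  rw [e1, e2] at h3
  rw [zero_add, e2] at h4
  rw [h2, h3, h4]
  ring

theorem LW_ae : ∀ᵐ p : ℝ × ℝ, Real.cos p.2 ≠ 0 := by
  have hN : volume {θ : ℝ | Real.cos θ = 0} = 0 := by
    apply Set.Countable.measure_zero
    have : {θ : ℝ | Real.cos θ = 0} ⊆ Set.range (fun k : ℤ => (2 * (k : ℝ) + 1) * Real.pi / 2) := by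
      intro θ hθ
      obtain ⟨k, hk⟩ := Real.cos_eq_zero_iff.1 hθ
      exact ⟨k, hk.symm⟩
    exact (Set.countable_range _).mono this
  rw [ae_iff]
  have e : {p : ℝ × ℝ | ¬ Real.cos p.2 ≠ 0} = Set.univ ×ˢ {θ : ℝ | Real.cos θ = 0} := by
    ext p
    simp
  rw [e, Measure.volume_eq_prod, Measure.prod_prod, hN, mul_zero]

theorem slope_law (z : ℍ) (F : ℝ → ℝ) (hF : Measurable F) (C : ℝ) (hC : ∀ t, |F t| ≤ C) :
    ∫ u in ell z, F (u.1 / u.2) =
      ∫ θ in (-(Real.pi / 2))..(Real.pi / 2), F (z.re + z.im * Real.tan θ) := by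
  classical
  have hmp := act_preserving (LW_g z)
  rw [← hmp.setIntegral_preimage_emb (LW_emb z)]
  have hpre : act (LW_g z) ⁻¹' (ell z) = {w : Pl | w.1 ^ 2 + w.2 ^ 2 ≤ 1} := by
    ext w
    exact LW_mem z w
  rw [hpre]
  have hms : MeasurableSet {w : Pl | w.1 ^ 2 + w.2 ^ 2 ≤ 1} := by
    apply measurableSet_le <;> fun_prop
  rw [← integral_indicator hms, ← integral_comp_polarCoord_symm]
  have hpi := Real.pi_pos
  have key : ∫ p in polarCoord.target, p.1 • Set.indicator {w : Pl | w.1 ^ 2 + w.2 ^ 2 ≤ 1}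
      (fun w => F ((act (LW_g z) w).1 / (act (LW_g z) w).2)) (polarCoord.symm p)
      = ∫ p in (Set.Ioc (0 : ℝ) 1) ×ˢ (Set.Ioo (-Real.pi) Real.pi),
        p.1 * F (z.re - z.im * Real.tan p.2) := by
    have hae : ∀ᵐ p : ℝ × ℝ, Real.cos p.2 ≠ 0 := LW_ae
    have hS : MeasurableSet ((Set.Ioc (0 : ℝ) 1) ×ˢ (Set.Ioo (-Real.pi) Real.pi)) :=
      measurableSet_Ioc.prod measurableSet_Ioo
    have hsub : polarCoord.target ∩ ((Set.Ioc (0 : ℝ) 1) ×ˢ (Set.Ioo (-Real.pi) Real.pi))
        = (Set.Ioc (0 : ℝ) 1) ×ˢ (Set.Ioo (-Real.pi) Real.pi) := by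
      apply Set.inter_eq_right.2
      rw [polarCoord_target]
      intro p hp
      exact ⟨hp.1.1, hp.2⟩
    rw [← hsub, ← setIntegral_indicator hS]
    apply setIntegral_congr_ae polarCoord.open_target.measurableSet
    filter_upwards [hae] with p hp hpt
    rw [polarCoord_target] at hpt
    obtain ⟨hr, hθ⟩ := hpt
    have hr' : (0 : ℝ) < p.1 := hr
    have hsy : polarCoord.symm p = (p.1 * Real.cos p.2, p.1 * Real.sin p.2) := rfl
    have hq : (p.1 * Real.cos p.2) ^ 2 + (p.1 * Real.sin p.2) ^ 2 = p.1 ^ 2 := by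
      linear_combination p.1 ^ 2 * (Real.sin_sq_add_cos_sq p.2)
    by_cases h1 : p.1 ≤ 1
    · rw [Set.indicator_of_mem, Set.indicator_of_mem, smul_eq_mul]
      · have hne : (polarCoord.symm p).1 ≠ 0 := by
          rw [hsy]
          exact mul_ne_zero hr'.ne' hp
        rw [LW_slope z _ hne, hsy]
        simp only
        rw [mul_div_mul_left _ _ hr'.ne', Real.tan_eq_sin_div_cos]
      · exact ⟨⟨hr', h1⟩, hθ⟩
      · rw [hsy]
        simp only [Set.mem_ofPred_eq]
        rw [hq]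
        nlinarith
    · rw [Set.indicator_of_notMem, Set.indicator_of_notMem, smul_zero]
      · intro hcon
        exact h1 hcon.1.2
      · rw [hsy]
        simp only [Set.mem_ofPred_eq]
        rw [hq]
        push Not at h1
        nlinarith
  rw [key, Measure.volume_eq_prod, setIntegral_prod_mul (fun r : ℝ => r)
    (fun θ : ℝ => F (z.re - z.im * Real.tan θ)), LW_ang z.re z.im F hF C hC]
  rw [← intervalIntegral.integral_of_le (by norm_num), integral_id]
  ring

theorem slope_law_integrable (z : ℍ) (F : ℝ → ℝ) (hF : Measurable F) (C : ℝ) (hC : ∀ t, |F t| ≤ C) :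
    IntegrableOn (fun u : Pl => F (u.1 / u.2)) (ell z) := by
  apply Measure.integrableOn_of_bounded (M := C)
  · rw [volume_ell]
    exact ENNReal.ofReal_ne_top
  · exact (hF.comp (measurable_fst.div measurable_snd)).aestronglyMeasurable
  · exact Filter.Eventually.of_forall (fun t => by rw [Real.norm_eq_abs]; exact hC _)

end SimplVol
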