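import Pool.Agent.H74.SV.TR

/-!
# Module MM: the weights of the type patterns

For points `x i` of `ℍ` and a type pattern `τ`, `Mm m x τ` is (for surjective `τ`) the volume of the set
of all `(e, f, u)` with `0 < dt e f ≤ 1`, `u i ∈ ell (x i)` and `typ e f (u i) = τ i`, divided by `π^m`.
* `volume_mset_ne_top`: choose `a, b, c` with `τ a = 0`, `τ b = 1`, `τ c = 2`. The set is contained in
  `{(p, u) : u ∈ ∏ ell (x i), p ∈ tset (u a) (u b) (u c)}`, whose volume is (Tonelli,
  `Measure.prod_apply_symm`) `∫_{u ∈ ∏ ell} volume (tset (u a) (u b) (u c))`, and the integrand is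
  `0` or `volume (tset (1,0) (0,1) (1,1))` for `u b ≠ 0` (`tset_orient`, `volume_tset`); `u b = 0` is a
  null set. So the volume is `≤ π^m * volume (tset std) < ⊤`.
* `Mm_inv`: the map `(e, f, u) ↦ (g e, g f, g u)` preserves the volume (`act_preserving`,
  `MeasurePreserving.prod`, `measurePreserving_pi`) and maps one set onto the other
  (`dt_act`, `typ_act`, `ell_act`).
* `Mm_marg`: `(Fin (m+1) → Pl) ≃ Pl × (Fin m → Pl)` by taking out the coordinate `i`
  (`MeasurableEquiv.piFinSuccAbove`, `volume_preserving_piFinSuccAbove`). For every `(e, f, u)` the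
  type of `u i` is exactly one `k`, so the disjoint union over `k` of the sets of
  `insertNth i k τ` is `{u i ∈ ell (x i)} × (set of τ)`, whose volume is `π * volume`. All
  `insertNth i k τ` are surjective.
-/

set_option autoImplicit false

open scoped BigOperators UpperHalfPlane MatrixGroups ENNReal
open MeasureTheory

namespace SimplVol

/-- The set of all `(e, f, u)` such that the lines `u i` have the types `τ i`. -/
def mset {m : ℕ} (x : Fin m → ℍ) (τ : Fin m → Fin 3) : Set ((Pl × Pl) × (Fin m → Pl)) :=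
  {p | 0 < dt p.1.1 p.1.2 ∧ dt p.1.1 p.1.2 ≤ 1 ∧
    ∀ i, p.2 i ∈ ell (x i) ∧ typ p.1.1 p.1.2 (p.2 i) = τ i}

open Classical in
/-- The weight of the type pattern `τ`. -/
noncomputable def Mm (m : ℕ) (x : Fin m → ℍ) (τ : Fin m → Fin 3) : ℝ :=
  if Function.Surjective τ then (volume (mset x τ)).toReal / Real.pi ^ m else 0

theorem MM_dt_cont : Continuous fun p : Pl × Pl => dt p.1 p.2 := by
  unfold dt
  fun_prop

theorem mset_measurable {m : ℕ} (x : Fin m → ℍ) (τ : Fin m → Fin 3) : MeasurableSet (mset x τ) := by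
  have h0 : Measurable fun p : (Pl × Pl) × (Fin m → Pl) => dt p.1.1 p.1.2 :=
    MM_dt_cont.measurable.comp measurable_fst
  have h1 : MeasurableSet {p : (Pl × Pl) × (Fin m → Pl) | 0 < dt p.1.1 p.1.2} :=
    measurableSet_lt measurable_const h0
  have h2 : MeasurableSet {p : (Pl × Pl) × (Fin m → Pl) | dt p.1.1 p.1.2 ≤ 1} :=
    measurableSet_le h0 measurable_const
  have h3 : ∀ i : Fin m, MeasurableSet {p : (Pl × Pl) × (Fin m → Pl) | p.2 i ∈ ell (x i)} := by
    intro i
    exact ((measurable_pi_apply i).comp measurable_snd) (ell_measurable (x i))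
  have h4 : ∀ i : Fin m, MeasurableSet {p : (Pl × Pl) × (Fin m → Pl) |
      typ p.1.1 p.1.2 (p.2 i) = τ i} := by
    intro i
    have h5 : Measurable fun p : (Pl × Pl) × (Fin m → Pl) => (p.1, p.2 i) :=
      measurable_fst.prodMk ((measurable_pi_apply i).comp measurable_snd)
    exact (typ_measurable.comp h5) (measurableSet_singleton (τ i))
  have h6 : mset x τ = {p : (Pl × Pl) × (Fin m → Pl) | 0 < dt p.1.1 p.1.2} ∩
      ({p : (Pl × Pl) × (Fin m → Pl) | dt p.1.1 p.1.2 ≤ 1} ∩
      ⋂ i, ({p : (Pl × Pl) × (Fin m → Pl) | p.2 i ∈ ell (x i)} ∩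
        {p : (Pl × Pl) × (Fin m → Pl) | typ p.1.1 p.1.2 (p.2 i) = τ i})) := by
    ext p
    simp only [mset, Set.mem_setOf_eq, Set.mem_inter_iff, Set.mem_iInter]
  rw [h6]
  exact h1.inter (h2.inter (MeasurableSet.iInter fun i => (h3 i).inter (h4 i)))

/-- the volume of `tset` is at most the standard one -/
theorem MM_tset_le (u v w : Pl) (hv : v ≠ 0) :
    volume (tset u v w) ≤ volume (tset (1, 0) (0, 1) (1, 1)) := by
  by_cases h : (tset u v w).Nonempty
  · exact (volume_tset u v w (tset_orient u v w hv h)).le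
  · rw [Set.not_nonempty_iff_eq_empty.1 h]
    simp

theorem volume_mset_ne_top {m : ℕ} (x : Fin m → ℍ) (τ : Fin m → Fin 3)
    (hτ : Function.Surjective τ) : volume (mset x τ) ≠ ⊤ := by
  obtain ⟨a, ha⟩ := hτ 0
  obtain ⟨b, hb⟩ := hτ 1
  obtain ⟨c, hc⟩ := hτ 2
  set M : ℝ≥0∞ := volume (tset (1, 0) (0, 1) (1, 1)) with hM
  have hMtop : M ≠ ⊤ := std_finite
  have h1 : volume (mset x τ) = ∫⁻ u : Fin m → Pl, volume ((fun p => (p, u)) ⁻¹' mset x τ) := by
    have := MeasureTheory.Measure.prod_apply_symm (μ := (volume : Measure (Pl × Pl)))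
      (ν := (volume : Measure (Fin m → Pl))) (mset_measurable x τ)
    exact this
  have hnull : volume {u : Fin m → Pl | u b = 0} = 0 := by
    have h2 : (volume : Measure Pl) {(0 : Pl)} = 0 := measure_singleton 0
    exact MeasureTheory.Measure.pi_eval_preimage_null (fun _ : Fin m => (volume : Measure Pl)) h2
  have hae : ∀ᵐ u : Fin m → Pl, u b ≠ 0 := by
    rw [ae_iff]
    simpa using hnull
  have hmeas : MeasurableSet (Set.univ.pi fun i : Fin m => ell (x i)) :=
    MeasurableSet.univ_pi fun i => ell_measurable (x i)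
  have h3 : volume (mset x τ) ≤ ∫⁻ u : Fin m → Pl,
      (Set.univ.pi fun i : Fin m => ell (x i)).indicator (fun _ => M) u := by
    rw [h1]
    apply lintegral_mono_ae
    filter_upwards [hae] with u hu
    by_cases hmem : u ∈ Set.univ.pi fun i : Fin m => ell (x i)
    · rw [Set.indicator_of_mem hmem]
      refine le_trans (measure_mono ?_) (MM_tset_le (u a) (u b) (u c) hu)
      rintro p ⟨hp1, hp2, hp3⟩
      exact ⟨hp1, hp2, (hp3 a).2.trans ha, (hp3 b).2.trans hb, (hp3 c).2.trans hc⟩
    · rw [Set.indicator_of_notMem hmem]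
      have h4 : ((fun p => (p, u)) ⁻¹' mset x τ) = ∅ := by
        rw [Set.eq_empty_iff_forall_notMem]
        rintro p ⟨-, -, hp3⟩
        exact hmem fun i _ => (hp3 i).1
      rw [h4]
      simp
  rw [lintegral_indicator hmeas, setLIntegral_const] at h3
  have h5 : volume (Set.univ.pi fun i : Fin m => ell (x i)) = ∏ _i : Fin m, ENNReal.ofReal Real.pi := by
    rw [volume_pi_pi]
    exact Finset.prod_congr rfl fun i _ => volume_ell (x i)
  rw [h5] at h3
  refine ne_top_of_le_ne_top ?_ h3
  apply ENNReal.mul_ne_top hMtop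
  exact ENNReal.prod_ne_top fun i _ => ENNReal.ofReal_ne_top

theorem Mm_nonneg {m : ℕ} (x : Fin m → ℍ) (τ : Fin m → Fin 3) : 0 ≤ Mm m x τ := by
  unfold Mm
  split_ifs
  · have := Real.pi_pos
    positivity
  · exact le_rfl

theorem MM_act_map_preserving {m : ℕ} (g : SL(2, ℝ)) :
    MeasurePreserving (fun p : (Pl × Pl) × (Fin m → Pl) =>
      ((act g p.1.1, act g p.1.2), fun i => act g (p.2 i))) volume volume := by
  have h1 : MeasurePreserving (Prod.map (act g) (act g)) (volume : Measure (Pl × Pl)) volume :=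
    (act_preserving g).prod (act_preserving g)
  have h2 : MeasurePreserving (fun (u : Fin m → Pl) (i : Fin m) => act g (u i))
      (volume : Measure (Fin m → Pl)) volume :=
    volume_preserving_pi (fun _ => act_preserving g)
  exact h1.prod h2

theorem Mm_inv {m : ℕ} (g : SL(2, ℝ)) (x : Fin m → ℍ) (τ : Fin m → Fin 3) :
    Mm m (fun i => g • x i) τ = Mm m x τ := by
  have h : volume (mset (fun i => g • x i) τ) = volume (mset x τ) := by
    have h1 := (MM_act_map_preserving (m := m) g).measure_preimage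
      (mset_measurable (fun i => g • x i) τ).nullMeasurableSet
    rw [← h1]
    congr 1
    ext p
    simp only [mset, Set.mem_preimage, Set.mem_setOf_eq, dt_act, typ_act, ell_act]
  unfold Mm
  rw [h]

theorem MM_insert_surj {m : ℕ} (i : Fin (m + 1)) (k : Fin 3) (τ : Fin m → Fin 3)
    (hτ : Function.Surjective τ) :
    Function.Surjective (i.insertNth k τ : Fin (m + 1) → Fin 3) := by
  intro y
  obtain ⟨l, hl⟩ := hτ y
  exact ⟨i.succAbove l, by rw [Fin.insertNth_apply_succAbove, hl]⟩

/-- splitting off one coordinate -/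
theorem MM_split {m : ℕ} (i : Fin (m + 1)) (E : Set Pl) (V : Set (Fin m → Pl)) :
    volume {u : Fin (m + 1) → Pl | u i ∈ E ∧ (fun l => u (i.succAbove l)) ∈ V} =
      volume E * volume V := by
  have h1 := volume_preserving_piFinSuccAbove (fun _ : Fin (m + 1) => Pl) i
  have h2 := h1.measure_preimage_equiv (E ×ˢ V)
  have h3 : (volume : Measure (Pl × (Fin m → Pl))) (E ×ˢ V) = volume E * volume V :=
    Measure.prod_prod E V
  rw [← h3, ← h2]
  congr 1

theorem MM_mem_iff {m : ℕ} (x : Fin (m + 1) → ℍ) (i : Fin (m + 1)) (τ : Fin m → Fin 3) (k : Fin 3)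
    (p : (Pl × Pl) × (Fin (m + 1) → Pl)) :
    p ∈ mset x (i.insertNth k τ : Fin (m + 1) → Fin 3) ↔
      ((p.1, fun l => p.2 (i.succAbove l)) ∈ mset (fun l => x (i.succAbove l)) τ ∧
        p.2 i ∈ ell (x i)) ∧ typ p.1.1 p.1.2 (p.2 i) = k := by
  simp only [mset, Set.mem_setOf_eq]
  rw [Fin.forall_iff_succAbove i]
  simp only [Fin.insertNth_apply_same, Fin.insertNth_apply_succAbove]
  tauto

theorem MM_vol {m : ℕ} (x : Fin (m + 1) → ℍ) (i : Fin (m + 1)) (τ : Fin m → Fin 3) :
    ∑ k : Fin 3, volume (mset x (i.insertNth k τ : Fin (m + 1) → Fin 3)) =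
      ENNReal.ofReal Real.pi * volume (mset (fun l => x (i.succAbove l)) τ) := by
  have hdisj : Pairwise (Function.onFun Disjoint
      fun k : Fin 3 => mset x (i.insertNth k τ : Fin (m + 1) → Fin 3)) := by
    intro k k' hkk
    rw [Function.onFun, Set.disjoint_left]
    intro p hp hp'
    rw [MM_mem_iff] at hp hp'
    exact hkk (hp.2.symm.trans hp'.2)
  have h1 : ∑ k : Fin 3, volume (mset x (i.insertNth k τ : Fin (m + 1) → Fin 3)) =
      volume (⋃ k : Fin 3, mset x (i.insertNth k τ : Fin (m + 1) → Fin 3)) := by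
    rw [measure_iUnion hdisj fun k => mset_measurable _ _, tsum_fintype]
  have hU : (⋃ k : Fin 3, mset x (i.insertNth k τ : Fin (m + 1) → Fin 3)) =
      {p : (Pl × Pl) × (Fin (m + 1) → Pl) |
        (p.1, fun l => p.2 (i.succAbove l)) ∈ mset (fun l => x (i.succAbove l)) τ ∧
        p.2 i ∈ ell (x i)} := by
    ext p
    simp only [Set.mem_iUnion, MM_mem_iff, Set.mem_setOf_eq]
    exact ⟨fun ⟨k, h, _⟩ => h, fun h => ⟨_, h, rfl⟩⟩
  have hUm : MeasurableSet {p : (Pl × Pl) × (Fin (m + 1) → Pl) |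
        (p.1, fun l => p.2 (i.succAbove l)) ∈ mset (fun l => x (i.succAbove l)) τ ∧
        p.2 i ∈ ell (x i)} := by
    rw [← hU]
    exact MeasurableSet.iUnion fun k => mset_measurable _ _
  rw [h1, hU]
  have h2 := MeasureTheory.Measure.prod_apply (μ := (volume : Measure (Pl × Pl)))
      (ν := (volume : Measure (Fin (m + 1) → Pl))) hUm
  have h3 := MeasureTheory.Measure.prod_apply (μ := (volume : Measure (Pl × Pl)))
      (ν := (volume : Measure (Fin m → Pl))) (mset_measurable (fun l => x (i.succAbove l)) τ)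
  refine h2.trans ?_
  have h4 : (volume : Measure ((Pl × Pl) × (Fin m → Pl))) (mset (fun l => x (i.succAbove l)) τ) =
      ∫⁻ p : Pl × Pl, volume (Prod.mk p ⁻¹' mset (fun l => x (i.succAbove l)) τ) := h3
  rw [h4, ← lintegral_const_mul' _ _ ENNReal.ofReal_ne_top]
  apply lintegral_congr
  intro p
  rw [← volume_ell (x i), ← MM_split i]
  congr 1
  ext u
  simp only [Set.mem_preimage, Set.mem_setOf_eq]
  tauto

theorem Mm_marg {m : ℕ} (x : Fin (m + 1) → ℍ) (i : Fin (m + 1)) (τ : Fin m → Fin 3)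
    (hτ : Function.Surjective τ) :
    ∑ k : Fin 3, Mm (m + 1) x (i.insertNth k τ : Fin (m + 1) → Fin 3) =
      Mm m (fun l => x (i.succAbove l)) τ := by
  have hs := fun k => MM_insert_surj i k τ hτ
  have h1 : ∀ k : Fin 3, Mm (m + 1) x (i.insertNth k τ : Fin (m + 1) → Fin 3) =
      (volume (mset x (i.insertNth k τ : Fin (m + 1) → Fin 3))).toReal / Real.pi ^ (m + 1) :=
    fun k => if_pos (hs k)
  have h2 : Mm m (fun l => x (i.succAbove l)) τ =
      (volume (mset (fun l => x (i.succAbove l)) τ)).toReal / Real.pi ^ m := if_pos hτ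
  have h3 := MM_vol x i τ
  have h4 := congrArg ENNReal.toReal h3
  rw [ENNReal.toReal_sum fun k _ => volume_mset_ne_top x _ (hs k), ENNReal.toReal_mul,
    ENNReal.toReal_ofReal Real.pi_pos.le] at h4
  simp only [h1]
  rw [← Finset.sum_div, h4, h2, pow_succ]
  have := Real.pi_pos
  field_simp

end SimplVol
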