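import Pool.Agent.H74.SV.WT

/-!
# Module N1: the norm of the chain of the cube

Let `D y = det (cmat N y)`, so `cub N y = D y / (N+1)`; `M = N + 1` rows. If a column of `y` is
constant, the corresponding column of `cmat` is a multiple of the first one and `D y = 0`. For a
nonconstant pattern `η` with `p` true and `q` false entries (`p + q = N + 1`, `p, q ≥ 1`) put
`ω η = 1 / (Z * choose (N+1) p * √(p q))`, `Z = ∑_{p=1}^{N} 1/√(p (N+1-p))`, so `∑_η ω η = 1`.
By Cauchy-Schwarz
`∑_y |D y| ≤ √(∑_y ∏_a ω (column a)) * √(∑_y D y² / ∏_a ω (column a)) = √(∑_y D y² / ∏ ω)`.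
Expanding both determinants,
`∑_y D y²/∏ ω = ∑_{σ,τ} sgn σ sgn τ ∏_a Q (σ (a+1)) (τ (a+1))`, `Q i k = ∑_η wt η i wt η k / ω η`.
By symmetry `Q i k = α 1[i = k] + β`. Expand the product over `a`: terms with two `β`'s cancel
(exchange the two values of `τ`), terms with one `β` at `a` need `σ = τ` off `{0, a+1}` and cancel in
pairs (`τ = σ` and `τ = σ ∘ swap 0 (a+1)`), so the sum is `(N+1)! α^N`, where (for `i ≠ k`)
`α = Q i i - Q i k = ½ ∑_η (wt η i - wt η k)²/ω η`
`= ∑_{p=1}^{N} choose (N-1) (p-1) * ((p-1)! (q-1)!/N!)² / ω_p = ((N+1)/N) Z²`.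
(For `η i` true and `η k` false: `wt η i - wt η k = (p-1)! (q-1)! (p+q)/(N+1)! = (p-1)! (q-1)!/N!`.)
Finally `Z ≤ π`: with `sin² φ_p = p/(N+1)`, `1/√(p (N+1-p)) ≤ 2 (φ_p - φ_{p-1})` for `p ≤ N/2`. With
`N = 2 n ≥ 2`: `α^{N/2} ≤ π^N (1 + 1/N)^{N/2}` and `∑ |cub| ≤ (1/(N+1)) √((N+1)!) α^{N/2} ≤ √(N!) π^{2n}`, as
`(1 + 1/N)^N ≤ 3 ≤ N + 1`.
-/

set_option autoImplicit false

open scoped BigOperators Nat

namespace SimplVol

/-- The number of true entries. -/
private def N1_p {m : ℕ} (η : Fin m → Bool) : ℕ := (Finset.univ.filter fun k => η k = true).card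

/-- The inverse weight. -/
private noncomputable def N1_v {m : ℕ} (η : Fin m → Bool) : ℝ :=
  (m.choose (N1_p η) : ℝ) * Real.sqrt ((N1_p η : ℝ) * ((m : ℝ) - N1_p η))

private lemma N1_p_le {m : ℕ} (η : Fin m → Bool) : N1_p η ≤ m := by
  unfold N1_p
  exact (Finset.card_le_univ _).trans (by simp)

private lemma N1_q {m : ℕ} (η : Fin m → Bool) :
    (Finset.univ.filter fun k => η k = false).card = m - N1_p η := by
  have h := Finset.card_filter_add_card_filter_not (s := (Finset.univ : Finset (Fin m)))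
    (fun k => η k = true)
  simp only [Bool.not_eq_true, Finset.card_univ, Fintype.card_fin] at h
  unfold N1_p
  omega

private lemma N1_wt_true {m : ℕ} (η : Fin m → Bool) (i : Fin m) (h : η i = true) :
    wt η i * (N1_p η : ℝ) = ((N1_p η)! : ℝ) * ((m - N1_p η)! : ℝ) / (m ! : ℝ) := by
  have h1 : (Finset.univ.filter fun k => k ≠ i ∧ η k = true) =
      (Finset.univ.filter fun k => η k = true).erase i := by
    ext k; simp
  have h2 : (Finset.univ.filter fun k => k ≠ i ∧ η k = false) =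
      (Finset.univ.filter fun k => η k = false) := by
    ext k
    simp only [Finset.mem_filter, Finset.mem_univ, true_and, and_iff_right_iff_imp]
    rintro h' rfl
    simp [h] at h'
  have hi : i ∈ (Finset.univ.filter fun k => η k = true) := by simp [h]
  have hp : (N1_p η) = ((Finset.univ.filter fun k => η k = true).erase i).card + 1 := by
    rw [Finset.card_erase_add_one hi]; rfl
  unfold wt
  rw [h1, h2, N1_q, if_pos h]
  rw [hp, Nat.factorial_succ]
  push_cast
  ring

private lemma N1_wt_false {m : ℕ} (η : Fin m → Bool) (i : Fin m) (h : η i = false) :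
    wt η i * ((m : ℝ) - N1_p η) = - (((N1_p η)! : ℝ) * ((m - N1_p η)! : ℝ) / (m ! : ℝ)) := by
  have h1 : (Finset.univ.filter fun k => k ≠ i ∧ η k = false) =
      (Finset.univ.filter fun k => η k = false).erase i := by
    ext k; simp
  have h2 : (Finset.univ.filter fun k => k ≠ i ∧ η k = true) =
      (Finset.univ.filter fun k => η k = true) := by
    ext k
    simp only [Finset.mem_filter, Finset.mem_univ, true_and, and_iff_right_iff_imp]
    rintro h' rfl
    simp [h] at h'
  have hi : i ∈ (Finset.univ.filter fun k => η k = false) := by simp [h]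
  have hp : m - (N1_p η) = ((Finset.univ.filter fun k => η k = false).erase i).card + 1 := by
    rw [Finset.card_erase_add_one hi, N1_q]
  have hle := N1_p_le η
  have hp' : (m : ℝ) - (N1_p η : ℝ) =
      (((Finset.univ.filter fun k => η k = false).erase i).card : ℝ) + 1 := by
    rw [← Nat.cast_sub hle, hp]; push_cast; ring
  unfold wt
  rw [h1, h2, if_neg (by simp [h])]
  rw [hp', hp, Nat.factorial_succ]
  change _ = - (((N1_p η)! : ℝ) * _ / _)
  unfold N1_p
  push_cast
  ring

private lemma N1_v_nonneg {m : ℕ} (η : Fin m → Bool) : 0 ≤ N1_v η := by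
  unfold N1_v; positivity

private lemma N1_sum_sq {m : ℕ} (η : Fin m → Bool) :
    ∑ i, wt η i * wt η i * N1_v η = (m : ℝ) * (N1_v η)⁻¹ := by
  have hle := N1_p_le η
  by_cases h0 : N1_p η = 0
  · simp [N1_v, h0]
  by_cases h1 : N1_p η = m
  · simp [N1_v, h1]
  have hp : (0 : ℝ) < N1_p η := by exact_mod_cast Nat.pos_of_ne_zero h0
  have hq : (0 : ℝ) < (m : ℝ) - N1_p η := by
    have : N1_p η < m := lt_of_le_of_ne hle h1
    have : (N1_p η : ℝ) < m := by exact_mod_cast this
    linarith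
  set p : ℝ := (N1_p η : ℝ) with hpdef
  set c : ℝ := ((N1_p η)! : ℝ) * ((m - N1_p η)! : ℝ) / (m ! : ℝ) with hc
  have hsq : ∀ i, wt η i * wt η i = if η i = true then (c / p) ^ 2 else (c / ((m : ℝ) - p)) ^ 2 := by
    intro i
    by_cases h : η i = true
    · rw [if_pos h]
      have := N1_wt_true η i h
      rw [← hpdef, ← hc] at this
      rw [← this]
      field_simp
    · rw [if_neg h]
      have h' : η i = false := by simpa using h
      have := N1_wt_false η i h'
      rw [← hpdef, ← hc] at this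
      have h3 : c = - (wt η i * ((m : ℝ) - p)) := by linarith
      rw [h3]
      field_simp
  have hsum : ∑ i, wt η i * wt η i = p * (c / p) ^ 2 + ((m : ℝ) - p) * (c / ((m : ℝ) - p)) ^ 2 := by
    rw [Finset.sum_congr rfl fun i _ => hsq i, Finset.sum_ite, Finset.sum_const, Finset.sum_const]
    rw [nsmul_eq_mul, nsmul_eq_mul]
    congr 2
    have := N1_q η
    simp only [Bool.not_eq_true]
    rw [this, Nat.cast_sub hle]
  rw [← Finset.sum_mul, hsum]
  have hch : (m.choose (N1_p η) : ℝ) * c = 1 := by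
    have := Nat.choose_mul_factorial_mul_factorial hle
    rw [hc]
    have h2 : (m.choose (N1_p η) : ℝ) * ((N1_p η)! : ℝ) * ((m - N1_p η)! : ℝ) = (m ! : ℝ) := by
      exact_mod_cast this
    have h3 : (m ! : ℝ) ≠ 0 := by positivity
    field_simp
    linarith
  have hcpos : (0 : ℝ) < (m.choose (N1_p η) : ℝ) := by exact_mod_cast Nat.choose_pos hle
  have hs : Real.sqrt (p * ((m : ℝ) - p)) * Real.sqrt (p * ((m : ℝ) - p)) = p * ((m : ℝ) - p) :=
    Real.mul_self_sqrt (by positivity)
  have hs0 : Real.sqrt (p * ((m : ℝ) - p)) ≠ 0 := by positivity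
  unfold N1_v
  rw [← hpdef]
  set C : ℝ := (m.choose (N1_p η) : ℝ) with hC
  set s : ℝ := Real.sqrt (p * ((m : ℝ) - p)) with hsdef
  have hcc : c = C⁻¹ := by
    field_simp; linarith
  rw [hcc]
  have e1 : p * (C⁻¹ / p) ^ 2 + ((m : ℝ) - p) * (C⁻¹ / ((m : ℝ) - p)) ^ 2
      = C⁻¹ ^ 2 * m / (p * ((m : ℝ) - p)) := by
    field_simp; ring
  rw [e1, ← hs]
  field_simp

private lemma N1_sum_zero {m : ℕ} (η : Fin m → Bool) : N1_v η * ∑ i, wt η i = 0 := by
  have hle := N1_p_le η
  by_cases h0 : N1_p η = 0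
  · simp [N1_v, h0]
  by_cases h1 : N1_p η = m
  · simp [N1_v, h1]
  have hm : 0 < m := by omega
  rw [wt_sum hm]
  have hA : ¬ ∀ k, η k = true := by
    intro h
    apply h1
    unfold N1_p
    rw [Finset.filter_true_of_mem (fun k _ => h k)]
    simp
  have hB : ¬ ∀ k, η k = false := by
    intro h
    apply h0
    unfold N1_p
    rw [Finset.filter_false_of_mem (fun k _ => by simp [h k])]
    simp
  unfold ends
  rw [if_neg hA, if_neg hB]
  simp

private lemma N1_p_perm {m : ℕ} (η : Fin m → Bool) (σ : Equiv.Perm (Fin m)) :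
    N1_p (η ∘ σ) = N1_p η := by
  unfold N1_p
  have : (Finset.univ.filter fun k => η k = true) =
      (Finset.univ.filter fun k => (η ∘ σ) k = true).map σ.toEmbedding := by
    ext k
    simp only [Finset.mem_filter, Finset.mem_univ, true_and, Finset.mem_map_equiv,
      Function.comp_apply, Equiv.apply_symm_apply]
  rw [this, Finset.card_map]

private lemma N1_v_perm {m : ℕ} (η : Fin m → Bool) (σ : Equiv.Perm (Fin m)) :
    N1_v (η ∘ σ) = N1_v η := by
  unfold N1_v
  rw [N1_p_perm]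

/-- The correlation. -/
private noncomputable def N1_Q {m : ℕ} (i k : Fin m) : ℝ :=
  ∑ η : Fin m → Bool, wt η i * wt η k * N1_v η

private lemma N1_Q_perm {m : ℕ} (σ : Equiv.Perm (Fin m)) (i k : Fin m) :
    N1_Q (σ i) (σ k) = N1_Q i k := by
  unfold N1_Q
  refine Fintype.sum_equiv (Equiv.arrowCongr σ.symm (Equiv.refl Bool)) _ _ ?_
  intro η
  have : (Equiv.arrowCongr σ.symm (Equiv.refl Bool)) η = η ∘ σ := by
    ext k; simp [Equiv.arrowCongr]
  rw [this, N1_v_perm, wt_perm, wt_perm]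

private noncomputable def N1_Z (m : ℕ) : ℝ := ∑ η : Fin m → Bool, (N1_v η)⁻¹

private lemma N1_Q_diag {m : ℕ} (i : Fin m) : N1_Q i i = N1_Z m := by
  have h1 : ∀ k : Fin m, N1_Q k k = N1_Q i i := by
    intro k
    have := N1_Q_perm (Equiv.swap i k) i i
    rwa [Equiv.swap_apply_left] at this
  have h2 : ∑ k : Fin m, N1_Q k k = (m : ℝ) * N1_Z m := by
    unfold N1_Q N1_Z
    rw [Finset.sum_comm, Finset.mul_sum]
    exact Finset.sum_congr rfl fun η _ => N1_sum_sq η
  rw [Finset.sum_congr rfl fun k _ => h1 k] at h2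
  simp only [Finset.sum_const, Finset.card_univ, Fintype.card_fin, nsmul_eq_mul] at h2
  have hm : (m : ℝ) ≠ 0 := by
    have : 0 < m := lt_of_le_of_lt (Nat.zero_le _) i.2
    positivity
  exact mul_left_cancel₀ hm h2

private lemma N1_Q_off {N : ℕ} (hN : 1 ≤ N) (i k : Fin (N + 1)) (hik : i ≠ k) :
    N1_Q i k = - N1_Z (N + 1) / N := by
  have h1 : ∀ j : Fin (N + 1), j ≠ i → N1_Q i j = N1_Q i k := by
    intro j hj
    have := N1_Q_perm (Equiv.swap k j) i k
    rw [Equiv.swap_apply_left, Equiv.swap_apply_of_ne_of_ne hik hj.symm] at this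
    exact this
  have h2 : ∑ j, N1_Q i j = 0 := by
    unfold N1_Q
    rw [Finset.sum_comm]
    apply Finset.sum_eq_zero
    intro η _
    have := N1_sum_zero η
    calc ∑ j, wt η i * wt η j * N1_v η = wt η i * (N1_v η * ∑ j, wt η j) := by
          rw [Finset.mul_sum, Finset.mul_sum]
          exact Finset.sum_congr rfl fun j _ => by ring
      _ = 0 := by rw [this, mul_zero]
  rw [← Finset.add_sum_erase _ _ (Finset.mem_univ i), N1_Q_diag] at h2
  rw [Finset.sum_congr rfl fun j hj => h1 j (Finset.ne_of_mem_erase hj)] at h2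
  rw [Finset.sum_const, Finset.card_erase_of_mem (Finset.mem_univ i)] at h2
  simp only [Finset.card_univ, Fintype.card_fin, Nat.add_sub_cancel, nsmul_eq_mul] at h2
  have hN' : (N : ℝ) ≠ 0 := by positivity
  field_simp
  linarith

private lemma N1_sum_prod {M N : ℕ} (F : Fin N → (Fin M → Bool) → ℝ) :
    ∑ y : Fin M → Fin N → Bool, ∏ a, F a (fun k => y k a) = ∏ a, ∑ η, F a η := by
  rw [Finset.prod_univ_sum, Fintype.piFinset_univ]
  refine Fintype.sum_equiv (Equiv.piComm fun _ _ => Bool) _ _ ?_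
  intro y
  rfl


private lemma N1_det_expand {N : ℕ} (y : Fin (N + 1) → Fin N → Bool) :
    (cmat N y).det = ∑ σ : Equiv.Perm (Fin (N + 1)), ((Equiv.Perm.sign σ : ℤ) : ℝ) *
      ∏ a : Fin N, wt (fun k => y k a) (σ a.succ) := by
  rw [Matrix.det_apply']
  refine Finset.sum_congr rfl fun σ _ => ?_
  rw [Fin.prod_univ_succ]
  simp [cmat]

private lemma N1_det_const {N : ℕ} (y : Fin (N + 1) → Fin N → Bool) (a : Fin N)
    (h : N1_v (fun k => y k a) = 0) : (cmat N y).det = 0 := by
  set η : Fin (N + 1) → Bool := fun k => y k a with hη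
  have hle := N1_p_le η
  have hcase : N1_p η = 0 ∨ N1_p η = N + 1 := by
    by_contra hcon
    push Not at hcon
    obtain ⟨h0, h1⟩ := hcon
    have hp : (0 : ℝ) < N1_p η := by exact_mod_cast Nat.pos_of_ne_zero h0
    have hq : (0 : ℝ) < ((N + 1 : ℕ) : ℝ) - N1_p η := by
      have : N1_p η < N + 1 := lt_of_le_of_ne hle h1
      have : (N1_p η : ℝ) < ((N + 1 : ℕ) : ℝ) := by exact_mod_cast this
      linarith
    have hcpos : (0 : ℝ) < ((N + 1).choose (N1_p η) : ℝ) := by exact_mod_cast Nat.choose_pos hle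
    have : 0 < N1_v η := by unfold N1_v; positivity
    linarith
  have hconst : ∃ κ : ℝ, ∀ i, wt η i = κ := by
    rcases hcase with h0 | h1
    · have hf : ∀ k, η k = false := by
        intro k
        by_contra hk
        have hk' : η k = true := by simpa using hk
        have : 0 < N1_p η := by
          unfold N1_p
          exact Finset.card_pos.mpr ⟨k, by simp [hk']⟩
        omega
      refine ⟨- (((N1_p η)! : ℝ) * ((N + 1 - N1_p η)! : ℝ) / ((N + 1)! : ℝ)) / (((N + 1 : ℕ) : ℝ) - N1_p η), ?_⟩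
      intro i
      have hq : (((N + 1 : ℕ) : ℝ) - N1_p η) ≠ 0 := by
        rw [h0, Nat.cast_zero, sub_zero]; positivity
      rw [eq_div_iff hq]
      exact N1_wt_false η i (hf i)
    · have hf : ∀ k, η k = true := by
        intro k
        by_contra hk
        have hk' : η k = false := by simpa using hk
        have h2 := N1_q η
        have : 0 < (Finset.univ.filter fun k => η k = false).card :=
          Finset.card_pos.mpr ⟨k, by simp [hk']⟩
        omega
      refine ⟨(((N1_p η)! : ℝ) * ((N + 1 - N1_p η)! : ℝ) / ((N + 1)! : ℝ)) / (N1_p η), ?_⟩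
      intro i
      have hq : ((N1_p η : ℝ)) ≠ 0 := by
        rw [h1]; push_cast; positivity
      rw [eq_div_iff hq]
      exact N1_wt_true η i (hf i)
  obtain ⟨κ, hκ⟩ := hconst
  rw [← Matrix.exists_mulVec_eq_zero_iff]
  refine ⟨Pi.single a.succ 1 - κ • Pi.single 0 1, ?_, ?_⟩
  · intro hcon
    have := congrFun hcon a.succ
    simp at this
  · rw [Matrix.mulVec_sub, Matrix.mulVec_smul]
    ext i
    simp [cmat]
    rw [← hη, hκ i]
    simp

private lemma N1_second {N : ℕ} (hN : 1 ≤ N) :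
    ∑ y : Fin (N + 1) → Fin N → Bool, (cmat N y).det ^ 2 * ∏ a, N1_v (fun k => y k a) =
      ((N + 1)! : ℝ) * (N1_Z (N + 1) * ((N + 1) / N)) ^ N := by
  have hN' : (N : ℝ) ≠ 0 := by positivity
  set α : ℝ := N1_Z (N + 1) * ((N + 1) / N) with hα
  set β : ℝ := - N1_Z (N + 1) / N with hβ
  have hQ : ∀ i k : Fin (N + 1), N1_Q i k = (if i = k then α else 0) + β := by
    intro i k
    by_cases h : i = k
    · subst h
      rw [N1_Q_diag, if_pos rfl, hα, hβ]
      field_simp
      ring
    · rw [N1_Q_off hN i k h, if_neg h, zero_add]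
  have h1 : ∀ y : Fin (N + 1) → Fin N → Bool,
      (cmat N y).det ^ 2 * ∏ a, N1_v (fun k => y k a) =
      ∑ σ : Equiv.Perm (Fin (N + 1)), ∑ π : Equiv.Perm (Fin (N + 1)),
        ((Equiv.Perm.sign π : ℤ) : ℝ) *
        ∏ a : Fin N, (wt (fun k => y k a) (σ a.succ) * wt (fun k => y k a) (σ (π a.succ)) *
          N1_v (fun k => y k a)) := by
    intro y
    rw [sq]
    nth_rewrite 1 [N1_det_expand]
    rw [Finset.sum_mul, Finset.sum_mul]
    refine Finset.sum_congr rfl fun σ _ => ?_
    rw [N1_det_expand]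
    rw [← Fintype.sum_equiv (Equiv.mulLeft σ) (fun π => ((Equiv.Perm.sign (σ * π) : ℤ) : ℝ) *
      ∏ a : Fin N, wt (fun k => y k a) ((σ * π) a.succ)) _ (fun π => rfl)]
    rw [Finset.mul_sum, Finset.sum_mul]
    refine Finset.sum_congr rfl fun π _ => ?_
    rw [Finset.prod_mul_distrib, Finset.prod_mul_distrib]
    rw [Equiv.Perm.sign_mul]
    have hs : ((Equiv.Perm.sign σ : ℤ) : ℝ) * ((Equiv.Perm.sign σ : ℤ) : ℝ) = 1 := by
      have := Int.units_mul_self (Equiv.Perm.sign σ)
      have h2 : ((Equiv.Perm.sign σ : ℤ)) * ((Equiv.Perm.sign σ : ℤ)) = 1 := by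
        rw [← Units.val_mul, this]; rfl
      exact_mod_cast h2
    simp only [Units.val_mul, Int.cast_mul, Equiv.Perm.mul_apply]
    linear_combination (((Equiv.Perm.sign π : ℤ) : ℝ) *
      (∏ a : Fin N, wt (fun k => y k a) (σ a.succ)) *
      (∏ a : Fin N, wt (fun k => y k a) (σ (π a.succ))) * ∏ a, N1_v (fun k => y k a)) * hs
  rw [Finset.sum_congr rfl fun y _ => h1 y, Finset.sum_comm]
  have h2 : ∀ σ : Equiv.Perm (Fin (N + 1)),
      ∑ y : Fin (N + 1) → Fin N → Bool, ∑ π : Equiv.Perm (Fin (N + 1)),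
        ((Equiv.Perm.sign π : ℤ) : ℝ) *
        ∏ a : Fin N, (wt (fun k => y k a) (σ a.succ) * wt (fun k => y k a) (σ (π a.succ)) *
          N1_v (fun k => y k a)) = α ^ N := by
    intro σ
    rw [Finset.sum_comm]
    have h3 : ∀ π : Equiv.Perm (Fin (N + 1)),
        ∑ y : Fin (N + 1) → Fin N → Bool, ((Equiv.Perm.sign π : ℤ) : ℝ) *
        ∏ a : Fin N, (wt (fun k => y k a) (σ a.succ) * wt (fun k => y k a) (σ (π a.succ)) *
          N1_v (fun k => y k a)) =
        ((Equiv.Perm.sign π : ℤ) : ℝ) * ∏ a : Fin N, ((if a.succ = π a.succ then α else 0) + β) := by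
      intro π
      rw [← Finset.mul_sum]
      congr 1
      rw [N1_sum_prod (fun a η => wt η (σ a.succ) * wt η (σ (π a.succ)) * N1_v η)]
      refine Finset.prod_congr rfl fun a _ => ?_
      have := N1_Q_perm σ a.succ (π a.succ)
      rw [hQ a.succ (π a.succ)] at this
      rw [← this]
      rfl
    rw [Finset.sum_congr rfl fun π _ => h3 π]
    set A : Matrix (Fin (N + 1)) (Fin (N + 1)) ℝ := Matrix.of fun i j =>
      if i = 0 then 1 else (if i = j then α else 0) + β with hA
    have h4 : A.det = ∑ π : Equiv.Perm (Fin (N + 1)), ((Equiv.Perm.sign π : ℤ) : ℝ) *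
        ∏ a : Fin N, ((if a.succ = π a.succ then α else 0) + β) := by
      rw [← Matrix.det_transpose, Matrix.det_apply']
      refine Finset.sum_congr rfl fun π _ => ?_
      rw [Fin.prod_univ_succ]
      simp [hA, Fin.succ_ne_zero]
    rw [← h4]
    set B : Matrix (Fin (N + 1)) (Fin (N + 1)) ℝ := Matrix.of fun i j =>
      if i = 0 then 1 else (if i = j then α else 0) with hB
    have h5 : A.det = B.det := by
      refine Matrix.det_eq_of_forall_row_eq_smul_add_const (fun i => if i = 0 then 0 else β) 0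
        (by simp) ?_
      intro i j
      by_cases hi : i = 0
      · simp [hA, hB, hi]
      · simp [hA, hB, hi]
    have h6 : B.det = α ^ N := by
      rw [Matrix.det_of_isUpperTriangular]
      · rw [Fin.prod_univ_succ]
        simp [hB, Fin.succ_ne_zero]
      · intro i j hij
        have hij' : j < i := hij
        have hi : i ≠ 0 := by
          rintro rfl
          exact absurd hij' (Fin.not_lt_zero j)
        simp [hB, hi, hij'.ne']
    rw [h5, h6]
  rw [Finset.sum_congr rfl fun σ _ => h2 σ]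
  simp [Finset.card_univ, Fintype.card_perm]


private lemma N1_sum_card {M : ℕ} (f : ℕ → ℝ) :
    ∑ η : Fin M → Bool, f (N1_p η) = ∑ p ∈ Finset.range (M + 1), (M.choose p : ℝ) * f p := by
  have e : ∑ η : Fin M → Bool, f (N1_p η) = ∑ s : Finset (Fin M), f s.card := by
    refine Fintype.sum_equiv
      { toFun := fun η => Finset.univ.filter fun k => η k = true
        invFun := fun s k => decide (k ∈ s)
        left_inv := fun η => by ext k; simp
        right_inv := fun s => by ext k; simp } _ _ ?_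
    intro η
    rfl
  rw [e, ← Finset.powerset_univ, Finset.sum_powerset_apply_card]
  simp

private lemma N1_Z_eq (M : ℕ) :
    N1_Z M = ∑ p ∈ Finset.range (M + 1), (Real.sqrt ((p : ℝ) * ((M : ℝ) - p)))⁻¹ := by
  unfold N1_Z N1_v
  rw [N1_sum_card (fun p => ((M.choose p : ℝ) * Real.sqrt ((p : ℝ) * ((M : ℝ) - p)))⁻¹)]
  refine Finset.sum_congr rfl fun p hp => ?_
  have hp' : p ≤ M := by simpa [Nat.lt_succ_iff] using hp
  have : (M.choose p : ℝ) ≠ 0 := by
    have := Nat.choose_pos hp'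
    positivity
  rw [mul_inv, ← mul_assoc, mul_inv_cancel₀ this, one_mul]

/-- The angles `arcsin √(p/M)`. -/
private lemma N1_angle (M : ℝ) (hM : 0 < M) (a b : ℝ) (ha : 0 ≤ a) (hab : a ≤ b)
    (hb : b ≤ Real.pi / 4) (p : ℝ) (hp : 0 < p)
    (h1 : Real.sin a ^ 2 = (p - 1) / M) (h2 : Real.sin b ^ 2 = p / M) :
    (Real.sqrt (p * (M - p)))⁻¹ ≤ 2 * (b - a) := by
  have hpi := Real.pi_pos
  have hsb : 0 ≤ Real.sin b := Real.sin_nonneg_of_nonneg_of_le_pi (by linarith) (by linarith)
  have hcb : 0 < Real.cos b := Real.cos_pos_of_mem_Ioo ⟨by linarith, by linarith⟩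
  have hsb' : 0 < Real.sin b := by
    rcases hsb.lt_or_eq with h | h
    · exact h
    · rw [← h] at h2
      have : 0 < p / M := by positivity
      rw [← h2] at this
      simp at this
  have hc2 : Real.cos b ^ 2 = (M - p) / M := by
    have := Real.sin_sq_add_cos_sq b
    rw [h2] at this
    field_simp at this ⊢
    linarith
  have h3 : Real.sqrt (p * (M - p)) = M * (Real.sin b * Real.cos b) := by
    rw [show p * (M - p) = (M * (Real.sin b * Real.cos b)) ^ 2 by
      rw [mul_pow, mul_pow, h2, hc2]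
      field_simp]
    exact Real.sqrt_sq (by positivity)
  have h4 : Real.sin (b - a) * Real.sin (b + a) = 1 / M := by
    have e : Real.sin (b - a) * Real.sin (b + a) = Real.sin b ^ 2 - Real.sin a ^ 2 := by
      rw [Real.sin_sub, Real.sin_add]
      have ha2 := Real.sin_sq_add_cos_sq a
      have hb2 := Real.sin_sq_add_cos_sq b
      nlinarith [ha2, hb2]
    rw [e, h1, h2]
    field_simp
    ring
  have h5 : Real.sin (b + a) ≤ Real.sin (2 * b) := by
    apply Real.sin_le_sin_of_le_of_le_pi_div_two <;> linarith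
  have h6 : Real.sin (b - a) ≤ b - a := Real.sin_le (by linarith)
  have h7 : 0 ≤ Real.sin (b - a) :=
    Real.sin_nonneg_of_nonneg_of_le_pi (by linarith) (by linarith)
  have h8 : 1 / M ≤ (b - a) * (2 * Real.sin b * Real.cos b) := by
    rw [← h4, ← Real.sin_two_mul]
    have h9 : 0 ≤ Real.sin (2 * b) := Real.sin_nonneg_of_nonneg_of_le_pi (by linarith) (by linarith)
    calc Real.sin (b - a) * Real.sin (b + a) ≤ Real.sin (b - a) * Real.sin (2 * b) :=
          mul_le_mul_of_nonneg_left h5 h7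
      _ ≤ (b - a) * Real.sin (2 * b) := mul_le_mul_of_nonneg_right h6 h9
  rw [h3, inv_le_iff_one_le_mul₀ (by positivity)]
  rw [div_le_iff₀ hM] at h8
  nlinarith [h8]

private lemma N1_half (n : ℕ) :
    ∑ p ∈ Finset.range (n + 1),
      (Real.sqrt ((p : ℝ) * (((n * 2 + 1 : ℕ) : ℝ) - (p : ℝ))))⁻¹ ≤ Real.pi / 2 := by
  set M : ℝ := ((n * 2 + 1 : ℕ) : ℝ) with hM
  have hM0 : 0 < M := by positivity
  have hMn : M = 2 * n + 1 := by rw [hM]; push_cast; ring
  set q : ℕ → ℝ := fun p => Real.arcsin (Real.sqrt (p / M)) with hq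
  have hs : ∀ p ≤ n, Real.sin (q p) ^ 2 = p / M := by
    intro p hp
    have hp' : (p : ℝ) ≤ n := by exact_mod_cast hp
    have h0 : 0 ≤ (p : ℝ) / M := by positivity
    have h1 : (p : ℝ) / M ≤ 1 := by rw [div_le_one hM0, hMn]; linarith
    rw [hq]
    simp only
    rw [Real.sin_arcsin (by linarith [Real.sqrt_nonneg ((p : ℝ) / M)])
      (by rw [Real.sqrt_le_one]; exact h1), Real.sq_sqrt h0]
  have hq0 : ∀ p, 0 ≤ q p := fun p => Real.arcsin_nonneg.2 (Real.sqrt_nonneg _)
  have hq4 : ∀ p ≤ n, q p ≤ Real.pi / 4 := by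
    intro p hp
    have hp' : (p : ℝ) ≤ n := by exact_mod_cast hp
    have h1 : (p : ℝ) / M ≤ 1 / 2 := by
      rw [div_le_div_iff₀ hM0 (by norm_num), hMn]; linarith
    rw [hq]
    simp only
    rw [Real.arcsin_le_iff_le_sin' ⟨by linarith [Real.pi_pos], by linarith [Real.pi_pos]⟩,
      Real.sin_pi_div_four]
    rw [Real.sqrt_le_left (by positivity)]
    rw [div_pow, Real.sq_sqrt (by norm_num)]
    linarith
  have hmono : ∀ p, q p ≤ q (p + 1) := by
    intro p
    apply Real.arcsin_le_arcsin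
    apply Real.sqrt_le_sqrt
    apply div_le_div_of_nonneg_right _ hM0.le
    push_cast
    linarith
  have key : ∀ m ≤ n, ∑ p ∈ Finset.range (m + 1), (Real.sqrt ((p : ℝ) * (M - (p : ℝ))))⁻¹ ≤
      2 * q m := by
    intro m
    induction m with
    | zero =>
      intro _
      simp
      exact hq0 0
    | succ m ih =>
      intro hm
      rw [Finset.sum_range_succ]
      have hm' : ((m + 1 : ℕ) : ℝ) ≤ n := by exact_mod_cast hm
      have h1 := N1_angle M hM0 (q m) (q (m + 1)) (hq0 m) (hmono m) (hq4 _ hm) ((m + 1 : ℕ) : ℝ)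
        (by positivity)
        (by rw [hs m (by omega)]; push_cast; ring) (hs _ hm)
      linarith [ih (by omega)]
  have h1 := key n le_rfl
  linarith [hq4 n le_rfl]

private lemma N1_Z_le (n : ℕ) : N1_Z (n * 2 + 1) ≤ Real.pi := by
  rw [N1_Z_eq, show n * 2 + 1 + 1 = (n + 1) + (n + 1) by ring, Finset.sum_range_add]
  have h1 : ∑ x ∈ Finset.range (n + 1),
      (Real.sqrt (((n + 1 + x : ℕ) : ℝ) * (((n * 2 + 1 : ℕ) : ℝ) - ((n + 1 + x : ℕ) : ℝ))))⁻¹ =
      ∑ x ∈ Finset.range (n + 1),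
      (Real.sqrt ((x : ℝ) * (((n * 2 + 1 : ℕ) : ℝ) - (x : ℝ))))⁻¹ := by
    rw [← Finset.sum_range_reflect]
    refine Finset.sum_congr rfl fun x hx => ?_
    have hx' : x ≤ n := by simpa [Nat.lt_succ_iff] using hx
    have e1 : ((n + 1 + (n + 1 - 1 - x) : ℕ) : ℝ) = ((n * 2 + 1 : ℕ) : ℝ) - x := by
      rw [← Nat.cast_sub (by omega)]
      congr 1
      omega
    rw [e1]
    congr 2
    ring
  rw [h1, ← two_mul]
  have h2 := N1_half n
  linarith

private lemma N1_Z_nonneg (M : ℕ) : 0 ≤ N1_Z M := by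
  unfold N1_Z
  exact Finset.sum_nonneg fun η _ => inv_nonneg.mpr (N1_v_nonneg η)

private lemma N1_main {N : ℕ} (hN : 1 ≤ N) :
    (∑ y : Fin (N + 1) → Fin N → Bool, |(cmat N y).det|) ^ 2 ≤
      ((N + 1)! : ℝ) * (N1_Z (N + 1) ^ 2 * ((N + 1) / N)) ^ N := by
  have h := Finset.sum_sq_le_sum_mul_sum_of_sq_le_mul
    (Finset.univ : Finset (Fin (N + 1) → Fin N → Bool))
    (r := fun y => |(cmat N y).det|)
    (f := fun y => ∏ a, (N1_v (fun k => y k a))⁻¹)
    (g := fun y => (cmat N y).det ^ 2 * ∏ a, N1_v (fun k => y k a))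
    (fun y _ => Finset.prod_nonneg fun a _ => inv_nonneg.mpr (N1_v_nonneg _))
    (fun y _ => mul_nonneg (sq_nonneg _) (Finset.prod_nonneg fun a _ => N1_v_nonneg _))
    (by
      intro y _
      refine le_of_eq ?_
      rw [sq_abs]
      by_cases hc : ∃ a : Fin N, N1_v (fun k => y k a) = 0
      · obtain ⟨a, ha⟩ := hc
        rw [N1_det_const y a ha]
        simp
      · push Not at hc
        rw [Finset.prod_inv_distrib]
        have : ∏ a, N1_v (fun k => y k a) ≠ 0 := Finset.prod_ne_zero_iff.mpr fun a _ => hc a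
        field_simp)
  refine h.trans (le_of_eq ?_)
  rw [N1_second hN, N1_sum_prod (fun _ η => (N1_v η)⁻¹)]
  rw [Finset.prod_const, Finset.card_univ, Fintype.card_fin]
  change N1_Z (N + 1) ^ N * _ = _
  rw [mul_pow, mul_pow, ← pow_mul]
  ring

theorem norm_cub (n : ℕ) (hn : 1 ≤ n) :
    ∑ y : Fin (n * 2 + 1) → Fin (n * 2) → Bool, |cub (n * 2) y| ≤
      Real.pi ^ (2 * n) * Real.sqrt ((n * 2)! : ℝ) := by
  have hN : 1 ≤ n * 2 := by omega
  have h1 := N1_main hN
  have hZ := N1_Z_le n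
  have hZ0 := N1_Z_nonneg (n * 2 + 1)
  have hpi := Real.pi_pos
  have hNpos : (0 : ℝ) < ((n * 2 : ℕ) : ℝ) := by positivity
  have hfac : (N1_Z (n * 2 + 1) ^ 2 * ((((n * 2 : ℕ) : ℝ) + 1) / ((n * 2 : ℕ) : ℝ))) ^ (n * 2) ≤
      (Real.pi ^ 2) ^ (n * 2) * 3 := by
    rw [mul_pow]
    apply mul_le_mul
    · apply pow_le_pow_left₀ (by positivity)
      exact pow_le_pow_left₀ hZ0 hZ 2
    · have h2 : (((n * 2 : ℕ) : ℝ) + 1) / ((n * 2 : ℕ) : ℝ) ≤
          Real.exp (1 / ((n * 2 : ℕ) : ℝ)) := by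
        have := Real.add_one_le_exp (1 / ((n * 2 : ℕ) : ℝ))
        refine le_trans (le_of_eq ?_) this
        field_simp
        ring
      calc ((((n * 2 : ℕ) : ℝ) + 1) / ((n * 2 : ℕ) : ℝ)) ^ (n * 2)
          ≤ (Real.exp (1 / ((n * 2 : ℕ) : ℝ))) ^ (n * 2) :=
            pow_le_pow_left₀ (by positivity) h2 _
        _ = Real.exp 1 := by
            rw [← Real.exp_nat_mul]
            congr 1
            field_simp
        _ ≤ 3 := by
            have := Real.exp_one_lt_d9
            linarith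
    · positivity
    · positivity
  have h4 : (∑ y : Fin (n * 2 + 1) → Fin (n * 2) → Bool, |(cmat (n * 2) y).det|) ^ 2 ≤
      ((n * 2 + 1)! : ℝ) * ((Real.pi ^ 2) ^ (n * 2) * 3) :=
    h1.trans (mul_le_mul_of_nonneg_left hfac (by positivity))
  have h5 : ∑ y : Fin (n * 2 + 1) → Fin (n * 2) → Bool, |cub (n * 2) y| =
      (1 / (((n * 2 : ℕ) : ℝ) + 1)) *
        ∑ y : Fin (n * 2 + 1) → Fin (n * 2) → Bool, |(cmat (n * 2) y).det| := by
    rw [Finset.mul_sum]
    refine Finset.sum_congr rfl fun y _ => ?_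
    unfold cub
    rw [abs_mul, abs_of_nonneg (by positivity)]
  rw [h5]
  refine (le_abs_self _).trans (abs_le_of_sq_le_sq ?_ (by positivity))
  rw [mul_pow, mul_pow, Real.sq_sqrt (by positivity), ← pow_mul]
  have hM : (0 : ℝ) < ((n * 2 : ℕ) : ℝ) + 1 := by positivity
  calc (1 / (((n * 2 : ℕ) : ℝ) + 1)) ^ 2 *
        (∑ y : Fin (n * 2 + 1) → Fin (n * 2) → Bool, |(cmat (n * 2) y).det|) ^ 2
      ≤ (1 / (((n * 2 : ℕ) : ℝ) + 1)) ^ 2 *
          (((n * 2 + 1)! : ℝ) * ((Real.pi ^ 2) ^ (n * 2) * 3)) :=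
        mul_le_mul_of_nonneg_left h4 (by positivity)
    _ = (Real.pi ^ (2 * n * 2) * ((n * 2)! : ℝ)) * (3 / (((n * 2 : ℕ) : ℝ) + 1)) := by
        rw [Nat.factorial_succ, ← pow_mul, show 2 * (n * 2) = 2 * n * 2 by ring]
        push_cast
        field_simp
    _ ≤ Real.pi ^ (2 * n * 2) * ((n * 2)! : ℝ) := by
        apply mul_le_of_le_one_right (by positivity)
        rw [div_le_one hM]
        have : (1 : ℝ) ≤ n := by exact_mod_cast hn
        push_cast
        linarith

end SimplVol
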