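import Pool.Agent.H74.SV.Geo

/-!
# Module NM: the norm

`norm1` is a seminorm: `norm1 (c + c') ≤ norm1 c + norm1 c'` (`Finsupp.sum` over the union of the
supports), `norm1 (a • c) = |a| * norm1 c`, `norm1 (single τ a) = |a|`, so
`norm1 (cubeChain σ) ≤ ∑_y |cub y|` and
`norm1 (prodChain z) ≤ ∑_{σ ∈ piFinset s} (∏_j |z j (σ j)|) * ∑_y |cub y|
= (∏_j ∑_{τ ∈ s j} |z j τ|) * ∑_y |cub y|` (`Finset.prod_univ_sum`).
-/

set_option autoImplicit false

open scoped BigOperators Nat

namespace SimplVol

variable {n : ℕ} {Y : Fin n → Type} [∀ j, TopologicalSpace (Y j)]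

private theorem NM_eq {p : ℕ} {X : Type} [TopologicalSpace X] (c : Chain p X)
    (S : Finset (Sing p X)) (hS : c.support ⊆ S) : norm1 c = ∑ σ ∈ S, |c σ| := by
  unfold norm1
  exact Finsupp.sum_of_support_subset c hS _ (fun _ _ => abs_zero)

private theorem NM_add {p : ℕ} {X : Type} [TopologicalSpace X] (c c' : Chain p X) :
    norm1 (c + c') ≤ norm1 c + norm1 c' := by
  classical
  rw [NM_eq c (c.support ∪ c'.support) Finset.subset_union_left,
    NM_eq c' (c.support ∪ c'.support) Finset.subset_union_right,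
    NM_eq (c + c') (c.support ∪ c'.support) Finsupp.support_add, ← Finset.sum_add_distrib]
  refine Finset.sum_le_sum fun σ _ => ?_
  rw [Finsupp.add_apply]
  exact abs_add_le _ _

private theorem NM_zero {p : ℕ} {X : Type} [TopologicalSpace X] :
    norm1 (0 : Chain p X) = 0 := by
  unfold norm1
  exact Finsupp.sum_zero_index

private theorem NM_sum {p : ℕ} {X : Type} [TopologicalSpace X] {ι : Type*} (S : Finset ι)
    (c : ι → Chain p X) : norm1 (∑ i ∈ S, c i) ≤ ∑ i ∈ S, norm1 (c i) := by
  classical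
  induction S using Finset.induction_on with
  | empty => rw [Finset.sum_empty, Finset.sum_empty, NM_zero]
  | insert a S ha ih =>
    rw [Finset.sum_insert ha, Finset.sum_insert ha]
    exact (NM_add _ _).trans (by linarith)

private theorem NM_smul {p : ℕ} {X : Type} [TopologicalSpace X] (a : ℝ) (c : Chain p X) :
    norm1 (a • c) = |a| * norm1 c := by
  rw [NM_eq (a • c) c.support Finsupp.support_smul, NM_eq c c.support subset_rfl, Finset.mul_sum]
  refine Finset.sum_congr rfl fun σ _ => ?_
  rw [Finsupp.smul_apply, smul_eq_mul, abs_mul]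

private theorem NM_single {p : ℕ} {X : Type} [TopologicalSpace X] (σ : Sing p X) (a : ℝ) :
    norm1 (Finsupp.single σ a : Chain p X) = |a| := by
  unfold norm1
  exact Finsupp.sum_single_index abs_zero

theorem norm1_nonneg {p : ℕ} {X : Type} [TopologicalSpace X] (c : Chain p X) : 0 ≤ norm1 c := by
  unfold norm1
  exact Finset.sum_nonneg fun _ _ => abs_nonneg _

theorem norm1_prodChain (z : ∀ j, Chain 3 (Y j)) :
    norm1 (prodChain z) ≤
      (∑ y : Fin (n * 2 + 1) → Fin (n * 2) → Bool, |cub (n * 2) y|) * ∏ j, norm1 (z j) := by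
  have h1 : ∀ σ : ∀ j, Sing 3 (Y j), norm1 (cubeChain σ)
      ≤ ∑ y : Fin (n * 2 + 1) → Fin (n * 2) → Bool, |cub (n * 2) y| := by
    intro σ
    unfold cubeChain
    refine (NM_sum _ _).trans (le_of_eq ?_)
    exact Finset.sum_congr rfl fun y _ => NM_single _ _
  unfold prodChain
  refine (NM_sum _ _).trans ?_
  have h2 : ∏ j, norm1 (z j) = ∑ σ ∈ Fintype.piFinset fun j => (z j).support,
      ∏ j, |z j (σ j)| := by
    have h3 := Finset.prod_univ_sum (fun j => (z j).support) (fun j σ => |z j σ|)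
    rw [← h3]
    refine Finset.prod_congr rfl fun j _ => ?_
    rw [NM_eq (z j) (z j).support subset_rfl]
  rw [h2, Finset.mul_sum]
  refine Finset.sum_le_sum fun σ _ => ?_
  rw [NM_smul, Finset.abs_prod, mul_comm]
  exact mul_le_mul_of_nonneg_right (h1 σ) (Finset.prod_nonneg fun _ _ => abs_nonneg _)

end SimplVol
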