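import Pool.Agent.H74.SV.AF
import Pool.Agent.H74.SV.AR
import Pool.Agent.H74.SV.LF
import Pool.Agent.H74.SV.EV

/-!
# Module PR: the pairing of the product chain

* `vol_cell`: the `j`-th component of `cell σ y` is `σ j ∘ tri y j`. Let `τ` be a lift of `σ j`
  (`exists_lift`); by `liftVert_spec`, `liftVert (Γ j) (σ j) a = γ • τ (vertex a)`. The map
  `τ ∘ tri y j` is a lift of `σ j ∘ tri y j`, so `liftVert (Γ j) (σ j ∘ tri y j) i
  = γ' • τ (tri y j (vertex i)) = γ' • τ (vertex (ty (y i) j))` (`tri_vertex`). So with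
  `P = liftVert (Γ j) (σ j)` and `g = γ' γ⁻¹ ∈ SL(2, ℝ)`, the vertices in factor `j` are
  `g • P (ty (y i) j)`, for all `i`. By `area_smul` and `area_or3` every factor of the product in `vol`
  is `or3 (..) (..) (..) * area (P 0) (P 1) (P 2)`; `Finset.prod_mul_distrib`, pull out the constant.
* `volPair_prodChain`: `volPair` is linear (`Finsupp.sum_add_index'`, `Finsupp.sum_smul_index`, or use
  `Finsupp.linearCombination`), so it is
  `∑_{σ ∈ piFinset s} (∏_j z j (σ j)) * ∑_y cub y * ((∏_j area ..) * wvol n y)`, and `cub_wvol`,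
  `Finset.prod_univ_sum`.
-/

set_option autoImplicit false

open scoped BigOperators Nat UpperHalfPlane MatrixGroups

namespace SimplVol

theorem PR_proj_cell {n : ℕ} (Γ : Fin n → Subgroup SL(2, ℝ)) (σ : ∀ j, Sing 3 (Surf (Γ j)))
    {p : ℕ} (y : Fin p → Fin (n * 2) → Bool) (j : Fin n) :
    (proj Γ j).comp (cell σ y) = (σ j).comp (tri y j) := by
  ext t
  rfl

theorem PR_vert (Γ : Subgroup SL(2, ℝ)) (hΓ : IsSurfaceGroup Γ) {n p : ℕ}
    (σ : Sing 3 (Surf Γ)) (y : Fin p → Fin (n * 2) → Bool) (j : Fin n) :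
    ∃ g : SL(2, ℝ), ∀ i, liftVert Γ (σ.comp (tri y j)) i = g • liftVert Γ σ (ty (y i) j) := by
  obtain ⟨τ, hτ⟩ := exists_lift Γ hΓ σ
  obtain ⟨γ, hγ⟩ := liftVert_spec Γ hΓ σ τ hτ
  obtain ⟨γ', hγ'⟩ := liftVert_spec Γ hΓ (σ.comp (tri y j)) (τ.comp (tri y j)) (fun t => hτ _)
  refine ⟨(γ' : SL(2, ℝ)) * (γ : SL(2, ℝ))⁻¹, fun i => ?_⟩
  rw [hγ' i, hγ, ContinuousMap.comp_apply, tri_vertex, Subgroup.smul_def, Subgroup.smul_def,
    mul_smul, inv_smul_smul]

theorem vol_cell {n : ℕ} (Γ : Fin n → Subgroup SL(2, ℝ)) (hΓ : ∀ j, IsSurfaceGroup (Γ j))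
    (σ : ∀ j, Sing 3 (Surf (Γ j))) (y : Fin (n * 2 + 1) → Fin (n * 2) → Bool) :
    (vol n fun i j => liftVert (Γ j) ((proj Γ j).comp (cell σ y)) i) =
      (∏ j, area (liftVert (Γ j) (σ j) 0) (liftVert (Γ j) (σ j) 1) (liftVert (Γ j) (σ j) 2)) *
        wvol n y := by
  choose g hg using fun j => PR_vert (Γ j) (hΓ j) (σ j) y j
  have hx : (fun (i : Fin (n * 2 + 1)) (j : Fin n) =>
      liftVert (Γ j) ((proj Γ j).comp (cell σ y)) i) =
      fun i j => g j • liftVert (Γ j) (σ j) (ty (y i) j) := by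
    funext i j
    rw [PR_proj_cell]
    exact hg j i
  rw [hx]
  unfold vol wvol
  have h1 : ∀ a b c : Fin (n * 2 + 1), ∀ j : Fin n,
      area (g j • liftVert (Γ j) (σ j) (ty (y a) j)) (g j • liftVert (Γ j) (σ j) (ty (y b) j))
        (g j • liftVert (Γ j) (σ j) (ty (y c) j)) =
      or3 (ty (y a) j) (ty (y b) j) (ty (y c) j) *
        area (liftVert (Γ j) (σ j) 0) (liftVert (Γ j) (σ j) 1) (liftVert (Γ j) (σ j) 2) := by
    intro a b c j
    rw [area_smul, area_or3]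
  simp only [h1, Finset.prod_mul_distrib]
  rw [mul_left_comm]
  congr 1
  rw [Finset.mul_sum]
  apply Finset.sum_congr rfl
  intro π _
  ring

theorem volPair_prodChain {n : ℕ} (Γ : Fin n → Subgroup SL(2, ℝ))
    (hΓ : ∀ j, IsSurfaceGroup (Γ j)) (z : ∀ j, Chain 3 (Surf (Γ j))) :
    volPair Γ (prodChain z) = ∏ j, areaPair (Γ j) (z j) := by
  have hV : ∀ w : Chain (n * 2 + 1) (∀ j, Surf (Γ j)), volPair Γ w =
      Finsupp.linearCombination ℝ (fun σ : Sing (n * 2 + 1) (∀ j, Surf (Γ j)) =>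
        vol n fun i j => liftVert (Γ j) ((proj Γ j).comp σ) i) w := fun w => rfl
  have hc : ∀ σ : (∀ j, Sing 3 (Surf (Γ j))), volPair Γ (cubeChain σ) =
      ∏ j, area (liftVert (Γ j) (σ j) 0) (liftVert (Γ j) (σ j) 1) (liftVert (Γ j) (σ j) 2) := by
    intro σ
    rw [hV, cubeChain, map_sum]
    simp only [Finsupp.linearCombination_single, vol_cell Γ hΓ σ, smul_eq_mul]
    have h2 : ∀ y : Fin (n * 2 + 1) → Fin (n * 2) → Bool,
        cub (n * 2) y * ((∏ j, area (liftVert (Γ j) (σ j) 0) (liftVert (Γ j) (σ j) 1)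
          (liftVert (Γ j) (σ j) 2)) * wvol n y) =
        (∏ j, area (liftVert (Γ j) (σ j) 0) (liftVert (Γ j) (σ j) 1)
          (liftVert (Γ j) (σ j) 2)) * (cub (n * 2) y * wvol n y) := fun y => by ring
    simp only [h2]
    rw [← Finset.mul_sum, cub_wvol, mul_one]
  have h3 : volPair Γ (prodChain z) = ∑ σ ∈ Fintype.piFinset fun j => (z j).support,
      (∏ j, z j (σ j)) * volPair Γ (cubeChain σ) := by
    rw [hV, prodChain, map_sum]
    apply Finset.sum_congr rfl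
    intro σ _
    rw [map_smul, ← hV, smul_eq_mul]
  rw [h3]
  simp only [hc, ← Finset.prod_mul_distrib]
  rw [← Finset.prod_univ_sum (t := fun j => (z j).support) (f := fun j s => z j s *
    area (liftVert (Γ j) s 0) (liftVert (Γ j) s 1) (liftVert (Γ j) s 2))]
  rfl

end SimplVol
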