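import Pool.Agent.H74.SV.Comb

/-!
# Polynomials on the simplex: definitions

`p` vertices; `τ j i : Fin 3` is the type of the vertex `i` in the factor `j`.
-/

set_option autoImplicit false

open scoped BigOperators Nat
open MvPolynomial

namespace SimplVol

/-- The mass of the type `k`: the sum of the variables of the vertices of type `k`. -/
noncomputable def sp {p : ℕ} (τ : Fin p → Fin 3) (k : Fin 3) : MvPolynomial (Fin p) ℝ :=
  ∑ i, if τ i = k then X i else 0

/-- The linear functional `t^α ↦ α!` on polynomials in `p` variables (`∫ F(t) e^{-∑ t} dt`). -/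
noncomputable def Lf {p : ℕ} : MvPolynomial (Fin p) ℝ →ₗ[ℝ] ℝ :=
  (MvPolynomial.basisMonomials (Fin p) ℝ).constr ℝ fun α => ∏ i, ((α i)! : ℝ)

/-- The product over the factors `j` of the masses of the types `< κ j`. -/
noncomputable def Hp {n p : ℕ} (κ : Fin n → ℕ) (τ : Fin n → Fin p → Fin 3) :
    MvPolynomial (Fin p) ℝ :=
  ∏ j, ∏ l : Fin 3, if (l : ℕ) < κ j then sp (τ j) l else 1

/-- The row of the vertex `i`: `1`, and for every factor the indicators of the types `1` and `2`. -/
noncomputable def Em (n : ℕ) {p : ℕ} (τ : Fin n → Fin p → Fin 3) (i : Fin p) :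
    Fin (n * 2 + 1) → ℝ :=
  Fin.cons 1 fun c => if τ (finProdFinEquiv.symm c).1 i =
    (if (finProdFinEquiv.symm c).2 = 0 then 1 else 2) then 1 else 0

/-- The radial row: `0`, and in the factor `j` the masses of the types `1` and `2` minus the
vertex `k`. -/
noncomputable def xr (n : ℕ) {p : ℕ} (k : ℕ) (j : Fin n) (τ : Fin n → Fin p → Fin 3) :
    Fin (n * 2 + 1) → MvPolynomial (Fin p) ℝ :=
  Fin.cons 0 fun c =>
    if c = finProdFinEquiv (j, 0) then sp (τ j) 1 - (if k = 1 then ∑ i, X i else 0)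
    else if c = finProdFinEquiv (j, 1) then sp (τ j) 2 - (if k = 2 then ∑ i, X i else 0)
    else 0

/-- The matrix with first row `xr` and then the rows of the `2n` vertices. -/
noncomputable def Qm (n : ℕ) (k : ℕ) (j : Fin n) (τ : Fin n → Fin (n * 2) → Fin 3) :
    Matrix (Fin (n * 2 + 1)) (Fin (n * 2 + 1)) (MvPolynomial (Fin (n * 2)) ℝ) :=
  Matrix.of (Fin.cons (xr n k j τ) fun i c => C (Em n τ i c))

/-- The face term. -/
noncomputable def Bf (n : ℕ) (κ : Fin n → ℕ) (j : Fin n) (τ : Fin n → Fin (n * 2) → Fin 3) : ℝ :=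
  - Lf (Hp (Function.update κ j (κ j + 1)) τ * (Qm n (κ j) j τ).det)

end SimplVol
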