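import Pool.Agent.H74.SV.Pol

/-!
# Module SP: support of the face terms

Suppose the types `τ i₀` (of the factor `i₀`) are not surjective; a type `c` is missing. Then
`Bf n κ j τ = 0`:
* `i₀ = j`, `c = κ j`: the factor `sp (τ j) c` of `Hp (update κ j (κ j + 1)) τ` is `0`.
* `c ∈ {1, 2}` and (`i₀ ≠ j` or `c ≠ κ j`): the column `(i₀, c - 1)` of `Qm` is `0` (in the rows of the
  vertices because type `c` is missing, in the first row because `xr` is `0` there, resp. `sp (τ j) c = 0`).
* `c = 0` and (`i₀ ≠ j` or `κ j ≠ 0`): the first column of `Qm` is the sum of the columns `(i₀, 0)` and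
  `(i₀, 1)`: in the rows of the vertices because every type is `1` or `2`; in the first row
  `0 = 0 + 0` for `i₀ ≠ j`, and for `i₀ = j`, `κ j ∈ {1, 2}`: `s_1 + s_2 - T = 0` because `s_0 = 0`
  (`s_0 + s_1 + s_2 = T`). The determinant vanishes (`Matrix.det_eq_zero_of_column_eq_zero`,
  `Matrix.det_zero_of_column_eq` after a column operation, or `Matrix.exists_mulVec_eq_zero_iff`).
-/

set_option autoImplicit false

open scoped BigOperators Nat
open MvPolynomial

namespace SimplVol

private theorem SP_zero {p : ℕ} {τ : Fin p → Fin 3} {c : Fin 3} (h : ∀ i, τ i ≠ c) : sp τ c = 0 := by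
  unfold sp
  exact Finset.sum_eq_zero fun i _ => if_neg (h i)

private theorem SP_sum {p : ℕ} (τ : Fin p → Fin 3) : sp τ 0 + sp τ 1 + sp τ 2 = ∑ i, X i := by
  unfold sp
  rw [← Finset.sum_add_distrib, ← Finset.sum_add_distrib]
  apply Finset.sum_congr rfl
  intro i _
  have : τ i = 0 ∨ τ i = 1 ∨ τ i = 2 := by
    generalize τ i = t
    fin_cases t <;> simp
  rcases this with h | h | h <;> rw [h] <;> simp

private theorem SP_ne {n : ℕ} {i j : Fin n} (h : i ≠ j) (a b : Fin 2) :
    (finProdFinEquiv (i, a) : Fin (n * 2)) ≠ finProdFinEquiv (j, b) := fun h' =>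
  h (congrArg Prod.fst (finProdFinEquiv.injective h'))

private theorem SP_01 {n : ℕ} (i : Fin n) :
    (finProdFinEquiv (i, (1 : Fin 2)) : Fin (n * 2)) ≠ finProdFinEquiv (i, 0) := fun h' => by
  have := congrArg Prod.snd (finProdFinEquiv.injective h')
  simp at this

private theorem SP_row0 {n : ℕ} (k : ℕ) (j : Fin n) (τ : Fin n → Fin (n * 2) → Fin 3)
    (q : Fin (n * 2)) : Qm n k j τ 0 q.succ =
      if q = finProdFinEquiv (j, 0) then sp (τ j) 1 - (if k = 1 then ∑ i, X i else 0)
      else if q = finProdFinEquiv (j, 1) then sp (τ j) 2 - (if k = 2 then ∑ i, X i else 0)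
      else 0 := rfl

private theorem SP_row00 {n : ℕ} (k : ℕ) (j : Fin n) (τ : Fin n → Fin (n * 2) → Fin 3) :
    Qm n k j τ 0 0 = 0 := rfl

private theorem SP_rowi0 {n : ℕ} (k : ℕ) (j : Fin n) (τ : Fin n → Fin (n * 2) → Fin 3)
    (i : Fin (n * 2)) : Qm n k j τ i.succ 0 = 1 := by
  change C (Em n τ i 0) = 1
  have : Em n τ i 0 = 1 := rfl
  rw [this, map_one]

private theorem SP_rowi {n : ℕ} (k : ℕ) (j : Fin n) (τ : Fin n → Fin (n * 2) → Fin 3)
    (i : Fin (n * 2)) (i₀ : Fin n) (m : Fin 2) : Qm n k j τ i.succ (finProdFinEquiv (i₀, m)).succ =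
      C (if τ i₀ i = (if m = 0 then 1 else 2) then 1 else 0) := by
  change C (Em n τ i (finProdFinEquiv (i₀, m)).succ) = _
  congr 1
  unfold Em
  rw [Fin.cons_succ, Equiv.symm_apply_apply]

theorem Bf_support (n : ℕ) (κ : Fin n → ℕ) (j : Fin n) (hj : κ j < 3)
    (τ : Fin n → Fin (n * 2) → Fin 3) (i₀ : Fin n) (h : ¬ Function.Surjective (τ i₀)) :
    Bf n κ j τ = 0 := by
  have hc : ∃ c, ∀ i, τ i₀ i ≠ c := by
    by_contra hcon
    push Not at hcon
    exact h hcon
  obtain ⟨c, hc⟩ := hc
  suffices hz : Hp (Function.update κ j (κ j + 1)) τ * (Qm n (κ j) j τ).det = 0 by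
    unfold Bf
    rw [hz, map_zero, neg_zero]
  by_cases h1 : i₀ = j ∧ (c : ℕ) = κ j
  · obtain ⟨rfl, h2⟩ := h1
    have : Hp (Function.update κ i₀ (κ i₀ + 1)) τ = 0 := by
      unfold Hp
      apply Finset.prod_eq_zero (Finset.mem_univ i₀)
      apply Finset.prod_eq_zero (Finset.mem_univ c)
      rw [Function.update_self, if_pos (by omega)]
      exact SP_zero hc
    rw [this, zero_mul]
  · have hdet : (Qm n (κ j) j τ).det = 0 := by
      have hcases : c = 0 ∨ c = 1 ∨ c = 2 := by
        fin_cases c <;> simp
      rcases hcases with h0 | h0 | h0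
      · -- the type `0` is missing
        subst h0
        rw [← Matrix.exists_mulVec_eq_zero_iff]
        refine ⟨Pi.single 0 1 - Pi.single (finProdFinEquiv (i₀, (0 : Fin 2))).succ 1 -
          Pi.single (finProdFinEquiv (i₀, (1 : Fin 2))).succ 1, ?_, ?_⟩
        · intro hv
          have := congrFun hv 0
          simp [Pi.single_apply, (Fin.succ_ne_zero _).symm] at this
        · rw [Matrix.mulVec_sub, Matrix.mulVec_sub, Matrix.mulVec_single_one,
            Matrix.mulVec_single_one, Matrix.mulVec_single_one]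
          funext r
          simp only [Pi.sub_apply, Matrix.col_apply, Pi.zero_apply]
          refine Fin.cases ?_ (fun i => ?_) r
          · rw [SP_row00, SP_row0, SP_row0]
            by_cases hij : i₀ = j
            · subst hij
              have hk : κ i₀ = 1 ∨ κ i₀ = 2 := by
                have : κ i₀ ≠ 0 := fun h => h1 ⟨rfl, by simp [h]⟩
                omega
              have hs := SP_sum (τ i₀)
              rw [SP_zero hc, zero_add] at hs
              rw [if_pos rfl, if_neg (SP_01 i₀), if_pos rfl, ← hs]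
              rcases hk with hk | hk <;> rw [hk] <;> simp
            · rw [if_neg (SP_ne hij _ _), if_neg (SP_ne hij _ _), if_neg (SP_ne hij _ _),
                if_neg (SP_ne hij _ _)]
              simp
          · rw [SP_rowi0, SP_rowi, SP_rowi]
            have ht : τ i₀ i = 1 ∨ τ i₀ i = 2 := by
              have h0 := hc i
              revert h0
              generalize τ i₀ i = t
              fin_cases t <;> simp
            rcases ht with ht | ht <;> rw [ht] <;> simp
      · subst h0
        apply Matrix.det_eq_zero_of_column_eq_zero (finProdFinEquiv (i₀, (0 : Fin 2))).succ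
        intro r
        refine Fin.cases ?_ (fun i => ?_) r
        · rw [SP_row0]
          by_cases hij : i₀ = j
          · subst hij
            have hk : κ i₀ ≠ 1 := fun h => h1 ⟨rfl, by simp [h]⟩
            rw [if_pos rfl, if_neg hk, SP_zero hc, sub_zero]
          · rw [if_neg (SP_ne hij _ _), if_neg (SP_ne hij _ _)]
        · rw [SP_rowi]
          simp [hc i]
      · subst h0
        apply Matrix.det_eq_zero_of_column_eq_zero (finProdFinEquiv (i₀, (1 : Fin 2))).succ
        intro r
        refine Fin.cases ?_ (fun i => ?_) r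
        · rw [SP_row0]
          by_cases hij : i₀ = j
          · subst hij
            have hk : κ i₀ ≠ 2 := fun h => h1 ⟨rfl, by simp [h]⟩
            rw [if_neg (SP_01 i₀), if_pos rfl, if_neg hk, SP_zero hc, sub_zero]
          · rw [if_neg (SP_ne hij _ _), if_neg (SP_ne hij _ _)]
        · rw [SP_rowi]
          simp [hc i]
    rw [hdet, mul_zero]

end SimplVol
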