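import Pool.Agent.H74.SV.L1

/-!
# Module ST: Stokes' formula on the simplex

Notation: `Δ = det (Em n τ)` (`2n+1` vertices), `k = κ j < 3`, `T = ∑ X i`, `s_l = sp (τ j) l`, `x = xr n k j τ`,
`f = Hp (update κ j (κ j + 1)) τ = Hp κ τ * s_k`, `m = ∑ κ i` = degree of `Hp κ τ`.
1. `v i` = determinant of the matrix `C (Em n τ)` with row `i` replaced by `x`, i.e.
   `v = x ᵥ* adjugate (C Em)`, so `∑_i v i * C (Em n τ i c) = C Δ * x c` for all `c`. With `c = 0`:
   `∑ v i = 0`. The derivation `D = MvPolynomial.mkDerivation ℝ v` (`D (X i) = v i`) satisfies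
   `D (sp (τ j') l) = 0` for `j' ≠ j`, `D T = 0`, `D s_l = C Δ * (s_l - [l = k] T)` for `l = 0, 1, 2` (for `l = 1, 2`
   this is `x`, for `l = 0` use `s_0 = T - s_1 - s_2`).
   So `D (Hp κ τ) = k C Δ * Hp κ τ` (only the `k` factors `s_l`, `l < k`, of the factor `j` contribute), and
   `D f = C Δ * ((k + 1) f - T Hp κ τ)`.
2. `∑_i pderiv i (v i) = 2 C Δ`: `v i` is linear in `x`, `v i = ∑_c x c * adj c i` with constants `adj c i`,
   `pderiv i (x c)` for `c = (j,0)` is `[τ j i = 1] - [k = 1]`, and `∑_i adj c i * [τ j i = 1] = Δ`,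
   `∑_i adj c i = 0` for `c ≠ 0`; the same for `(j,1)`.
   So `∑_i pderiv i (f * v i) = D f + f * 2 C Δ = C Δ * ((k + 3) f - T * Hp κ τ)`.
3. By `Lf_pderiv` and `∑ v i = 0`: `Lf (∑_i pderiv i (f v i)) = - ∑_i Lf (rs i (f * v i))`. The left side is
   `Δ ((k+3) Lf f - (2n+1+m) Lf (Hp κ τ))` by `Lf_euler` (`Hp κ τ` is homogeneous of degree `∑ κ`, as all
   `κ i ≤ 3`).
4. `rs i (sp (τ j) l) = sp (τ j ∘ i.succAbove) l`, so `rs i f` is the `Hp` of the face, and
   `rs i (v i)` is the determinant of `C Em` with row `i` replaced by the `xr` of the face; moving the row `i`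
   to the top gives the sign `(-1)^i`: it is `(-1)^i * (Qm n k j (face)).det`
   (e.g. expand both along that row, `Matrix.det_succ_row`, or `Fin.cycleRange`).
-/

set_option autoImplicit false

open scoped BigOperators Nat
open MvPolynomial

namespace SimplVol

section ST

variable {p : ℕ}

/-- The derivation in the direction `v`. -/
private noncomputable def ST_D (v : Fin p → MvPolynomial (Fin p) ℝ) (F : MvPolynomial (Fin p) ℝ) :
    MvPolynomial (Fin p) ℝ := ∑ i, v i * pderiv i F

private theorem ST_D_mul (v : Fin p → MvPolynomial (Fin p) ℝ) (F G : MvPolynomial (Fin p) ℝ) :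
    ST_D v (F * G) = ST_D v F * G + F * ST_D v G := by
  simp only [ST_D, Finset.sum_mul, Finset.mul_sum, ← Finset.sum_add_distrib]
  refine Finset.sum_congr rfl fun i _ => ?_
  rw [Derivation.leibniz, smul_eq_mul, smul_eq_mul]
  ring

private theorem ST_D_one (v : Fin p → MvPolynomial (Fin p) ℝ) : ST_D v 1 = 0 := by
  simp [ST_D]

private theorem ST_D_prod {ι : Type*} (v : Fin p → MvPolynomial (Fin p) ℝ) (s : Finset ι)
    (g a : ι → MvPolynomial (Fin p) ℝ) (h : ∀ i ∈ s, ST_D v (g i) = a i * g i) :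
    ST_D v (∏ i ∈ s, g i) = (∑ i ∈ s, a i) * ∏ i ∈ s, g i := by
  classical
  induction s using Finset.induction_on with
  | empty => simp [ST_D_one]
  | insert b s hb ih =>
    rw [Finset.prod_insert hb, Finset.sum_insert hb, ST_D_mul, h b (Finset.mem_insert_self b s),
      ih fun i hi => h i (Finset.mem_insert_of_mem hi)]
    ring

private theorem ST_pd_sp (σ : Fin p → Fin 3) (l : Fin 3) (i : Fin p) :
    pderiv i (sp σ l) = C (if σ i = l then (1 : ℝ) else 0) := by
  unfold sp
  rw [map_sum, Finset.sum_eq_single i]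
  · split_ifs with h <;> simp
  · intro b _ hb
    split_ifs with h
    · exact pderiv_X_of_ne hb
    · simp
  · simp

private theorem ST_pd_T (i : Fin p) : pderiv i (∑ i', (X i' : MvPolynomial (Fin p) ℝ)) = 1 := by
  rw [map_sum, Finset.sum_eq_single i]
  · simp
  · intro b _ hb
    exact pderiv_X_of_ne hb
  · simp

private theorem ST_sp_sum (σ : Fin p → Fin 3) :
    sp σ 0 + sp σ 1 + sp σ 2 = ∑ i', (X i' : MvPolynomial (Fin p) ℝ) := by
  unfold sp
  rw [← Finset.sum_add_distrib, ← Finset.sum_add_distrib]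
  refine Finset.sum_congr rfl fun i _ => ?_
  generalize σ i = t
  fin_cases t <;> simp

private theorem ST_D_sp (v : Fin p → MvPolynomial (Fin p) ℝ) (σ : Fin p → Fin 3) (l : Fin 3) :
    ST_D v (sp σ l) = ∑ i, v i * C (if σ i = l then (1 : ℝ) else 0) := by
  simp only [ST_D, ST_pd_sp]

/-- The vector `x ᵥ* adjugate E`. -/
private noncomputable def ST_v (E : Matrix (Fin p) (Fin p) ℝ) (x : Fin p → MvPolynomial (Fin p) ℝ) :
    Fin p → MvPolynomial (Fin p) ℝ := fun i => ∑ c, x c * C (E.adjugate c i)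

private theorem ST_adj (E : Matrix (Fin p) (Fin p) ℝ) (c' c : Fin p) :
    ∑ i, E.adjugate c' i * E i c = E.det * if c' = c then 1 else 0 := by
  have := congrFun (congrFun (Matrix.adjugate_mul E) c') c
  rw [Matrix.mul_apply, Matrix.smul_apply, Matrix.one_apply, smul_eq_mul] at this
  exact this

private theorem ST_v_mul (E : Matrix (Fin p) (Fin p) ℝ) (x : Fin p → MvPolynomial (Fin p) ℝ)
    (c : Fin p) : ∑ i, ST_v E x i * C (E i c) = C E.det * x c := by
  simp only [ST_v, Finset.sum_mul]
  rw [Finset.sum_comm]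
  have h : ∀ c' : Fin p, ∑ i, x c' * C (E.adjugate c' i) * C (E i c)
      = x c' * C (E.det * if c' = c then 1 else 0) := by
    intro c'
    rw [← ST_adj E c' c, map_sum, Finset.mul_sum]
    refine Finset.sum_congr rfl fun i _ => ?_
    rw [C_mul]
    ring
  rw [Finset.sum_congr rfl fun c' _ => h c', Finset.sum_eq_single c]
  · simp [mul_comm]
  · intro b _ hb
    simp [hb]
  · simp

private theorem ST_v_det (E : Matrix (Fin p) (Fin p) ℝ) (x : Fin p → MvPolynomial (Fin p) ℝ)
    (i : Fin p) : ST_v E x i = ((E.map (C : ℝ →+* MvPolynomial (Fin p) ℝ)).updateRow i x).det := by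
  have h1 : E.map (C : ℝ →+* MvPolynomial (Fin p) ℝ) = (C : ℝ →+* MvPolynomial (Fin p) ℝ).mapMatrix E :=
    rfl
  rw [← Matrix.cramer_transpose_apply, Matrix.cramer_eq_adjugate_mulVec,
    ← Matrix.adjugate_transpose, h1, ← RingHom.map_adjugate]
  simp only [ST_v, Matrix.mulVec, dotProduct, Matrix.transpose_apply, RingHom.mapMatrix_apply,
    Matrix.map_apply]
  exact Finset.sum_congr rfl fun c _ => mul_comm _ _

/-- Moving the row `i` to the top. -/
private theorem ST_row {S : Type*} [CommRing S] {q : ℕ} (i : Fin (q + 1))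
    (M M' : Matrix (Fin (q + 1)) (Fin (q + 1)) S) (h0 : ∀ c, M' 0 c = M i c)
    (hs : ∀ l c, M' (Fin.succ l) c = M (i.succAbove l) c) :
    M.det = (-1) ^ (i : ℕ) * M'.det := by
  have h1 : M' = M.submatrix (Equiv.symm i.cycleRange) id := by
    ext r c
    rw [Matrix.submatrix_apply, id]
    refine Fin.cases ?_ (fun l => ?_) r
    · rw [Fin.cycleRange_symm_zero, h0]
    · rw [Fin.cycleRange_symm_succ, hs]
  rw [h1, Matrix.det_permute, Equiv.Perm.sign_symm, Fin.sign_cycleRange]
  push_cast
  rw [← mul_assoc, ← mul_pow]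
  simp

end ST

private theorem ST_sp_hom {p : ℕ} (σ : Fin p → Fin 3) (l : Fin 3) :
    (sp σ l).IsHomogeneous 1 := by
  unfold sp
  refine IsHomogeneous.sum _ _ _ fun i _ => ?_
  split_ifs
  · exact isHomogeneous_X _ _
  · exact isHomogeneous_zero _ _ _

private theorem ST_Hp_hom {n p : ℕ} (κ : Fin n → ℕ) (hκ : ∀ i, κ i ≤ 3)
    (τ : Fin n → Fin p → Fin 3) : (Hp κ τ).IsHomogeneous (∑ i, κ i) := by
  unfold Hp
  refine IsHomogeneous.prod _ _ _ fun j _ => ?_
  have h1 : (∑ l : Fin 3, if (l : ℕ) < κ j then 1 else 0) = κ j := by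
    have := hκ j
    generalize κ j = t at *
    interval_cases t <;> rfl
  have h2 := IsHomogeneous.prod Finset.univ
    (fun l : Fin 3 => if (l : ℕ) < κ j then sp (τ j) l else 1)
    (fun l => if (l : ℕ) < κ j then 1 else 0) (by
      intro l _
      split_ifs
      · exact ST_sp_hom _ _
      · exact isHomogeneous_one _ _)
  rwa [h1] at h2

private theorem ST_rs_sp {q : ℕ} (i : Fin (q + 1)) (σ : Fin (q + 1) → Fin 3) (l : Fin 3) :
    rs i (sp σ l) = sp (fun l' => σ (i.succAbove l')) l := by
  unfold sp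
  rw [map_sum, Fin.sum_univ_succAbove _ i]
  have h0 : rs i (if σ i = l then X i else 0) = 0 := by
    split_ifs <;> simp [rs]
  rw [h0, zero_add]
  refine Finset.sum_congr rfl fun l' _ => ?_
  split_ifs <;> simp [rs]

private theorem ST_rs_T {q : ℕ} (i : Fin (q + 1)) :
    rs i (∑ i', X i') = ∑ l, (X l : MvPolynomial (Fin q) ℝ) := by
  rw [map_sum, Fin.sum_univ_succAbove _ i]
  simp [rs]

private theorem ST_rs_Hp {n q : ℕ} (i : Fin (q + 1)) (κ : Fin n → ℕ)
    (τ : Fin n → Fin (q + 1) → Fin 3) :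
    rs i (Hp κ τ) = Hp κ (fun j l => τ j (i.succAbove l)) := by
  unfold Hp
  simp only [map_prod]
  refine Finset.prod_congr rfl fun j _ => Finset.prod_congr rfl fun l _ => ?_
  split_ifs
  · exact ST_rs_sp i (τ j) l
  · exact map_one _

private theorem ST_rs_xr {n q : ℕ} (i : Fin (q + 1)) (k : ℕ) (j : Fin n)
    (τ : Fin n → Fin (q + 1) → Fin 3) (c : Fin (n * 2 + 1)) :
    rs i (xr n k j τ c) = xr n k j (fun j' l => τ j' (i.succAbove l)) c := by
  refine Fin.cases ?_ (fun c => ?_) c
  · simp [xr]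
  · simp only [xr, Fin.cons_succ]
    split_ifs <;> simp only [map_sub, map_zero, ST_rs_sp, ST_rs_T]

private theorem ST_Hp_update {n p : ℕ} (κ : Fin n → ℕ) (j : Fin n) (hj : κ j < 3)
    (τ : Fin n → Fin p → Fin 3) :
    Hp (Function.update κ j (κ j + 1)) τ = Hp κ τ * sp (τ j) ⟨κ j, hj⟩ := by
  unfold Hp
  rw [← Finset.mul_prod_erase Finset.univ _ (Finset.mem_univ j),
    ← Finset.mul_prod_erase Finset.univ (fun j => ∏ l : Fin 3,
      if (l : ℕ) < κ j then sp (τ j) l else 1) (Finset.mem_univ j)]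
  have h1 : ∏ x ∈ Finset.univ.erase j, (∏ l : Fin 3,
      if (l : ℕ) < Function.update κ j (κ j + 1) x then sp (τ x) l else 1) =
      ∏ x ∈ Finset.univ.erase j, (∏ l : Fin 3, if (l : ℕ) < κ x then sp (τ x) l else 1) := by
    refine Finset.prod_congr rfl fun x hx => ?_
    rw [Function.update_of_ne (Finset.ne_of_mem_erase hx)]
  rw [h1, Function.update_self]
  have h2 : (∏ l : Fin 3, if (l : ℕ) < κ j + 1 then sp (τ j) l else 1) =
      (∏ l : Fin 3, if (l : ℕ) < κ j then sp (τ j) l else 1) * sp (τ j) ⟨κ j, hj⟩ := by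
    generalize κ j = t at hj
    interval_cases t <;> simp [Fin.prod_univ_three]
  rw [h2]
  ring

private theorem ST_Em_zero {n p : ℕ} (τ : Fin n → Fin p → Fin 3) (i : Fin p) :
    Em n τ i 0 = 1 := rfl

private theorem ST_Em_one {n p : ℕ} (τ : Fin n → Fin p → Fin 3) (i : Fin p) (j : Fin n) :
    Em n τ i (Fin.succ (finProdFinEquiv (j, 0))) = if τ j i = 1 then 1 else 0 := by
  simp only [Em, Fin.cons_succ, Equiv.symm_apply_apply]
  simp

private theorem ST_Em_two {n p : ℕ} (τ : Fin n → Fin p → Fin 3) (i : Fin p) (j : Fin n) :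
    Em n τ i (Fin.succ (finProdFinEquiv (j, 1))) = if τ j i = 2 then 1 else 0 := by
  simp only [Em, Fin.cons_succ, Equiv.symm_apply_apply]
  simp

private theorem ST_xr_one {n p : ℕ} (k : ℕ) (j j' : Fin n) (τ : Fin n → Fin p → Fin 3) :
    xr n k j τ (Fin.succ (finProdFinEquiv (j', 0))) =
      if j' = j then sp (τ j) 1 - (if k = 1 then ∑ i, X i else 0) else 0 := by
  simp only [xr, Fin.cons_succ, EmbeddingLike.apply_eq_iff_eq, Prod.mk.injEq]
  simp

private theorem ST_xr_two {n p : ℕ} (k : ℕ) (j j' : Fin n) (τ : Fin n → Fin p → Fin 3) :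
    xr n k j τ (Fin.succ (finProdFinEquiv (j', 1))) =
      if j' = j then sp (τ j) 2 - (if k = 2 then ∑ i, X i else 0) else 0 := by
  simp only [xr, Fin.cons_succ, EmbeddingLike.apply_eq_iff_eq, Prod.mk.injEq]
  simp


theorem stokes (n : ℕ) (τ : Fin n → Fin (n * 2 + 1) → Fin 3) (κ : Fin n → ℕ) (hκ : ∀ i, κ i ≤ 3)
    (j : Fin n) (hj : κ j < 3) :
    (Matrix.of (Em n τ)).det *
        (((κ j : ℝ) + 3) * Lf (Hp (Function.update κ j (κ j + 1)) τ) -
          ((n : ℝ) * 2 + 1 + ∑ i, (κ i : ℝ)) * Lf (Hp κ τ)) =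
      ∑ i : Fin (n * 2 + 1), (-1 : ℝ) ^ (i : ℕ) *
        Bf n κ j (fun j' l => τ j' (i.succAbove l)) := by
  set E : Matrix (Fin (n * 2 + 1)) (Fin (n * 2 + 1)) ℝ := Matrix.of (Em n τ) with hE
  set x : Fin (n * 2 + 1) → MvPolynomial (Fin (n * 2 + 1)) ℝ := xr n (κ j) j τ with hx
  set T : MvPolynomial (Fin (n * 2 + 1)) ℝ := ∑ i, X i with hT
  set f : MvPolynomial (Fin (n * 2 + 1)) ℝ := Hp (Function.update κ j (κ j + 1)) τ with hf
  set v := ST_v E x with hv
  have hcol : ∀ c, ∑ i, v i * C (E i c) = C E.det * x c := ST_v_mul E x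
  have hx0 : x 0 = 0 := rfl
  have hv0 : ∑ i, v i = 0 := by
    have h := hcol 0
    rw [hx0, mul_zero] at h
    simpa [hE, ST_Em_zero] using h
  -- the derivatives of the masses
  have hD1 : ∀ j', ST_D v (sp (τ j') 1) =
      C E.det * (if j' = j then sp (τ j) 1 - (if κ j = 1 then T else 0) else 0) := by
    intro j'
    rw [ST_D_sp, ← ST_xr_one (κ j) j j' τ, ← hcol]
    refine Finset.sum_congr rfl fun i _ => ?_
    rw [hE, Matrix.of_apply, ST_Em_one]
  have hD2 : ∀ j', ST_D v (sp (τ j') 2) =
      C E.det * (if j' = j then sp (τ j) 2 - (if κ j = 2 then T else 0) else 0) := by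
    intro j'
    rw [ST_D_sp, ← ST_xr_two (κ j) j j' τ, ← hcol]
    refine Finset.sum_congr rfl fun i _ => ?_
    rw [hE, Matrix.of_apply, ST_Em_two]
  have hD0 : ∀ j', ST_D v (sp (τ j') 0) =
      C E.det * (if j' = j then sp (τ j) 0 - (if κ j = 0 then T else 0) else 0) := by
    intro j'
    have h1 : ST_D v (sp (τ j') 0) = ∑ i, v i - ST_D v (sp (τ j') 1) - ST_D v (sp (τ j') 2) := by
      rw [ST_D_sp, ST_D_sp, ST_D_sp, ← Finset.sum_sub_distrib, ← Finset.sum_sub_distrib]
      refine Finset.sum_congr rfl fun i _ => ?_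
      generalize τ j' i = t
      fin_cases t <;> simp
    rw [h1, hv0, hD1, hD2]
    have h2 := ST_sp_sum (τ j)
    rw [← hT] at h2
    by_cases hjj : j' = j
    · simp only [if_pos hjj]
      have h3 : (if κ j = 0 then T else 0) + (if κ j = 1 then T else 0) +
          (if κ j = 2 then T else 0) = T := by
        generalize κ j = t at hj
        interval_cases t <;> simp
      linear_combination (C E.det) * h3 - (C E.det) * h2
    · simp [hjj]
  have hDsp : ∀ j' (l : Fin 3), ST_D v (sp (τ j') l) =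
      C E.det * (if j' = j then sp (τ j) l - (if κ j = (l : ℕ) then T else 0) else 0) := by
    intro j' l
    fin_cases l
    · exact hD0 j'
    · exact hD1 j'
    · exact hD2 j'
  -- the derivative of the product
  have hDH : ST_D v (Hp κ τ) = C E.det * C (κ j : ℝ) * Hp κ τ := by
    unfold Hp
    rw [ST_D_prod v Finset.univ _ (fun j' => if j' = j then C E.det * C (κ j : ℝ) else 0)]
    · simp
    · intro j' _
      rw [ST_D_prod v Finset.univ _ (fun l : Fin 3 => if j' = j ∧ (l : ℕ) < κ j then C E.det else 0)]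
      · congr 1
        by_cases hjj : j' = j
        · simp only [hjj, true_and, if_true]
          generalize κ j = t at hj
          interval_cases t
          · simp
          · simp
          · rw [Fin.sum_univ_three]
            simp only [Fin.val_zero, Fin.val_one, Fin.val_two, Nat.ofNat_pos, Nat.one_lt_ofNat,
              lt_irrefl, if_true, if_false, Nat.cast_ofNat, map_ofNat]
            ring
        · simp [hjj]
      · intro l _
        by_cases hl : (l : ℕ) < κ j'
        · rw [if_pos hl, hDsp]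
          by_cases hjj : j' = j
          · subst hjj
            rw [if_pos rfl, if_neg (by omega), if_pos ⟨rfl, hl⟩, sub_zero]
          · simp [hjj]
        · rw [if_neg hl, ST_D_one]
          by_cases hjj : j' = j
          · subst hjj
            simp [hl]
          · simp [hjj]
  have hfH : f = Hp κ τ * sp (τ j) ⟨κ j, hj⟩ := ST_Hp_update κ j hj τ
  have hDf : ST_D v f = C E.det * (C ((κ j : ℝ) + 1) * f - T * Hp κ τ) := by
    rw [hfH, ST_D_mul, hDH, hDsp]
    simp only [if_true, map_add, map_one]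
    ring
  -- the divergence of `v`
  have hpx : ∀ i c, pderiv i (x c) = C (if c = Fin.succ (finProdFinEquiv (j, 0)) then
      E i c - (if κ j = 1 then 1 else 0) * E i 0 else
      if c = Fin.succ (finProdFinEquiv (j, 1)) then E i c - (if κ j = 2 then 1 else 0) * E i 0
      else 0) := by
    intro i c
    refine Fin.cases ?_ (fun c' => ?_) c
    · rw [hx0, map_zero, if_neg (Fin.succ_ne_zero _).symm, if_neg (Fin.succ_ne_zero _).symm, map_zero]
    · obtain ⟨⟨j', b⟩, rfl⟩ := finProdFinEquiv.surjective c'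
      simp only [Fin.succ_inj, EmbeddingLike.apply_eq_iff_eq, Prod.mk.injEq, hE, Matrix.of_apply,
        ST_Em_zero]
      fin_cases b
      · by_cases hjj : j' = j
        · subst hjj
          simp only [hx, ST_xr_one, ST_Em_one, Fin.zero_eta, and_self, if_true, map_sub, ST_pd_sp,
            mul_one]
          congr 1
          split_ifs
          · rw [ST_pd_T, map_one]
          · simp
        · simp [hx, ST_xr_one, hjj]
      · by_cases hjj : j' = j
        · subst hjj
          simp only [hx, ST_xr_two, ST_Em_two, Fin.mk_one, if_true, map_sub, ST_pd_sp,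
            mul_one, and_false, one_ne_zero, if_false, and_self]
          congr 1
          split_ifs
          · rw [ST_pd_T, map_one]
          · simp
        · simp [hx, ST_xr_two, hjj]
  have hdiv : ∑ i, pderiv i (v i) = C (2 * E.det) := by
    have h1 : ∀ i, pderiv i (v i) = C (∑ c, (if c = Fin.succ (finProdFinEquiv (j, 0)) then
        E i c - (if κ j = 1 then 1 else 0) * E i 0 else
        if c = Fin.succ (finProdFinEquiv (j, 1)) then E i c - (if κ j = 2 then 1 else 0) * E i 0
        else 0) * E.adjugate c i) := by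
      intro i
      rw [hv]
      unfold ST_v
      rw [map_sum, map_sum]
      refine Finset.sum_congr rfl fun c _ => ?_
      rw [mul_comm (x c) (C (E.adjugate c i)), pderiv_C_mul, hpx, C_mul]
      exact mul_comm _ _
    rw [Finset.sum_congr rfl fun i _ => h1 i, ← map_sum, Finset.sum_comm]
    congr 1
    have h2 : ∀ c, c ≠ 0 → ∀ a : ℝ, ∑ i, (E i c - a * E i 0) * E.adjugate c i = E.det := by
      intro c hc a
      have e1 := ST_adj E c c
      have e2 := ST_adj E c 0
      rw [if_pos rfl, mul_one] at e1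
      rw [if_neg hc, mul_zero] at e2
      calc ∑ i, (E i c - a * E i 0) * E.adjugate c i
          = ∑ i, E.adjugate c i * E i c - a * ∑ i, E.adjugate c i * E i 0 := by
            rw [Finset.mul_sum, ← Finset.sum_sub_distrib]
            exact Finset.sum_congr rfl fun i _ => by ring
        _ = E.det := by rw [e1, e2]; ring
    have h3 : ∀ c, ∑ i, (if c = Fin.succ (finProdFinEquiv (j, 0)) then
        E i c - (if κ j = 1 then 1 else 0) * E i 0 else
        if c = Fin.succ (finProdFinEquiv (j, 1)) then E i c - (if κ j = 2 then 1 else 0) * E i 0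
        else 0) * E.adjugate c i = (if c = Fin.succ (finProdFinEquiv (j, 0)) then E.det else 0) +
          (if c = Fin.succ (finProdFinEquiv (j, 1)) then E.det else 0) := by
      intro c
      have hne : (Fin.succ (finProdFinEquiv (j, (0 : Fin 2))) : Fin (n * 2 + 1)) ≠
          Fin.succ (finProdFinEquiv (j, 1)) := by
        simp [Fin.succ_inj]
      by_cases c1 : c = Fin.succ (finProdFinEquiv (j, 0))
      · have c2 : c ≠ Fin.succ (finProdFinEquiv (j, 1)) := by rw [c1]; exact hne
        simp only [if_pos c1, if_neg c2, add_zero]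
        exact h2 c (by rw [c1]; exact Fin.succ_ne_zero _) _
      · by_cases c2 : c = Fin.succ (finProdFinEquiv (j, 1))
        · simp only [if_neg c1, if_pos c2, zero_add]
          exact h2 c (by rw [c2]; exact Fin.succ_ne_zero _) _
        · simp [if_neg c1, if_neg c2]
    rw [Finset.sum_congr rfl fun c _ => h3 c, Finset.sum_add_distrib]
    simp
    ring
  have hsum : ∑ i, pderiv i (f * v i) = C E.det * (C ((κ j : ℝ) + 3) * f - T * Hp κ τ) := by
    have h1 : ∑ i, pderiv i (f * v i) = f * ∑ i, pderiv i (v i) + ST_D v f := by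
      rw [ST_D, Finset.mul_sum, ← Finset.sum_add_distrib]
      refine Finset.sum_congr rfl fun i _ => ?_
      rw [Derivation.leibniz, smul_eq_mul, smul_eq_mul]
    rw [h1, hdiv, hDf]
    simp only [map_add, map_mul, map_one]
    have h3 : (C (3 : ℝ) : MvPolynomial (Fin (n * 2 + 1)) ℝ) = C 1 + C 2 := by
      rw [← map_add]; norm_num
    rw [h3, map_one]
    ring
  have hL1 : ∑ i, Lf (pderiv i (f * v i)) = - ∑ i, Lf (rs i (f * v i)) := by
    simp only [Lf_pderiv]
    rw [Finset.sum_sub_distrib, ← map_sum, ← Finset.mul_sum, hv0]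
    simp
  have hL2 : ∑ i, Lf (pderiv i (f * v i)) = E.det * (((κ j : ℝ) + 3) * Lf f -
      ((n : ℝ) * 2 + 1 + ∑ i, (κ i : ℝ)) * Lf (Hp κ τ)) := by
    rw [← map_sum, hsum, ← smul_eq_C_mul, map_smul, map_sub, ← smul_eq_C_mul, map_smul,
      Lf_euler _ (ST_Hp_hom κ hκ τ)]
    simp only [smul_eq_mul]
    push_cast
    ring
  rw [← hL2, hL1, ← Finset.sum_neg_distrib]
  refine Finset.sum_congr rfl fun i _ => ?_
  -- the face
  have hface : rs i (v i) = C ((-1 : ℝ) ^ (i : ℕ)) *
      (Qm n (κ j) j (fun j' l => τ j' (i.succAbove l))).det := by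
    rw [hv, ST_v_det, AlgHom.map_det,
      ST_row i _ (Qm n (κ j) j (fun j' l => τ j' (i.succAbove l)))]
    · simp
    · intro c
      rw [AlgHom.mapMatrix_apply, Matrix.map_apply, Matrix.updateRow_self, hx, ST_rs_xr]
      rfl
    · intro l c
      rw [AlgHom.mapMatrix_apply, Matrix.map_apply, Matrix.updateRow_ne (Fin.succAbove_ne i l),
        Matrix.map_apply, hE, Matrix.of_apply]
      simp only [Qm, Matrix.of_apply, Fin.cons_succ]
      rw [show (C (Em n τ (i.succAbove l) c) : MvPolynomial (Fin (n * 2 + 1)) ℝ) =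
        algebraMap ℝ _ (Em n τ (i.succAbove l) c) from rfl, AlgHom.commutes]
      rfl
  rw [map_mul, hface, hf, ST_rs_Hp, Bf]
  rw [show Hp (Function.update κ j (κ j + 1)) (fun j l => τ j (i.succAbove l)) *
    (C ((-1 : ℝ) ^ (i : ℕ)) * (Qm n (κ j) j (fun j' l => τ j' (i.succAbove l))).det) =
    ((-1 : ℝ) ^ (i : ℕ)) • (Hp (Function.update κ j (κ j + 1)) (fun j l => τ j (i.succAbove l)) *
      (Qm n (κ j) j (fun j' l => τ j' (i.succAbove l))).det) from by
        rw [smul_eq_C_mul]; ring, map_smul]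
  simp

end SimplVol
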