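import Pool.Agent.H74.SV.PL

/-!
# Module TR: triples of lines

* `tset_orient`: `e, f` is a basis with `D = dt e f > 0`; `u = s e + t f` with `s = dt u f / D`,
  `t = dt e u / D`. Type `0` of `u`: `s t ≥ 0`, `|s| < |t|`; type `1` of `v ≠ 0`: `s t ≥ 0`,
  `|t| ≤ |s|`, `s ≠ 0`; type `2` of `w`: `s t < 0`. Up to signs of `u, v, w` (they do not matter, every
  vector occurs twice in the product) `0 ≤ s_u < t_u`, `0 ≤ t_v ≤ s_v`, `0 < s_v`, `t_w < 0 < s_w`; then
  `dt u v = (s_u t_v - t_u s_v) D < 0`, `dt v w = (s_v t_w - t_v s_w) D < 0`,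
  `dt w u = (s_w t_u - t_w s_u) D > 0`. So the product is positive.
* `volume_tset`: if `dt u v * dt v w * dt w u > 0`: `u, v` is a basis, `w = α u + β v`, and
  `dt u v * dt v w * dt w u = α β (dt u v)³ > 0`. Put `u' = c α u`, `v' = c β v` or with
  `c` real so that `dt u' v' = c² α β dt u v = 1`. So there is `g ∈ SL(2, ℝ)` with columns `u'`, `v'`, and
  `u, v, w` are multiples of `g (1,0)`, `g (0,1)`, `g (1,1)`. Types do not change when a vector is
  multiplied by a nonzero number. `(e, f) ↦ (g e, g f)` preserves the measure, and it maps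
  `tset (1,0) (0,1) (1,1)` onto `tset u v w`.
* `std_finite`: with `e = (e₁, e₂)`, `f = (f₁, f₂)`: `dt (1,0) f = f₂`, `dt e (1,0) = - e₂`,
  `dt (0,1) f = - f₁`, `dt e (0,1) = e₁`, `dt (1,1) f = f₂ - f₁`, `dt e (1,1) = e₁ - e₂`. The conditions say:
  `e₂ f₂ ≤ 0`, `|f₂| < |e₂|`, `e₁ f₁ ≤ 0`, `|e₁| ≤ |f₁|`, `(f₂ - f₁)(e₁ - e₂) < 0`, `0 < e₁ f₂ - e₂ f₁ ≤ 1`.
  So with `a = |e₁|`, `b = |f₁|`, `c = |f₂|`, `d = |e₂|`: `a ≤ b`, `c < d`,
  `e₁ f₂ - e₂ f₁ = b d - a c` (for suitable signs, `e₁, e₂` of one sign, `f₁, f₂` of the other), `b > c`,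
  `a < d` or the opposite, which is impossible, so
  `max a c ≤ min b d` and `b d - a c ≤ 1`. If `b ≤ d`: `b (d - min a c) ≤ b d - a c ≤ 1`, so
  `min a c ≤ b ≤ d ≤ min a c + 1/b`: `a, c ∈ [b - 1/b, b]`, `d ∈ [b, b + 1/b]`. So the set is contained in
  the union of `{b ≤ 1 : a, c ∈ [0, b], d ∈ [b, b + 1/b]}`, `{b ≥ 1 : a, c ∈ [b - 1/b, b], d ∈ [b, b+1/b]}` and the
  same with `b, d` exchanged, and all sign choices: finite volume (`∫₀¹ b² b⁻¹ db + ∫₁^∞ b⁻³ db`).
* `std_pos`: the set contains a nonempty open set, e.g. a neighbourhood of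
  `e = (1/10, 1/2)`, `f = (-1/2, -1/10)`.
-/

set_option autoImplicit false

open scoped BigOperators UpperHalfPlane MatrixGroups ENNReal
open MeasureTheory

namespace SimplVol

/-- The pairs `(e, f)` for which `u`, `v`, `w` have the types `0`, `1`, `2`. -/
def tset (u v w : Pl) : Set (Pl × Pl) :=
  {p | 0 < dt p.1 p.2 ∧ dt p.1 p.2 ≤ 1 ∧ typ p.1 p.2 u = 0 ∧ typ p.1 p.2 v = 1 ∧ typ p.1 p.2 w = 2}

/-- The volume of `tset` for positively oriented lines. -/
noncomputable def m0 : ℝ := (volume (tset (1, 0) (0, 1) (1, 1))).toReal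

theorem TR_dt_cont : Continuous fun p : Pl × Pl => dt p.1 p.2 := by
  unfold dt
  fun_prop

theorem TR_dtr_cont (u : Pl) : Continuous fun p : Pl × Pl => dt u p.2 := by
  unfold dt
  fun_prop

theorem TR_dtl_cont (u : Pl) : Continuous fun p : Pl × Pl => dt p.1 u := by
  unfold dt
  fun_prop

theorem tset_measurable (u v w : Pl) : MeasurableSet (tset u v w) := by
  have h : ∀ (x : Pl) (k : Fin 3), MeasurableSet {p : Pl × Pl | typ p.1 p.2 x = k} := by
    intro x k
    have h1 : Measurable fun p : Pl × Pl => typ p.1 p.2 x :=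
      typ_measurable.comp (g := fun p : (Pl × Pl) × Pl => typ p.1.1 p.1.2 p.2)
        (f := fun p : Pl × Pl => (p, x)) (by fun_prop)
    exact h1 (measurableSet_singleton k)
  have h1 : MeasurableSet {p : Pl × Pl | 0 < dt p.1 p.2} :=
    (isOpen_lt continuous_const TR_dt_cont).measurableSet
  have h2 : MeasurableSet {p : Pl × Pl | dt p.1 p.2 ≤ 1} :=
    (isClosed_le TR_dt_cont continuous_const).measurableSet
  exact h1.inter (h2.inter ((h u 0).inter ((h v 1).inter (h w 2))))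

theorem TR_typ0 {e f u : Pl} (h : typ e f u = 0) :
    0 ≤ dt u f * dt e u ∧ |dt u f| < |dt e u| := by
  unfold typ at h
  split_ifs at h with h1 h2
  · exact absurd h (by decide)
  · exact ⟨not_lt.1 h1, h2⟩
  · exact absurd h (by decide)

theorem TR_typ1 {e f u : Pl} (h : typ e f u = 1) :
    0 ≤ dt u f * dt e u ∧ |dt e u| ≤ |dt u f| := by
  unfold typ at h
  split_ifs at h with h1 h2
  · exact absurd h (by decide)
  · exact absurd h (by decide)
  · exact ⟨not_lt.1 h1, not_lt.1 h2⟩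

theorem TR_typ2 {e f u : Pl} (h : typ e f u = 2) : dt u f * dt e u < 0 := by
  unfold typ at h
  split_ifs at h with h1 h2
  · exact h1
  · exact absurd h (by decide)
  · exact absurd h (by decide)

theorem TR_pl (e f u v : Pl) : dt u v * dt e f = dt u f * dt e v - dt e u * dt v f := by
  unfold dt
  ring

theorem tset_orient (u v w : Pl) (hv : v ≠ 0) (h : (tset u v w).Nonempty) :
    0 < dt u v * dt v w * dt w u := by
  obtain ⟨⟨e, f⟩, hD, -, hu, hv1, hw⟩ := h
  simp only at hD hu hv1 hw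
  obtain ⟨u1, u2⟩ := TR_typ0 hu
  obtain ⟨v1, v2⟩ := TR_typ1 hv1
  have w1 := TR_typ2 hw
  have htu : dt e u ≠ 0 := by
    intro h0
    rw [h0, abs_zero] at u2
    exact absurd u2 (not_lt.2 (abs_nonneg _))
  have hsv : dt v f ≠ 0 := by
    intro h0
    rw [h0, abs_zero] at v2
    have h1 : dt e v = 0 := abs_eq_zero.1 (le_antisymm v2 (abs_nonneg _))
    apply hv
    unfold dt at h0 h1 hD
    have h2 : v.1 * (e.1 * f.2 - e.2 * f.1) = 0 := by
      linear_combination e.1 * h0 + f.1 * h1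
    have h3 : v.2 * (e.1 * f.2 - e.2 * f.1) = 0 := by
      linear_combination e.2 * h0 + f.2 * h1
    exact Prod.ext ((mul_eq_zero.1 h2).resolve_right hD.ne') ((mul_eq_zero.1 h3).resolve_right hD.ne')
  have hsw : dt w f ≠ 0 := by
    intro h0
    rw [h0, zero_mul] at w1
    exact lt_irrefl _ w1
  obtain ⟨x, hx⟩ : ∃ x, dt u f = x * dt e u := ⟨dt u f / dt e u, by field_simp⟩
  obtain ⟨y, hy⟩ : ∃ y, dt e v = y * dt v f := ⟨dt e v / dt v f, by field_simp⟩
  obtain ⟨z, hz⟩ : ∃ z, dt e w = -z * dt w f := ⟨-(dt e w / dt w f), by field_simp⟩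
  have htu2 : 0 < dt e u ^ 2 := by positivity
  have hsv2 : 0 < dt v f ^ 2 := by positivity
  have hsw2 : 0 < dt w f ^ 2 := by positivity
  have hx0 : 0 ≤ x := by
    rw [hx] at u1
    have : 0 ≤ x * dt e u ^ 2 := by linarith
    exact nonneg_of_mul_nonneg_left this htu2
  have hx1 : x < 1 := by
    rw [hx, abs_mul, abs_of_nonneg hx0] at u2
    have h1 : 0 < |dt e u| := abs_pos.2 htu
    by_contra hcon
    push Not at hcon
    nlinarith
  have hy0 : 0 ≤ y := by
    rw [hy] at v1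
    have : 0 ≤ y * dt v f ^ 2 := by linarith
    exact nonneg_of_mul_nonneg_left this hsv2
  have hy1 : y ≤ 1 := by
    rw [hy, abs_mul, abs_of_nonneg hy0] at v2
    have h1 : 0 < |dt v f| := abs_pos.2 hsv
    by_contra hcon
    push Not at hcon
    nlinarith
  have hz0 : 0 < z := by
    rw [hz] at w1
    have : 0 < z * dt w f ^ 2 := by linarith
    exact (mul_pos_iff_of_pos_right hsw2).1 this
  have e1 := TR_pl e f u v
  have e2 := TR_pl e f v w
  have e3 := TR_pl e f w u
  rw [hx, hy] at e1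
  rw [hy, hz] at e2
  rw [hz, hx] at e3
  have hD3 : 0 < dt e f ^ 3 := by positivity
  have key : dt u v * dt v w * dt w u * dt e f ^ 3 =
      dt e u ^ 2 * dt v f ^ 2 * dt w f ^ 2 * ((1 - x * y) * (z + y) * (1 + z * x)) := by
    calc dt u v * dt v w * dt w u * dt e f ^ 3
        = (dt u v * dt e f) * (dt v w * dt e f) * (dt w u * dt e f) := by ring
      _ = _ := by rw [e1, e2, e3]; ring
  have hxy : 0 < 1 - x * y := by nlinarith
  have hpos : 0 < dt u v * dt v w * dt w u * dt e f ^ 3 := by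
    rw [key]
    have : 0 < z + y := by linarith
    have : 0 < 1 + z * x := by positivity
    positivity
  exact (mul_pos_iff_of_pos_right hD3).1 hpos

theorem TR_typ_smul (e f u : Pl) {c : ℝ} (hc : c ≠ 0) : typ e f (c • u) = typ e f u := by
  have h1 : dt (c • u) f = c * dt u f := by
    unfold dt
    simp only [Prod.smul_fst, Prod.smul_snd, smul_eq_mul]
    ring
  have h2 : dt e (c • u) = c * dt e u := by
    unfold dt
    simp only [Prod.smul_fst, Prod.smul_snd, smul_eq_mul]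
    ring
  have hc2 : 0 < c ^ 2 := by positivity
  have h3 : c * dt u f * (c * dt e u) < 0 ↔ dt u f * dt e u < 0 := by
    have : c * dt u f * (c * dt e u) = c ^ 2 * (dt u f * dt e u) := by ring
    rw [this]
    refine ⟨fun h => ?_, fun h => mul_neg_of_pos_of_neg hc2 h⟩
    by_contra hcon
    push Not at hcon
    have := mul_nonneg hc2.le hcon
    linarith
  have h4 : |c * dt u f| < |c * dt e u| ↔ |dt u f| < |dt e u| := by
    rw [abs_mul, abs_mul]
    exact mul_lt_mul_iff_right₀ (abs_pos.2 hc)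
  unfold typ
  rw [h1, h2]
  simp only [h3, h4]

theorem volume_tset (u v w : Pl) (h : 0 < dt u v * dt v w * dt w u) :
    volume (tset u v w) = volume (tset (1, 0) (0, 1) (1, 1)) := by
  have hd : dt u v ≠ 0 := by
    intro h0
    rw [h0, zero_mul, zero_mul] at h
    exact lt_irrefl _ h
  obtain ⟨a, ha⟩ : ∃ a, a = dt w v / dt u v := ⟨_, rfl⟩
  obtain ⟨b, hb⟩ : ∃ b, b = dt u w / dt u v := ⟨_, rfl⟩
  have hw1 : w.1 = a * u.1 + b * v.1 := by
    rw [ha, hb]
    field_simp
    unfold dt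
    ring
  have hw2 : w.2 = a * u.2 + b * v.2 := by
    rw [ha, hb]
    field_simp
    unfold dt
    ring
  have hk : 0 < a * b * dt u v := by
    have h1 : dt u v * dt v w * dt w u = (a * b * dt u v) * dt u v ^ 2 := by
      rw [ha, hb]
      field_simp
      unfold dt
      ring
    rw [h1] at h
    exact (mul_pos_iff_of_pos_right (by positivity)).1 h
  have ha0 : a ≠ 0 := by
    rintro rfl
    simp at hk
  have hb0 : b ≠ 0 := by
    rintro rfl
    simp at hk
  obtain ⟨c, hc⟩ : ∃ c, c = (Real.sqrt (a * b * dt u v))⁻¹ := ⟨_, rfl⟩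
  have hc0 : 0 < c := by
    rw [hc]
    exact inv_pos.2 (Real.sqrt_pos.2 hk)
  have hc2 : c ^ 2 * (a * b * dt u v) = 1 := by
    rw [hc, inv_pow, Real.sq_sqrt hk.le]
    exact inv_mul_cancel₀ hk.ne'
  have hdet : (!![c * a * u.1, c * b * v.1; c * a * u.2, c * b * v.2] : Matrix (Fin 2) (Fin 2) ℝ).det
      = 1 := by
    rw [Matrix.det_fin_two_of, ← hc2]
    unfold dt
    ring
  set g : SL(2, ℝ) := ⟨!![c * a * u.1, c * b * v.1; c * a * u.2, c * b * v.2], hdet⟩ with hg
  have g00 : g 0 0 = c * a * u.1 := rfl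
  have g01 : g 0 1 = c * b * v.1 := rfl
  have g10 : g 1 0 = c * a * u.2 := rfl
  have g11 : g 1 1 = c * b * v.2 := rfl
  have a1 : act g (1, 0) = (c * a) • u := by
    unfold act
    rw [g00, g01, g10, g11]
    ext <;> simp
  have a2 : act g (0, 1) = (c * b) • v := by
    unfold act
    rw [g00, g01, g10, g11]
    ext <;> simp
  have a3 : act g (1, 1) = c • w := by
    unfold act
    rw [g00, g01, g10, g11]
    ext
    · simp only [Prod.smul_fst, smul_eq_mul]
      rw [hw1]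
      ring
    · simp only [Prod.smul_snd, smul_eq_mul]
      rw [hw2]
      ring
  have hmp : MeasurePreserving (Prod.map (act g) (act g)) (volume : Measure (Pl × Pl)) volume :=
    (act_preserving g).prod (act_preserving g)
  have hpre : Prod.map (act g) (act g) ⁻¹' tset u v w = tset (1, 0) (0, 1) (1, 1) := by
    ext ⟨e, f⟩
    simp only [tset, Set.mem_preimage, Set.mem_ofPred_eq, Prod.map_apply]
    rw [dt_act, ← TR_typ_smul (act g e) (act g f) u (mul_ne_zero hc0.ne' ha0),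
      ← TR_typ_smul (act g e) (act g f) v (mul_ne_zero hc0.ne' hb0),
      ← TR_typ_smul (act g e) (act g f) w hc0.ne', ← a1, ← a2, ← a3, typ_act, typ_act, typ_act]
  rw [← hpre, hmp.measure_preimage (tset_measurable u v w).nullMeasurableSet]

/-- the length function `min b (1/b)` -/
noncomputable def TR_m (b : ℝ) : ℝ := b - max 0 (b - 1 / b)

/-- the model set -/
def TR_T : Set (Pl × Pl) :=
  {p | 0 < p.1.2 ∧ (max 0 (p.1.2 - 1 / p.1.2) ≤ p.1.1 ∧ p.1.1 ≤ p.1.2) ∧
    (max 0 (p.1.2 - 1 / p.1.2) ≤ p.2.1 ∧ p.2.1 ≤ p.1.2) ∧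
    (p.1.2 ≤ p.2.2 ∧ p.2.2 ≤ p.1.2 + 1 / p.1.2)}

theorem TR_T_meas : MeasurableSet TR_T := by
  have h1 : Measurable fun p : Pl × Pl => p.1.2 := by fun_prop
  have h2 : Measurable fun p : Pl × Pl => max 0 (p.1.2 - 1 / p.1.2) :=
    measurable_const.max (h1.sub (measurable_const.div h1))
  have h3 : Measurable fun p : Pl × Pl => p.1.1 := by fun_prop
  have h4 : Measurable fun p : Pl × Pl => p.2.1 := by fun_prop
  have h5 : Measurable fun p : Pl × Pl => p.2.2 := by fun_prop
  have h6 : Measurable fun p : Pl × Pl => p.1.2 + 1 / p.1.2 := h1.add (measurable_const.div h1)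
  exact (measurableSet_lt measurable_const h1).inter
    (((measurableSet_le h2 h3).inter (measurableSet_le h3 h1)).inter
      (((measurableSet_le h2 h4).inter (measurableSet_le h4 h1)).inter
        ((measurableSet_le h1 h5).inter (measurableSet_le h5 h6))))

/-- the base of the model set -/
def TR_B : Set Pl := {p | 0 < p.2 ∧ (max 0 (p.2 - 1 / p.2) ≤ p.1 ∧ p.1 ≤ p.2)}

theorem TR_B_meas : MeasurableSet TR_B := by
  have h1 : Measurable fun p : Pl => p.2 := by fun_prop
  have h2 : Measurable fun p : Pl => max 0 (p.2 - 1 / p.2) :=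
    measurable_const.max (h1.sub (measurable_const.div h1))
  have h3 : Measurable fun p : Pl => p.1 := by fun_prop
  exact (measurableSet_lt measurable_const h1).inter
    ((measurableSet_le h2 h3).inter (measurableSet_le h3 h1))

theorem TR_m_meas : Measurable TR_m := by
  unfold TR_m
  exact measurable_id.sub (measurable_const.max (measurable_id.sub (measurable_const.div measurable_id)))

theorem TR_m_bound {b : ℝ} (hb : 0 < b) : TR_m b ≤ b ∧ TR_m b ≤ 1 / b ∧ 0 ≤ TR_m b := by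
  unfold TR_m
  have h0 : 0 < 1 / b := by positivity
  refine ⟨?_, ?_, ?_⟩
  · have := le_max_left 0 (b - 1 / b)
    linarith
  · have := le_max_right 0 (b - 1 / b)
    linarith
  · have : max 0 (b - 1 / b) ≤ b := max_le hb.le (by linarith)
    linarith

theorem TR_T_vol : volume TR_T ≤
    ∫⁻ b in Set.Ioi (0 : ℝ), ENNReal.ofReal (TR_m b) * (ENNReal.ofReal (TR_m b) *
      ENNReal.ofReal (1 / b)) := by
  have hF : Measurable fun p : Pl => ENNReal.ofReal (TR_m p.2) * ENNReal.ofReal (1 / p.2) := by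
    have h1 : Measurable fun p : Pl => TR_m p.2 := TR_m_meas.comp measurable_snd
    have h2 : Measurable fun p : Pl => 1 / p.2 := measurable_const.div measurable_snd
    exact h1.ennreal_ofReal.mul h2.ennreal_ofReal
  have h1 : volume TR_T = ∫⁻ p : Pl, volume (Prod.mk p ⁻¹' TR_T) :=
    Measure.prod_apply TR_T_meas
  have h2 : ∀ p : Pl, volume (Prod.mk p ⁻¹' TR_T) ≤
      TR_B.indicator (fun p : Pl => ENNReal.ofReal (TR_m p.2) * ENNReal.ofReal (1 / p.2)) p := by
    intro p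
    by_cases hp : p ∈ TR_B
    · rw [Set.indicator_of_mem hp]
      have h3 : Prod.mk p ⁻¹' TR_T ⊆
          Set.Icc (max 0 (p.2 - 1 / p.2)) p.2 ×ˢ Set.Icc p.2 (p.2 + 1 / p.2) := by
        intro q hq
        exact ⟨hq.2.2.1, hq.2.2.2⟩
      refine (measure_mono h3).trans ?_
      have h4 : volume (Set.Icc (max 0 (p.2 - 1 / p.2)) p.2 ×ˢ Set.Icc p.2 (p.2 + 1 / p.2) : Set Pl) =
          volume (Set.Icc (max 0 (p.2 - 1 / p.2)) p.2) * volume (Set.Icc p.2 (p.2 + 1 / p.2)) :=
        Measure.prod_prod _ _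
      rw [h4, Real.volume_Icc, Real.volume_Icc, add_sub_cancel_left]
      exact le_rfl
    · rw [Set.indicator_of_notMem hp]
      have h3 : Prod.mk p ⁻¹' TR_T = ∅ := by
        rw [Set.eq_empty_iff_forall_notMem]
        intro q hq
        exact hp ⟨hq.1, hq.2.1⟩
      rw [h3, measure_empty]
  have h3 : ∫⁻ p : Pl, TR_B.indicator (fun p : Pl => ENNReal.ofReal (TR_m p.2) *
      ENNReal.ofReal (1 / p.2)) p = ∫⁻ b : ℝ, ∫⁻ a : ℝ, TR_B.indicator (fun p : Pl =>
        ENNReal.ofReal (TR_m p.2) * ENNReal.ofReal (1 / p.2)) (a, b) := by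
    exact lintegral_prod_symm _ (hF.indicator TR_B_meas).aemeasurable
  rw [h1]
  refine (lintegral_mono h2).trans ?_
  rw [h3, ← lintegral_indicator measurableSet_Ioi]
  refine lintegral_mono fun b => ?_
  by_cases hb : 0 < b
  · rw [Set.indicator_of_mem (show b ∈ Set.Ioi (0 : ℝ) from hb)]
    have h4 : ∀ a : ℝ, TR_B.indicator (fun p : Pl =>
        ENNReal.ofReal (TR_m p.2) * ENNReal.ofReal (1 / p.2)) (a, b) ≤
        (Set.Icc (max 0 (b - 1 / b)) b).indicator
          (fun _ => ENNReal.ofReal (TR_m b) * ENNReal.ofReal (1 / b)) a := by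
      intro a
      by_cases ha : (a, b) ∈ TR_B
      · rw [Set.indicator_of_mem ha, Set.indicator_of_mem (show a ∈ Set.Icc _ _ from ha.2)]
      · rw [Set.indicator_of_notMem ha]
        exact bot_le
    refine (lintegral_mono h4).trans ?_
    rw [lintegral_indicator measurableSet_Icc, setLIntegral_const, Real.volume_Icc, mul_comm]
    exact le_rfl
  · rw [Set.indicator_of_notMem (show b ∉ Set.Ioi (0 : ℝ) from hb)]
    have h4 : ∀ a : ℝ, TR_B.indicator (fun p : Pl =>
        ENNReal.ofReal (TR_m p.2) * ENNReal.ofReal (1 / p.2)) (a, b) = 0 := by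
      intro a
      rw [Set.indicator_of_notMem]
      intro ha
      exact hb ha.1
    simp only [h4]
    simp

theorem TR_T_fin : volume TR_T ≠ ⊤ := by
  refine ne_top_of_le_ne_top ?_ TR_T_vol
  have h1 : Set.Ioi (0 : ℝ) = Set.Ioc 0 1 ∪ Set.Ioi 1 := (Set.Ioc_union_Ioi_eq_Ioi zero_le_one).symm
  rw [h1]
  refine ne_top_of_le_ne_top ?_ (lintegral_union_le _ _ _)
  refine ENNReal.add_ne_top.2 ⟨?_, ?_⟩
  · have h2 : ∫⁻ b in Set.Ioc (0 : ℝ) 1, ENNReal.ofReal (TR_m b) * (ENNReal.ofReal (TR_m b) *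
        ENNReal.ofReal (1 / b)) ≤ ∫⁻ b in Set.Ioc (0 : ℝ) 1, 1 := by
      refine setLIntegral_mono' measurableSet_Ioc fun b hb => ?_
      obtain ⟨m1, m2, m3⟩ := TR_m_bound hb.1
      rw [← ENNReal.ofReal_mul m3, ← ENNReal.ofReal_mul m3, ENNReal.ofReal_le_one]
      have hb0 := hb.1
      have hb1 := hb.2
      calc TR_m b * (TR_m b * (1 / b)) ≤ b * (b * (1 / b)) := by gcongr
        _ = b := by field_simp
        _ ≤ 1 := hb1
    refine ne_top_of_le_ne_top ?_ h2
    rw [setLIntegral_const, Real.volume_Ioc]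
    simp
  · have h2 : ∫⁻ b in Set.Ioi (1 : ℝ), ENNReal.ofReal (TR_m b) * (ENNReal.ofReal (TR_m b) *
        ENNReal.ofReal (1 / b)) ≤ ∫⁻ b in Set.Ioi (1 : ℝ), ENNReal.ofReal (b ^ (-3 : ℝ)) := by
      refine setLIntegral_mono' measurableSet_Ioi fun b hb => ?_
      have hb0 : 0 < b := lt_trans zero_lt_one hb
      obtain ⟨m1, m2, m3⟩ := TR_m_bound hb0
      rw [← ENNReal.ofReal_mul m3, ← ENNReal.ofReal_mul m3]
      refine ENNReal.ofReal_le_ofReal ?_
      have h3 : b ^ (-3 : ℝ) = 1 / b * (1 / b * (1 / b)) := by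
        rw [show (-3 : ℝ) = ((-3 : ℤ) : ℝ) by norm_num, Real.rpow_intCast]
        rw [zpow_neg]
        norm_num
        field_simp
      rw [h3]
      gcongr
    refine ne_top_of_le_ne_top ?_ h2
    have h3 : IntegrableOn (fun b : ℝ => b ^ (-3 : ℝ)) (Set.Ioi 1) :=
      integrableOn_Ioi_rpow_of_lt (by norm_num) zero_lt_one
    exact h3.lintegral_lt_top.ne

theorem TR_alg {a b c d : ℝ} (ha : 0 ≤ a) (hc : 0 ≤ c) (hb : 0 < b) (hab : a ≤ b)
    (hcb : c ≤ b) (hbd : b ≤ d) (h : b * d - a * c ≤ 1) :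
    (max 0 (b - 1 / b) ≤ a ∧ a ≤ b) ∧ (max 0 (b - 1 / b) ≤ c ∧ c ≤ b) ∧
      (b ≤ d ∧ d ≤ b + 1 / b) := by
  have h1 : a * c ≤ a * b := by gcongr
  have h2 : a * c ≤ b * c := by gcongr
  have e1 : b * (d - a) ≤ 1 := by nlinarith
  have e2 : b * (d - c) ≤ 1 := by nlinarith
  have f1 : d - a ≤ 1 / b := by
    rw [le_div_iff₀ hb]
    linarith
  have f2 : d - c ≤ 1 / b := by
    rw [le_div_iff₀ hb]
    linarith
  refine ⟨⟨max_le ha (by linarith), hab⟩, ⟨max_le hc (by linarith), hcb⟩, hbd, by linarith⟩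

/-- the two normal forms -/
theorem TR_case {e1 e2 f1 f2 : ℝ} (he2 : 0 < e2) (hD : 0 < e1 * f2 - e2 * f1)
    (hD1 : e1 * f2 - e2 * f1 ≤ 1) (u1 : 0 ≤ f2 * (-e2)) (u2 : |f2| < |-e2|)
    (v1 : 0 ≤ -f1 * e1) (v2 : |e1| ≤ |-f1|) (w1 : (f2 - f1) * (e1 - e2) < 0) :
    ((-f2, -f1), (e1, e2)) ∈ TR_T ∨ ((e1, e2), (-f2, -f1)) ∈ TR_T := by
  have hf2 : f2 ≤ 0 := by
    by_contra hcon
    push Not at hcon
    nlinarith
  rw [abs_neg, abs_of_pos he2, abs_of_nonpos hf2] at u2
  have hf1 : f1 < 0 := by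
    by_contra hcon
    push Not at hcon
    rcases hcon.eq_or_lt with h0 | h0
    · rw [← h0, neg_zero, abs_zero] at v2
      have : e1 = 0 := abs_eq_zero.1 (le_antisymm v2 (abs_nonneg _))
      rw [this, ← h0] at hD
      simp at hD
    · have he1 : e1 ≤ 0 := by
        by_contra hc
        push Not at hc
        nlinarith
      rw [abs_neg, abs_of_pos h0, abs_of_nonpos he1] at v2
      nlinarith
  have he1 : 0 ≤ e1 := by
    by_contra hc
    push Not at hc
    nlinarith
  rw [abs_neg, abs_of_neg hf1, abs_of_nonneg he1] at v2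
  -- a = e1, b = -f1, c = -f2, d = e2
  have hcb : -f2 < -f1 := by
    by_contra hc
    push Not at hc
    have h1 : 0 ≤ f1 - f2 := by linarith
    have h2 : e1 - e2 ≤ 0 := by linarith
    nlinarith
  have had : e1 < e2 := by
    by_contra hc
    push Not at hc
    nlinarith
  rcases le_total (-f1) e2 with h | h
  · left
    obtain ⟨h1, h2, h3⟩ := TR_alg (a := e1) (b := -f1) (c := -f2) (d := e2) he1 (by linarith)
      (by linarith) v2 hcb.le h (by nlinarith)
    exact ⟨by simp only; linarith, h2, h1, h3⟩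
  · right
    obtain ⟨h1, h2, h3⟩ := TR_alg (a := e1) (b := e2) (c := -f2) (d := -f1) he1 (by linarith)
      he2 had.le u2.le h (by nlinarith)
    exact ⟨he2, h1, h2, h3⟩

theorem TR_mp1 : MeasurePreserving (fun f : Pl => -f.swap) (volume : Measure Pl) volume :=
  (Measure.measurePreserving_neg (volume : Measure Pl)).comp
    (Measure.measurePreserving_swap (μ := (volume : Measure ℝ)) (ν := volume))

theorem TR_mp2 : MeasurePreserving (fun p : Pl × Pl => (p.1, -p.2.swap))
    (volume : Measure (Pl × Pl)) volume :=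
  (MeasurePreserving.id (volume : Measure Pl)).prod TR_mp1

theorem TR_mp3 : MeasurePreserving (fun p : Pl × Pl => (-p.2.swap, p.1))
    (volume : Measure (Pl × Pl)) volume :=
  (Measure.measurePreserving_swap (μ := (volume : Measure Pl)) (ν := volume)).comp TR_mp2

theorem TR_mp4 : MeasurePreserving (fun p : Pl × Pl => -p)
    (volume : Measure (Pl × Pl)) volume :=
  (Measure.measurePreserving_neg (volume : Measure Pl)).prod
    (Measure.measurePreserving_neg (volume : Measure Pl))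

theorem std_finite : volume (tset (1, 0) (0, 1) (1, 1)) ≠ ⊤ := by
  have hsub : tset (1, 0) (0, 1) (1, 1) ⊆
      ((fun p : Pl × Pl => (-p.2.swap, p.1)) ⁻¹' TR_T ∪ (fun p : Pl × Pl => (p.1, -p.2.swap)) ⁻¹' TR_T) ∪
      ((fun p : Pl × Pl => -p) ⁻¹' ((fun p : Pl × Pl => (-p.2.swap, p.1)) ⁻¹' TR_T) ∪
        (fun p : Pl × Pl => -p) ⁻¹' ((fun p : Pl × Pl => (p.1, -p.2.swap)) ⁻¹' TR_T)) := by
    rintro ⟨⟨e1, e2⟩, ⟨f1, f2⟩⟩ ⟨hD, hD1, hu, hv, hw⟩
    obtain ⟨u1, u2⟩ := TR_typ0 hu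
    obtain ⟨v1, v2⟩ := TR_typ1 hv
    have w1 := TR_typ2 hw
    simp only [dt] at hD hD1 u1 u2 v1 v2 w1
    simp only [one_mul, zero_mul, mul_one, mul_zero, sub_zero, zero_sub] at u1 u2 v1 v2 w1
    rcases lt_trichotomy e2 0 with h | h | h
    · right
      have := TR_case (e1 := -e1) (e2 := -e2) (f1 := -f1) (f2 := -f2) (by linarith) (by linarith)
        (by linarith) (by linarith) (by rwa [abs_neg f2, abs_neg (-e2)])
        (by linarith) (by rwa [abs_neg e1, abs_neg (-f1)]) (by linarith)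
      rcases this with h1 | h1
      · left
        exact h1
      · right
        exact h1
    · rw [h, neg_zero, abs_zero] at u2
      exact absurd u2 (not_lt.2 (abs_nonneg _))
    · left
      exact TR_case h hD hD1 u1 u2 v1 v2 w1
  refine ne_top_of_le_ne_top ?_ (measure_mono hsub)
  refine ne_top_of_le_ne_top ?_ (measure_union_le _ _)
  have h1 := TR_mp3.measure_preimage TR_T_meas.nullMeasurableSet
  have h2 := TR_mp2.measure_preimage TR_T_meas.nullMeasurableSet
  have m1 := TR_mp3.measurable TR_T_meas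
  have m2 := TR_mp2.measurable TR_T_meas
  refine ENNReal.add_ne_top.2 ⟨?_, ?_⟩
  · refine ne_top_of_le_ne_top ?_ (measure_union_le _ _)
    rw [h1, h2]
    exact ENNReal.add_ne_top.2 ⟨TR_T_fin, TR_T_fin⟩
  · refine ne_top_of_le_ne_top ?_ (measure_union_le _ _)
    rw [TR_mp4.measure_preimage m1.nullMeasurableSet, TR_mp4.measure_preimage m2.nullMeasurableSet,
      h1, h2]
    exact ENNReal.add_ne_top.2 ⟨TR_T_fin, TR_T_fin⟩

theorem std_pos : 0 < volume (tset (1, 0) (0, 1) (1, 1)) := by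
  have hO : ∀ u v w : Pl, IsOpen {p : Pl × Pl | (0 < dt p.1 p.2 ∧ dt p.1 p.2 < 1) ∧
      (0 < dt u p.2 * dt p.1 u ∧ |dt u p.2| < |dt p.1 u|) ∧
      (0 < dt v p.2 * dt p.1 v ∧ |dt p.1 v| < |dt v p.2|) ∧ dt w p.2 * dt p.1 w < 0} := by
    intro u v w
    have c1 := TR_dt_cont
    have a1 := TR_dtr_cont
    have a2 := TR_dtl_cont
    exact ((isOpen_lt continuous_const c1).inter (isOpen_lt c1 continuous_const)).inter
      (((isOpen_lt continuous_const ((a1 u).mul (a2 u))).inter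
        (isOpen_lt (a1 u).abs (a2 u).abs)).inter
      (((isOpen_lt continuous_const ((a1 v).mul (a2 v))).inter
        (isOpen_lt (a2 v).abs (a1 v).abs)).inter
        (isOpen_lt ((a1 w).mul (a2 w)) continuous_const)))
  have hne : (((1 / 10, 1 / 2), (-1 / 2, -1 / 10)) : Pl × Pl) ∈
      {p : Pl × Pl | (0 < dt p.1 p.2 ∧ dt p.1 p.2 < 1) ∧
      (0 < dt (1, 0) p.2 * dt p.1 (1, 0) ∧ |dt (1, 0) p.2| < |dt p.1 (1, 0)|) ∧
      (0 < dt (0, 1) p.2 * dt p.1 (0, 1) ∧ |dt p.1 (0, 1)| < |dt (0, 1) p.2|) ∧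
        dt (1, 1) p.2 * dt p.1 (1, 1) < 0} := by
    simp only [Set.mem_ofPred_eq, dt]
    norm_num
  refine lt_of_lt_of_le ((hO (1, 0) (0, 1) (1, 1)).measure_pos volume ⟨_, hne⟩) (measure_mono ?_)
  rintro ⟨e, f⟩ ⟨⟨h1, h2⟩, ⟨h3, h4⟩, ⟨h5, h6⟩, h7⟩
  refine ⟨h1, h2.le, ?_, ?_, ?_⟩
  · unfold typ
    rw [if_neg (not_lt.2 h3.le), if_pos h4]
  · unfold typ
    rw [if_neg (not_lt.2 h5.le), if_neg (not_lt.2 h6.le)]
  · unfold typ
    rw [if_pos h7]

end SimplVol
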