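import Pool.Agent.H74.SV.CY
import Pool.Agent.H74.SV.NM
import Pool.Agent.H74.SV.PR
import Pool.Agent.H74.SV.N1

/-!
# Module UB: the upper bound

* `surfRatio_ge`: `1 = areaPair z ≤ ∑ |a| |area ..| ≤ π norm1 z` (`abs_area_lt`).
* `normRatio_le`: `C = π^(2n) √((2n)!)`. For cycles `z j` with `areaPair (z j) = 1`, `prodChain z` is a
  cycle (`boundary_prodChain`) with `volPair = 1` (`volPair_prodChain`) and norm
  `≤ C ∏_j norm1 (z j)` (`norm1_prodChain`, `norm_cub`), so
  `normRatio Γ ≤ ofReal C * ∏_j ofReal (norm1 (z j))`. Now take infima: all `surfRatio (Γ j)` are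
  `≥ 1/π > 0`. If one of them is `⊤`, the product is `⊤` (and `C > 0`). Otherwise for every `ε > 0`
  choose `z j` with `ofReal (norm1 (z j)) ≤ surfRatio (Γ j) + ε` (or `≤ (1 + ε) * surfRatio (Γ j)`),
  and let `ε → 0` (`ENNReal` products of finite limits, or `ENNReal.le_of_forall_pos_le_add`, or
  `(1 + ε)^n → 1`).
-/

set_option autoImplicit false

open scoped BigOperators Nat UpperHalfPlane MatrixGroups ENNReal

namespace SimplVol

theorem surfRatio_ge (Γ : Subgroup SL(2, ℝ)) : ENNReal.ofReal (1 / Real.pi) ≤ surfRatio Γ := by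
  unfold surfRatio
  refine le_iInf fun z => le_iInf fun _ => le_iInf fun hz => ENNReal.ofReal_le_ofReal ?_
  rw [div_le_iff₀ Real.pi_pos]
  have h1 : areaPair Γ z ≤ norm1 z * Real.pi := by
    unfold areaPair norm1 Finsupp.sum
    rw [Finset.sum_mul]
    refine Finset.sum_le_sum fun σ _ => ?_
    refine (le_abs_self _).trans ?_
    rw [abs_mul]
    exact mul_le_mul_of_nonneg_left (abs_area_lt _ _ _).le (abs_nonneg _)
  rw [hz] at h1
  exact h1

private theorem UB_one {n : ℕ} (hn : 1 ≤ n) (Γ : Fin n → Subgroup SL(2, ℝ))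
    (hΓ : ∀ j, IsSurfaceGroup (Γ j)) (z : ∀ j, Chain 3 (Surf (Γ j)))
    (hz : ∀ j, boundary 2 _ (z j) = 0) (hz1 : ∀ j, areaPair (Γ j) (z j) = 1) :
    normRatio Γ ≤ ENNReal.ofReal (Real.pi ^ (2 * n) * Real.sqrt ((n * 2)! : ℝ)) *
      ∏ j, ENNReal.ofReal (norm1 (z j)) := by
  have h1 : volPair Γ (prodChain z) = 1 := by
    rw [volPair_prodChain Γ hΓ z]
    exact Finset.prod_eq_one fun j _ => hz1 j
  have h2 : normRatio Γ ≤ ENNReal.ofReal (norm1 (prodChain z)) := by
    unfold normRatio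
    exact (iInf_le _ (prodChain z)).trans ((iInf_le _ (boundary_prodChain hn z hz)).trans
      (iInf_le _ h1))
  refine h2.trans ?_
  rw [← ENNReal.ofReal_prod_of_nonneg fun j _ => norm1_nonneg (z j),
    ← ENNReal.ofReal_mul (by positivity)]
  refine ENNReal.ofReal_le_ofReal ((norm1_prodChain z).trans ?_)
  exact mul_le_mul_of_nonneg_right (norm_cub n hn)
    (Finset.prod_nonneg fun j _ => norm1_nonneg (z j))

theorem normRatio_le {n : ℕ} (hn : 1 ≤ n) (Γ : Fin n → Subgroup SL(2, ℝ))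
    (hΓ : ∀ j, IsSurfaceGroup (Γ j)) :
    normRatio Γ ≤ ENNReal.ofReal (Real.pi ^ (2 * n) * Real.sqrt ((n * 2)! : ℝ)) * ∏ j, surfRatio (Γ j) := by
  have hC : 0 < Real.pi ^ (2 * n) * Real.sqrt ((n * 2)! : ℝ) := by
    have : 0 < ((n * 2)! : ℝ) := by exact_mod_cast Nat.factorial_pos _
    positivity
  have hC' : ENNReal.ofReal (Real.pi ^ (2 * n) * Real.sqrt ((n * 2)! : ℝ)) ≠ 0 := by
    rw [ne_eq, ENNReal.ofReal_eq_zero, not_le]
    exact hC
  have hpos : ∀ j, surfRatio (Γ j) ≠ 0 := by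
    intro j h
    have h1 := surfRatio_ge (Γ j)
    rw [h, nonpos_iff_eq_zero, ENNReal.ofReal_eq_zero] at h1
    have : 0 < 1 / Real.pi := by positivity
    linarith
  by_cases htop : ∃ j, surfRatio (Γ j) = ⊤
  · obtain ⟨j, hj⟩ := htop
    have h1 : ∏ j, surfRatio (Γ j) = ⊤ := by
      rw [← Finset.mul_prod_erase _ _ (Finset.mem_univ j), hj]
      refine ENNReal.top_mul ?_
      rw [Finset.prod_ne_zero_iff]
      exact fun i _ => hpos i
    rw [h1, ENNReal.mul_top hC']
    exact le_top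
  · push Not at htop
    have key : ∀ t : ℝ≥0∞, 1 < t → normRatio Γ ≤
        ENNReal.ofReal (Real.pi ^ (2 * n) * Real.sqrt ((n * 2)! : ℝ)) * ((∏ j, surfRatio (Γ j)) * t ^ n) := by
      intro t ht
      have hz : ∀ j, ∃ z : Chain 3 (Surf (Γ j)), boundary 2 _ z = 0 ∧ areaPair (Γ j) z = 1 ∧
          ENNReal.ofReal (norm1 z) < surfRatio (Γ j) * t := by
        intro j
        have h1 : surfRatio (Γ j) < surfRatio (Γ j) * t := by
          calc surfRatio (Γ j) = surfRatio (Γ j) * 1 := (mul_one _).symm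
            _ < surfRatio (Γ j) * t := by
              rw [ENNReal.mul_lt_mul_iff_right (hpos j) (htop j)]
              exact ht
        rw [show surfRatio (Γ j) = ⨅ (z : Chain 3 (Surf (Γ j))) (_ : boundary 2 _ z = 0)
          (_ : areaPair (Γ j) z = 1), ENNReal.ofReal (norm1 z) from rfl] at h1
        rw [iInf_lt_iff] at h1
        obtain ⟨z, h1⟩ := h1
        rw [iInf_lt_iff] at h1
        obtain ⟨h2, h1⟩ := h1
        rw [iInf_lt_iff] at h1
        obtain ⟨h3, h1⟩ := h1
        exact ⟨z, h2, h3, h1⟩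
      choose z hz1 hz2 hz3 using hz
      refine (UB_one hn Γ hΓ z hz1 hz2).trans (mul_le_mul_right ?_ _)
      calc ∏ j, ENNReal.ofReal (norm1 (z j)) ≤ ∏ j, (surfRatio (Γ j) * t) :=
            Finset.prod_le_prod' fun j _ => (hz3 j).le
        _ = (∏ j, surfRatio (Γ j)) * t ^ n := by
            rw [Finset.prod_mul_distrib]
            simp
    have hlim : Filter.Tendsto (fun k : ℕ => ENNReal.ofReal (Real.pi ^ (2 * n) * Real.sqrt ((n * 2)! : ℝ)) *
        ((∏ j, surfRatio (Γ j)) * (ENNReal.ofReal (1 + 1 / ((k : ℝ) + 1))) ^ n)) Filter.atTop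
        (nhds (ENNReal.ofReal (Real.pi ^ (2 * n) * Real.sqrt ((n * 2)! : ℝ)) *
          ((∏ j, surfRatio (Γ j)) * (ENNReal.ofReal (1 + 0)) ^ n))) := by
      refine ENNReal.Tendsto.const_mul (ENNReal.Tendsto.const_mul (ENNReal.Tendsto.pow ?_)
        (Or.inr ?_)) (Or.inr ENNReal.ofReal_ne_top)
      · exact (ENNReal.continuous_ofReal.tendsto _).comp
          (tendsto_one_div_add_atTop_nhds_zero_nat.const_add 1)
      · exact ENNReal.prod_ne_top fun j _ => htop j
    rw [add_zero, ENNReal.ofReal_one, one_pow, mul_one] at hlim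
    refine ge_of_tendsto hlim (Filter.Eventually.of_forall fun k => key _ ?_)
    rw [← ENNReal.ofReal_one]
    refine (ENNReal.ofReal_lt_ofReal_iff (by positivity)).2 ?_
    have : (0 : ℝ) < 1 / ((k : ℝ) + 1) := by positivity
    linarith

end SimplVol
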