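import Pool.Agent.H74.SV.ST
import Pool.Agent.H74.SV.SP
import Pool.Agent.H74.SV.FA

/-!
# Module VK: the cocycles

`VK M n κ x` is the volume cocycle with the density `c_κ ∏_j ∏_{l < κ j} s_l^j`.
* `VK_step`: from `c_{κ + e_j} = c_κ (κ j + 3)` and `stokes`,
  `VK (κ + e_j) - VK κ = c_κ/(2n + |κ| + 1)! * 2^n * ∑_τ (∏_j M (x^j) (τ^j)) ∑_i (-1)^i Bf n κ j (τ ∘ i.succAbove)`.
  For fixed `i` write `τ^j = insertNth i (k j) (τ' j)`, `k : Fin n → Fin 3` (an equivalence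
  `(Fin n → Fin 3) × (Fin n → Fin (2n) → Fin 3) ≃ (Fin n → Fin (2n+1) → Fin 3)`); `Bf n κ j τ'` does not depend on
  `k` and vanishes unless all `τ' j` are surjective (`Bf_support`); then
  `∑_k ∏_j M (x^j) (insertNth i (k j) (τ' j)) = ∏_j ∑_{k} .. = ∏_j M (x^j ∘ succAbove) (τ' j)` (`Fam.marg`,
  `Finset.prod_univ_sum`).
* `BB_inv`: `Fam.inv`.
-/

set_option autoImplicit false

open scoped BigOperators Nat UpperHalfPlane MatrixGroups

namespace SimplVol

variable (M : ∀ m : ℕ, (Fin m → ℍ) → (Fin m → Fin 3) → ℝ)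

/-- The cocycle with density `κ`. -/
noncomputable def VK (n : ℕ) (κ : Fin n → ℕ) (x : Fin (n * 2 + 1) → Fin n → ℍ) : ℝ :=
  (∏ j, (((κ j + 2)! : ℕ) : ℝ) / 2) / (((n * 2 + ∑ j, κ j)! : ℕ) : ℝ) *
    ∑ τ : Fin n → Fin (n * 2 + 1) → Fin 3, (∏ j, M (n * 2 + 1) (fun i => x i j) (τ j)) *
      (2 ^ n * (Matrix.of (Em n τ)).det * Lf (Hp κ τ))

/-- The cochain whose coboundary is the difference of two cocycles. -/
noncomputable def BB (n : ℕ) (κ : Fin n → ℕ) (j : Fin n) (x : Fin (n * 2) → Fin n → ℍ) : ℝ :=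
  (∏ j, (((κ j + 2)! : ℕ) : ℝ) / 2) / (((n * 2 + ∑ j, κ j + 1)! : ℕ) : ℝ) *
    ∑ τ : Fin n → Fin (n * 2) → Fin 3, (∏ j, M (n * 2) (fun i => x i j) (τ j)) *
      (2 ^ n * Bf n κ j τ)

variable {M} {c : ℝ}

private theorem VK_coef (n : ℕ) (κ : Fin n → ℕ) (j : Fin n) :
    ∏ i, (((Function.update κ j (κ j + 1) i + 2)! : ℕ) : ℝ) / 2 =
      ((κ j : ℝ) + 3) * ∏ i, (((κ i + 2)! : ℕ) : ℝ) / 2 := by
  rw [← Finset.mul_prod_erase Finset.univ _ (Finset.mem_univ j),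
    ← Finset.mul_prod_erase Finset.univ (fun i => (((κ i + 2)! : ℕ) : ℝ) / 2) (Finset.mem_univ j)]
  rw [Function.update_self]
  have h1 : ∏ i ∈ Finset.univ.erase j, (((Function.update κ j (κ j + 1) i + 2)! : ℕ) : ℝ) / 2 =
      ∏ i ∈ Finset.univ.erase j, (((κ i + 2)! : ℕ) : ℝ) / 2 := by
    refine Finset.prod_congr rfl fun i hi => ?_
    rw [Function.update_of_ne (Finset.ne_of_mem_erase hi)]
  rw [h1]
  have h2 : ((κ j + 1 + 2)! : ℕ) = (κ j + 3) * (κ j + 2)! := by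
    rw [show κ j + 1 + 2 = (κ j + 2) + 1 by ring, Nat.factorial_succ]
  rw [h2]
  push_cast
  ring

private theorem VK_sum (n : ℕ) (κ : Fin n → ℕ) (j : Fin n) :
    ∑ i, Function.update κ j (κ j + 1) i = ∑ i, κ i + 1 := by
  rw [← Finset.add_sum_erase Finset.univ _ (Finset.mem_univ j),
    ← Finset.add_sum_erase Finset.univ κ (Finset.mem_univ j), Function.update_self]
  have h1 : ∑ i ∈ Finset.univ.erase j, Function.update κ j (κ j + 1) i =
      ∑ i ∈ Finset.univ.erase j, κ i := by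
    refine Finset.sum_congr rfl fun i hi => ?_
    rw [Function.update_of_ne (Finset.ne_of_mem_erase hi)]
  rw [h1]
  ring

private def VK_equiv (n m : ℕ) (i : Fin (m + 1)) :
    ((Fin n → Fin 3) × (Fin n → Fin m → Fin 3)) ≃ (Fin n → Fin (m + 1) → Fin 3) where
  toFun q := fun j => (i.insertNth (q.1 j) (q.2 j) : Fin (m + 1) → Fin 3)
  invFun τ := (fun j => τ j i, fun j l => τ j (i.succAbove l))
  left_inv q := by
    ext <;> simp
  right_inv τ := by
    funext j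
    exact i.insertNth_self_removeNth (τ j)

private theorem VK_face (hM : Fam c M) (n : ℕ) (κ : Fin n → ℕ) (j : Fin n) (hj : κ j < 3)
    (x : Fin (n * 2 + 1) → Fin n → ℍ) (i : Fin (n * 2 + 1)) :
    ∑ τ : Fin n → Fin (n * 2 + 1) → Fin 3, (∏ j', M (n * 2 + 1) (fun l => x l j') (τ j')) *
        Bf n κ j (fun j' l => τ j' (i.succAbove l)) =
      ∑ τ : Fin n → Fin (n * 2) → Fin 3,
        (∏ j', M (n * 2) (fun l => x (i.succAbove l) j') (τ j')) * Bf n κ j τ := by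
  rw [← (VK_equiv n (n * 2) i).sum_comp, Fintype.sum_prod_type_right]
  refine Finset.sum_congr rfl fun τ _ => ?_
  have h1 : ∀ k : Fin n → Fin 3, (fun j' l => VK_equiv n (n * 2) i (k, τ) j' (i.succAbove l)) =
      τ := by
    intro k
    funext j' l
    simp [VK_equiv]
  simp only [h1]
  rw [← Finset.sum_mul]
  by_cases hs : ∀ j', Function.Surjective (τ j')
  · congr 1
    have h2 : ∀ j', M (n * 2) (fun l => x (i.succAbove l) j') (τ j') =
        ∑ k : Fin 3, M (n * 2 + 1) (fun l => x l j')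
          (i.insertNth k (τ j') : Fin (n * 2 + 1) → Fin 3) := fun j' =>
      (hM.marg (n * 2) (fun l => x l j') i (τ j') (hs j')).symm
    simp only [h2]
    rw [Finset.prod_univ_sum]
    rw [Fintype.piFinset_univ]
    rfl
  · push Not at hs
    obtain ⟨i₀, hi₀⟩ := hs
    rw [Bf_support n κ j hj τ i₀ hi₀, mul_zero, mul_zero]

theorem VK_step (hM : Fam c M) (n : ℕ) (κ : Fin n → ℕ) (hκ : ∀ i, κ i ≤ 3) (j : Fin n)
    (hj : κ j < 3) (x : Fin (n * 2 + 1) → Fin n → ℍ) :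
    VK M n (Function.update κ j (κ j + 1)) x - VK M n κ x =
      ∑ i : Fin (n * 2 + 1), (-1 : ℝ) ^ (i : ℕ) * BB M n κ j (fun l => x (i.succAbove l)) := by
  have hfac : (((n * 2 + (∑ j, κ j + 1))! : ℕ) : ℝ) =
      ((n : ℝ) * 2 + 1 + ∑ i, (κ i : ℝ)) * (((n * 2 + ∑ j, κ j)! : ℕ) : ℝ) := by
    rw [show n * 2 + (∑ j, κ j + 1) = (n * 2 + ∑ j, κ j) + 1 by ring, Nat.factorial_succ]
    push_cast
    ring
  have hN : (0 : ℝ) < (n : ℝ) * 2 + 1 + ∑ i, (κ i : ℝ) := by positivity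
  have hF : (0 : ℝ) < (((n * 2 + ∑ j, κ j)! : ℕ) : ℝ) := by
    exact_mod_cast Nat.factorial_pos _
  set P : ℝ := ∏ i, (((κ i + 2)! : ℕ) : ℝ) / 2 with hP
  set R : ℝ := (((n * 2 + ∑ j, κ j)! : ℕ) : ℝ) with hR
  set N : ℝ := (n : ℝ) * 2 + 1 + ∑ i, (κ i : ℝ) with hNdef
  have h1 : VK M n (Function.update κ j (κ j + 1)) x - VK M n κ x =
      P / (N * R) * ∑ τ : Fin n → Fin (n * 2 + 1) → Fin 3,
        (∏ j', M (n * 2 + 1) (fun i => x i j') (τ j')) *
          (2 ^ n * ((Matrix.of (Em n τ)).det *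
            (((κ j : ℝ) + 3) * Lf (Hp (Function.update κ j (κ j + 1)) τ) -
              N * Lf (Hp κ τ)))) := by
    unfold VK
    rw [VK_coef, VK_sum, hfac]
    rw [Finset.mul_sum, Finset.mul_sum, Finset.mul_sum, ← Finset.sum_sub_distrib]
    refine Finset.sum_congr rfl fun τ _ => ?_
    field_simp
    ring
  rw [h1]
  have h2 : ∀ τ : Fin n → Fin (n * 2 + 1) → Fin 3,
      (Matrix.of (Em n τ)).det *
            (((κ j : ℝ) + 3) * Lf (Hp (Function.update κ j (κ j + 1)) τ) -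
              N * Lf (Hp κ τ)) = ∑ i : Fin (n * 2 + 1), (-1 : ℝ) ^ (i : ℕ) *
        Bf n κ j (fun j' l => τ j' (i.succAbove l)) := fun τ => stokes n τ κ hκ j hj
  simp only [h2]
  have h3 : ∀ i : Fin (n * 2 + 1), (-1 : ℝ) ^ (i : ℕ) * BB M n κ j (fun l => x (i.succAbove l)) =
      ∑ τ : Fin n → Fin (n * 2 + 1) → Fin 3, P / (N * R) *
        ((∏ j', M (n * 2 + 1) (fun i => x i j') (τ j')) *
          (2 ^ n * ((-1 : ℝ) ^ (i : ℕ) * Bf n κ j (fun j' l => τ j' (i.succAbove l))))) := by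
    intro i
    unfold BB
    rw [show n * 2 + ∑ j, κ j + 1 = n * 2 + (∑ j, κ j + 1) by ring, hfac]
    have h4 := VK_face hM n κ j hj x i
    have h5 : ∑ τ : Fin n → Fin (n * 2) → Fin 3,
        (∏ j', M (n * 2) (fun l => x (i.succAbove l) j') (τ j')) * (2 ^ n * Bf n κ j τ) =
        2 ^ n * ∑ τ : Fin n → Fin (n * 2) → Fin 3,
        (∏ j', M (n * 2) (fun l => x (i.succAbove l) j') (τ j')) * Bf n κ j τ := by
      rw [Finset.mul_sum]
      refine Finset.sum_congr rfl fun τ _ => ?_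
      ring
    rw [h5, ← h4, Finset.mul_sum, Finset.mul_sum, Finset.mul_sum]
    refine Finset.sum_congr rfl fun τ _ => ?_
    ring
  rw [Finset.sum_congr rfl fun i _ => h3 i, Finset.sum_comm, Finset.mul_sum]
  refine Finset.sum_congr rfl fun τ _ => ?_
  rw [← Finset.mul_sum, ← Finset.mul_sum, ← Finset.mul_sum]

theorem BB_inv (hM : Fam c M) (n : ℕ) (κ : Fin n → ℕ) (j : Fin n) (g : Fin n → SL(2, ℝ))
    (x : Fin (n * 2) → Fin n → ℍ) :
    BB M n κ j (fun i j => g j • x i j) = BB M n κ j x := by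
  unfold BB
  congr 1
  refine Finset.sum_congr rfl fun τ _ => ?_
  congr 1
  refine Finset.prod_congr rfl fun j' _ => ?_
  exact hM.inv (n * 2) (g j') (fun i => x i j') (τ j')

end SimplVol
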