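import Pool.Agent.H74.SV.Comb

/-!
# Module WT: the weights `wt`

`wt η i = ± P! Q! / m!`, `P`, `Q` = numbers of true / false entries other than `i`.
* `wt_sum`: let `p`, `q` be the numbers of true / false entries (`p + q = m`). The sum over `i` is
  `p (p-1)! q!/m! - q p! (q-1)!/m!`, which is `0` if `p, q ≥ 1`, `1` if `q = 0`, `-1` if `p = 0`.
* `wt_cons_succ`: with `P`, `Q` for `i` in `η`, `P + Q = m - 1`: the left side is
  `± ((P+1)! Q! + P! (Q+1)!)/(m+1)! = ± P! Q! (P + Q + 2)/(m+1)! = ± P! Q!/m!`.
* `wt_flip`: `P`, `Q` do not change. `wt_sum_pat`: pair `η` with its flip at `i`.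
* `wt_perm`: reindexing.
-/

set_option autoImplicit false

open scoped BigOperators Nat

namespace SimplVol

/-- the number of entries equal to `b`, other than `i` -/
private def WT_c {m : ℕ} (η : Fin m → Bool) (i : Fin m) (b : Bool) : ℕ :=
  (Finset.univ.filter fun k => k ≠ i ∧ η k = b).card

/-- the number of entries equal to `b` -/
private def WT_n {m : ℕ} (η : Fin m → Bool) (b : Bool) : ℕ :=
  (Finset.univ.filter fun k => η k = b).card

private theorem WT_wt {m : ℕ} (η : Fin m → Bool) (i : Fin m) :
    wt η i = (if η i = true then 1 else -1) * (((WT_c η i true)! : ℕ) : ℝ) *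
      (((WT_c η i false)! : ℕ) : ℝ) / ((m ! : ℕ) : ℝ) := rfl

private theorem WT_c_of_eq {m : ℕ} (η : Fin m → Bool) (i : Fin m) :
    WT_c η i (η i) + 1 = WT_n η (η i) := by
  unfold WT_c WT_n
  have : (Finset.univ.filter fun k => k ≠ i ∧ η k = η i) =
      (Finset.univ.filter fun k => η k = η i).erase i := by
    ext k
    simp [and_comm]
  rw [this, Finset.card_erase_of_mem (by simp)]
  have : 0 < (Finset.univ.filter fun k => η k = η i).card := Finset.card_pos.2 ⟨i, by simp⟩
  omega

private theorem WT_c_of_ne {m : ℕ} (η : Fin m → Bool) (i : Fin m) (b : Bool) (h : η i ≠ b) :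
    WT_c η i b = WT_n η b := by
  unfold WT_c WT_n
  congr 1
  ext k
  simp only [Finset.mem_filter, Finset.mem_univ, true_and, and_iff_right_iff_imp]
  rintro hk rfl
  exact h hk

private theorem WT_n_add {m : ℕ} (η : Fin m → Bool) : WT_n η true + WT_n η false = m := by
  unfold WT_n
  have h := Finset.card_filter_add_card_filter_not (s := (Finset.univ : Finset (Fin m)))
    (fun k => η k = true)
  simpa using h

private theorem WT_c_add {m : ℕ} (η : Fin m → Bool) (i : Fin m) :
    WT_c η i true + WT_c η i false + 1 = m := by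
  have h := WT_n_add η
  have h1 := WT_c_of_eq η i
  cases hb : η i with
  | true =>
    rw [hb] at h1
    have h2 := WT_c_of_ne η i false (by simp [hb])
    omega
  | false =>
    rw [hb] at h1
    have h2 := WT_c_of_ne η i true (by simp [hb])
    omega

theorem wt_sum {m : ℕ} (hm : 0 < m) (η : Fin m → Bool) : ∑ i, wt η i = ends η := by
  have hmf : ((m ! : ℕ) : ℝ) ≠ 0 := by exact_mod_cast Nat.factorial_ne_zero m
  have hT : ∀ i, η i = true → wt η i =
      (((WT_n η true - 1)! : ℕ) : ℝ) * (((WT_n η false)! : ℕ) : ℝ) / ((m ! : ℕ) : ℝ) := by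
    intro i hi
    have h1 := WT_c_of_eq η i
    rw [hi] at h1
    have h2 := WT_c_of_ne η i false (by simp [hi])
    rw [WT_wt, h2, ← h1, hi]
    simp
  have hF : ∀ i, ¬ η i = true → wt η i =
      - ((((WT_n η true)! : ℕ) : ℝ) * (((WT_n η false - 1)! : ℕ) : ℝ) / ((m ! : ℕ) : ℝ)) := by
    intro i hi
    rw [Bool.not_eq_true] at hi
    have h1 := WT_c_of_eq η i
    rw [hi] at h1
    have h2 := WT_c_of_ne η i true (by simp [hi])
    rw [WT_wt, h2, ← h1, hi]
    simp
    ring
  have hs : ∑ i, wt η i = (WT_n η true : ℝ) *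
      ((((WT_n η true - 1)! : ℕ) : ℝ) * (((WT_n η false)! : ℕ) : ℝ) / ((m ! : ℕ) : ℝ)) -
      (WT_n η false : ℝ) *
      ((((WT_n η true)! : ℕ) : ℝ) * (((WT_n η false - 1)! : ℕ) : ℝ) / ((m ! : ℕ) : ℝ)) := by
    rw [← Finset.sum_filter_add_sum_filter_not Finset.univ (fun i => η i = true)]
    rw [Finset.sum_congr rfl (fun i hi => hT i (Finset.mem_filter.1 hi).2),
      Finset.sum_congr rfl (fun i hi => hF i (Finset.mem_filter.1 hi).2),
      Finset.sum_const, Finset.sum_const, nsmul_eq_mul, nsmul_eq_mul]
    have : (Finset.univ.filter fun i => ¬ η i = true) = Finset.univ.filter fun i => η i = false := by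
      ext k; simp
    rw [this]
    unfold WT_n
    ring
  have hadd := WT_n_add η
  rw [hs]
  unfold ends
  by_cases hp : WT_n η true = 0
  · -- all entries are false
    have hq : WT_n η false = m := by omega
    have hall : ∀ k, η k = false := by
      intro k
      by_contra hk
      rw [Bool.not_eq_false] at hk
      have : 0 < WT_n η true := Finset.card_pos.2 ⟨k, by simp [hk]⟩
      omega
    have hnt : ¬ ∀ k, η k = true := by
      intro h
      have := h ⟨0, hm⟩
      rw [hall] at this
      simp at this
    rw [if_neg hnt, if_pos hall, hp, hq]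
    obtain ⟨n, rfl⟩ : ∃ n, m = n + 1 := ⟨m - 1, by omega⟩
    simp only [Nat.cast_zero, zero_mul, Nat.factorial_zero, Nat.cast_one, one_mul,
      Nat.add_sub_cancel]
    rw [Nat.factorial_succ] at hmf ⊢
    push_cast at hmf ⊢
    field_simp
  · by_cases hq : WT_n η false = 0
    · have hp' : WT_n η true = m := by omega
      have hall : ∀ k, η k = true := by
        intro k
        by_contra hk
        rw [Bool.not_eq_true] at hk
        have : 0 < WT_n η false := Finset.card_pos.2 ⟨k, by simp [hk]⟩
        omega
      have hnt : ¬ ∀ k, η k = false := by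
        intro h
        have := h ⟨0, hm⟩
        rw [hall] at this
        simp at this
      rw [if_neg hnt, if_pos hall, hq, hp']
      obtain ⟨n, rfl⟩ : ∃ n, m = n + 1 := ⟨m - 1, by omega⟩
      simp only [Nat.cast_zero, zero_mul, Nat.factorial_zero, Nat.cast_one, mul_one,
        Nat.add_sub_cancel]
      rw [Nat.factorial_succ] at hmf ⊢
      push_cast at hmf ⊢
      field_simp
    · have h1 : ¬ ∀ k, η k = true := by
        intro h
        apply hq
        unfold WT_n
        simp [h]
      have h2 : ¬ ∀ k, η k = false := by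
        intro h
        apply hp
        unfold WT_n
        simp [h]
      rw [if_neg h1, if_neg h2]
      obtain ⟨a, ha⟩ : ∃ a, WT_n η true = a + 1 := ⟨WT_n η true - 1, by omega⟩
      obtain ⟨b, hb⟩ : ∃ b, WT_n η false = b + 1 := ⟨WT_n η false - 1, by omega⟩
      rw [ha, hb]
      simp only [Nat.add_sub_cancel, Nat.factorial_succ]
      push_cast
      ring

private theorem WT_cons_succ {m : ℕ} (η : Fin m → Bool) (i : Fin m) (a b : Bool) :
    WT_c (Fin.cons a η : Fin (m + 1) → Bool) i.succ b =
      WT_c η i b + (if a = b then 1 else 0) := by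
  unfold WT_c
  rw [Fin.card_filter_univ_succ]
  simp only [Fin.cons_zero, Fin.cons_succ, ne_eq, Fin.succ_inj]
  have : ¬ (0 : Fin (m + 1)) = i.succ := (Fin.succ_ne_zero i).symm
  simp only [this, not_false_eq_true, true_and]
  split <;> rfl

private theorem WT_cons_zero {m : ℕ} (η : Fin m → Bool) (a b : Bool) :
    WT_c (Fin.cons a η : Fin (m + 1) → Bool) 0 b = WT_n η b := by
  unfold WT_c WT_n
  rw [Fin.card_filter_univ_succ]
  simp

theorem wt_cons_succ {m : ℕ} (η : Fin m → Bool) (i : Fin m) :
    wt (Fin.cons true η : Fin (m + 1) → Bool) i.succ +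
      wt (Fin.cons false η : Fin (m + 1) → Bool) i.succ = wt η i := by
  simp only [WT_wt, WT_cons_succ, Fin.cons_succ]
  have h := WT_c_add η i
  have hm : ((m ! : ℕ) : ℝ) ≠ 0 := by exact_mod_cast Nat.factorial_ne_zero m
  have hm1 : (m : ℝ) + 1 ≠ 0 := by positivity
  have hc : (m : ℝ) = WT_c η i true + WT_c η i false + 1 := by exact_mod_cast h.symm
  simp only [if_true, Bool.true_eq_false, Bool.false_eq_true, if_false, Nat.add_zero,
    Nat.factorial_succ, Nat.cast_mul, Nat.cast_add, Nat.cast_one]
  field_simp
  rw [hc]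
  ring

theorem wt_cons_zero {m : ℕ} (η : Fin m → Bool) :
    wt (Fin.cons true η : Fin (m + 1) → Bool) 0 +
      wt (Fin.cons false η : Fin (m + 1) → Bool) 0 = 0 := by
  simp only [WT_wt, WT_cons_zero, Fin.cons_zero]
  simp only [if_true, Bool.false_eq_true, if_false]
  ring

private theorem WT_update {m : ℕ} (η : Fin m → Bool) (i : Fin m) (a b : Bool) :
    WT_c (Function.update η i a) i b = WT_c η i b := by
  unfold WT_c
  congr 1
  ext k
  simp only [Finset.mem_filter, Finset.mem_univ, true_and, and_congr_right_iff]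
  intro hk
  rw [Function.update_of_ne hk]

theorem wt_flip {m : ℕ} (η : Fin m → Bool) (i : Fin m) :
    wt (Function.update η i (!η i)) i = - wt η i := by
  simp only [WT_wt, WT_update, Function.update_self]
  cases η i
  · simp only [Bool.not_false, if_true, Bool.false_eq_true, if_false]
    ring
  · simp only [Bool.not_true, if_true, Bool.false_eq_true, if_false]
    ring

theorem wt_sum_pat {m : ℕ} (i : Fin m) : ∑ η : Fin m → Bool, wt η i = 0 := by
  have hinv : Function.Involutive (fun η : Fin m → Bool => Function.update η i (!η i)) := by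
    intro η
    simp
  have h : ∑ η : Fin m → Bool, wt (Function.update η i (!η i)) i = ∑ η : Fin m → Bool, wt η i :=
    hinv.bijective.sum_comp (fun η => wt η i)
  simp only [wt_flip, Finset.sum_neg_distrib] at h
  linarith

theorem wt_perm {m : ℕ} (η : Fin m → Bool) (σ : Equiv.Perm (Fin m)) (i : Fin m) :
    wt (η ∘ σ) i = wt η (σ i) := by
  have h : ∀ b, WT_c (η ∘ σ) i b = WT_c η (σ i) b := by
    intro b
    unfold WT_c
    apply Finset.card_bij (fun k _ => σ k)
    · intro k hk
      simpa using hk
    · intro a _ b _ hab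
      exact σ.injective hab
    · intro k hk
      refine ⟨σ.symm k, ?_, by simp⟩
      simp only [Finset.mem_filter, Finset.mem_univ, true_and] at hk
      simp only [Finset.mem_filter, Finset.mem_univ, true_and, Function.comp_apply,
        Equiv.apply_symm_apply]
      refine ⟨?_, hk.2⟩
      rintro rfl
      simp at hk
  simp only [WT_wt, h, Function.comp_apply]

end SimplVol
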